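import Pool.Agent.Lib.MP_ca56d1_nt.CU.O.AO2

/-! The finite identity in abstract form. -/

namespace Pool.Agent.CU.O

open Complex Filter Topology
open scoped Real Classical

namespace AOAux

variable {A : Type} [AddCommGroup A] {G : Geo A} {ϑ : ℂ → ℂ} {ζ : ℂ} {Z : A} {a : Fin 4 → ℂ}
  {p : Fin 4 → Fin 4} {τ : Fin 4 → A} {I : A → ℂ}

/-- The weight that separates the two cones of poles. -/
noncomputable def om (G : Geo A) (Z : A) (τ : Fin 4 → A) (x : A) : ℤ :=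
  if ∃ k, Q G (Z + τ k - x) then 1 else if ∃ k, Q G (x + τ k) then 0
  else if 0 < G.hgt x then 1 else 0

theorem om_bd (G : Geo A) (Z : A) (τ : Fin 4 → A) : ∃ h₀ h₁ : ℝ,
    (∀ x, G.hgt x < h₀ → om G Z τ x = 0) ∧ ∀ x, h₁ < G.hgt x → om G Z τ x = 1 := by
  have h1 : ∀ k, |G.hgt (τ k)| ≤ ∑ k, |G.hgt (τ k)| := fun k =>
    Finset.single_le_sum (f := fun k => |G.hgt (τ k)|) (fun _ _ => abs_nonneg _) (Finset.mem_univ k)
  have h2 := (abs_nonneg _).trans (h1 0)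
  have h3 := G.hP
  have h4 := abs_nonneg (G.hgt Z)
  refine ⟨-(|G.hgt Z| + G.hgt G.P + ∑ k, |G.hgt (τ k)|), G.hgt G.P + ∑ k, |G.hgt (τ k)|,
    fun x hx => ?_, fun x hx => ?_⟩
  · rw [om, if_neg, if_neg (show ¬ 0 < G.hgt x by linarith), ite_self]
    rintro ⟨k, hk⟩
    have := Q_hgt G hk
    rw [map_sub, map_add] at this
    linarith [h1 k, neg_abs_le (G.hgt (τ k)), neg_abs_le (G.hgt Z)]
  · rw [om, if_neg (c := ∃ k, Q G (x + τ k)), if_pos (show 0 < G.hgt x by linarith), ite_self]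
    rintro ⟨k, hk⟩
    have := Q_hgt G hk
    rw [map_add] at this
    linarith [h1 k, neg_abs_le (G.hgt (τ k))]

theorem IDat.nj (D : IDat G ϑ ζ Z a p τ I) {x s : A} (h : om G Z τ (x - s) ≠ om G Z τ x) :
    NJ G Z τ x s := fun k =>
  ⟨fun e => h (by
      rw [om, om, if_neg fun ⟨_, e'⟩ => D.disj e.2 e', if_pos ⟨k, e.2⟩,
        if_neg fun ⟨_, e'⟩ => D.disj e.1 e', if_pos ⟨k, e.1⟩]),
    fun e => h (by rw [om, om, if_pos ⟨k, e.2⟩, if_pos ⟨k, e.1⟩])⟩

theorem IDat.core (D : IDat G ϑ ζ Z a p τ I) (hT : TISt) (hR : RLSt) :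
    ∃ (ω : A → ℤ) (h₀ h₁ : ℝ) (S : Finset A) (m : A → ℤ),
      (∀ x, G.hgt x < h₀ → ω x = 0) ∧ (∀ x, h₁ < G.hgt x → ω x = 1) ∧
      (∀ x ∈ S, G.W₁ x + G.W₂ x = G.W₁ Z ∧ ∀ k, G.o (x + τ k) = 0 ∧ G.o (Z + τ k - x) = 0) ∧
      (1 + G.η) * ∑ᶠ x, (if G.W₁ x = G.W₂ x then
          ((ω (x - (G.P + G.R)) - ω x : ℤ) : ℂ) * I x else 0) =
        (1 - G.η) * ∑ x ∈ S, (m x : ℂ) * I x := by
  obtain ⟨N, E, hN, hp, hT⟩ := hT _ _ ϑ D.th G.α ζ a D.sum D.k0 D.sep
    fun j k _ _ => by simpa using D.zz j k le_rfl zero_le_two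
  obtain ⟨h₀, h₁, b0, b1⟩ := om_bd G Z τ
  have hη : -G.η ≠ 1 := fun e => G.η_neg (by rw [← e, neg_neg])
  have e1 : 1 - G.η ≠ 0 := sub_ne_zero.2 G.η_one.symm
  have e2 : 1 + G.η ≠ 0 := fun e => hη (by linear_combination -e)
  have e3 := D.th.deriv_ne
  have hk := kk_per D.th G.α ζ (a 0)
  obtain ⟨hf, hs⟩ := hR A G.γ G.ι G.hgt G.γ_ne G.ker G.fin G.hgt_ι (J := Fin 3)
    ![fun x => I x * lf G (kk ϑ G.α ζ (a 0)) x,
      fun x => I x * lf G (fun w v => kk ϑ G.α ζ (a 0) w (ζ - v)) x,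
      fun x => I x * lf G (k3 ϑ G.α ζ a N) x]
    ![fun x => if G.W₁ x = G.W₂ x then I x * ((1 - G.η) * deriv ϑ 0)⁻¹ else 0,
      fun x => if G.W₁ x + G.W₂ x = G.W₁ Z ∧ ∀ k, G.o (x + τ k) = 0 ∧ G.o (Z + τ k - x) = 0 then
        I x * ((1 + G.η) * deriv ϑ 0)⁻¹ else 0,
      fun _ => 0]
    ![1, -1, 1] ![G.P + G.R, G.P - G.R, G.R] (om G Z τ) h₀ h₁ (fun i x => by
      obtain ⟨w, hw⟩ := rep (G.W₁ x)
      obtain ⟨v, hv⟩ := rep (G.W₂ x)
      fin_cases i
      · simpa [lf_loc hk hw hv] using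
          ((D.ord x).ge.mul (kk_ord D.th D.k0 w v G.η_ne G.η_one)).mer
      · simpa [lf_loc (hk.refl ζ) hw hv, sub_add_eq_sub_sub, sub_eq_add_neg (ζ - v)] using
          ((D.ord x).ge.mul (kk_ord D.th D.k0 w (ζ - v) (neg_ne_zero.2 G.η_ne) hη)).mer
      · simpa [lf_loc hp hw hv] using
          ((D.ord x).ge.mul (k3_ord D.th G.α ζ a hN w v G.η_ne)).mer)
    (fun x => by
      obtain ⟨w, hw⟩ := rep (G.W₁ x)
      obtain ⟨v, hv⟩ := rep (G.W₂ x)
      filter_upwards [D.ev_gen w one_ne_zero, D.ev_gen v G.η_ne, D.ev_gen (v - G.α) G.η_ne,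
        (eventually_all_finset E).2 fun e _ => (D.th.ev_not_mem (2 * w - e) two_ne_zero).and
          (D.th.ev_not_mem (v - e) G.η_ne), D.th.ev_not_mem (w - v) e1,
        D.th.ev_not_mem (w + v - ζ) e2] with z g1 g2 g3 g4 g5 g6
      rw [one_mul] at g1
      rw [sub_add_eq_add_sub] at g3
      have := D.coc hp (W₁_loc hw z) (W₂_loc hv z) g1 g2 g3 (hT _ _ (fun e he =>
        ⟨by convert (g4 e he).1 using 2; ring, by convert (g4 e he).2 using 2; ring⟩)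
        (by convert g5 using 2; ring) (by convert g6 using 2; ring))
      simp only [Fin.sum_univ_three, Matrix.cons_val, add_right_comm x _ (G.ι z)]
      linear_combination this)
    b0 b1 (fun i x h => by
      fin_cases i
      · exact D.lim₁ (D.nj h)
      · exact D.lim₂ (D.nj h)
      · exact D.lim₃ (D.nj h) hN hp)
  have hm : ∀ x ∈ (hf 1).toFinset, G.W₁ x + G.W₂ x = G.W₁ Z ∧
      ∀ k, G.o (x + τ k) = 0 ∧ G.o (Z + τ k - x) = 0 := fun x hx => by
    by_contra e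
    exact ((hf 1).mem_toFinset.1 hx).2 (if_neg e)
  refine ⟨om G Z τ, h₀, h₁, (hf 1).toFinset, fun x => om G Z τ (x - (G.P - G.R)) - om G Z τ x,
    b0, b1, hm, ?_⟩
  simp only [Fin.sum_univ_three, Matrix.cons_val, mul_zero, finsum_zero, add_zero] at hs
  have s1 : ∑ᶠ x, ((om G Z τ (x - (G.P + G.R)) - om G Z τ x : ℤ) : ℂ) *
      (if G.W₁ x = G.W₂ x then I x * ((1 - G.η) * deriv ϑ 0)⁻¹ else 0) =
      (∑ᶠ x, (if G.W₁ x = G.W₂ x then
        ((om G Z τ (x - (G.P + G.R)) - om G Z τ x : ℤ) : ℂ) * I x else 0)) *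
          ((1 - G.η) * deriv ϑ 0)⁻¹ := by
    rw [finsum_mul]
    refine finsum_congr fun x => ?_
    split_ifs <;> ring
  have s2 : ∑ᶠ x, ((om G Z τ (x - (G.P - G.R)) - om G Z τ x : ℤ) : ℂ) *
      (if G.W₁ x + G.W₂ x = G.W₁ Z ∧ ∀ k, G.o (x + τ k) = 0 ∧ G.o (Z + τ k - x) = 0 then
        I x * ((1 + G.η) * deriv ϑ 0)⁻¹ else 0) =
      (∑ x ∈ (hf 1).toFinset, ((om G Z τ (x - (G.P - G.R)) - om G Z τ x : ℤ) : ℂ) * I x) *
        ((1 + G.η) * deriv ϑ 0)⁻¹ := by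
    rw [finsum_eq_sum_of_support_subset (s := (hf 1).toFinset) _ fun x hx => by
      rw [Function.mem_support, mul_ne_zero_iff, Int.cast_ne_zero, sub_ne_zero] at hx
      exact (hf 1).mem_toFinset.2 hx, Finset.sum_mul]
    exact Finset.sum_congr rfl fun x hx => by rw [if_pos (hm x hx), mul_assoc]
  rw [s1, s2] at hs
  have key : ∀ X Y : ℂ, 1 * (X * ((1 - G.η) * deriv ϑ 0)⁻¹) +
      -1 * (Y * ((1 + G.η) * deriv ϑ 0)⁻¹) = 0 → (1 + G.η) * X = (1 - G.η) * Y := fun X Y h => by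
    field_simp at h
    linear_combination h
  exact key _ _ hs

variable {y : Fin 4 → ℂ} {t : Fin 4 → A} {C : ℂ} {H : A → ℂ}

/-- The parameters of the symmetric integrand. -/
def av (α ζ : ℂ) (y : Fin 4 → ℂ) (k : Fin 4) : ℂ := if k.val < 2 then y k else α - y k - ζ

/-- The shifts of the symmetric integrand. -/
def tv (G : Geo A) (Z : A) (t : Fin 4 → A) (k : Fin 4) : A :=
  if k.val < 2 then t k else G.P + G.R - Z - t k

theorem o_tv (x : A) (k : Fin 4) :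
    G.o (x + tv G Z t k) = (if k.val < 2 then G.o (x + t k) else -G.o (Z - x + t k)) ∧
    G.o (Z + tv G Z t k - x) = if k.val < 2 then G.o (Z - x + t k) else -G.o (x + t k) := by
  unfold tv
  split_ifs
  · exact ⟨rfl, by rw [add_sub_right_comm]⟩
  · rw [← o_refl, ← o_refl]
    exact ⟨by congr 1; abel, by congr 1; abel⟩

theorem o_of_tv {x : A} (h : ∀ k, G.o (x + tv G Z t k) = 0 ∧ G.o (Z + tv G Z t k - x) = 0)
    (k : Fin 4) : G.o (x + t k) = 0 ∧ G.o (Z - x + t k) = 0 := by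
  have h1 := h k
  rw [(o_tv x k).1, (o_tv x k).2] at h1
  split_ifs at h1 <;> omega

theorem gen_av {γ β α u : ℂ} (h : Gen γ β α ζ (av α ζ y) u) (j : Fin 4) :
    u + y j ∉ lat2 γ β ∧ ζ - u - α + y j ∉ lat2 γ β := by
  have := h j
  unfold av at this
  split_ifs at this
  · exact ⟨this.1, fun e => this.2 (by convert neg_mem e using 1; ring)⟩
  · exact ⟨by convert this.2 using 2; ring, fun e => this.1 (by convert neg_mem e using 1; ring)⟩

theorem rr_av {γ β : ℂ} (h : IsTh γ β ϑ) (α u : ℂ) :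
    rr ϑ α ζ (av α ζ y) u = r0 ϑ y u / r0 ϑ y (ζ - u - α) := by
  have e1 : ∀ j, ϑ (u + (α - y j - ζ)) = -ϑ (ζ - u - α + y j) := fun j => by
    rw [← h.odd]; congr 1; ring
  have e2 : ∀ j, ϑ (u + α - ζ - y j) = -ϑ (ζ - u - α + y j) := fun j => by
    rw [← h.odd]; congr 1; ring
  have e3 : ∀ j, u + α - ζ - (α - y j - ζ) = u + y j := fun j => by ring
  have a0 : av α ζ y 0 = y 0 := rfl
  have a1 : av α ζ y 1 = y 1 := rfl
  have a2 : av α ζ y 2 = α - y 2 - ζ := rfl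
  have a3 : av α ζ y 3 = α - y 3 - ζ := rfl
  simp only [rr, r0, Fin.prod_univ_four, a0, a1, a2, a3, e1, e2, e3]
  rw [div_div_div_eq]
  congr 1 <;> ring

theorem r0_ne {γ β u : ℂ} (h : IsTh γ β ϑ) (hu : ∀ j, u + y j ∉ lat2 γ β) : r0 ϑ y u ≠ 0 :=
  div_ne_zero (mul_ne_zero (h.ne (hu 0)) (h.ne (hu 1))) (mul_ne_zero (h.ne (hu 2)) (h.ne (hu 3)))

theorem idat (D : HDat G ϑ y p t C H) (Z₁ : G.W₁ Z = cl G.γ G.β ζ) (Z₂ : G.W₂ Z = cl G.γ G.β ζ)
    (big : ∀ (j k : Fin 4) (i i' : ℤ), Z + t j + t k = i • G.P + i' • G.R → 3 ≤ i ∧ 3 ≤ i') :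
    IDat G ϑ ζ Z (av G.α ζ y) p (tv G Z t) fun x => H x * H (Z - x) := by
  have mix : ∀ (k l : Fin 4) (i j : ℤ), k.val < 2 → ¬ l.val < 2 →
      Z + t k + (G.P + G.R - Z - t l) ≠ i • G.P + j • G.R := fun k l i j hk hl e => by
    have h1 := W₁_lat G i j
    rw [← e, show Z + t k + (G.P + G.R - Z - t l) = G.P + G.R + t k - t l by abel, map_sub,
      map_add, map_add, G.W₁_P, G.W₁_R, add_zero, D.t₁, D.t₁, ← cl_add, ← cl_sub, cl_eq] at h1
    exact D.mix k l hk (not_lt.1 hl) (i - 1) (by convert h1 using 1; push_cast; ring)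
  have neg : ∀ x z, Z - (x + G.ι z) = Z - x + G.ι (-z) := fun x z => by rw [map_neg]; abel
  refine ⟨D.th, Z₁, Z₂, fun k => ?_, fun k => ?_, D.inv, ?_, fun k l i j e => ?_,
    fun j k hj hk hjk e => ?_, fun k hk i e => ?_, fun x => ?_, fun x h => ?_,
    fun x w hw g => ?_, fun x v hv g => ?_⟩
  · unfold tv av
    split_ifs
    · exact D.t₁ k
    · rw [map_sub, map_sub, map_add, G.W₁_P, G.W₁_R, add_zero, Z₁, D.t₁, ← cl_sub, ← cl_sub,
        sub_right_comm]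
  · simp only [tv, av, D.blk]
    split_ifs
    · exact D.t₂ k
    · rw [map_sub, map_sub, map_add, G.W₂_P, G.W₂_R, zero_add, Z₂, D.t₂, ← cl_sub, ← cl_sub,
        sub_right_comm]
  · rw [Fin.sum_univ_four]
    change y 0 + y 1 + (G.α - y 2 - ζ) + (G.α - y 3 - ζ) = _
    linear_combination D.bal
  · unfold tv at e
    split_ifs at e with hk hl hl
    · exact Or.inl (big k l i j e)
    · exact absurd e (mix k l i j hk hl)
    · exact absurd ((add_right_comm _ _ _).trans e) (mix l k i j hl hk)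
    · have := big k l (2 - i) (2 - j) (by
        rw [show Z + t k + t l = (2 : ℤ) • G.P + (2 : ℤ) • G.R -
          (Z + (G.P + G.R - Z - t k) + (G.P + G.R - Z - t l)) by module, e]
        module)
      omega
  · have key : ∀ k l, ζ + y k + y l - G.α ∉ lat2 G.γ G.β := fun k l e => by
      obtain ⟨j, h⟩ := G.lat₁ (Z + t k + t l) 1 (by
        rw [map_add, map_add, Z₁, D.t₁, D.t₁, ← cl_add, ← cl_add, cl_eq]; simpa using e)
      have := big k l 1 j h
      omega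
    unfold av at e
    split_ifs at e with h1 h2 h2
    · omega
    · exact key j k (by convert e using 1; ring)
    · exact key j k (by convert neg_mem e using 1; ring)
    · have h3 : (j = 2 ∧ k = 3) ∨ (j = 3 ∧ k = 2) := by omega
      rcases h3 with ⟨rfl, rfl⟩ | ⟨rfl, rfl⟩
      · exact D.sep₂ (by convert neg_mem e using 1; ring)
      · exact D.sep₂ (by convert e using 1; ring)
  · simp only [av, D.blk] at e
    split_ifs at e
    · exact D.sw k hk i e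
    · exact D.sw k hk (-i) (by convert neg_mem e using 1; push_cast; ring)
  · have h1 : ∀ x, OEq (fun z => H (x + G.ι z)) _ := fun x => ⟨D.mer x, D.ord x⟩
    simp only [neg]
    convert (h1 x).mul (h1 (Z - x)).neg using 1
    simp only [Fin.sum_univ_four, (o_tv x _).1, (o_tv x _).2]
    simp
    ring
  · simp only [neg]
    refine (D.an x fun k => (o_of_tv h k).1).continuousAt.mul ?_
    exact ContinuousAt.comp (g := fun z => H (Z - x + G.ι z)) (f := fun z => -z)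
      (by simpa using (D.an (Z - x) fun k => (o_of_tv h k).2).continuousAt) (by fun_prop)
  · have h1 := D.mP (Z - (x + G.P)) (ζ - w - G.α) (by
      rw [map_sub, map_add, Z₁, hw, G.W₁_P, ← cl_add, ← cl_sub, sub_sub]) fun j => (gen_av g j).2
    have h2 := r0_ne D.th fun j => (gen_av g j).2
    rw [show Z - (x + G.P) + G.P = Z - x by abel] at h1
    simp only [D.mP x w hw fun j => (gen_av g j).1, rr_av D.th, h1]
    field_simp
  · have h1 := D.mR (Z - (x + G.R)) (ζ - v - G.α) (by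
      rw [map_sub, map_add, Z₂, hv, G.W₂_R, ← cl_add, ← cl_sub, sub_sub]) fun j => (gen_av g j).2
    have h2 := r0_ne D.th fun j => (gen_av g j).2
    have h3 := r0_ne D.th fun j => (gen_av g j).1
    have h4 := D.C_ne
    rw [show Z - (x + G.R) + G.R = Z - x by abel] at h1
    simp only [D.mR x v hv fun j => (gen_av g j).1, rr_av D.th, h1]
    field_simp

end AOAux

open AOAux

theorem aoSt (hT : TISt) (hR : RLSt) : AOSt := by
  intro A _ G ϑ y p t C H D Z hZ big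
  obtain ⟨ζ, hζ⟩ := rep (G.W₁ Z)
  obtain ⟨ω, h₀, h₁, S, m, b0, b1, hS, e⟩ := (idat D hζ (hZ ▸ hζ) big).core hT hR
  exact ⟨ω, h₀, h₁, S, m, b0, b1, fun x hx => ⟨(hS x hx).1, o_of_tv (hS x hx).2⟩, e⟩

end Pool.Agent.CU.O
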