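import Pool.Agent.Lib.MP_ca56d1_nt.CU.O.Ord

/-! The shape of the logarithmic normalisation of the elliptic gamma function. -/

namespace Pool.Agent.CU.O

open Complex Filter Topology Pool.Agent.RM
open scoped Real Classical

variable {K : Type} [Field K] [CharZero K] {ρ : K →+* ℝ} {σ : K →+* ℂ}

namespace AffAux

open OrdAux

theorem lin {f : ℤ → ℝ} {c : ℝ} (h : ∀ n, f n - f (n + 1) = c) (n : ℤ) : f n = f 0 - n * c := by
  induction n using Int.induction_on with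
  | zero => simp
  | succ n ih =>
    push_cast at ih ⊢
    linear_combination ih - h n
  | pred n ih =>
    have h1 := h (-n - 1)
    rw [sub_add_cancel] at h1
    push_cast at ih ⊢
    linear_combination ih + h1

theorem seq {f₀ f₁ g₀ g₁ : ℤ → ℝ} {v u : ℝ} {s : ℕ} (hs : s ≠ 0)
    (h0 : ∀ n, f₀ n - f₀ (n + 1) = g₀ n) (h1 : ∀ n, f₁ n - f₁ (n + 1) = g₁ n)
    (k0 : ∀ n, g₀ n = g₀ (n + 1)) (k1 : ∀ n, g₁ n + g₀ (n + 1) * v = g₁ (n + 1))
    (m0 : f₀ (0 - s) = f₀ 0) (m1 : f₁ (0 - s) + f₀ 0 * (u * s) = f₁ 0) (n : ℤ) :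
    f₀ n = f₀ 0 ∧ f₁ n = f₁ 0 + f₀ 0 * u * n := by
  have hs' : (s : ℝ) ≠ 0 := by exact_mod_cast hs
  have e0 : ∀ n, g₀ n = g₀ 0 := fun n => by
    simpa using lin (f := g₀) (c := 0) (fun n => sub_eq_zero.2 (k0 n)) n
  have e1 := lin (f := f₀) (c := g₀ 0) fun n => (h0 n).trans (e0 n)
  have e2 : g₀ 0 = 0 := by
    have h := e1 (0 - s)
    push_cast at h
    exact mul_left_cancel₀ hs' (by linear_combination m0 - h)
  have e3 : ∀ n, g₁ n = g₁ 0 := fun n => by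
    simpa using lin (f := g₁) (c := 0) (fun n => by
      have h := k1 n
      rw [e0, e2] at h
      linear_combination h) n
  have e4 := lin (f := f₁) (c := g₁ 0) fun n => (h1 n).trans (e3 n)
  have e5 : g₁ 0 = -(f₀ 0 * u) := by
    have h := e4 (0 - s)
    push_cast at h
    exact mul_left_cancel₀ hs' (by linear_combination m1 - h)
  exact ⟨by rw [e1, e2, mul_zero, sub_zero], by rw [e4, e5]; ring⟩

/-- The two leading coefficients of a translate. -/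
theorem co_add (hL : LpSt σ) {γ : K} {S S' : Set K} (hS : Adm σ γ S) {t : K}
    (e : {x | x - t ∈ S} = S') :
    co σ γ S' 0 = co σ γ S 0 ∧ co σ γ S' 1 + co σ γ S 0 * (σ t / σ γ).im = co σ γ S 1 := by
  have hγ : σ γ ≠ 0 := (map_ne_zero σ).2 hS.ne
  have h := fun V : ℝ => (hL.add γ S t hS).2.2 (V * I * σ γ)
  simp only [e, nn, add_div, mul_div_cancel_right₀ _ hγ, add_im, mul_im, ofReal_re, I_im, mul_one,
    ofReal_im, I_re, mul_zero, add_zero] at h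
  have h0 : co σ γ S' 0 = co σ γ S 0 := by
    linear_combination h 2 - 3 * h 1 + 3 * h 0 - h (-1)
  refine ⟨h0, ?_⟩
  rw [← h0]
  linear_combination h 1 + h (-1) - 2 * h 0

/-- Adding finitely many lines does not change the two leading coefficients. -/
theorem co_fin (hL : LpSt σ) {γ : K} {S S' T : Set K} (hS : Adm σ γ S)
    (hp : ∀ x, x + γ ∈ T ↔ x ∈ T) (hf : (lines γ T).Finite) (hd : Disjoint S T) (e : S' = S ∪ T) :
    co σ γ S' 0 = co σ γ S 0 ∧ co σ γ S' 1 = co σ γ S 1 := by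
  obtain ⟨h1, -, h2, h3, -⟩ := hL.fin γ T hS.ne hp hf
  rw [e, (hL.union γ S T hS h1 hd).2.2, Pi.add_apply, Pi.add_apply, h2, h3, add_zero, add_zero]
  exact ⟨rfl, rfl⟩

theorem ori_neg {γ : K} {a b : K →ₗ[ℚ] ℚ} (h : Ori σ γ a b) : Ori σ (-γ) b a := by
  obtain ⟨c₁, c₂, h1, h2, h3⟩ := h.im
  refine ⟨neg_ne_zero.2 h.ne, by rw [map_neg, h.kb, neg_zero], by rw [map_neg, h.ka, neg_zero],
    -c₂, -c₁, by linarith, by linarith, fun x => ?_⟩
  rw [map_neg, div_neg, neg_im, h3]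
  ring

variable {γ : K} {L : Submodule ℤ K} {a b : K →ₗ[ℚ] ℚ}

theorem adm_half (hA : AdmSt σ) (hL : Lt L) (hγ : γ ∈ L) (ho : Ori σ γ a b) (r A : ℚ) :
    Adm σ γ (plane (coset L 0) b r ∩ hs a A) ∧ Adm σ (-γ) (plane (coset L 0) b r \ hs a A) := by
  have h := hA.half L 0 (-γ) b a r _ hL (L.neg_mem hγ) (ori_neg ho) (hs_HS a A)
  rw [neg_neg] at h
  exact h.symm

theorem thr_le (hL : LpSt σ) (hA : AdmSt σ) (hl : Lt L) (hγ : γ ∈ L) (ho : Ori σ γ a b) (r : ℚ)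
    {A A' : ℚ} (h : A ≤ A') :
    (co σ γ (plane (coset L 0) b r ∩ hs a A) 0 = co σ γ (plane (coset L 0) b r ∩ hs a A') 0 ∧
      co σ γ (plane (coset L 0) b r ∩ hs a A) 1 = co σ γ (plane (coset L 0) b r ∩ hs a A') 1) ∧
    co σ (-γ) (plane (coset L 0) b r \ hs a A') 0 = co σ (-γ) (plane (coset L 0) b r \ hs a A) 0 ∧
      co σ (-γ) (plane (coset L 0) b r \ hs a A') 1 =
        co σ (-γ) (plane (coset L 0) b r \ hs a A) 1 := by
  let T : Set K := {x | x ∈ L ∧ b x = r ∧ A < a x ∧ a x ≤ A'}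
  have hp : ∀ x, x + γ ∈ T ↔ x ∈ T := fun x => by
    simp only [T, Set.mem_ofPred_eq, map_add, ho.ka, ho.kb, add_zero, L.add_mem_iff_left hγ]
  refine ⟨co_fin (T := T) hL (adm_half hA hl hγ ho r A').1 hp
    ((hA.box L 0 γ a b A A' r r hl hγ ho).subset (Set.image_mono fun x hx =>
      ⟨by simpa [coset] using hx.1, hx.2.2.1.le, hx.2.2.2, hx.2.1.ge, hx.2.1.le⟩))
    (Set.disjoint_left.2 fun x h1 h2 => not_lt.2 h2.2.2.2 h1.2) ?_,
    co_fin (T := T) hL (adm_half hA hl hγ ho r A).2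
      (fun x => by rw [← hp (x + -γ), neg_add_cancel_right])
    ((hA.box L 0 (-γ) b a r r A A' hl (L.neg_mem hγ) (ori_neg ho)).subset
      (Set.image_mono fun x hx =>
        ⟨by simpa [coset] using hx.1, hx.2.1.ge, hx.2.1.le, hx.2.2.1.le, hx.2.2.2⟩))
    (Set.disjoint_left.2 fun x h1 h2 => h1.2 h2.2.2.1) ?_⟩
  all_goals
    ext x
    simp only [T, plane, coset, hs, Set.mem_ofPred_eq, Set.mem_inter_iff, Set.mem_sdiff,
      Set.mem_union, sub_zero, not_lt]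
    grind

theorem thr (hL : LpSt σ) (hA : AdmSt σ) (hl : Lt L) (hγ : γ ∈ L) (ho : Ori σ γ a b) (r : ℚ)
    (A A' : ℚ) :
    (co σ γ (plane (coset L 0) b r ∩ hs a A) 0 = co σ γ (plane (coset L 0) b r ∩ hs a A') 0 ∧
      co σ γ (plane (coset L 0) b r ∩ hs a A) 1 = co σ γ (plane (coset L 0) b r ∩ hs a A') 1) ∧
    co σ (-γ) (plane (coset L 0) b r \ hs a A') 0 = co σ (-γ) (plane (coset L 0) b r \ hs a A) 0 ∧
      co σ (-γ) (plane (coset L 0) b r \ hs a A') 1 =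
        co σ (-γ) (plane (coset L 0) b r \ hs a A) 1 := by
  rcases le_total A A' with h | h
  · exact thr_le hL hA hl hγ ho r h
  · obtain ⟨⟨h1, h2⟩, h3, h4⟩ := thr_le hL hA hl hγ ho r h
    exact ⟨⟨h1.symm, h2.symm⟩, h3.symm, h4.symm⟩

end AffAux

open OrdAux AffAux

theorem affSt (hL : LpSt σ) (hA : AdmSt σ) : AffSt ρ σ := by
  intro ε L a α β γ s h c₁ c₂ hc
  have hε : ε ≠ 0 := fun e => by
    have := h.eps.one_lt
    rw [e, map_zero] at this
    linarith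
  have ha : ∀ x ∈ L, ∃ i : ℤ, a x = i := by
    intro x hx
    obtain ⟨i, j, k, rfl⟩ := (h.bas x).1 hx
    refine ⟨i, ?_⟩
    simp only [← zsmul_eq_mul, map_add, map_zsmul, h.aα, h.aβ, h.ori.ka, smul_zero, add_zero]
    simp
  have hb : ∀ x ∈ L, ∃ i : ℤ, tw a ε⁻¹ x = i := fun x hx =>
    ha (ε⁻¹ * x) ((h.lat.stab _).1 (by rwa [mul_inv_cancel_left₀ hε]))
  have hτ : ε * α ∈ L := (h.lat.stab α).2 (mem_α h)
  have bτ : tw a ε⁻¹ (ε * α) = 1 := by
    change a (ε⁻¹ * (ε * α)) = 1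
    rw [inv_mul_cancel_left₀ hε, h.aα]
  have hβ : (σ β / σ γ).im = c₂ * s := by
    rw [hc, h.aβ, h.bβ]
    simp
  have hw := adm hA h
  have hh := adm_half hA (lt h) (mem_γ h) h.ori
  have ht := thr hL hA (lt h) (mem_γ h) h.ori
  have hsh := shift (a := a) (b := tw a ε⁻¹) (mem_β h) h.aβ (k := s) (by simpa using h.bβ) 0
  have ho := h.ori
  unfold GG
  generalize tw a ε⁻¹ = b at *
  have i1 : ∀ x ∈ L, ∀ n : ℤ, (-(n : ℚ) - 1 < b x ↔ -(n : ℚ) ≤ b x) := by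
    intro x hx n
    obtain ⟨i, e⟩ := hb x hx
    rw [e]
    norm_cast
    omega
  have u1 : ∀ n : ℤ, co σ γ (coset L 0 ∩ (hs a 0 \ hs b (-n))) =
      co σ γ (coset L 0 ∩ (hs a 0 \ hs b (-(n + 1 : ℤ)))) +
        co σ γ (plane (coset L 0) b (-n) ∩ hs a 0) := by
    intro n
    rw [← (hL.union γ _ _ (hw _).1 (hh _ _).1 (Set.disjoint_left.2 fun x h1 h2 => h1.2.2 (by
      change _ < b x
      rw [h2.1.2]
      push_cast
      linarith))).2.2]
    congr 1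
    ext x
    have := i1 x
    simp only [plane, coset, hs, Set.mem_ofPred_eq, Set.mem_inter_iff, Set.mem_sdiff,
      Set.mem_union, sub_zero, Int.cast_add, Int.cast_one, neg_add']
    grind
  have u2 : ∀ n : ℤ, co σ (-γ) (coset L 0 ∩ (hs b (-(n + 1 : ℤ)) \ hs a 0)) =
      co σ (-γ) (coset L 0 ∩ (hs b (-n) \ hs a 0)) +
        co σ (-γ) (plane (coset L 0) b (-n) \ hs a 0) := by
    intro n
    rw [← (hL.union (-γ) _ _ (hw _).2 (hh _ _).2 (Set.disjoint_left.2 fun x h1 h2 =>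
      (ne_of_lt h1.2.1) h2.1.2.symm)).2.2]
    congr 1
    ext x
    have := i1 x
    simp only [plane, coset, hs, Set.mem_ofPred_eq, Set.mem_inter_iff, Set.mem_sdiff,
      Set.mem_union, sub_zero, Int.cast_add, Int.cast_one, neg_add']
    grind
  have t0 : ∀ x, x - ε * α ∈ L ↔ x ∈ L := fun x => L.sub_mem_iff_left hτ
  have t1 : ∀ n : ℤ, {x | x - ε * α ∈ plane (coset L 0) b (-(n + 1 : ℤ)) ∩ hs a 0} =
      plane (coset L 0) b (-n) ∩ hs a (a (ε * α)) := by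
    intro n
    ext x
    simp only [plane, coset, hs, Set.mem_ofPred_eq, Set.mem_inter_iff, sub_zero, Int.cast_add,
      Int.cast_one, neg_add', map_sub, bτ, t0, sub_left_inj, sub_pos]
  have t2 : ∀ n : ℤ, {x | x - ε * α ∈ plane (coset L 0) b (-(n + 1 : ℤ)) \ hs a 0} =
      plane (coset L 0) b (-n) \ hs a (a (ε * α)) := by
    intro n
    ext x
    simp only [plane, coset, hs, Set.mem_ofPred_eq, Set.mem_sdiff, sub_zero, Int.cast_add,
      Int.cast_one, neg_add', map_sub, bτ, t0, sub_left_inj, sub_pos]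
  have s1 := seq (f₀ := fun n => co σ γ (coset L 0 ∩ (hs a 0 \ hs b (-n))) 0)
    (f₁ := fun n => co σ γ (coset L 0 ∩ (hs a 0 \ hs b (-n))) 1)
    (g₀ := fun n => co σ γ (plane (coset L 0) b (-n) ∩ hs a 0) 0)
    (g₁ := fun n => co σ γ (plane (coset L 0) b (-n) ∩ hs a 0) 1) (u := c₂) h.s_ne
    (fun n => by rw [u1 n, Pi.add_apply, add_sub_cancel_left])
    (fun n => by rw [u1 n, Pi.add_apply, add_sub_cancel_left])
    (fun n => (ht _ _ _).1.1.trans (co_add hL (hh _ _).1 (t1 n)).1)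
    (fun n => by rw [(ht _ 0 (a (ε * α))).1.2]; exact (co_add hL (hh _ _).1 (t1 n)).2)
    (co_add hL (hw _).1 hsh.1).1 (hβ ▸ (co_add hL (hw _).1 hsh.1).2)
  have s2 := seq (f₀ := fun n => co σ (-γ) (coset L 0 ∩ (hs b (-n) \ hs a 0)) 0)
    (f₁ := fun n => co σ (-γ) (coset L 0 ∩ (hs b (-n) \ hs a 0)) 1)
    (g₀ := fun n => -co σ (-γ) (plane (coset L 0) b (-n) \ hs a 0) 0)
    (g₁ := fun n => -co σ (-γ) (plane (coset L 0) b (-n) \ hs a 0) 1)
    (v := (σ (ε * α) / σ (-γ)).im) (u := -c₂) h.s_ne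
    (fun n => by rw [u2 n, Pi.add_apply]; ring) (fun n => by rw [u2 n, Pi.add_apply]; ring)
    (fun n => neg_inj.2 ((ht _ _ _).2.1.trans (co_add hL (hh _ _).2 (t2 n)).1))
    (fun n => by
      rw [(ht _ (a (ε * α)) 0).2.2]
      linear_combination -(co_add hL (hh _ _).2 (t2 n)).2)
    (co_add hL (hw _).2 hsh.2).1 (by
      have h1 := (co_add hL (hw _).2 hsh.2).2
      rw [map_neg, div_neg, neg_im, hβ] at h1
      rw [neg_mul]
      exact h1)
  refine ⟨co σ γ (coset L 0 ∩ (hs a 0 \ hs b (-(0 : ℤ)))) 0 +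
      co σ (-γ) (coset L 0 ∩ (hs b (-(0 : ℤ)) \ hs a 0)) 0,
    co σ γ (coset L 0 ∩ (hs a 0 \ hs b (-(0 : ℤ)))) 1 -
      co σ (-γ) (coset L 0 ∩ (hs b (-(0 : ℤ)) \ hs a 0)) 1,
    fun n => co σ γ (coset L 0 ∩ (hs a 0 \ hs b (-n))) 2 +
      co σ (-γ) (coset L 0 ∩ (hs b (-n) \ hs a 0)) 2,
    fun n => co σ γ (coset L 0 ∩ (hs a 0 \ hs b (-n))) 3 -
      co σ (-γ) (coset L 0 ∩ (hs b (-n) \ hs a 0)) 3, fun w n => ?_⟩
  obtain ⟨a0, a1⟩ := s1 n
  obtain ⟨b0, b1⟩ := s2 n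
  rw [nn, nn, map_neg, div_neg, neg_im, a0, a1, b0, b1]
  ring

end Pool.Agent.CU.O
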