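import Pool.Agent.Lib.MP_ca56d1_nt.CU.O.Th

/-! The concrete model of the group on which the integrand lives. -/

namespace Pool.Agent.CU.O

open Complex Filter Topology Pool.Agent.RM
open scoped Real Classical

variable {K : Type} [Field K] [CharZero K] {ρ : K →+* ℝ} {σ : K →+* ℂ}

namespace Inst

theorem tw_apply (a : K →ₗ[ℚ] ℚ) (u x : K) : tw a u x = a (u * x) := rfl

theorem a_int (a : K →ₗ[ℚ] ℚ) (i : ℤ) (x : K) : a (i * x) = i * a x := by
  rw [← zsmul_eq_mul, map_zsmul, zsmul_eq_mul]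

omit [CharZero K] in
theorem L_int (L : Submodule ℤ K) (i : ℤ) {x : K} (hx : x ∈ L) : (i : K) * x ∈ L := by
  rw [← zsmul_eq_mul]; exact L.smul_mem i hx

/-- The subgroup of periods. -/
def NN (σ : K →+* ℂ) (ε : K) (L : Submodule ℤ K) (a : K →ₗ[ℚ] ℚ) : AddSubgroup (ℂ × ℤ) where
  carrier := {x | ∃ m ∈ L, a m = 0 ∧ x.1 = σ m ∧ tw a ε⁻¹ m = ((-x.2 : ℤ) : ℚ)}
  zero_mem' := ⟨0, zero_mem _, by simp, by simp, by simp⟩
  add_mem' := by
    rintro x y ⟨m, hm, h1, h2, h3⟩ ⟨m', hm', h1', h2', h3'⟩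
    refine ⟨m + m', add_mem hm hm', by simp [h1, h1'], by simp [h2, h2'], ?_⟩
    rw [map_add, h3, h3']
    simp only [Prod.snd_add]
    push_cast
    ring
  neg_mem' := by
    rintro x ⟨m, hm, h1, h2, h3⟩
    refine ⟨-m, neg_mem hm, by simp [h1], by simp [h2], ?_⟩
    rw [map_neg, h3]
    simp

/-- The group. -/
abbrev AA (σ : K →+* ℂ) (ε : K) (L : Submodule ℤ K) (a : K →ₗ[ℚ] ℚ) : Type :=
  (ℂ × ℤ) ⧸ NN σ ε L a

/-- The class of a pair. -/
def mk (σ : K →+* ℂ) (ε : K) (L : Submodule ℤ K) (a : K →ₗ[ℚ] ℚ) (w : ℂ) (n : ℤ) : AA σ ε L a :=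
  QuotientAddGroup.mk (w, n)

variable {ε : K} {L : Submodule ℤ K} {a : K →ₗ[ℚ] ℚ} {α β γ : K} {s : ℕ}

theorem mk_add (w w' : ℂ) (n n' : ℤ) :
    mk σ ε L a w n + mk σ ε L a w' n' = mk σ ε L a (w + w') (n + n') := rfl

theorem mk_zsmul (i : ℤ) (w : ℂ) (n : ℤ) :
    i • mk σ ε L a w n = mk σ ε L a (i * w) (i * n) := by
  unfold mk
  rw [← QuotientAddGroup.mk_zsmul]
  congr 1
  ext <;> simp

theorem mk_surj (x : AA σ ε L a) : ∃ w n, x = mk σ ε L a w n := by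
  obtain ⟨⟨w, n⟩, rfl⟩ := QuotientAddGroup.mk_surjective x
  exact ⟨w, n, rfl⟩

theorem mk_eq {w w' : ℂ} {n n' : ℤ} : mk σ ε L a w n = mk σ ε L a w' n' ↔
    ∃ m ∈ L, a m = 0 ∧ w - w' = σ m ∧ tw a ε⁻¹ m = ((n' - n : ℤ) : ℚ) := by
  unfold mk
  rw [QuotientAddGroup.eq_iff_sub_mem]
  have e : (-(((w, n) : ℂ × ℤ) - (w', n')).2 : ℤ) = n' - n := by simp
  constructor
  · rintro ⟨m, hm, h1, h2, h3⟩
    exact ⟨m, hm, h1, h2, by rw [h3, e]⟩
  · rintro ⟨m, hm, h1, h2, h3⟩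
    exact ⟨m, hm, h1, h2, by rw [h3, e]⟩

theorem mk_zero : mk σ ε L a 0 0 = 0 := rfl

section dat

variable (D : Dat ρ σ ε L a α β γ s)
include D

theorem ε_ne : ε ≠ 0 := by
  rintro rfl
  have := D.eps.one_lt
  rw [map_zero] at this
  linarith

theorem α_mem : α ∈ L := (D.bas α).2 ⟨1, 0, 0, by simp⟩

theorem β_mem : β ∈ L := (D.bas β).2 ⟨0, 1, 0, by simp⟩

theorem γ_mem : γ ∈ L := (D.bas γ).2 ⟨0, 0, 1, by simp⟩

theorem inv_mem {x : K} (hx : x ∈ L) : ε⁻¹ * x ∈ L := by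
  rw [← D.lat.stab, ← mul_assoc, mul_inv_cancel₀ (ε_ne D), one_mul]
  exact hx

theorem of_inv_mem {x : K} (hx : ε⁻¹ * x ∈ L) : x ∈ L := by
  have := (D.lat.stab _).2 hx
  rwa [← mul_assoc, mul_inv_cancel₀ (ε_ne D), one_mul] at this

theorem a_comb (i j k : ℤ) : a (i * α + j * β + k * γ) = i := by
  rw [map_add, map_add, a_int, a_int, a_int, D.aα, D.aβ, D.ori.ka]
  ring

theorem a_intL {x : K} (hx : x ∈ L) : ∃ n : ℤ, a x = n := by
  obtain ⟨i, j, k, rfl⟩ := (D.bas x).1 hx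
  exact ⟨i, a_comb D i j k⟩

theorem b_intL {x : K} (hx : x ∈ L) : ∃ n : ℤ, tw a ε⁻¹ x = n := a_intL D (inv_mem D hx)

theorem num_cast {x : K} (hx : x ∈ L) : (((a x).num : ℤ) : ℚ) = a x := by
  obtain ⟨n, hn⟩ := a_intL D hx
  rw [hn]; simp

theorem mem_M (z : K) : σ z ∈ lat2 (σ γ) (σ β) ↔ z ∈ L ∧ a z = 0 := by
  rw [mem_lat2]
  constructor
  · rintro ⟨j, k, h⟩
    have h1 : z = ((0 : ℤ) : K) * α + k * β + j * γ := by
      apply σ.injective
      rw [h]; simp; ring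
    exact ⟨(D.bas z).2 ⟨0, k, j, h1⟩, by rw [h1, a_comb D]; simp⟩
  · rintro ⟨hz, h0⟩
    obtain ⟨i, j, k, rfl⟩ := (D.bas z).1 hz
    rw [a_comb D] at h0
    have hi : i = 0 := by exact_mod_cast h0
    subst hi
    exact ⟨k, j, by simp; ring⟩

theorem mem_M' {w : ℂ} : w ∈ lat2 (σ γ) (σ β) ↔ ∃ m ∈ L, a m = 0 ∧ w = σ m := by
  constructor
  · intro hw
    obtain ⟨j, k, h⟩ := mem_lat2.1 hw
    have h1 : w = σ (j * γ + k * β) := by rw [h]; simp
    rw [h1] at hw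
    exact ⟨_, ((mem_M D _).1 hw).1, ((mem_M D _).1 hw).2, h1⟩
  · rintro ⟨m, hm, h0, rfl⟩
    exact (mem_M D m).2 ⟨hm, h0⟩

theorem sum_neg (hB : BasSt ρ σ) {c₁ c₂ : ℝ} (h1 : 0 < c₁)
    (h : ∀ x, (σ x / σ γ).im = c₁ * a x + c₂ * tw a ε⁻¹ x) : c₁ + c₂ < 0 := by
  obtain ⟨r, c, hr, hf⟩ := D.fn
  have he := D.eps.one_lt
  have he0 : ρ ε ≠ 0 := by linarith
  have key := (hB.uniq (c₁ * r + c₂ * r * (ρ ε)⁻¹)
    (c₁ * c + c₂ * c * σ ε⁻¹ + I / σ γ) (fun x => by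
      have h2 := h x
      rw [tw_apply, hf, hf, map_mul, map_mul, map_inv₀ ρ] at h2
      have h3 : ((c₁ * c + c₂ * c * σ ε⁻¹ + I / σ γ) * σ x).re =
          c₁ * (c * σ x).re + c₂ * (c * (σ ε⁻¹ * σ x)).re - (σ x / σ γ).im := by
        have e : (c₁ * c + c₂ * c * σ ε⁻¹ + I / σ γ) * σ x =
            c₁ * (c * σ x) + c₂ * (c * (σ ε⁻¹ * σ x)) + I * (σ x / σ γ) := by ring
        rw [e, add_re, add_re, re_ofReal_mul, re_ofReal_mul, I_mul_re]
        ring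
      rw [h3, h2]
      ring)).1
  have h4 : c₂ = -c₁ * ρ ε := by
    have h5 : r * (c₁ * ρ ε + c₂) = 0 := by
      have := congrArg (· * ρ ε) key
      simp only [zero_mul] at this
      rw [← this]
      field_simp
    rcases mul_eq_zero.1 h5 with h6 | h6
    · exact absurd h6 hr.ne'
    · linarith
  rw [h4]
  nlinarith

theorem η_one : σ ε⁻¹ ≠ 1 := by
  intro h
  have h1 : ε⁻¹ = 1 := σ.injective (by rw [h, map_one])
  have h2 : ε = 1 := inv_eq_one.1 h1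
  have := D.eps.one_lt
  rw [h2, map_one] at this
  exact lt_irrefl _ this

theorem η_neg : σ ε⁻¹ ≠ -1 := by
  intro h
  have h1 : ε⁻¹ = -1 := σ.injective (by rw [h, map_neg, map_one])
  have h2 : ε = -1 := by rw [← inv_inv ε, h1]; simp
  have := D.eps.one_lt
  rw [h2, map_neg, map_one] at this
  linarith

theorem lat_iff {c : ℤ} (hc : tw a ε⁻¹ α = c) (w : ℂ) (n i j : ℤ) :
    mk σ ε L a w n = i • mk σ ε L a (σ α) (-c) + j • mk σ ε L a 0 1 ↔
      ∃ x ∈ L, w = σ x ∧ a x = i ∧ tw a ε⁻¹ x + n = j := by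
  rw [mk_zsmul, mk_zsmul, mk_add, mk_eq]
  constructor
  · rintro ⟨m, hm, h1, h2, h3⟩
    refine ⟨m + i * α, add_mem hm (L_int L i (α_mem D)), ?_, ?_, ?_⟩
    · rw [map_add, ← h2]; simp
    · rw [map_add, h1, a_int, D.aα]; ring
    · rw [map_add, h3, a_int, hc]; push_cast; ring
  · rintro ⟨x, hx, rfl, h2, h3⟩
    refine ⟨x - i * α, sub_mem hx (L_int L i (α_mem D)), ?_, ?_, ?_⟩
    · rw [map_sub, h2, a_int, D.aα]; ring
    · simp
    · rw [map_sub, a_int, hc]; push_cast; rw [← h3]; ring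

end dat

/-- The embedding of the complex line. -/
def emb (σ : K →+* ℂ) (ε : K) (L : Submodule ℤ K) (a : K →ₗ[ℚ] ℚ) : ℂ →+ AA σ ε L a :=
  AddMonoidHom.mk' (fun z => mk σ ε L a z 0) fun z z' => by rw [mk_add]; simp

theorem emb_apply (z : ℂ) : emb σ ε L a z = mk σ ε L a z 0 := rfl

/-- The height. -/
noncomputable def hg (c₁ c₂ : ℝ) (h : ∀ x, (σ x / σ γ).im = c₁ * a x + c₂ * tw a ε⁻¹ x) :
    AA σ ε L a →+ ℝ :=
  QuotientAddGroup.lift (NN σ ε L a)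
    (AddMonoidHom.mk' (fun x : ℂ × ℤ => (x.1 / σ γ).im + c₂ * x.2) fun x y => by
      simp only [Prod.fst_add, Prod.snd_add, add_div, add_im]
      push_cast
      ring)
    (by
      rintro x ⟨m, hm, h1, h2, h3⟩
      change (x.1 / σ γ).im + c₂ * x.2 = 0
      rw [h2, h, h1, h3]
      push_cast
      ring)

theorem hg_mk {c₁ c₂ : ℝ} (h : ∀ x, (σ x / σ γ).im = c₁ * a x + c₂ * tw a ε⁻¹ x) (w : ℂ) (n : ℤ) :
    hg (L := L) c₁ c₂ h (mk σ ε L a w n) = (w / σ γ).im + c₂ * n := rfl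

/-- The first coordinate. -/
noncomputable def w1 (D : Dat ρ σ ε L a α β γ s) : AA σ ε L a →+ ℂ ⧸ lat2 (σ γ) (σ β) :=
  QuotientAddGroup.lift (NN σ ε L a)
    (AddMonoidHom.mk' (fun x : ℂ × ℤ => cl (σ γ) (σ β) x.1) fun x y => rfl)
    (by
      rintro x ⟨m, hm, h1, h2, h3⟩
      change cl (σ γ) (σ β) x.1 = 0
      rw [cl_eq_zero, h2]
      exact (mem_M D m).2 ⟨hm, h1⟩)

theorem w1_mk (D : Dat ρ σ ε L a α β γ s) (w : ℂ) (n : ℤ) :
    w1 D (mk σ ε L a w n) = cl (σ γ) (σ β) w := rfl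

/-- The second coordinate. -/
noncomputable def w2 (D : Dat ρ σ ε L a α β γ s) : AA σ ε L a →+ ℂ ⧸ lat2 (σ γ) (σ β) :=
  QuotientAddGroup.lift (NN σ ε L a)
    (AddMonoidHom.mk' (fun x : ℂ × ℤ => cl (σ γ) (σ β) (σ ε⁻¹ * x.1 + x.2 * σ α)) fun x y => by
      rw [← cl_add]
      congr 1
      simp only [Prod.fst_add, Prod.snd_add]
      push_cast
      ring)
    (by
      rintro x ⟨m, hm, h1, h2, h3⟩
      change cl (σ γ) (σ β) (σ ε⁻¹ * x.1 + x.2 * σ α) = 0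
      have e : σ ε⁻¹ * x.1 + x.2 * σ α = σ (ε⁻¹ * m + x.2 * α) := by
        rw [h2, map_add, map_mul, map_mul, map_intCast]
      rw [cl_eq_zero, e]
      refine (mem_M D _).2 ⟨add_mem (inv_mem D hm) (L_int L _ (α_mem D)), ?_⟩
      rw [map_add, ← tw_apply, h3, a_int, D.aα]
      push_cast
      ring)

theorem w2_mk (D : Dat ρ σ ε L a α β γ s) (w : ℂ) (n : ℤ) :
    w2 D (mk σ ε L a w n) = cl (σ γ) (σ β) (σ ε⁻¹ * w + n * σ α) := rfl

theorem fin_quot (D : Dat ρ σ ε L a α β γ s) : Finite (AA σ ε L a ⧸ (emb σ ε L a).range) := by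
  have hs : (0 : ℤ) < s := by exact_mod_cast Nat.pos_of_ne_zero D.s_ne
  refine Finite.of_surjective
    (fun n : Set.Ico (0 : ℤ) s => (QuotientAddGroup.mk (mk σ ε L a 0 n.1) :
      AA σ ε L a ⧸ (emb σ ε L a).range)) ?_
  intro q
  obtain ⟨x, rfl⟩ := QuotientAddGroup.mk_surjective q
  obtain ⟨w, n, rfl⟩ := mk_surj x
  refine ⟨⟨n % s, Int.emod_nonneg _ hs.ne', Int.emod_lt_of_pos _ hs⟩, ?_⟩
  have e : mk σ ε L a w n =
      mk σ ε L a 0 (n % s) + emb σ ε L a (w + σ (((n / s : ℤ) : K) * β)) := by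
    rw [emb_apply, mk_add, mk_eq]
    refine ⟨-(((n / s : ℤ) : K) * β), neg_mem (L_int L _ (β_mem D)), ?_, ?_, ?_⟩
    · rw [map_neg, a_int, D.aβ]; simp
    · rw [map_neg]; ring
    · rw [map_neg, a_int, D.bβ]
      have h1 : n % s + 0 - n = -((n / s) * s) := by
        have := Int.emod_add_mul_ediv n s
        linarith
      rw [h1]
      push_cast
      ring
  change (QuotientAddGroup.mk (mk σ ε L a 0 (n % s)) : AA σ ε L a ⧸ (emb σ ε L a).range) = _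
  rw [e, QuotientAddGroup.eq]
  exact ⟨_, by rw [neg_add_cancel_left]⟩

/-- The geometric data. -/
noncomputable def geo (hB : BasSt ρ σ) (D : Dat ρ σ ε L a α β γ s) {c : ℤ}
    (hc : tw a ε⁻¹ α = c) {c₁ c₂ : ℝ} (h1 : 0 < c₁) (h2 : c₂ < 0)
    (h : ∀ x, (σ x / σ γ).im = c₁ * a x + c₂ * tw a ε⁻¹ x) : Geo (AA σ ε L a) where
  γ := σ γ
  β := σ β
  α := σ α
  η := σ ε⁻¹
  ι := emb σ ε L a
  hgt := hg c₁ c₂ h
  W₁ := w1 D
  W₂ := w2 D
  P := mk σ ε L a (σ α) (-c)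
  R := mk σ ε L a 0 1
  γ_ne := (map_ne_zero σ).2 D.ori.ne
  ker := fun z => by
    rw [emb_apply, ← mk_zero, mk_eq]
    constructor
    · rintro ⟨m, hm, h3, h4, h5⟩
      obtain ⟨i, j, k, rfl⟩ := (D.bas m).1 hm
      rw [a_comb D] at h3
      have hi : i = 0 := by exact_mod_cast h3
      subst hi
      rw [map_add, map_add, a_int, a_int, a_int, D.bβ, D.ori.kb] at h5
      have hs : (s : ℚ) ≠ 0 := by exact_mod_cast D.s_ne
      have hj : j = 0 := by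
        have : (j : ℚ) * s = 0 := by simpa using h5
        exact_mod_cast (mul_eq_zero.1 this).resolve_right hs
      subst hj
      exact ⟨k, by simpa using h4⟩
    · rintro ⟨k, rfl⟩
      refine ⟨k * γ, L_int L k (γ_mem D), ?_, by simp, ?_⟩
      · rw [a_int, D.ori.ka]; simp
      · rw [a_int, D.ori.kb]; simp
  fin := fin_quot D
  hgt_ι := fun z => by rw [emb_apply, hg_mk]; simp
  W₁_ι := fun z => rfl
  W₂_ι := fun z => by rw [emb_apply, w2_mk]; simp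
  W₁_P := rfl
  W₂_P := by
    have e : σ ε⁻¹ * σ α + ((-c : ℤ) : ℂ) * σ α = σ (ε⁻¹ * α + ((-c : ℤ) : K) * α) := by
      rw [map_add, map_mul, map_mul, map_intCast]
    rw [w2_mk, cl_eq_zero, e]
    refine (mem_M D _).2 ⟨add_mem (inv_mem D (α_mem D)) (L_int L _ (α_mem D)), ?_⟩
    rw [map_add, ← tw_apply, hc, a_int, D.aα]
    push_cast
    ring
  W₁_R := rfl
  W₂_R := by rw [w2_mk]; simp
  hP := by
    rw [hg_mk, h, D.aα, hc]
    push_cast
    linarith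
  hR := by rw [hg_mk]; simpa using h2
  hT := by
    have := sum_neg D hB h1 h
    rw [map_add, hg_mk, hg_mk, h, D.aα, hc]
    push_cast
    simp only [zero_div, zero_im]
    linarith
  free := fun i hi => by
    have e : (i : ℂ) * σ α = σ (i * α) := by simp
    rw [e] at hi
    have h3 := ((mem_M D _).1 hi).2
    rw [a_int, D.aα] at h3
    exact_mod_cast (by simpa using h3 : (i : ℚ) = 0)
  lat₁ := fun x i hx => by
    obtain ⟨w, n, rfl⟩ := mk_surj x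
    rw [w1_mk, cl_eq, mem_M' D] at hx
    obtain ⟨m, hm, h3, h4⟩ := hx
    have hx : m + i * α ∈ L := add_mem hm (L_int L i (α_mem D))
    obtain ⟨k, hk⟩ := b_intL D hx
    refine ⟨k + n, (lat_iff D hc w n i _).2 ⟨m + i * α, hx, ?_, ?_, ?_⟩⟩
    · rw [map_add, ← h4]; simp
    · rw [map_add, h3, a_int, D.aα]; ring
    · rw [hk]; push_cast; ring
  lat₂ := fun x j hx => by
    obtain ⟨w, n, rfl⟩ := mk_surj x
    rw [w2_mk, cl_eq, mem_M' D] at hx
    obtain ⟨m, hm, h3, h4⟩ := hx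
    have hε := ε_ne D
    have hσ : σ ε ≠ 0 := (map_ne_zero σ).2 hε
    have hu : m + ((j - n : ℤ) : K) * α ∈ L := add_mem hm (L_int L _ (α_mem D))
    have hx : ε * (m + ((j - n : ℤ) : K) * α) ∈ L := (D.lat.stab _).2 hu
    obtain ⟨i, hi⟩ := a_intL D hx
    refine ⟨i, (lat_iff D hc w n i j).2 ⟨_, hx, ?_, hi, ?_⟩⟩
    · rw [map_mul, map_add, ← h4, map_mul, map_intCast, map_inv₀]
      push_cast
      field_simp
      ring
    · rw [tw_apply, ← mul_assoc, inv_mul_cancel₀ hε, one_mul, map_add, h3, a_int, D.aα]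
      push_cast
      ring
  η_ne := (map_ne_zero σ).2 (inv_ne_zero (ε_ne D))
  η_one := η_one D
  η_neg := η_neg D

/-- The points with coordinates in the field. -/
noncomputable def pt (σ : K →+* ℂ) (ε : K) (L : Submodule ℤ K) (a : K →ₗ[ℚ] ℚ) (z z' : K) :
    AA σ ε L a :=
  mk σ ε L a (σ z) (a (z' - ε⁻¹ * z)).num

theorem pt_eq {z z' : K} {n : ℤ} (h : a (z' - ε⁻¹ * z) = n) :
    pt σ ε L a z z' = mk σ ε L a (σ z) n := by
  unfold pt
  rw [h]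
  simp

/-- The balanced product on the group. -/
noncomputable def HA (σ : K →+* ℂ) (ε : K) (L : Submodule ℤ K) (a : K →ₗ[ℚ] ℚ) (γ : K)
    (y : Fin 4 → K) (n₀ : ℤ) (x : AA σ ε L a) : ℂ :=
  HH σ ε L a γ y n₀ (Quotient.out x).1 (Quotient.out x).2

theorem HA_mk (hO : OrdSt ρ σ) (D : Dat ρ σ ε L a α β γ s) (y : Fin 4 → K) (n₀ : ℤ) (w : ℂ)
    (n : ℤ) : HA σ ε L a γ y n₀ (mk σ ε L a w n) = HH σ ε L a γ y n₀ w n := by
  have e : mk σ ε L a (Quotient.out (mk σ ε L a w n)).1 (Quotient.out (mk σ ε L a w n)).2 =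
      mk σ ε L a w n := QuotientAddGroup.out_eq' _
  unfold HA
  generalize (Quotient.out (mk σ ε L a w n)).1 = w' at e ⊢
  generalize (Quotient.out (mk σ ε L a w n)).2 = n' at e ⊢
  obtain ⟨m, hm, h1, h2, h3⟩ := mk_eq.1 e
  have key : ∀ (u : ℂ), FF σ ε L a γ (w' + u) (n' + n₀) = FF σ ε L a γ (w + u) (n + n₀) := by
    intro u
    rw [← (hO ε L a α β γ s D).1 m hm h1 _ h3 (w + u) (n + n₀), ← h2]
    congr 1 <;> ring
  unfold HH
  rw [key, key, key, key]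

section geo

variable (hB : BasSt ρ σ) (D : Dat ρ σ ε L a α β γ s) {c : ℤ}
  (hc : tw a ε⁻¹ α = c) {c₁ c₂ : ℝ} (h1 : 0 < c₁) (h2 : c₂ < 0)
  (h : ∀ x, (σ x / σ γ).im = c₁ * a x + c₂ * tw a ε⁻¹ x)

theorem pts : Pts σ ε L a (geo hB D hc h1 h2 h) (pt σ ε L a) where
  η_eq := rfl
  add := fun z z' u u' hz hu => by
    obtain ⟨n, hn⟩ := a_intL D hz
    obtain ⟨k, hk⟩ := a_intL D hu
    have e : a (z' + u' - ε⁻¹ * (z + u)) = ((n + k : ℤ) : ℚ) := by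
      have : z' + u' - ε⁻¹ * (z + u) = (z' - ε⁻¹ * z) + (u' - ε⁻¹ * u) := by ring
      rw [this, map_add, hn, hk]
      push_cast
      ring
    rw [pt_eq hn, pt_eq hk, pt_eq e, mk_add, map_add]
  lat := fun z z' i j hz => by
    obtain ⟨n, hn⟩ := a_intL D hz
    have e : a z' = tw a ε⁻¹ z + n := by rw [← hn, map_sub, tw_apply]; ring
    rw [pt_eq hn, e]
    refine (lat_iff D hc (σ z) n i j).trans ⟨?_, ?_⟩
    · rintro ⟨x, hx, h3, h4, h5⟩
      obtain rfl : z = x := σ.injective h3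
      exact ⟨hx, h4, h5⟩
    · rintro ⟨h3, h4, h5⟩
      exact ⟨z, h3, rfl, h4, h5⟩
  W₁ := fun z z' hz => rfl
  W₂ := fun z z' hz => by
    obtain ⟨n, hn⟩ := a_intL D hz
    rw [pt_eq hn]
    change cl (σ γ) (σ β) (σ ε⁻¹ * σ z + n * σ α) = cl (σ γ) (σ β) (σ z')
    have e : σ ε⁻¹ * σ z + n * σ α - σ z' = σ (n * α - (z' - ε⁻¹ * z)) := by
      rw [map_sub, map_sub, map_mul, map_mul, map_intCast]
      ring
    rw [cl_eq, e]
    refine (mem_M D _).2 ⟨sub_mem (L_int L _ (α_mem D)) hz, ?_⟩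
    rw [map_sub, hn, a_int, D.aα]
    ring
  mem := mem_M D
  diag := fun x hx => by
    obtain ⟨w, n, rfl⟩ := mk_surj x
    change cl (σ γ) (σ β) w = cl (σ γ) (σ β) (σ ε⁻¹ * w + n * σ α) at hx
    rw [cl_eq, mem_M' D] at hx
    obtain ⟨m, hm, h3, h4⟩ := hx
    have hσ : 1 - σ ε⁻¹ ≠ 0 := sub_ne_zero.2 (η_one D).symm
    have hK : 1 - ε⁻¹ ≠ 0 := fun h0 => hσ (by simpa using congrArg σ h0)
    have e : (m + n * α) / (1 - ε⁻¹) - ε⁻¹ * ((m + n * α) / (1 - ε⁻¹)) = m + n * α := by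
      rw [← one_sub_mul, mul_div_cancel₀ _ hK]
    refine ⟨(m + n * α) / (1 - ε⁻¹), ?_, ?_⟩
    · rw [e]; exact add_mem hm (L_int L _ (α_mem D))
    · rw [pt_eq (n := n) (by rw [e, map_add, h3, a_int, D.aα]; ring)]
      congr 1
      rw [map_div₀, map_sub, map_one, eq_div_iff hσ, map_add, ← h4, map_mul, map_intCast]
      ring
  anti := fun x Z hx => by
    obtain ⟨w, n, rfl⟩ := mk_surj x
    change cl (σ γ) (σ β) (w + (σ ε⁻¹ * w + n * σ α)) = cl (σ γ) (σ β) (σ Z) at hx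
    rw [cl_eq, mem_M' D] at hx
    obtain ⟨m, hm, h3, h4⟩ := hx
    have hσ : 1 + σ ε⁻¹ ≠ 0 := fun h0 => η_neg D (by linear_combination h0)
    have hK : 1 + ε⁻¹ ≠ 0 := fun h0 => hσ (by simpa using congrArg σ h0)
    have e : Z - (Z + m - n * α) / (1 + ε⁻¹) - ε⁻¹ * ((Z + m - n * α) / (1 + ε⁻¹)) =
        n * α - m := by
      rw [sub_sub, ← one_add_mul, mul_div_cancel₀ _ hK]
      ring
    refine ⟨(Z + m - n * α) / (1 + ε⁻¹), ?_, ?_⟩
    · rw [e]; exact sub_mem (L_int L _ (α_mem D)) hm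
    · rw [pt_eq (n := n) (by rw [e, map_sub, h3, a_int, D.aα]; ring)]
      congr 1
      rw [map_div₀, map_add, map_one, eq_div_iff hσ, map_sub, map_add, ← h4, map_mul,
        map_intCast]
      ring

theorem o_mk (w : ℂ) (n : ℤ) : (geo hB D hc h1 h2 h).o (mk σ ε L a w n) =
    if ∃ x ∈ L, w = σ x ∧ 0 < a x ∧ tw a ε⁻¹ x + n ≤ 0 then 1
    else if ∃ x ∈ L, w = σ x ∧ a x ≤ 0 ∧ 0 < tw a ε⁻¹ x + n then -1 else 0 := by
  have e : ∀ i j : ℤ, mk σ ε L a w n = i • (geo hB D hc h1 h2 h).P + j • (geo hB D hc h1 h2 h).R ↔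
      ∃ x ∈ L, w = σ x ∧ a x = i ∧ tw a ε⁻¹ x + n = j := lat_iff D hc w n
  unfold Geo.o
  refine if_congr ⟨?_, ?_⟩ rfl (if_congr ⟨?_, ?_⟩ rfl rfl)
  · rintro ⟨i, j, hi, hj, h3⟩
    obtain ⟨x, hx, h4, h5, h6⟩ := (e i j).1 h3
    refine ⟨x, hx, h4, ?_, ?_⟩
    · rw [h5]; exact_mod_cast hi
    · rw [h6]; exact_mod_cast hj
  · rintro ⟨x, hx, h4, h5, h6⟩
    obtain ⟨i, hi⟩ := a_intL D hx
    obtain ⟨k, hk⟩ := b_intL D hx
    refine ⟨i, k + n, ?_, ?_, (e _ _).2 ⟨x, hx, h4, hi, by rw [hk]; push_cast; ring⟩⟩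
    · rw [hi] at h5; exact_mod_cast h5
    · rw [hk] at h6; exact_mod_cast h6
  · rintro ⟨i, j, hi, hj, h3⟩
    obtain ⟨x, hx, h4, h5, h6⟩ := (e i j).1 h3
    refine ⟨x, hx, h4, ?_, ?_⟩
    · rw [h5]; exact_mod_cast hi
    · rw [h6]; exact_mod_cast hj
  · rintro ⟨x, hx, h4, h5, h6⟩
    obtain ⟨i, hi⟩ := a_intL D hx
    obtain ⟨k, hk⟩ := b_intL D hx
    refine ⟨i, k + n, ?_, ?_, (e _ _).2 ⟨x, hx, h4, hi, by rw [hk]; push_cast; ring⟩⟩
    · rw [hi] at h5; exact_mod_cast h5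
    · rw [hk] at h6; exact_mod_cast h6

theorem FF_facts (hO : OrdSt ρ σ) (w u : ℂ) (n : ℤ) :
    MeromorphicAt (fun z => FF σ ε L a γ (w + z + u) n) 0 ∧
    meromorphicOrderAt (fun z => FF σ ε L a γ (w + z + u) n) 0 =
      (((geo hB D hc h1 h2 h).o (mk σ ε L a (w + u) n) : ℤ) : WithTop ℤ) ∧
    ((geo hB D hc h1 h2 h).o (mk σ ε L a (w + u) n) = 0 →
      AnalyticAt ℂ (fun z => FF σ ε L a γ (w + z + u) n) 0 ∧ FF σ ε L a γ (w + 0 + u) n ≠ 0) := by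
  have e : (fun z => FF σ ε L a γ (w + z + u) n) = fun z => FF σ ε L a γ (w + u + z) n := by
    funext z
    rw [add_right_comm]
  obtain ⟨k1, k2, k3⟩ := (hO ε L a α β γ s D).2 (w + u) n
  rw [← o_mk hB D hc h1 h2 h, ← e] at k2
  rw [← e] at k1 k3
  refine ⟨k1, k2, fun h0 => ?_⟩
  have k4 : ¬ ∃ x ∈ L, w + u = σ x ∧ a x ≤ 0 ∧ 0 < tw a ε⁻¹ x + n := by
    intro k5
    rw [o_mk, if_pos k5] at h0
    split_ifs at h0
    all_goals omega
  have k5 := k3 k4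
  refine ⟨k5, ?_⟩
  rw [h0, k5.meromorphicOrderAt_eq] at k2
  have k6 : analyticOrderAt (fun z => FF σ ε L a γ (w + z + u) n) 0 = 0 := by
    generalize analyticOrderAt (fun z => FF σ ε L a γ (w + z + u) n) 0 = t at k2
    induction t with
    | top => simp at k2
    | coe t => simpa using k2
  exact k5.analyticOrderAt_eq_zero.1 k6

theorem hdat (hO : OrdSt ρ σ) {y : Fin 4 → K} {p : Fin 4 → Fin 4} {n₀ : ℤ}
    (hP : Par ε L a y p n₀) {ϑ : ℂ → ℂ} {C : ℂ} (hϑ : IsTh (σ γ) (σ β) ϑ) (hC : EK σ C)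
    (m1 : ∀ w n, (∀ j, w + σ (y j) ∉ lat2 (σ γ) (σ β)) →
      HH σ ε L a γ y n₀ (w + σ α) (n - c) = r0 ϑ (fun j => σ (y j)) w * HH σ ε L a γ y n₀ w n)
    (m2 : ∀ w (n : ℤ), (∀ j, σ ε⁻¹ * w + n * σ α + σ (y j) ∉ lat2 (σ γ) (σ β)) →
      HH σ ε L a γ y n₀ w (n + 1) =
        HH σ ε L a γ y n₀ w n / (C * r0 ϑ (fun j => σ (y j)) (σ ε⁻¹ * w + n * σ α))) :
    HDat (geo hB D hc h1 h2 h) ϑ (fun j => σ (y j)) p (fun j => pt σ ε L a (y j) (y (p j))) C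
      (HA σ ε L a γ y n₀) := by
  have bal : σ (y 0) + σ (y 1) = σ (y 2) + σ (y 3) := by rw [← map_add, ← map_add, hP.bal]
  have nm : ∀ (u v : K) (i : ℤ), u - v ∉ L → σ u - σ v - i * σ α ∉ lat2 (σ γ) (σ β) := by
    intro u v i huv hm
    have e : σ u - σ v - i * σ α = σ (u - v - i * α) := by simp
    rw [e] at hm
    apply huv
    have := add_mem ((mem_M D _).1 hm).1 (L_int L i (α_mem D))
    rwa [sub_add_cancel] at this
  have eH : ∀ w n, (fun z => HA σ ε L a γ y n₀ (mk σ ε L a w n + (geo hB D hc h1 h2 h).ι z)) =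
      ((fun z => FF σ ε L a γ (w + z + σ (y 0)) (n + n₀)) *
        fun z => FF σ ε L a γ (w + z + σ (y 1)) (n + n₀)) /
      ((fun z => FF σ ε L a γ (w + z + σ (y 2)) (n + n₀)) *
        fun z => FF σ ε L a γ (w + z + σ (y 3)) (n + n₀)) := by
    intro w n
    funext z
    change HA σ ε L a γ y n₀ (mk σ ε L a (w + z) (n + 0)) = _
    rw [HA_mk hO D, add_zero]
    rfl
  have et : ∀ w n j, mk σ ε L a w n + pt σ ε L a (y j) (y (p j)) =
      mk σ ε L a (w + σ (y j)) (n + n₀) := by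
    intro w n j
    rw [pt_eq (hP.val j), mk_add]
  have F := fun w n j => FF_facts hB D hc h1 h2 h hO w (σ (y j)) (n + n₀)
  exact
    { th := hϑ
      bal := bal
      inv := hP.inv
      blk := hP.blk
      sw := fun j hj i => nm _ _ i (hP.sw j hj)
      mix := fun j k hj hk i => nm _ _ i (hP.mix j k hj hk)
      sep₁ := fun hm => hP.sep₁ ((mem_M D _).1 (by rw [map_sub]; exact hm)).2
      sep₂ := fun hm => hP.sep₂ ((mem_M D _).1 (by rw [map_sub]; exact hm)).2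
      t₁ := fun j => rfl
      t₂ := fun j => (pts hB D hc h1 h2 h).W₂ _ _ (hP.mem j)
      C_ne := by
        obtain ⟨k, rfl⟩ := hC
        exact ee_ne _
      mer := fun x => by
        obtain ⟨w, n, rfl⟩ := mk_surj x
        rw [eH]
        exact ((F w n 0).1.mul (F w n 1).1).div ((F w n 2).1.mul (F w n 3).1)
      ord := fun x => by
        obtain ⟨w, n, rfl⟩ := mk_surj x
        rw [eH, meromorphicOrderAt_div ((F w n 0).1.mul (F w n 1).1) ((F w n 2).1.mul (F w n 3).1),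
          meromorphicOrderAt_mul (F w n 0).1 (F w n 1).1,
          meromorphicOrderAt_mul (F w n 2).1 (F w n 3).1, (F w n 0).2.1, (F w n 1).2.1,
          (F w n 2).2.1, (F w n 3).2.1, et, et, et, et]
        norm_cast
        ring
      an := fun x hx => by
        obtain ⟨w, n, rfl⟩ := mk_surj x
        have G := fun j => (F w n j).2.2 (by rw [← et]; exact hx j)
        rw [eH]
        exact ((G 0).1.mul (G 1).1).div ((G 2).1.mul (G 3).1) (mul_ne_zero (G 2).2 (G 3).2)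
      mP := fun x w hx hw => by
        obtain ⟨w', n, rfl⟩ := mk_surj x
        have hm : w' - w ∈ lat2 (σ γ) (σ β) := cl_eq.1 hx
        have e : r0 ϑ (fun j => σ (y j)) w' = r0 ϑ (fun j => σ (y j)) w := by
          rw [← hϑ.r0_per (y := fun j => σ (y j)) bal hm w, add_sub_cancel]
        change HA σ ε L a γ y n₀ (mk σ ε L a (w' + σ α) (n - c)) = _
        rw [HA_mk hO D, HA_mk hO D, ← e]
        refine m1 w' n fun j hj => hw j ?_
        have := sub_mem hj hm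
        rwa [show w' + σ (y j) - (w' - w) = w + σ (y j) by ring] at this
      mR := fun x v hx hv => by
        obtain ⟨w, n, rfl⟩ := mk_surj x
        have hm : σ ε⁻¹ * w + n * σ α - v ∈ lat2 (σ γ) (σ β) := cl_eq.1 hx
        have e : r0 ϑ (fun j => σ (y j)) (σ ε⁻¹ * w + n * σ α) = r0 ϑ (fun j => σ (y j)) v := by
          rw [← hϑ.r0_per (y := fun j => σ (y j)) bal hm v, add_sub_cancel]
        change HA σ ε L a γ y n₀ (mk σ ε L a (w + 0) (n + 1)) = _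
        rw [HA_mk hO D, HA_mk hO D, ← e, add_zero]
        refine m2 w n fun j hj => hv j ?_
        have := sub_mem hj hm
        rwa [show σ ε⁻¹ * w + n * σ α + σ (y j) - (σ ε⁻¹ * w + n * σ α - v) = v + σ (y j) by ring]
          at this }

end geo

end Inst

theorem instSt (hB : BasSt ρ σ) (hO : OrdSt ρ σ) (hM : MulSt ρ σ) : InstSt ρ σ := by
  intro ε L a α β γ s D y p n₀ hP
  obtain ⟨c, hc⟩ := Inst.b_intL D (Inst.α_mem D)
  obtain ⟨c₁, c₂, h1, h2, h⟩ := D.ori.im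
  obtain ⟨ϑ, C, hϑ, hC, m1, m2⟩ := hM ε L a α β γ s D y p n₀ hP
  refine ⟨Inst.AA σ ε L a, inferInstance, Inst.geo hB D hc h1 h2 h, Inst.pt σ ε L a, ϑ, C,
    Inst.HA σ ε L a γ y n₀, Inst.pts hB D hc h1 h2 h, hC,
    Inst.hdat hB D hc h1 h2 h hO hP hϑ hC (m1 c hc) m2, fun z z' n _ hn => ?_⟩
  rw [Inst.pt_eq hn, Inst.HA_mk hO D]

end Pool.Agent.CU.O
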