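import Pool.Agent.Lib.MP_ca56d1_nt.CU.O.Th

/-! The theta multipliers of the balanced product. -/

set_option linter.unusedSectionVars false

namespace Pool.Agent.CU.O

open Complex Filter Topology Pool.Agent.RM
open scoped Real Classical

variable {K : Type} [Field K] [CharZero K] {ρ : K →+* ℝ} {σ : K →+* ℂ}

namespace MulAux

theorem hs_HS (a : K →ₗ[ℚ] ℚ) (A : ℚ) : HS a (hs a A) :=
  ⟨fun x y h hx => by
    change A < a y
    rw [← h]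
    exact hx, A, A, fun _ h => h, fun _ h => h⟩

theorem tw_apply (a : K →ₗ[ℚ] ℚ) (u x : K) : tw a u x = a (u * x) := rfl

omit [CharZero K] in
theorem eqv_one {f g : ℂ → ℂ} (h : Eqv σ 1 f g) :
    ∃ l m : K, ∀ w, f w = ee (σ l * w + σ m) * g w := by
  obtain ⟨P, h1, h2⟩ := h
  refine ⟨P.coeff 1, P.coeff 0, fun w => ?_⟩
  rw [h2, Polynomial.eval₂_eq_sum_range' σ (Nat.lt_succ_of_le h1)]
  simp only [Finset.sum_range_succ, Finset.sum_range_zero]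
  congr 2
  ring

omit [CharZero K] in
theorem eqv_two {f g : ℂ → ℂ} (h : Eqv σ 2 f g) :
    ∃ q l m : K, ∀ w, f w = ee (σ q * w ^ 2 + σ l * w + σ m) * g w := by
  obtain ⟨P, h1, h2⟩ := h
  refine ⟨P.coeff 2, P.coeff 1, P.coeff 0, fun w => ?_⟩
  rw [h2, Polynomial.eval₂_eq_sum_range' σ (Nat.lt_succ_of_le h1)]
  simp only [Finset.sum_range_succ, Finset.sum_range_zero]
  congr 2
  ring

omit [CharZero K] in
theorem th_swap (γ : K) (E Y : Set K) (w : ℂ) : th σ (-γ) E Y w = th σ γ E Yᶜ w := by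
  rw [th, th, neg_neg, Set.sdiff_compl, mul_comm]
  rfl

theorem th_mul (hL : LpSt σ) {γ u : K} {E Y : Set K} (hu : u ≠ 0) (h1 : Adm σ γ (E \ Y))
    (h2 : Adm σ (-γ) (E ∩ Y)) (w : ℂ) :
    th σ (u * γ) {x | u⁻¹ * x ∈ E} {x | u⁻¹ * x ∈ Y} (σ u * w) = th σ γ E Y w := by
  rw [th, th, ← (hL.mul γ _ u hu h1).2.1 w, ← (hL.mul (-γ) _ u hu h2).2.1 w, mul_neg]
  rfl

theorem th_add (hL : LpSt σ) {γ : K} (t : K) {E Y : Set K} (h1 : Adm σ γ (E \ Y))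
    (h2 : Adm σ (-γ) (E ∩ Y)) (w : ℂ) :
    th σ γ {x | x - t ∈ E} {x | x - t ∈ Y} (w + σ t) = th σ γ E Y w := by
  rw [th, th, ← (hL.add γ _ t h1).2.1 w, ← (hL.add (-γ) _ t h2).2.1 w]
  rfl

theorem th_diff (hL : LpSt σ) {γ : K} {E Y : Set K} (h1 : Adm σ γ (E \ Y))
    (h2 : Adm σ (-γ) (E ∩ Y)) : Differentiable ℂ (th σ γ E Y) :=
  (hL.diff _ _ h1).mul (hL.diff _ _ h2)

theorem th_ord (hL : LpSt σ) {γ : K} {E Y : Set K} (h1 : Adm σ γ (E \ Y))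
    (h2 : Adm σ (-γ) (E ∩ Y)) (w : ℂ) :
    analyticOrderAt (th σ γ E Y) w = if w ∈ σ '' E then 1 else 0 := by
  have h3 := analyticOrderAt_mul ((hL.diff _ _ h1).analyticAt w) ((hL.diff _ _ h2).analyticAt w)
  rw [hL.ord _ _ h1, hL.ord _ _ h2] at h3
  refine h3.trans ?_
  by_cases hw : w ∈ σ '' E
  · obtain ⟨x, hx, rfl⟩ := hw
    simp only [σ.injective.mem_set_image, Set.mem_sdiff, Set.mem_inter_iff, hx, true_and]
    by_cases hy : x ∈ Y <;> simp [hy]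
  · rw [if_neg hw, if_neg fun h => hw (Set.image_mono Set.sdiff_subset h),
      if_neg fun h => hw (Set.image_mono Set.inter_subset_left h), add_zero]

theorem ori_swap {γ : K} {a b : K →ₗ[ℚ] ℚ} (h : Ori σ γ a b) : Ori σ (-γ) b a := by
  obtain ⟨c₁, c₂, h1, h2, h3⟩ := h.im
  refine ⟨neg_ne_zero.2 h.ne, by rw [map_neg, h.kb, neg_zero], by rw [map_neg, h.ka, neg_zero],
    -c₂, -c₁, by linarith, by linarith, fun x => ?_⟩
  rw [map_neg, div_neg, neg_im, h3]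
  ring

theorem ori_tw {γ ε : K} {a : K →ₗ[ℚ] ℚ} (hε : ε ≠ 0) (h : Ori σ γ a (tw a ε⁻¹)) :
    Ori σ (ε⁻¹ * -γ) a (tw a ε) := by
  have h0 := ori_swap h
  obtain ⟨c₁, c₂, h1, h2, h3⟩ := h0.im
  refine ⟨mul_ne_zero (inv_ne_zero hε) h0.ne, h0.ka, ?_, c₁, c₂, h1, h2, fun x => ?_⟩
  · rw [tw_apply, mul_inv_cancel_left₀ hε]
    exact h0.kb
  · have h4 := h3 (ε * x)
    rw [tw_apply, inv_mul_cancel_left₀ hε] at h4
    rw [tw_apply, ← h4, map_mul, map_mul, map_inv₀]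
    congr 1
    have : σ ε ≠ 0 := (map_ne_zero σ).2 hε
    have : σ (-γ) ≠ 0 := (map_ne_zero σ).2 h0.ne
    field_simp

omit [CharZero K] in
theorem mem_co {L : Submodule ℤ K} {x : K} : x ∈ coset L 0 ↔ x ∈ L := by
  simp [coset]

variable {ε : K} {L : Submodule ℤ K} {a : K →ₗ[ℚ] ℚ} {α β γ : K} {s : ℕ}

theorem mem_pl {r : ℚ} {x : K} : x ∈ plane (coset L 0) a r ↔ x ∈ L ∧ a x = r :=
  and_congr_left' mem_co

section

variable (h : Dat ρ σ ε L a α β γ s)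
include h

theorem lt : Lt L := ⟨h.lat.fg, h.lat.full⟩

theorem ε_ne : ε ≠ 0 := by
  rintro rfl
  have := h.eps.one_lt
  rw [map_zero] at this
  linarith

theorem α_mem : α ∈ L := (h.bas α).2 ⟨1, 0, 0, by simp⟩

theorem γ_mem : γ ∈ L := (h.bas γ).2 ⟨0, 0, 1, by simp⟩

theorem inv_mem {x : K} (hx : x ∈ L) : ε⁻¹ * x ∈ L :=
  (h.lat.stab _).1 (by rwa [mul_inv_cancel_left₀ (ε_ne h)])

theorem a_comb (i j k : ℤ) : a (i * α + j * β + k * γ) = i := by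
  rw [← zsmul_eq_mul, ← zsmul_eq_mul, ← zsmul_eq_mul, map_add, map_add, map_zsmul, map_zsmul,
    map_zsmul, h.aα, h.aβ, h.ori.ka]
  simp

theorem a_int {x : K} (hx : x ∈ L) : ∃ i : ℤ, a x = i := by
  obtain ⟨i, j, k, rfl⟩ := (h.bas x).1 hx
  exact ⟨i, a_comb h i j k⟩

theorem mem_im {w : ℂ} : w ∈ σ '' plane (coset L 0) a 0 ↔ w ∈ lat2 (σ γ) (σ β) := by
  rw [mem_lat2]
  constructor
  · rintro ⟨x, hx, rfl⟩
    obtain ⟨h1, h2⟩ := mem_pl.1 hx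
    obtain ⟨i, j, k, rfl⟩ := (h.bas x).1 h1
    rw [a_comb h, Int.cast_eq_zero] at h2
    exact ⟨k, j, by simp [h2, add_comm]⟩
  · rintro ⟨j, k, rfl⟩
    refine ⟨(0 : ℤ) * α + k * β + j * γ, mem_pl.2 ⟨(h.bas _).2 ⟨0, k, j, rfl⟩, ?_⟩, by
      simp [add_comm]⟩
    rw [a_comb h, Int.cast_zero]

theorem exists_th (hL : LpSt σ) (hA : AdmSt σ) (hM : ModSt σ) :
    ∃ ϑ : ℂ → ℂ, IsTh (σ γ) (σ β) ϑ ∧
      (∃ l : K, ∀ w, th σ γ (plane (coset L 0) a 0) (hs (tw a ε⁻¹) 0) w = ee (σ l * w) * ϑ w) ∧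
      ∀ t ∈ L, a t = 0 → ∃ l m : K, ∀ w, ϑ (w + σ t) = ee (σ l * w + σ m) * ϑ w := by
  set E := plane (coset L 0) a 0 with hE
  set b := tw a ε⁻¹ with hb
  obtain ⟨a1, a2⟩ := hA.half L 0 γ a b 0 _ (lt h) (γ_mem h) h.ori (hs_HS b 0)
  rw [← hE] at a1 a2
  have hY : HS b {x | 0 ≤ b x} := ⟨fun x y e hx => by
    change 0 ≤ b y
    rw [← e]
    exact hx, -1, 0, fun x hx => lt_of_lt_of_le (by norm_num) hx, fun x hx => hx.le⟩
  obtain ⟨l, m, h1⟩ := eqv_one (hM.tl1 L 0 γ a b 0 _ _ (lt h) (γ_mem h) h.ori hY (hs_HS b 0))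
  rw [← hE] at h1
  have h2 : ∀ w, th σ γ E (hs b 0) (-w) = th σ γ E {x | 0 ≤ b x} w := fun w => by
    have h3 := th_mul hL (u := -1) (by norm_num) a1 a2 (-w)
    have e1 : {x : K | (-1)⁻¹ * x ∈ E} = E := by
      ext x
      simp [hE, mem_pl]
    have e2 : {x : K | (-1)⁻¹ * x ∈ hs b 0}ᶜ = {x | 0 ≤ b x} := by
      ext x
      simp [hs]
    rw [neg_one_mul, th_swap, e1, e2] at h3
    rw [← h3]
    simp
  set ϑ : ℂ → ℂ := fun w => ee (σ (l / 2) * w) * th σ γ E (hs b 0) w with hϑ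
  have d1 : Differentiable ℂ fun w => ee (σ (l / 2) * w) := differentiable_ee.comp (by fun_prop)
  have hd : Differentiable ℂ ϑ := d1.mul (th_diff hL a1 a2)
  have ho : ∀ w, analyticOrderAt ϑ w = if w ∈ lat2 (σ γ) (σ β) then 1 else 0 := fun w => by
    have h3 := analyticOrderAt_mul (d1.analyticAt w) ((th_diff hL a1 a2).analyticAt w)
    rw [(d1.analyticAt w).analyticOrderAt_eq_zero.2 (ee_ne _), zero_add, th_ord hL a1 a2] at h3
    simp only [hE, mem_im h] at h3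
    exact h3
  have h4 : ∀ w, ϑ (-w) = ee (σ m) * ϑ w := fun w => by
    simp only [hϑ]
    rw [h2, h1, ← mul_assoc, ← mul_assoc, ← ee_add, ← ee_add]
    congr 2
    rw [map_div₀, map_ofNat]
    ring
  have h5 : ee (σ m) = -1 := by
    have h6 := ho 0
    rw [if_pos (zero_mem _)] at h6
    obtain ⟨g, hg, hg0, hfg⟩ :=
      ((hd.analyticAt 0).analyticOrderAt_eq_natCast (n := 1)).1 (by simpa using h6)
    have h7 : HasDerivAt (fun z : ℂ => (z - 0) ^ 1 • g z) (g 0) 0 := by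
      have := (hasDerivAt_id (0 : ℂ)).fun_mul hg.differentiableAt.hasDerivAt
      simpa using this
    have h8 : HasDerivAt ϑ (g 0) 0 := h7.congr_of_eventuallyEq hfg
    have h9 : HasDerivAt (fun w => ϑ (-w)) (g 0 * -1) 0 :=
      HasDerivAt.comp (h₂ := ϑ) 0 (by simpa using h8) (hasDerivAt_neg (0 : ℂ))
    have h10 := (h8.const_mul (ee (σ m))).unique (by simpa only [h4] using h9)
    exact mul_right_cancel₀ hg0 (by rw [h10]; ring)
  have hq : ∀ t ∈ L, a t = 0 → ∃ l m : K, ∀ w, ϑ (w + σ t) = ee (σ l * w + σ m) * ϑ w := by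
    intro t ht hat
    obtain ⟨l', m', h6⟩ := eqv_one (hM.tl1 L 0 γ a b 0 _ _ (lt h) (γ_mem h) h.ori (hs_HS b 0)
      (hs_HS b (b t)))
    rw [← hE] at h6
    refine ⟨l', l / 2 * t + l' * t + m', fun w => ?_⟩
    have h7 := th_add hL t a1 a2 w
    have e1 : {x : K | x - t ∈ E} = E := by
      ext x
      simp [hE, mem_pl, hat, L.sub_mem_iff_left ht]
    have e2 : {x : K | x - t ∈ hs b 0} = hs b (b t) := by
      ext x
      simp [hs]
    rw [e1, e2] at h7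
    simp only [hϑ]
    rw [h6, h7, ← mul_assoc, ← mul_assoc, ← ee_add, ← ee_add]
    congr 2
    simp only [map_add, map_mul]
    ring
  refine ⟨ϑ, ⟨?_, hd, ho, fun w => by rw [h4, h5, neg_one_mul], fun t ht => ?_⟩,
    ⟨-(l / 2), fun w => ?_⟩, hq⟩
  · obtain ⟨c₁, c₂, -, h6, h7⟩ := h.ori.im
    rw [h7, h.aβ, h.bβ]
    have := h.s_ne
    simp [h6.ne, this]
  · obtain ⟨x, hx, rfl⟩ := (mem_im h).2 ht
    obtain ⟨l', m', h6⟩ := hq x (mem_pl.1 hx).1 (mem_pl.1 hx).2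
    exact ⟨_, _, h6⟩
  · simp only [hϑ]
    rw [← mul_assoc, ← ee_add, map_neg, neg_mul, neg_add_cancel, ee_zero, one_mul]

theorem ff_P (hL : LpSt σ) (hA : AdmSt σ) {c : ℤ} (hc : tw a ε⁻¹ α = c) (w : ℂ) (n : ℤ)
    (hw : th σ γ (plane (coset L 0) a 0) (hs (tw a ε⁻¹) (-n)) w ≠ 0) :
    FF σ ε L a γ (w + σ α) (n - c) =
      FF σ ε L a γ w n * th σ γ (plane (coset L 0) a 0) (hs (tw a ε⁻¹) (-n)) w := by
  set b := tw a ε⁻¹ with hb
  obtain ⟨a1, a2⟩ := hA.half L 0 γ a b 0 _ (lt h) (γ_mem h) h.ori (hs_HS b (-n))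
  obtain ⟨a3, a4⟩ := hA.wedge L 0 γ a b _ _ (lt h) (γ_mem h) h.ori (hs_HS a 0) (hs_HS b (-n))
  obtain ⟨a5, a6⟩ := hA.wedge L 0 γ a b _ _ (lt h) (γ_mem h) h.ori (hs_HS a (-1)) (hs_HS b (-n))
  have hi : ∀ x ∈ L, -1 < a x ↔ 0 < a x ∨ a x = 0 := fun x hx => by
    obtain ⟨i, hi⟩ := a_int h hx
    rw [hi]
    norm_cast
    omega
  have e1 : {x | x - α ∈ coset L 0 ∩ (hs a (-1) \ hs b (-n))} =
      coset L 0 ∩ (hs a 0 \ hs b (-((n - c : ℤ) : ℚ))) := by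
    ext x
    simp only [hs, Set.mem_ofPred_eq, Set.mem_inter_iff, Set.mem_sdiff, mem_co, map_sub, h.aα, hc,
      L.sub_mem_iff_left (α_mem h), Int.cast_sub]
    refine and_congr_right fun _ => and_congr ?_ (not_congr ?_) <;> constructor <;> intro <;>
      linarith
  have e2 : {x | x - α ∈ coset L 0 ∩ (hs b (-n) \ hs a (-1))} =
      coset L 0 ∩ (hs b (-((n - c : ℤ) : ℚ)) \ hs a 0) := by
    ext x
    simp only [hs, Set.mem_ofPred_eq, Set.mem_inter_iff, Set.mem_sdiff, mem_co, map_sub, h.aα, hc,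
      L.sub_mem_iff_left (α_mem h), Int.cast_sub]
    refine and_congr_right fun _ => and_congr ?_ (not_congr ?_) <;> constructor <;> intro <;>
      linarith
  have e3 : coset L 0 ∩ (hs a (-1) \ hs b (-n)) =
      coset L 0 ∩ (hs a 0 \ hs b (-n)) ∪ plane (coset L 0) a 0 \ hs b (-n) := by
    ext x
    have := hi x
    simp only [hs, Set.mem_ofPred_eq, Set.mem_inter_iff, Set.mem_sdiff, Set.mem_union, mem_co,
      mem_pl]
    tauto
  have e4 : coset L 0 ∩ (hs b (-n) \ hs a 0) =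
      coset L 0 ∩ (hs b (-n) \ hs a (-1)) ∪ plane (coset L 0) a 0 ∩ hs b (-n) := by
    ext x
    have := hi x
    have h0 : a x = 0 → ¬ 0 < a x := fun e => by simp [e]
    simp only [hs, Set.mem_ofPred_eq, Set.mem_inter_iff, Set.mem_sdiff, Set.mem_union, mem_co,
      mem_pl]
    tauto
  have h1 := (hL.add γ _ α a5).2.1 w
  have h2 := (hL.add (-γ) _ α a6).2.1 w
  have h3 := (hL.union γ _ _ a3 a1 (Set.disjoint_left.2 fun x hx hx' =>
    (mem_pl.1 hx'.1).2.not_gt hx.2.1)).2.1 w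
  have h4 := (hL.union (-γ) _ _ a6 a2 (Set.disjoint_left.2 fun x hx hx' =>
    hx.2.2 (by change -1 < a x; rw [(mem_pl.1 hx'.1).2]; norm_num))).2.1 w
  rw [e1, e3, h3] at h1
  rw [e2] at h2
  rw [← e4] at h4
  simp only [FF, ph, pN, pD, th] at hw ⊢
  rw [← hb, h1, h2, h4, div_mul_eq_mul_div, ← mul_assoc,
    mul_div_mul_right _ _ (right_ne_zero_of_mul hw)]

theorem ff_R (hL : LpSt σ) (hA : AdmSt σ) (w : ℂ) (n : ℤ)
    (hw : th σ (-γ) (plane (coset L 0) (tw a ε⁻¹) (-n)) (hs a 0) w ≠ 0) :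
    FF σ ε L a γ w (n + 1) =
      FF σ ε L a γ w n / th σ (-γ) (plane (coset L 0) (tw a ε⁻¹) (-n)) (hs a 0) w := by
  set b := tw a ε⁻¹ with hb
  obtain ⟨a1, a2⟩ := hA.half L 0 (-γ) b a (-n) _ (lt h) (neg_mem (γ_mem h)) (ori_swap h.ori)
    (hs_HS a 0)
  rw [neg_neg] at a2
  obtain ⟨-, a4⟩ := hA.wedge L 0 γ a b _ _ (lt h) (γ_mem h) h.ori (hs_HS a 0) (hs_HS b (-n))
  obtain ⟨a5, -⟩ := hA.wedge L 0 γ a b _ _ (lt h) (γ_mem h) h.ori (hs_HS a 0)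
    (hs_HS b (-((n + 1 : ℤ) : ℚ)))
  have hi : ∀ x ∈ L, -((n + 1 : ℤ) : ℚ) < b x ↔ -(n : ℚ) < b x ∨ b x = -n := fun x hx => by
    obtain ⟨i, hi⟩ := a_int h (inv_mem h hx)
    rw [hb, tw_apply, hi]
    norm_cast
    omega
  have e3 : coset L 0 ∩ (hs a 0 \ hs b (-n)) =
      coset L 0 ∩ (hs a 0 \ hs b (-((n + 1 : ℤ) : ℚ))) ∪ plane (coset L 0) b (-n) ∩ hs a 0 := by
    ext x
    have := hi x
    have h0 : b x = -n → ¬ -(n : ℚ) < b x := fun e => by simp [e]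
    simp only [hs, Set.mem_ofPred_eq, Set.mem_inter_iff, Set.mem_sdiff, Set.mem_union, mem_co,
      mem_pl]
    tauto
  have e4 : coset L 0 ∩ (hs b (-((n + 1 : ℤ) : ℚ)) \ hs a 0) =
      coset L 0 ∩ (hs b (-n) \ hs a 0) ∪ plane (coset L 0) b (-n) \ hs a 0 := by
    ext x
    have := hi x
    simp only [hs, Set.mem_ofPred_eq, Set.mem_inter_iff, Set.mem_sdiff, Set.mem_union, mem_co,
      mem_pl]
    tauto
  have h3 := (hL.union γ _ _ a5 a2 (Set.disjoint_left.2 fun x hx hx' =>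
    hx.2.2 ((hi x (mem_pl.1 hx'.1).1).2 (Or.inr (mem_pl.1 hx'.1).2)))).2.1 w
  have h4 := (hL.union (-γ) _ _ a4 a1 (Set.disjoint_left.2 fun x hx hx' =>
    (mem_pl.1 hx'.1).2.not_gt hx.2.1)).2.1 w
  rw [← e3] at h3
  rw [← e4] at h4
  simp only [FF, ph, pN, pD, th, neg_neg] at hw ⊢
  rw [← hb, h3, h4, div_div, ← mul_assoc, mul_div_mul_right _ _ (right_ne_zero_of_mul hw)]

theorem th_R (hL : LpSt σ) (hA : AdmSt σ) (w : ℂ) (n : ℤ) :
    th σ (-γ) (plane (coset L 0) (tw a ε⁻¹) (-n)) (hs a 0) w =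
      th σ (ε⁻¹ * -γ) (plane (coset L 0) a 0) (hs (tw a ε) (tw a ε (n * α)))
        (σ ε⁻¹ * w + n * σ α) := by
  have hε := ε_ne h
  obtain ⟨a1, a2⟩ := hA.half L 0 (-γ) _ a (-n) _ (lt h) (neg_mem (γ_mem h)) (ori_swap h.ori)
    (hs_HS a 0)
  obtain ⟨a3, a4⟩ := hA.half L 0 _ a _ (-n) _ (lt h) (inv_mem h (neg_mem (γ_mem h)))
    (ori_tw hε h.ori) (hs_HS (tw a ε) 0)
  have h1 := th_mul hL (inv_ne_zero hε) a1 a2 w
  have h2 := th_add hL (n * α) a3 a4 (σ ε⁻¹ * w)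
  have hn : (n : K) * α ∈ L := by
    rw [← zsmul_eq_mul]
    exact L.smul_mem n (α_mem h)
  have ha : a (n * α) = n := by
    rw [← zsmul_eq_mul, map_zsmul, h.aα]
    simp
  have e1 : {x : K | ε⁻¹⁻¹ * x ∈ plane (coset L 0) (tw a ε⁻¹) (-n)} = plane (coset L 0) a (-n) := by
    ext x
    simp only [inv_inv, Set.mem_ofPred_eq, mem_pl, h.lat.stab, tw_apply, inv_mul_cancel_left₀ hε]
  have e2 : {x : K | ε⁻¹⁻¹ * x ∈ hs a 0} = hs (tw a ε) 0 := by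
    rw [inv_inv]
    rfl
  have e3 : {x : K | x - n * α ∈ plane (coset L 0) a (-n)} = plane (coset L 0) a 0 := by
    ext x
    simp only [Set.mem_ofPred_eq, mem_pl, L.sub_mem_iff_left hn, map_sub, ha]
    refine and_congr_right fun _ => ⟨fun _ => ?_, fun _ => ?_⟩ <;> linarith
  have e4 : {x : K | x - n * α ∈ hs (tw a ε) 0} = hs (tw a ε) (tw a ε (n * α)) := by
    ext x
    simp only [hs, Set.mem_ofPred_eq, map_sub, sub_pos]
  rw [e1, e2] at h1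
  rw [e3, e4, map_mul σ, map_intCast σ] at h2
  rw [← h1, h2]

end

theorem r0_perm (ϑ : ℂ → ℂ) (y : Fin 4 → ℂ) {p : Fin 4 → Fin 4} (hi : ∀ j, p (p j) = j)
    (hb : ∀ j, (p j).val < 2 ↔ j.val < 2) (w : ℂ) : r0 ϑ (fun j => y (p j)) w = r0 ϑ y w := by
  have h1 : p 0 = 0 ∧ p 1 = 1 ∨ p 0 = 1 ∧ p 1 = 0 := by
    have h0 := (hb 0).2 (by decide)
    have h1 := (hb 1).2 (by decide)
    have h2 : p 0 ≠ p 1 := fun e => absurd ((hi 0).symm.trans ((congrArg p e).trans (hi 1)))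
      (by decide)
    omega
  have h2 : p 2 = 2 ∧ p 3 = 3 ∨ p 2 = 3 ∧ p 3 = 2 := by
    have h0 := (hb 2).not.2 (by decide)
    have h1 := (hb 3).not.2 (by decide)
    have h2 : p 2 ≠ p 3 := fun e => absurd ((hi 2).symm.trans ((congrArg p e).trans (hi 3)))
      (by decide)
    omega
  unfold r0
  rcases h1 with ⟨e0, e1⟩ | ⟨e0, e1⟩ <;> rcases h2 with ⟨e2, e3⟩ | ⟨e2, e3⟩ <;>
    simp only [e0, e1, e2, e3, mul_comm]

theorem r0_shift {γ β : ℂ} {ϑ : ℂ → ℂ} (hϑ : IsTh γ β ϑ) {y u : Fin 4 → ℂ} {l c : ℂ}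
    (hy : y 0 + y 1 = y 2 + y 3) (hu : u 0 + u 1 = u 2 + u 3)
    (h : ∀ v, r0 ϑ u v = ee (l * v + c) * r0 ϑ y v) : l = 0 := by
  obtain ⟨v, hv⟩ := (eventually_all.2 fun j => hϑ.ev_not_mem (y j) one_ne_zero).exists
  have h0 : ∀ j, ϑ (v + y j) ≠ 0 := fun j => hϑ.ne (by simpa [add_comm] using hv j)
  have h1 : r0 ϑ y v ≠ 0 := div_ne_zero (mul_ne_zero (h0 0) (h0 1)) (mul_ne_zero (h0 2) (h0 3))
  have h2 : ∀ m ∈ lat2 γ β, ee (l * m) = 1 := fun m hm => by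
    have h3 := h (v + m)
    rw [hϑ.r0_per hy hm, hϑ.r0_per hu hm, h v, show l * (v + m) + c = l * v + c + l * m by ring,
      ee_add _ (l * m)] at h3
    have h4 := mul_right_cancel₀ h1 h3
    exact (mul_left_cancel₀ (ee_ne _) ((mul_one _).trans h4)).symm
  exact hϑ.lin_zero (h2 _ (left_mem_lat2 _ _)) (h2 _ (right_mem_lat2 _ _))

theorem bal_eq {f : Fin 4 → ℂ} {g : Fin 4 → ℂ} {x : Fin 4 → ℂ} {k : ℂ}
    (h : ∀ j, f j = ee (x j) * g j) (hk : x 0 + x 1 - (x 2 + x 3) = k) :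
    f 0 * f 1 / (f 2 * f 3) = ee k * (g 0 * g 1 / (g 2 * g 3)) := by
  rw [h 0, h 1, h 2, h 3, ← hk, ee_sub, ee_add, ee_add]
  simp only [div_eq_mul_inv, mul_inv]
  ring

end MulAux

open MulAux

theorem mulSt (hL : LpSt σ) (hA : AdmSt σ) (hM : ModSt σ) : MulSt ρ σ := by
  intro ε L a α β γ s h y p n₀ hp
  obtain ⟨ϑ, hϑ, ⟨l₀, h0⟩, hq⟩ := exists_th h hL hA hM
  have hε := ε_ne h
  have hδ := inv_mem h (neg_mem (γ_mem h))
  have hy : σ (y 0) + σ (y 1) = σ (y 2) + σ (y 3) := by rw [← map_add, hp.bal, map_add]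
  obtain ⟨q, l₁, m₁, h1⟩ := eqv_two (hM.tl2 L 0 _ γ a _ _ 0 _ _ (lt h) hδ (γ_mem h)
    (ori_tw hε h.ori) h.ori (hs_HS (tw a ε) 0) (hs_HS (tw a ε⁻¹) 0))
  set u : Fin 4 → K := fun j => ε⁻¹ * y j + n₀ * α with hu
  have hub : σ (u 0) + σ (u 1) = σ (u 2) + σ (u 3) := by
    simp only [hu, map_add, map_mul]
    linear_combination σ ε⁻¹ * hy
  have h2 : ∀ j, ∃ l m : K, ∀ w, ϑ (w + σ (u j - y (p j))) = ee (σ l * w + σ m) * ϑ w := fun j => by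
    have e : u j - y (p j) = n₀ • α - (y (p j) - ε⁻¹ * y j) := by
      simp only [hu, zsmul_eq_mul]
      ring
    refine hq _ (e ▸ sub_mem (L.smul_mem n₀ (α_mem h)) (hp.mem j)) ?_
    rw [e, map_sub, hp.val, map_zsmul, h.aα]
    simp
  choose l m h2 using h2
  have h3 : ∀ j v, ϑ (v + σ (u j)) =
      ee (σ (l j) * (v + σ (y (p j))) + σ (m j)) * ϑ (v + σ (y (p j))) := fun j v => by
    rw [← h2, map_sub]
    congr 1
    ring
  set k : K := l 0 * y (p 0) + m 0 + (l 1 * y (p 1) + m 1) -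
    (l 2 * y (p 2) + m 2 + (l 3 * y (p 3) + m 3)) with hk
  have h4 : ∀ v, r0 ϑ (fun j => σ (u j)) v =
      ee (σ (l 0 + l 1 - (l 2 + l 3)) * v + σ k) * r0 ϑ (fun j => σ (y j)) v := fun v => by
    rw [← r0_perm ϑ (fun j => σ (y j)) hp.inv hp.blk]
    refine bal_eq (fun j => h3 j v) ?_
    simp only [hk, map_add, map_sub, map_mul]
    ring
  have h5 := r0_shift hϑ hy hub h4
  refine ⟨ϑ, ee (σ (q * (u 0 ^ 2 + u 1 ^ 2 - (u 2 ^ 2 + u 3 ^ 2)) + k)), hϑ, ⟨_, rfl⟩,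
    fun c hc w n hw => ?_, fun w n hw => ?_⟩
  · obtain ⟨l', m', h6⟩ := eqv_one (hM.tl1 L 0 γ a _ 0 _ _ (lt h) (γ_mem h) h.ori
      (hs_HS (tw a ε⁻¹) (-((n + n₀ : ℤ) : ℚ))) (hs_HS (tw a ε⁻¹) 0))
    have h7 : ∀ j, FF σ ε L a γ (w + σ α + σ (y j)) (n - c + n₀) =
        ee (σ l' * (w + σ (y j)) + σ m' + σ l₀ * (w + σ (y j))) *
          (ϑ (w + σ (y j)) * FF σ ε L a γ (w + σ (y j)) (n + n₀)) := fun j => by
      rw [add_right_comm w, show n - c + n₀ = n + n₀ - c by ring, ff_P h hL hA hc _ _ (by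
        rw [h6, h0]
        exact mul_ne_zero (ee_ne _) (mul_ne_zero (ee_ne _) (hϑ.ne (hw j)))), h6, h0, ee_add _ (_ * _)]
      ring
    rw [HH, bal_eq h7 (k := 0) (by linear_combination (σ l' + σ l₀) * hy), ee_zero, one_mul, r0, HH]
    simp only [div_eq_mul_inv, mul_inv]
    ring
  · obtain ⟨l', m', h6⟩ := eqv_one (hM.tl1 L 0 _ a _ 0 _ _ (lt h) hδ (ori_tw hε h.ori)
      (hs_HS (tw a ε) (tw a ε (((n + n₀ : ℤ) : K) * α))) (hs_HS (tw a ε) 0))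
    set v := σ ε⁻¹ * w + n * σ α with hv
    set U : Fin 4 → ℂ := fun j => th σ (-γ) (plane (coset L 0) (tw a ε⁻¹) (-((n + n₀ : ℤ) : ℚ)))
      (hs a 0) (w + σ (y j)) with hU
    have h7 : ∀ j, U j = ee (σ l' * (v + σ (u j)) + σ m' + (σ q * (v + σ (u j)) ^ 2 +
        σ l₁ * (v + σ (u j)) + σ m₁) + σ l₀ * (v + σ (u j))) * ϑ (v + σ (u j)) := fun j => by
      have e : σ ε⁻¹ * (w + σ (y j)) + ((n + n₀ : ℤ) : ℂ) * σ α = v + σ (u j) := by
        simp only [hv, hu, map_add, map_mul, map_intCast, Int.cast_add]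
        ring
      simp only [hU]
      rw [th_R h hL hA, e, h6, h1, h0, ee_add _ (_ * _), ee_add (_ + _) (_ + _ + _)]
      ring
    have h8 : ∀ j, FF σ ε L a γ (w + σ (y j)) (n + 1 + n₀) =
        FF σ ε L a γ (w + σ (y j)) (n + n₀) / U j := fun j => by
      rw [add_right_comm n]
      refine ff_R h hL hA _ _ ?_
      change U j ≠ 0
      rw [h7, h3]
      exact mul_ne_zero (ee_ne _) (mul_ne_zero (ee_ne _) (hϑ.ne (hw (p j))))
    have h9 : U 0 * U 1 / (U 2 * U 3) =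
        ee (σ (q * (u 0 ^ 2 + u 1 ^ 2 - (u 2 ^ 2 + u 3 ^ 2)) + k)) *
          r0 ϑ (fun j => σ (y j)) v := by
      have h10 := h4 v
      rw [h5, zero_mul, zero_add] at h10
      rw [bal_eq h7 (k := σ (q * (u 0 ^ 2 + u 1 ^ 2 - (u 2 ^ 2 + u 3 ^ 2)))) (by
        simp only [map_add, map_sub, map_mul, map_pow]
        linear_combination (σ l' + σ l₁ + σ l₀ + 2 * σ q * v) * hub), map_add σ _ k, ee_add,
        mul_assoc, ← h10, r0]
    rw [← h9, HH, HH, h8 0, h8 1, h8 2, h8 3]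
    simp only [div_eq_mul_inv, mul_inv, inv_inv]
    ring

end Pool.Agent.CU.O
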