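import Pool.Agent.Lib.MP_ca56d1_nt.CU.O.St

/-! Divisor and invariance of the elliptic gamma function on a component. -/

namespace Pool.Agent.CU.O

open Complex Filter Topology Pool.Agent.RM
open scoped Real Classical

variable {K : Type} [Field K] [CharZero K] {ρ : K →+* ℝ} {σ : K →+* ℂ}

namespace OrdAux

theorem hs_HS (a : K →ₗ[ℚ] ℚ) (A : ℚ) : HS a (hs a A) :=
  ⟨fun x y e hx => by rwa [hs, Set.mem_ofPred_eq, ← e], A, A, fun _ h => h, fun _ h => h⟩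

variable {ε α β γ : K} {L : Submodule ℤ K} {a : K →ₗ[ℚ] ℚ} {s : ℕ}

theorem lt (h : Dat ρ σ ε L a α β γ s) : Lt L := ⟨h.lat.fg, h.lat.full⟩

theorem mem_γ (h : Dat ρ σ ε L a α β γ s) : γ ∈ L := (h.bas γ).2 ⟨0, 0, 1, by simp⟩

theorem mem_β (h : Dat ρ σ ε L a α β γ s) : β ∈ L := (h.bas β).2 ⟨0, 1, 0, by simp⟩

theorem mem_α (h : Dat ρ σ ε L a α β γ s) : α ∈ L := (h.bas α).2 ⟨1, 0, 0, by simp⟩

theorem adm (hA : AdmSt σ) (h : Dat ρ σ ε L a α β γ s) (B : ℚ) :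
    Adm σ γ (coset L 0 ∩ (hs a 0 \ hs (tw a ε⁻¹) B)) ∧
      Adm σ (-γ) (coset L 0 ∩ (hs (tw a ε⁻¹) B \ hs a 0)) :=
  hA.wedge L 0 γ a _ _ _ (lt h) (mem_γ h) h.ori (hs_HS a 0) (hs_HS _ B)

theorem shift {b : K →ₗ[ℚ] ℚ} {m : K} (hm : m ∈ L) (ha : a m = 0) {k : ℤ} (hb : b m = k)
    (n : ℤ) :
    {x | x - m ∈ coset L 0 ∩ (hs a 0 \ hs b (-n))} =
        coset L 0 ∩ (hs a 0 \ hs b (-(n - k : ℤ))) ∧
      {x | x - m ∈ coset L 0 ∩ (hs b (-n) \ hs a 0)} =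
        coset L 0 ∩ (hs b (-(n - k : ℤ)) \ hs a 0) := by
  have h1 : ∀ x, x - m ∈ L ↔ x ∈ L := fun x => L.sub_mem_iff_left hm
  have h2 : ∀ x, -(n : ℚ) < b x - k ↔ -((n : ℚ) - k) < b x := fun x =>
    ⟨fun h => by linarith, fun h => by linarith⟩
  constructor <;> ext x <;>
    simp only [coset, hs, Set.mem_ofPred_eq, Set.mem_inter_iff, Set.mem_sdiff, sub_zero, map_sub,
      ha, hb, h1, h2, Int.cast_sub]

theorem lp_ord (hL : LpSt σ) {S : Set K} (hS : Adm σ γ S) (w : ℂ) :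
    AnalyticAt ℂ (fun z => lp σ γ S (w + z)) 0 ∧
      meromorphicOrderAt (fun z => lp σ γ S (w + z)) 0 =
        (((if w ∈ σ '' S then 1 else 0 : ℤ)) : WithTop ℤ) ∧ (w ∉ σ '' S → lp σ γ S w ≠ 0) := by
  have h1 := (hL.diff γ S hS).analyticAt
  refine ⟨(h1 _).comp (by fun_prop), ?_, fun hw h0 => ?_⟩
  · have h2 := meromorphicOrderAt_comp_add_const_eq_meromorphicOrderAt (x := (0 : ℂ)) (c := w)
      (f := lp σ γ S)
    rw [zero_add, (h1 w).meromorphicOrderAt_eq, hL.ord γ S hS] at h2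
    rw [show (fun z => lp σ γ S (w + z)) = lp σ γ S ∘ fun z => z + w from
      funext fun z => by rw [add_comm]; rfl, h2]
    split_ifs <;> simp
  · have h2 := hL.ord γ S hS w
    rw [if_neg hw, analyticOrderAt_eq_zero] at h2
    exact h2.elim (fun h => h (h1 w)) fun h => h h0

end OrdAux

open OrdAux

theorem ordSt (hL : LpSt σ) (hA : AdmSt σ) : OrdSt ρ σ := by
  intro ε L a α β γ s h
  refine ⟨fun m hm ha k hb w n => ?_, fun w n => ?_⟩
  · rw [FF, FF, ph, ph, pN, pN, pD, pD, ← (shift hm ha hb n).1, ← (shift hm ha hb n).2,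
      (hL.add _ _ m (adm hA h _).1).2.1, (hL.add _ _ m (adm hA h _).2).2.1]
  · obtain ⟨n1, n2, -⟩ := lp_ord hL (adm hA h (-n)).1 w
    obtain ⟨d1, d2, d3⟩ := lp_ord hL (adm hA h (-n)).2 w
    have e1 : w ∈ σ '' (coset L 0 ∩ (hs a 0 \ hs (tw a ε⁻¹) (-n))) ↔
        ∃ x ∈ L, w = σ x ∧ 0 < a x ∧ tw a ε⁻¹ x + n ≤ 0 := by
      refine exists_congr fun x => ?_
      simp only [coset, hs, Set.mem_ofPred_eq, Set.mem_inter_iff, Set.mem_sdiff, sub_zero, not_lt,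
        le_neg_iff_add_nonpos_right, eq_comm (a := w)]
      tauto
    have e2 : w ∈ σ '' (coset L 0 ∩ (hs (tw a ε⁻¹) (-n) \ hs a 0)) ↔
        ∃ x ∈ L, w = σ x ∧ a x ≤ 0 ∧ 0 < tw a ε⁻¹ x + n := by
      refine exists_congr fun x => ?_
      simp only [coset, hs, Set.mem_ofPred_eq, Set.mem_inter_iff, Set.mem_sdiff, sub_zero, not_lt,
        neg_lt_iff_pos_add, eq_comm (a := w)]
      tauto
    rw [e1] at n2
    rw [e2] at d2 d3
    refine ⟨n1.meromorphicAt.div d1.meromorphicAt, ?_, fun h0 => n1.div d1 (by simpa [pD] using d3 h0)⟩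
    refine (meromorphicOrderAt_div n1.meromorphicAt d1.meromorphicAt).trans ?_
    rw [n2, d2]
    split_ifs with h1 h2
    · obtain ⟨x, -, rfl, h3, -⟩ := h1
      obtain ⟨y, -, e, h4, -⟩ := h2
      rw [σ.injective e] at h3
      exact absurd h3 (not_lt.2 h4)
    all_goals simp

end Pool.Agent.CU.O
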