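import Pool.Agent.Lib.MP_ca56d1_nt.CU.O.St

/-! Choice of the parameters of the finite identity. -/

set_option linter.unusedSectionVars false

namespace Pool.Agent.CU.O

open Pool.Agent.RM

variable {K : Type} [Field K] [CharZero K] {ρ : K →+* ℝ} {σ : K →+* ℂ}

namespace ParAux

theorem func {v v' w w' : K} (h1 : ∀ x y : ℚ, v ≠ x * w + y * w')
    (h2 : ∀ x y : ℚ, v' ≠ x * w + y * w') :
    ∃ a : K →ₗ[ℚ] ℚ, a w = 0 ∧ a w' = 0 ∧ a v ≠ 0 ∧ a v' ≠ 0 := by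
  have key : ∀ u : K, (∀ x y : ℚ, u ≠ x * w + y * w') →
      ∃ f : K →ₗ[ℚ] ℚ, f w = 0 ∧ f w' = 0 ∧ f u ≠ 0 := fun u hu => by
    obtain ⟨f, hf, hk⟩ := (Submodule.span ℚ {w, w'}).exists_le_ker_of_notMem (v := u) fun h => by
      obtain ⟨x, y, hxy⟩ := Submodule.mem_span_pair.1 h
      exact hu x y (by rw [← hxy, Rat.smul_def, Rat.smul_def])
    exact ⟨f, hk (Submodule.subset_span (by simp)), hk (Submodule.subset_span (by simp)), hf⟩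
  obtain ⟨f, f1, f2, f3⟩ := key v h1
  obtain ⟨g, g1, g2, g3⟩ := key v' h2
  by_cases h3 : f v' = 0
  · by_cases h4 : g v = 0
    · exact ⟨f + g, by simp [f1, g1], by simp [f2, g2], by simpa [h4] using f3,
        by simpa [h3] using g3⟩
    · exact ⟨g, g1, g2, h4, g3⟩
  · exact ⟨f, f1, f2, f3, h3⟩

theorem coord (hK : CC ρ σ) {η : K}
    (hi : ∀ a b c : ℚ, (a : K) + b * η + c * η ^ 2 = 0 → a = 0 ∧ b = 0 ∧ c = 0) (x : K) :
    ∃ a b c : ℚ, x = a + b * η + c * η ^ 2 := by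
  have hl : LinearIndependent ℚ ![1, η, η ^ 2] := by
    rw [Fintype.linearIndependent_iff]
    intro g hg
    obtain ⟨h0, h1, h2⟩ := hi (g 0) (g 1) (g 2) (by
      simpa [Fin.sum_univ_three, Rat.smul_def] using hg)
    intro i
    fin_cases i <;> assumption
  have hs := hl.span_eq_top_of_card_eq_finrank (by rw [hK.three]; simp)
  obtain ⟨g, hg⟩ := (Submodule.mem_span_range_iff_exists_fun ℚ).1
    (hs ▸ Submodule.mem_top (x := x))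
  exact ⟨g 0, g 1, g 2, by simpa [Fin.sum_univ_three, Rat.smul_def] using hg.symm⟩

theorem pick (hK : CC ρ σ) {η : K}
    (hi : ∀ a b c : ℚ, (a : K) + b * η + c * η ^ 2 = 0 → a = 0 ∧ b = 0 ∧ c = 0) {t t' n : ℚ}
    (h3 : η ^ 3 = t * η ^ 2 - t' * η + n) {s s' q : ℚ} (hs : s ≠ 0) (hs' : s' ≠ 0) (hq : q ≠ 0)
    (r₀ : K) : ∃ N : ℕ,
      (∀ x y : ℚ, (1 : K) ≠ x * (1 + s * η) + y * ((1 + s' * η) * (r₀ + N * q * η))) ∧
      ∀ x y : ℚ, r₀ + N * q * η ≠ x * (1 + s * η) + y * ((1 + s' * η) * (r₀ + N * q * η)) := by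
  obtain ⟨a, b, c, rfl⟩ := coord hK hi r₀
  obtain ⟨N, hN⟩ : ∃ N : ℕ, (c + s' * (b + N * q + c * t)) *
      ((b + N * q) * (b + N * q + c * t) - c * (a - c * t') - s * a * (b + N * q + c * t) +
        s * c * (c * n)) ≠ 0 := by
    by_contra h
    push Not at h
    have e0 := h 0
    have e1 := h 1
    have e2 := h 2
    have e3 := h 3
    push_cast at e0 e1 e2 e3
    exact mul_ne_zero hs' (pow_ne_zero 3 hq) (by
      linear_combination (e3 - 3 * e2 + 3 * e1 - e0) / 6)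
  obtain ⟨h1, h2⟩ := mul_ne_zero_iff.1 hN
  refine ⟨N, fun x y h => ?_, fun x y h => ?_⟩
  · obtain ⟨e0, e1, e2⟩ := hi (x + y * (a + s' * (c * n)) - 1)
      (x * s + y * (b + N * q + s' * (a - c * t'))) (y * (c + s' * (b + N * q + c * t))) (by
        push_cast
        linear_combination -h - y * s' * c * h3)
    have hy := (mul_eq_zero.1 e2).resolve_right h1
    rw [hy] at e0 e1
    exact hs (by linear_combination e1 - s * e0)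
  · obtain ⟨e0, e1, e2⟩ := hi (x + y * (a + s' * (c * n)) - a)
      (x * s + y * (b + N * q + s' * (a - c * t')) - (b + N * q))
      (y * (c + s' * (b + N * q + c * t)) - c) (by
        push_cast
        linear_combination -h - y * s' * c * h3)
    have a1 : y - 1 = 0 := (mul_eq_zero.1 (by
      linear_combination -s * (b + N * q + c * t) * e0 + (b + N * q + c * t) * e1 +
        (s * (c * n) - (a - c * t')) * e2)).resolve_right h2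
    have a2 : y * s' = 0 := (mul_eq_zero.1 (by
      linear_combination s * c * e0 - c * e1 + (b + N * q - s * a) * e2)).resolve_right h2
    exact hs' (by linear_combination a2 - s' * a1)

theorem inv_mem {ε : K} {L : Submodule ℤ K} (hε : ε ≠ 0) (hL : ELat ε L) {x : K} (hx : x ∈ L) :
    ε⁻¹ * x ∈ L := (hL.stab _).1 (by rwa [mul_inv_cancel_left₀ hε])

theorem eps_ne {ε : K} (h : Eps ρ σ ε) : ε ≠ 0 := fun h0 => by
  have := h.one_lt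
  rw [h0, map_zero] at this
  linarith

theorem irr (hB : BasSt ρ σ) {ε : K} (hε : Eps ρ σ ε) : ¬ ∃ q : ℚ, ε⁻¹ = (q : K) :=
  fun ⟨r, hr⟩ => hB.irr ε hε ⟨r⁻¹, by rw [Rat.cast_inv, ← hr, inv_inv]⟩

theorem tw_ne {a : K →ₗ[ℚ] ℚ} {u : K} (ha : a ≠ 0) (hu : ¬ ∃ q : ℚ, u = (q : K)) :
    ¬ ∃ q : ℚ, tw a u = q • a := by
  rintro ⟨q, hq⟩
  have h0 : u - q ≠ 0 := fun h => hu ⟨q, sub_eq_zero.1 h⟩
  refine ha (LinearMap.ext fun x => ?_)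
  have h1 : a (u * (x / (u - q))) = q • a (x / (u - q)) := LinearMap.congr_fun hq _
  rw [← map_smul, ← sub_eq_zero, ← map_sub, Rat.smul_def, ← sub_mul, mul_div_cancel₀ _ h0] at h1
  exact h1

theorem dat (hB : BasSt ρ σ) {ε : K} {L : Submodule ℤ K} (hε : Eps ρ σ ε) (hL : ELat ε L)
    {a₀ : K →ₗ[ℚ] ℚ} (h0 : a₀ ≠ 0) : ∃ (c : ℚ) (α β γ : K) (s : ℕ), c ≠ 0 ∧
      Dat ρ σ ε L (c • a₀) α β γ s ∧ ∀ x ∈ L, ∃ n : ℤ, (c • a₀) x = n := by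
  obtain ⟨c₁, hc₁, hf⟩ : ∃ c : ℚ, c ≠ 0 ∧ Fn ρ σ (c • a₀) := by
    rcases hB.fn a₀ h0 with h | h
    · exact ⟨1, one_ne_zero, by simpa using h⟩
    · exact ⟨-1, by norm_num, by simpa using h⟩
  obtain ⟨q, hq, h1, h2⟩ := hB.prim (c₁ • a₀) L (smul_ne_zero hc₁ h0) ⟨hL.fg, hL.full⟩
  have hf' : Fn ρ σ (q • c₁ • a₀) := by
    obtain ⟨r, c, hr, h⟩ := hf
    refine ⟨q * r, (q : ℝ) * c, mul_pos (by exact_mod_cast hq) hr, fun x => ?_⟩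
    rw [LinearMap.smul_apply, smul_eq_mul, Rat.cast_mul, h, mul_assoc ((q : ℝ) : ℂ),
      Complex.re_ofReal_mul]
    ring
  rw [smul_smul] at h1 h2 hf'
  have hc : q * c₁ ≠ 0 := mul_ne_zero hq.ne' hc₁
  obtain ⟨α, β, γ, s, b1, b2, b3, b4, b5, b6⟩ := hB.basis _ (tw ((q * c₁) • a₀) ε⁻¹) L hf'
    (hB.fn_tw _ _ hf' (by rw [map_inv₀]; exact inv_pos.2 (one_pos.trans hε.one_lt)))
    (tw_ne (smul_ne_zero hc h0) (irr hB hε)) ⟨hL.fg, hL.full⟩ h1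
    (fun x hx => h1 _ (inv_mem (eps_ne hε) hL hx)) h2
  exact ⟨q * c₁, α, β, γ, s, hc, ⟨hε, hL, hf', b1, b2, b3, b4, b5, b6⟩, h1⟩

theorem core (hK : CC ρ σ) (hB : BasSt ρ σ) {ε : K} {L : Submodule ℤ K} (hε : Eps ρ σ ε)
    (hL : ELat ε L) {y₁ y₂ y₃ y₄ : K} (hb : y₁ + y₂ - (y₃ + y₄) ∈ L) {s s' : ℚ} (hs : s ≠ 0)
    (hs' : s' ≠ 0) : ∃ (a : K →ₗ[ℚ] ℚ) (α β γ : K) (m : ℕ) (z₁ z₂ z₃ z₄ : K),
      Dat ρ σ ε L a α β γ m ∧ (∀ x ∈ L, ∃ n : ℤ, a x = n) ∧ z₁ + z₂ = z₃ + z₄ ∧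
      z₁ + y₁ ∈ L ∧ z₂ + y₂ ∈ L ∧ z₃ + y₃ ∈ L ∧ z₄ + y₄ ∈ L ∧
      a z₁ - a z₂ + s * (a (ε⁻¹ * z₁) - a (ε⁻¹ * z₂)) = 0 ∧
      a z₃ - a z₄ + s' * (a (ε⁻¹ * z₃) - a (ε⁻¹ * z₄)) = 0 ∧
      a (z₁ - z₂) ≠ 0 ∧ a (z₃ - z₄) ≠ 0 := by
  obtain ⟨m, hm, hD⟩ : ∃ m ∈ L, y₂ - y₁ + 2 * m ≠ 0 := by
    by_cases h : y₂ - y₁ = 0
    · obtain ⟨n, hn, h1⟩ := hL.full 1
      refine ⟨_, h1, ?_⟩
      rw [h, zero_add, mul_one]
      exact mul_ne_zero two_ne_zero (Nat.cast_ne_zero.2 hn)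
    · exact ⟨0, L.zero_mem, by simpa using h⟩
  set D := y₂ - y₁ + 2 * m with hDe
  obtain ⟨q, hq, he⟩ := hL.full (ε⁻¹ * D)
  obtain ⟨t, t', h3⟩ := hB.cub ε⁻¹
  obtain ⟨N, h1, h2⟩ := pick hK (hB.ind _ (irr hB hε)) h3 hs hs' (q := 2 * q)
    (mul_ne_zero two_ne_zero (Nat.cast_ne_zero.2 hq)) ((y₄ - y₃ + (y₁ + y₂ - (y₃ + y₄))) / D)
  set r : K := (y₄ - y₃ + (y₁ + y₂ - (y₃ + y₄))) / D + N * (2 * q : ℚ) * ε⁻¹ with hr
  obtain ⟨a₀, a1, a2, a3, a4⟩ := func (v := D) (v' := r * D) (w := (1 + s * ε⁻¹) * D)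
    (w' := (1 + s' * ε⁻¹) * (r * D))
    (fun x y h => h1 x y (mul_right_cancel₀ hD (by linear_combination h)))
    (fun x y h => h2 x y (mul_right_cancel₀ hD (by linear_combination h)))
  obtain ⟨c, α, β, γ, k, hc, hd, hz⟩ := dat hB hε hL (a₀ := a₀) fun h => a3 (by simp [h])
  have hN : (N : K) * (q * (ε⁻¹ * D)) ∈ L := by
    rw [← nsmul_eq_mul]
    exact L.smul_of_tower_mem N he
  have e1 : -y₁ + m - (-y₂ - m) = D := by rw [hDe]; ring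
  have e2 : -y₃ + N * (q * (ε⁻¹ * D)) -
      (-y₄ - (y₁ + y₂ - (y₃ + y₄)) - N * (q * (ε⁻¹ * D))) = r * D := by
    rw [hr, add_mul, div_mul_cancel₀ _ hD]
    push_cast
    ring
  have lin : ∀ (u : ℚ) (z z' : K), a₀ ((1 + u * ε⁻¹) * (z - z')) = 0 →
      (c • a₀) z - (c • a₀) z' + u * ((c • a₀) (ε⁻¹ * z) - (c • a₀) (ε⁻¹ * z')) = 0 := by
    intro u z z' h
    rw [show (1 + u * ε⁻¹) * (z - z') = z - z' + u • (ε⁻¹ * z - ε⁻¹ * z') by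
      rw [Rat.smul_def]; ring] at h
    simp only [map_add, map_sub, map_smul, smul_eq_mul, LinearMap.smul_apply] at h ⊢
    linear_combination c * h
  refine ⟨c • a₀, α, β, γ, k, -y₁ + m, -y₂ - m, -y₃ + N * (q * (ε⁻¹ * D)),
    -y₄ - (y₁ + y₂ - (y₃ + y₄)) - N * (q * (ε⁻¹ * D)), hd, hz, by ring, by simpa using hm,
    ?_, by simpa using hN, ?_, lin _ _ _ (by rwa [e1]), lin _ _ _ (by rwa [e2]), ?_, ?_⟩
  · rw [show -y₂ - m + y₂ = -m by ring]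
    exact L.neg_mem hm
  · rw [show -y₄ - (y₁ + y₂ - (y₃ + y₄)) - N * (q * (ε⁻¹ * D)) + y₄ =
      -(y₁ + y₂ - (y₃ + y₄) + N * (q * (ε⁻¹ * D))) by ring]
    exact L.neg_mem (L.add_mem hb hN)
  · rw [e1]
    exact mul_ne_zero hc a3
  · rw [e2]
    exact mul_ne_zero hc a4

theorem fix {ε : K} {L : Submodule ℤ K} (hε : ε ≠ 0) (hL : ELat ε L) {y y' z z' : K}
    (h : ε * y - y' ∈ L) (hz : z + y ∈ L) (hz' : z' + y' ∈ L) : z - ε⁻¹ * z' ∈ L := by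
  rw [show z - ε⁻¹ * z' = z + y - ε⁻¹ * (z' + y') - ε⁻¹ * (ε * y - y') by field_simp; ring]
  exact L.sub_mem (L.sub_mem hz (inv_mem hε hL hz')) (inv_mem hε hL h)

theorem sep {L : Submodule ℤ K} {y y' z z' : K} (h : y - y' ∉ L) (hz : z + y ∈ L)
    (hz' : z' + y' ∈ L) : z - z' ∉ L := fun h0 => h (by
  rw [show y - y' = z + y - (z' + y') - (z - z') by ring]
  exact L.sub_mem (L.sub_mem hz hz') h0)

theorem sep' {L : Submodule ℤ K} {z z' : K} (h : z - z' ∉ L) : z' - z ∉ L := fun h0 =>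
  h (by simpa using L.neg_mem h0)

theorem st2 {ε : K} {L : Submodule ℤ K} (hε : ε ≠ 0) (hL : ELat ε L) {y y' : K}
    (h : St2 ε L y y') : ∃ s : ℚ, s ≠ 0 ∧ ∀ z z', z + y ∈ L → z' + y' ∈ L →
      (s = -1 ∧ z - ε⁻¹ * z ∈ L ∧ z' - ε⁻¹ * z' ∈ L) ∨
      (s = 1 ∧ z' - ε⁻¹ * z ∈ L ∧ z - ε⁻¹ * z' ∈ L ∧ z - z' ∉ L ∧ z' - z ∉ L) := by
  rcases h with ⟨h1, h2⟩ | ⟨h1, h2, h3⟩
  · rw [sub_one_mul] at h1 h2
    exact ⟨-1, by norm_num, fun z z' hz hz' => Or.inl ⟨rfl, fix hε hL h1 hz hz,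
      fix hε hL h2 hz' hz'⟩⟩
  · exact ⟨1, one_ne_zero, fun z z' hz hz' => Or.inr ⟨rfl, fix hε hL h2 hz' hz,
      fix hε hL h1 hz hz', sep h3 hz hz', sep' (sep h3 hz hz')⟩⟩

end ParAux

open ParAux

theorem parSt (hK : CC ρ σ) (hB : BasSt ρ σ) : ParSt ρ σ := by
  intro ε L hε hL y₁ y₂ y₃ y₄ h1 h2 hb h13 h14 h23 h24
  obtain ⟨s, hs, g1⟩ := st2 (eps_ne hε) hL h1
  obtain ⟨s', hs', g2⟩ := st2 (eps_ne hε) hL h2
  obtain ⟨a, α, β, γ, m, z₁, z₂, z₃, z₄, hd, hz, e0, m1, m2, m3, m4, e1, e2, n1, n2⟩ :=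
    core hK hB hε hL hb hs hs'
  have e3 := congrArg a e0
  have e4 := congrArg (fun x => a (ε⁻¹ * x)) e0
  simp only [mul_add, map_add] at e3 e4
  have mix : ∀ j k : Fin 4, j.val < 2 → 2 ≤ k.val →
      ![z₁, z₂, z₃, z₄] j - ![z₁, z₂, z₃, z₄] k ∉ L := by
    have := sep h13 m1 m3
    have := sep h14 m1 m4
    have := sep h23 m2 m3
    have := sep h24 m2 m4
    intro j k hj hk
    fin_cases j <;> fin_cases k <;> first | assumption | simp at hj hk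
  rcases g1 _ _ m1 m2 with ⟨rfl, a1, a2⟩ | ⟨rfl, a1, a2, a3, a4⟩ <;>
    rcases g2 _ _ m3 m4 with ⟨rfl, b1, b2⟩ | ⟨rfl, b1, b2, b3, b4⟩ <;>
    obtain ⟨n₀, hn⟩ := hz _ a1 <;> rw [map_sub] at hn
  · refine ⟨a, α, β, γ, m, ![z₁, z₂, z₃, z₄], ![0, 1, 2, 3], n₀, hd,
      ⟨e0, by decide, by decide, fun j => ?_, fun j => ?_, fun j hj => ?_, mix, n1, n2⟩,
      m1, m2, m3, m4⟩
    · fin_cases j <;> assumption
    · fin_cases j <;> simp <;> linarith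
    · fin_cases j <;> first | assumption | simp at hj
  · refine ⟨a, α, β, γ, m, ![z₁, z₂, z₃, z₄], ![0, 1, 3, 2], n₀, hd,
      ⟨e0, by decide, by decide, fun j => ?_, fun j => ?_, fun j hj => ?_, mix, n1, n2⟩,
      m1, m2, m3, m4⟩
    · fin_cases j <;> assumption
    · fin_cases j <;> simp <;> linarith
    · fin_cases j <;> first | assumption | simp at hj
  · refine ⟨a, α, β, γ, m, ![z₁, z₂, z₃, z₄], ![1, 0, 2, 3], n₀, hd,
      ⟨e0, by decide, by decide, fun j => ?_, fun j => ?_, fun j hj => ?_, mix, n1, n2⟩,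
      m1, m2, m3, m4⟩
    · fin_cases j <;> assumption
    · fin_cases j <;> simp <;> linarith
    · fin_cases j <;> first | assumption | simp at hj
  · refine ⟨a, α, β, γ, m, ![z₁, z₂, z₃, z₄], ![1, 0, 3, 2], n₀, hd,
      ⟨e0, by decide, by decide, fun j => ?_, fun j => ?_, fun j hj => ?_, mix, n1, n2⟩,
      m1, m2, m3, m4⟩
    · fin_cases j <;> assumption
    · fin_cases j <;> simp <;> linarith
    · fin_cases j <;> assumption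

end Pool.Agent.CU.O
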