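import Pool.Agent.Lib.MP_ca56d1_nt.CU.StO2

/-! Interfaces of the pieces of the finite identity. -/

namespace Pool.Agent.CU.O

open Complex Filter Topology Pool.Agent.RM
open scoped Real Classical

/-- The lattice spanned by `γ` and `β`. -/
def lat2 (γ β : ℂ) : AddSubgroup ℂ := AddSubgroup.closure {γ, β}

/-- The class of `w` modulo the lattice. -/
abbrev cl (γ β w : ℂ) : ℂ ⧸ lat2 γ β := QuotientAddGroup.mk w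

/-- `ϑ` is an odd theta function of degree one. -/
structure IsTh (γ β : ℂ) (ϑ : ℂ → ℂ) : Prop where
  im : (β / γ).im ≠ 0
  diff : Differentiable ℂ ϑ
  ord : ∀ w, analyticOrderAt ϑ w = if w ∈ lat2 γ β then 1 else 0
  odd : ∀ w, ϑ (-w) = -ϑ w
  qp : ∀ m ∈ lat2 γ β, ∃ l c : ℂ, ∀ w, ϑ (w + m) = ee (l * w + c) * ϑ w

/-- The multiplier of the integrand. -/
noncomputable def rr (ϑ : ℂ → ℂ) (α Z : ℂ) (a : Fin 4 → ℂ) (w : ℂ) : ℂ :=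
  (∏ j, ϑ (w + a j)) / ∏ j, ϑ (w + α - Z - a j)

/-- The kernel. -/
noncomputable def kk (ϑ : ℂ → ℂ) (α Z a₀ w v : ℂ) : ℂ :=
  ϑ (α - a₀ - v) * ϑ (v - w + (α - 2 * a₀ - Z)) * ϑ (w - Z - a₀) /
    (ϑ (w - v) * ϑ (α - a₀ - w) * ϑ (v - Z - a₀) * ϑ (α - 2 * a₀ - Z))

/-- The difference of the kernel. -/
noncomputable def De (ϑ : ℂ → ℂ) (α Z : ℂ) (a : Fin 4 → ℂ) (w v : ℂ) : ℂ :=
  rr ϑ α Z a w / rr ϑ α Z a v * kk ϑ α Z (a 0) (w + α) (v + α) - kk ϑ α Z (a 0) w v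

/-- The third kernel with numerator `N`. -/
noncomputable def k3 (ϑ : ℂ → ℂ) (α Z : ℂ) (a : Fin 4 → ℂ) (N : ℂ × ℂ → ℂ) (w v : ℂ) : ℂ :=
  N (w, v) / ((∏ j, ϑ (w + α - Z - a j)) * ∏ j, ϑ (v - Z - a j))

/-- The theta function identity. -/
def TISt : Prop :=
  ∀ (γ β : ℂ) (ϑ : ℂ → ℂ), IsTh γ β ϑ → ∀ (α Z : ℂ) (a : Fin 4 → ℂ), ∑ j, a j = 2 * α - 2 * Z →
    α - 2 * a 0 - Z ∉ lat2 γ β →
    (∀ j k, j ≠ 0 → k ≠ 0 → j ≠ k → a j - a k ∉ lat2 γ β) →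
    (∀ j k, j ≠ 0 → k ≠ 0 → Z + a j + a k ∉ lat2 γ β) →
    ∃ (N : ℂ × ℂ → ℂ) (E : Finset ℂ), Differentiable ℂ N ∧
      (∀ m ∈ lat2 γ β, ∀ w v, k3 ϑ α Z a N (w + m) v = k3 ϑ α Z a N w v ∧
        k3 ϑ α Z a N w (v + m) = k3 ϑ α Z a N w v) ∧
      ∀ w v, (∀ e ∈ E, 2 * w - e ∉ lat2 γ β ∧ v - e ∉ lat2 γ β) → w - v ∉ lat2 γ β →
        w + v - Z ∉ lat2 γ β →
        De ϑ α Z a w v - De ϑ α Z a w (Z - v) =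
          k3 ϑ α Z a N w v - k3 ϑ α Z a N w (v + α) / rr ϑ α Z a v

/-- The residue lemma on a finite union of cylinders. -/
def RLSt : Prop :=
  ∀ (A : Type) [AddCommGroup A] (γ : ℂ) (ι : ℂ →+ A) (hgt : A →+ ℝ), γ ≠ 0 →
    (∀ z, ι z = 0 ↔ ∃ k : ℤ, z = k * γ) → Finite (A ⧸ ι.range) → (∀ z, hgt (ι z) = (z / γ).im) →
    ∀ {J : Type} [Fintype J] (f c : J → A → ℂ) (n : J → ℂ) (τ : J → A) (ω : A → ℤ) (h₀ h₁ : ℝ),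
      (∀ i x, MeromorphicAt (fun z => f i (x + ι z)) 0) →
      (∀ x, ∀ᶠ z in 𝓝[≠] (0 : ℂ), ∑ i, n i * (f i (x + τ i + ι z) - f i (x + ι z)) = 0) →
      (∀ x, hgt x < h₀ → ω x = 0) → (∀ x, h₁ < hgt x → ω x = 1) →
      (∀ i x, ω (x - τ i) ≠ ω x →
        Tendsto (fun z => z * f i (x + ι z)) (𝓝[≠] (0 : ℂ)) (𝓝 (c i x))) →
      (∀ i, {x | ω (x - τ i) ≠ ω x ∧ c i x ≠ 0}.Finite) ∧
        ∑ i, n i * ∑ᶠ x, ((ω (x - τ i) - ω x : ℤ) : ℂ) * c i x = 0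

/-- The group on which the integrand lives. -/
structure Geo (A : Type) [AddCommGroup A] where
  γ : ℂ
  β : ℂ
  α : ℂ
  η : ℂ
  ι : ℂ →+ A
  hgt : A →+ ℝ
  W₁ : A →+ ℂ ⧸ lat2 γ β
  W₂ : A →+ ℂ ⧸ lat2 γ β
  P : A
  R : A
  γ_ne : γ ≠ 0
  ker : ∀ z, ι z = 0 ↔ ∃ k : ℤ, z = k * γ
  fin : Finite (A ⧸ ι.range)
  hgt_ι : ∀ z, hgt (ι z) = (z / γ).im
  W₁_ι : ∀ z, W₁ (ι z) = cl γ β z
  W₂_ι : ∀ z, W₂ (ι z) = cl γ β (η * z)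
  W₁_P : W₁ P = cl γ β α
  W₂_P : W₂ P = 0
  W₁_R : W₁ R = 0
  W₂_R : W₂ R = cl γ β α
  hP : 0 < hgt P
  hR : hgt R < 0
  hT : hgt (P + R) < 0
  free : ∀ i : ℤ, (i : ℂ) * α ∈ lat2 γ β → i = 0
  lat₁ : ∀ x (i : ℤ), W₁ x = cl γ β (i * α) → ∃ j : ℤ, x = i • P + j • R
  lat₂ : ∀ x (j : ℤ), W₂ x = cl γ β (j * α) → ∃ i : ℤ, x = i • P + j • R
  η_ne : η ≠ 0
  η_one : η ≠ 1
  η_neg : η ≠ -1

variable {A : Type} [AddCommGroup A]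

/-- The divisor of the elliptic gamma function. -/
noncomputable def Geo.o (G : Geo A) (x : A) : ℤ :=
  if ∃ i j : ℤ, 1 ≤ i ∧ j ≤ 0 ∧ x = i • G.P + j • G.R then 1
  else if ∃ i j : ℤ, i ≤ 0 ∧ 1 ≤ j ∧ x = i • G.P + j • G.R then -1 else 0

/-- The multiplier of the balanced product. -/
noncomputable def r0 (ϑ : ℂ → ℂ) (y : Fin 4 → ℂ) (w : ℂ) : ℂ :=
  ϑ (w + y 0) * ϑ (w + y 1) / (ϑ (w + y 2) * ϑ (w + y 3))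

/-- A balanced product of four elliptic gamma functions. -/
structure HDat (G : Geo A) (ϑ : ℂ → ℂ) (y : Fin 4 → ℂ) (p : Fin 4 → Fin 4) (t : Fin 4 → A)
    (C : ℂ) (H : A → ℂ) : Prop where
  th : IsTh G.γ G.β ϑ
  bal : y 0 + y 1 = y 2 + y 3
  inv : ∀ j, p (p j) = j
  blk : ∀ j, (p j).val < 2 ↔ j.val < 2
  sw : ∀ j, p j ≠ j → ∀ i : ℤ, y j - y (p j) - i * G.α ∉ lat2 G.γ G.β
  mix : ∀ j k : Fin 4, j.val < 2 → 2 ≤ k.val → ∀ i : ℤ, y j - y k - i * G.α ∉ lat2 G.γ G.β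
  sep₁ : y 0 - y 1 ∉ lat2 G.γ G.β
  sep₂ : y 2 - y 3 ∉ lat2 G.γ G.β
  t₁ : ∀ j, G.W₁ (t j) = cl G.γ G.β (y j)
  t₂ : ∀ j, G.W₂ (t j) = cl G.γ G.β (y (p j))
  C_ne : C ≠ 0
  mer : ∀ x, MeromorphicAt (fun z => H (x + G.ι z)) 0
  ord : ∀ x, meromorphicOrderAt (fun z => H (x + G.ι z)) 0 =
    ((G.o (x + t 0) + G.o (x + t 1) - G.o (x + t 2) - G.o (x + t 3) : ℤ) : WithTop ℤ)
  an : ∀ x, (∀ j, G.o (x + t j) = 0) → AnalyticAt ℂ (fun z => H (x + G.ι z)) 0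
  mP : ∀ x w, G.W₁ x = cl G.γ G.β w → (∀ j, w + y j ∉ lat2 G.γ G.β) →
    H (x + G.P) = r0 ϑ y w * H x
  mR : ∀ x v, G.W₂ x = cl G.γ G.β v → (∀ j, v + y j ∉ lat2 G.γ G.β) →
    H (x + G.R) = H x / (C * r0 ϑ y v)

/-- The finite identity in abstract form. -/
def AOSt : Prop :=
  ∀ (A : Type) [AddCommGroup A] (G : Geo A) (ϑ : ℂ → ℂ) (y : Fin 4 → ℂ) (p : Fin 4 → Fin 4)
    (t : Fin 4 → A) (C : ℂ) (H : A → ℂ), HDat G ϑ y p t C H → ∀ Z : A, G.W₁ Z = G.W₂ Z →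
    (∀ (j k : Fin 4) (i i' : ℤ), Z + t j + t k = i • G.P + i' • G.R → 3 ≤ i ∧ 3 ≤ i') →
    ∃ (ω : A → ℤ) (h₀ h₁ : ℝ) (S : Finset A) (m : A → ℤ),
      (∀ x, G.hgt x < h₀ → ω x = 0) ∧ (∀ x, h₁ < G.hgt x → ω x = 1) ∧
      (∀ x ∈ S, G.W₁ x + G.W₂ x = G.W₁ Z ∧ ∀ j, G.o (x + t j) = 0 ∧ G.o (Z - x + t j) = 0) ∧
      (1 + G.η) * ∑ᶠ x, (if G.W₁ x = G.W₂ x then
          ((ω (x - (G.P + G.R)) - ω x : ℤ) : ℂ) * (H x * H (Z - x)) else 0) =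
        (1 - G.η) * ∑ x ∈ S, (m x : ℂ) * (H x * H (Z - x))

/-- The values on the diagonal. -/
def TMSt : Prop :=
  ∀ (A : Type) [AddCommGroup A] (G : Geo A) (ϑ : ℂ → ℂ) (y : Fin 4 → ℂ) (p : Fin 4 → Fin 4)
    (t : Fin 4 → A) (C : ℂ) (H : A → ℂ), HDat G ϑ y p t C H → ∀ x, G.W₁ x = G.W₂ x →
    (∀ j, G.o (x + t j) = 0) ∧ H x ≠ 0 ∧ ∃ e : ℤ, H (x + (G.P + G.R)) = G.η ^ e * H x / C ∧
      ∀ w, G.W₁ x = cl G.γ G.β w → (∀ j, w + y j ∉ lat2 G.γ G.β) → e = 0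

/-- The inverse of a balanced product is a balanced product. -/
def SwSt : Prop :=
  ∀ (A : Type) [AddCommGroup A] (G : Geo A) (ϑ : ℂ → ℂ) (y : Fin 4 → ℂ) (p : Fin 4 → Fin 4)
    (t : Fin 4 → A) (C : ℂ) (H : A → ℂ), HDat G ϑ y p t C H →
    HDat G ϑ (fun j => y (j + 2)) (fun j => p (j + 2) + 2) (fun j => t (j + 2)) C⁻¹
      fun x => (H x)⁻¹

/-- Summation over the orbits of a translation. -/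
def VLSt : Prop :=
  ∀ (A : Type) [AddCommGroup A] (hgt : A →+ ℝ) (T : A), hgt T < 0 →
    ∀ (ω : A → ℤ) (h₀ h₁ : ℝ), (∀ x, hgt x < h₀ → ω x = 0) → (∀ x, h₁ < hgt x → ω x = 1) →
    ∀ {κ : Type} (s : Finset κ) (d : κ → A) (D : A → Prop) (φ : A → ℂ) (ψ : κ → ℂ) (η b : ℂ)
      (O : ValuationSubring ℂ), O.valuation η = 1 →
      (∀ x, D x → ∃ g ∈ s, ∃ k : ℤ, x = d g + k • T) →
      (∀ g ∈ s, ∀ g' ∈ s, ∀ k : ℤ, d g = d g' + k • T → g = g') →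
      (∀ g ∈ s, ∀ k : ℤ, D (d g + k • T) ∧ ∃ j : ℤ, φ (d g + k • T) = η ^ j * ψ g) →
      (∀ g ∈ s, O.valuation (ψ g) ≤ O.valuation b) →
      O.valuation ((∑ᶠ x, if D x then ((ω (x - T) - ω x : ℤ) : ℂ) * φ x else 0) - ∑ g ∈ s, ψ g) ≤
        O.valuation (η - 1) * O.valuation b

variable {K : Type} [Field K] [CharZero K]

/-- An adapted basis of `L` for the functionals `a` and `a ε⁻¹`. -/
structure Dat (ρ : K →+* ℝ) (σ : K →+* ℂ) (ε : K) (L : Submodule ℤ K) (a : K →ₗ[ℚ] ℚ)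
    (α β γ : K) (s : ℕ) : Prop where
  eps : Eps ρ σ ε
  lat : ELat ε L
  fn : Fn ρ σ a
  s_ne : s ≠ 0
  ori : Ori σ γ a (tw a ε⁻¹)
  aα : a α = 1
  aβ : a β = 0
  bβ : tw a ε⁻¹ β = s
  bas : ∀ x, x ∈ L ↔ ∃ i j k : ℤ, x = i * α + j * β + k * γ

/-- Exact parameters. -/
structure Par (ε : K) (L : Submodule ℤ K) (a : K →ₗ[ℚ] ℚ) (y : Fin 4 → K) (p : Fin 4 → Fin 4)
    (n₀ : ℤ) : Prop where
  bal : y 0 + y 1 = y 2 + y 3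
  inv : ∀ j, p (p j) = j
  blk : ∀ j, (p j).val < 2 ↔ j.val < 2
  mem : ∀ j, y (p j) - ε⁻¹ * y j ∈ L
  val : ∀ j, a (y (p j) - ε⁻¹ * y j) = n₀
  sw : ∀ j, p j ≠ j → y j - y (p j) ∉ L
  mix : ∀ j k : Fin 4, j.val < 2 → 2 ≤ k.val → y j - y k ∉ L
  sep₁ : a (y 0 - y 1) ≠ 0
  sep₂ : a (y 2 - y 3) ≠ 0

/-- The elliptic gamma function on the component `n`. -/
noncomputable def FF (σ : K →+* ℂ) (ε : K) (L : Submodule ℤ K) (a : K →ₗ[ℚ] ℚ) (γ : K) (w : ℂ)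
    (n : ℤ) : ℂ :=
  ph σ γ (coset L 0) (hs a 0) (hs (tw a ε⁻¹) (-n)) w

/-- The logarithmic normalisation of `FF`. -/
noncomputable def GG (σ : K →+* ℂ) (ε : K) (L : Submodule ℤ K) (a : K →ₗ[ℚ] ℚ) (γ : K) (w : ℂ)
    (n : ℤ) : ℝ :=
  nn σ γ (coset L 0 ∩ (hs a 0 \ hs (tw a ε⁻¹) (-n))) w -
    nn σ (-γ) (coset L 0 ∩ (hs (tw a ε⁻¹) (-n) \ hs a 0)) w

/-- The balanced product. -/
noncomputable def HH (σ : K →+* ℂ) (ε : K) (L : Submodule ℤ K) (a : K →ₗ[ℚ] ℚ) (γ : K)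
    (y : Fin 4 → K) (n₀ : ℤ) (w : ℂ) (n : ℤ) : ℂ :=
  FF σ ε L a γ (w + σ (y 0)) (n + n₀) * FF σ ε L a γ (w + σ (y 1)) (n + n₀) /
    (FF σ ε L a γ (w + σ (y 2)) (n + n₀) * FF σ ε L a γ (w + σ (y 3)) (n + n₀))

/-- Choice of the parameters. -/
def ParSt (ρ : K →+* ℝ) (σ : K →+* ℂ) : Prop :=
  ∀ ε L, Eps ρ σ ε → ELat ε L → ∀ y₁ y₂ y₃ y₄ : K, St2 ε L y₁ y₂ → St2 ε L y₃ y₄ →
    y₁ + y₂ - (y₃ + y₄) ∈ L → y₁ - y₃ ∉ L → y₁ - y₄ ∉ L → y₂ - y₃ ∉ L → y₂ - y₄ ∉ L →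
    ∃ (a : K →ₗ[ℚ] ℚ) (α β γ : K) (s : ℕ) (y : Fin 4 → K) (p : Fin 4 → Fin 4) (n₀ : ℤ),
      Dat ρ σ ε L a α β γ s ∧ Par ε L a y p n₀ ∧
      y 0 + y₁ ∈ L ∧ y 1 + y₂ ∈ L ∧ y 2 + y₃ ∈ L ∧ y 3 + y₄ ∈ L

/-- Divisor and invariance of `FF`. -/
def OrdSt (ρ : K →+* ℝ) (σ : K →+* ℂ) : Prop :=
  ∀ ε L a α β γ s, Dat ρ σ ε L a α β γ s →
    (∀ m ∈ L, a m = 0 → ∀ k : ℤ, tw a ε⁻¹ m = k → ∀ w n,
      FF σ ε L a γ (w + σ m) (n - k) = FF σ ε L a γ w n) ∧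
    ∀ w (n : ℤ), MeromorphicAt (fun z => FF σ ε L a γ (w + z) n) 0 ∧
      meromorphicOrderAt (fun z => FF σ ε L a γ (w + z) n) 0 =
        (((if ∃ x ∈ L, w = σ x ∧ 0 < a x ∧ tw a ε⁻¹ x + n ≤ 0 then 1
          else if ∃ x ∈ L, w = σ x ∧ a x ≤ 0 ∧ 0 < tw a ε⁻¹ x + n then -1 else 0 : ℤ)) :
            WithTop ℤ) ∧
      ((¬ ∃ x ∈ L, w = σ x ∧ a x ≤ 0 ∧ 0 < tw a ε⁻¹ x + n) →
        AnalyticAt ℂ (fun z => FF σ ε L a γ (w + z) n) 0)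

/-- The multipliers of the balanced product. -/
def MulSt (ρ : K →+* ℝ) (σ : K →+* ℂ) : Prop :=
  ∀ ε L a α β γ s, Dat ρ σ ε L a α β γ s → ∀ y p n₀, Par ε L a y p n₀ →
    ∃ (ϑ : ℂ → ℂ) (C : ℂ), IsTh (σ γ) (σ β) ϑ ∧ EK σ C ∧
      (∀ c : ℤ, tw a ε⁻¹ α = c → ∀ w n, (∀ j, w + σ (y j) ∉ lat2 (σ γ) (σ β)) →
        HH σ ε L a γ y n₀ (w + σ α) (n - c) = r0 ϑ (fun j => σ (y j)) w * HH σ ε L a γ y n₀ w n) ∧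
      ∀ w (n : ℤ), (∀ j, σ ε⁻¹ * w + n * σ α + σ (y j) ∉ lat2 (σ γ) (σ β)) →
        HH σ ε L a γ y n₀ w (n + 1) =
          HH σ ε L a γ y n₀ w n / (C * r0 ϑ (fun j => σ (y j)) (σ ε⁻¹ * w + n * σ α))

/-- The shape of the logarithmic normalisation. -/
def AffSt (ρ : K →+* ℝ) (σ : K →+* ℂ) : Prop :=
  ∀ ε L a α β γ s, Dat ρ σ ε L a α β γ s → ∀ c₁ c₂ : ℝ,
    (∀ x, (σ x / σ γ).im = c₁ * a x + c₂ * tw a ε⁻¹ x) →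
    ∃ (e₀ e₁ : ℝ) (d₂ d₃ : ℤ → ℝ), ∀ w (n : ℤ), GG σ ε L a γ w n =
      d₃ n + d₂ n * (w / σ γ).im + (e₁ + e₀ * c₂ * n) * (w / σ γ).im ^ 2 / 2 +
        e₀ * (w / σ γ).im ^ 3 / 6

/-- The values of the balanced product at a point and at its mirror image. -/
def HPSt (ρ : K →+* ℝ) (σ : K →+* ℂ) : Prop :=
  ∀ ε L a α β γ s, Dat ρ σ ε L a α β γ s → ∀ y p n₀, Par ε L a y p n₀ →
    ∃ l c : ℝ, ∀ (z z' : K) (n n' : ℤ), z' - ε⁻¹ * z ∈ L → z - ε⁻¹ * z' ∈ L →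
      a (z' - ε⁻¹ * z) = n → a (z - ε⁻¹ * z') = n' →
      (∀ j, z + y j ∈ L → (0 < a (z + y j) ↔ 0 < a (z' + y (p j)))) →
      ∃ (i : ℤ) (ζ u : ℂ), Mu ζ ∧ EK σ u ∧ Real.log (‖u‖ ^ 2) = l * (a z + a z') + c ∧
        HH σ ε L a γ y n₀ (σ z) n * HH σ ε L a γ y n₀ (σ z') n' =
          u * ζ * σ ε ^ i * mono ρ σ ε L (-y 0) (-y 1) (-y 2) (-y 3) (-z) ∧
        ((∀ j, z + y j ∉ L) → i = 0)

/-- The points of `A` with coordinates in `K`. -/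
structure Pts (σ : K →+* ℂ) (ε : K) (L : Submodule ℤ K) (a : K →ₗ[ℚ] ℚ) (G : Geo A)
    (pt : K → K → A) : Prop where
  η_eq : G.η = σ ε⁻¹
  add : ∀ z z' u u', z' - ε⁻¹ * z ∈ L → u' - ε⁻¹ * u ∈ L →
    pt (z + u) (z' + u') = pt z z' + pt u u'
  lat : ∀ z z' (i j : ℤ), z' - ε⁻¹ * z ∈ L →
    (pt z z' = i • G.P + j • G.R ↔ z ∈ L ∧ a z = i ∧ a z' = j)
  W₁ : ∀ z z', z' - ε⁻¹ * z ∈ L → G.W₁ (pt z z') = cl G.γ G.β (σ z)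
  W₂ : ∀ z z', z' - ε⁻¹ * z ∈ L → G.W₂ (pt z z') = cl G.γ G.β (σ z')
  mem : ∀ z, σ z ∈ lat2 G.γ G.β ↔ z ∈ L ∧ a z = 0
  diag : ∀ x, G.W₁ x = G.W₂ x → ∃ z, z - ε⁻¹ * z ∈ L ∧ x = pt z z
  anti : ∀ x Z, G.W₁ x + G.W₂ x = cl G.γ G.β (σ Z) →
    ∃ z, Z - z - ε⁻¹ * z ∈ L ∧ x = pt z (Z - z)

/-- The concrete model. -/
def InstSt (ρ : K →+* ℝ) (σ : K →+* ℂ) : Prop :=
  ∀ ε L a α β γ s, Dat ρ σ ε L a α β γ s → ∀ y p n₀, Par ε L a y p n₀ →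
    ∃ (A : Type) (_ : AddCommGroup A) (G : Geo A) (pt : K → K → A) (ϑ : ℂ → ℂ) (C : ℂ)
      (H : A → ℂ), Pts σ ε L a G pt ∧ EK σ C ∧
      HDat G ϑ (fun j => σ (y j)) p (fun j => pt (y j) (y (p j))) C H ∧
      ∀ z z' (n : ℤ), z' - ε⁻¹ * z ∈ L → a (z' - ε⁻¹ * z) = n →
        H (pt z z') = HH σ ε L a γ y n₀ (σ z) n

end Pool.Agent.CU.O
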