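import Pool.Agent.Lib.MP_ca56d1_nt.CU.O.Strip
import Pool.Agent.Lib.MP_ca56d1_nt.CU.O.St

/-! The residue lemma on a finite union of cylinders. -/

namespace Pool.Agent.CU

open Complex Filter Topology Metric
open scoped Real Classical

theorem int_eq_zero_of_re {w w' : ℂ} {k : ℤ} (h0 : 0 ≤ w.re) (h1 : w.re < 1) (h0' : 0 ≤ w'.re)
    (h1' : w'.re < 1) (h : w = w' + k) : w = w' := by
  have h2 := congrArg Complex.re h
  rw [add_re, intCast_re] at h2
  have h3 : (k : ℝ) < 1 := by linarith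
  have h4 : (-1 : ℝ) < k := by linarith
  have h5 : k < 1 := by exact_mod_cast h3
  have h6 : -1 < k := by exact_mod_cast h4
  have h7 : k = 0 := by omega
  simp [h, h7]

theorem finite_not_analyticAt {f : ℂ → ℂ} (hf : Meromorphic f) {C : Set ℂ} (hC : IsCompact C) :
    {w | w ∈ C ∧ ¬ AnalyticAt ℂ f w}.Finite := by
  obtain ⟨t, -, ht⟩ := hC.elim_nhds_subcover (fun z => {w | w ≠ z → AnalyticAt ℂ f w})
    fun z _ => eventually_nhdsWithin_iff.mp (hf z).eventually_analyticAt
  refine t.finite_toSet.subset fun w hw => ?_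
  obtain ⟨z, hz, hwz⟩ := Set.mem_iUnion₂.mp (ht hw.1)
  by_cases h : w = z
  · rw [h]; exact hz
  · exact absurd (hwz h) hw.2

theorem finite_box {f : ℂ → ℂ} (hf : Meromorphic f) (a b : ℝ) :
    {w : ℂ | 0 ≤ w.re ∧ w.re < 1 ∧ a ≤ w.im ∧ w.im ≤ b ∧ ¬ AnalyticAt ℂ f w}.Finite := by
  refine (finite_not_analyticAt hf (isCompact_Icc.reProdIm isCompact_Icc :
    IsCompact (Set.Icc (0 : ℝ) 1 ×ℂ Set.Icc a b))).subset fun w hw => ?_
  exact ⟨⟨⟨hw.1, hw.2.1.le⟩, hw.2.2.1, hw.2.2.2.1⟩, hw.2.2.2.2⟩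

theorem analyticAt_of_per {f : ℂ → ℂ} (hp : ∀ w, f (w + 1) = f w) {w : ℂ} (k : ℤ)
    (h : AnalyticAt ℂ f (w + k)) : AnalyticAt ℂ f w := by
  have := AnalyticAt.comp (f := fun w : ℂ => w + k) h (by fun_prop)
  simpa only [Function.comp_def, per_int hp] using this

theorem li_shift {g : ℂ → ℂ} (hp : ∀ w, g (w + 1) = g w) (u : ℂ) (h : ℝ) :
    li (fun w => g (w + u)) h = li g (h + u.im) := by
  have p : Function.Periodic (fun t : ℝ => g (t + ((h + u.im : ℝ) : ℂ) * I)) 1 := fun t => by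
    beta_reduce
    rw [← hp (t + _)]; congr 1; push_cast; ring
  have h1 := p.intervalIntegral_add_eq u.re 0
  rw [zero_add] at h1
  rw [li, li, ← h1, add_comm u.re 1]
  have h2 := intervalIntegral.integral_comp_add_right
    (fun t : ℝ => g (t + ((h + u.im : ℝ) : ℂ) * I)) (a := 0) (b := 1) u.re
  rw [zero_add] at h2
  rw [← h2]
  congr 1
  funext t
  congr 1
  conv_lhs => rw [← re_add_im u]
  push_cast; ring

theorem res_of_tendsto {g : ℂ → ℂ} {c : ℂ} (hg : MeromorphicAt g 0)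
    (h : Tendsto (fun z => z * g z) (𝓝[≠] 0) (𝓝 c)) : res g 0 = c := by
  have h1 : MeromorphicAt (fun z => z * g z) 0 := (MeromorphicAt.id 0).fun_mul hg
  obtain ⟨G, hG, hGe⟩ := rem_of_order h1
    ((tendsto_nhds_iff_meromorphicOrderAt_nonneg h1).mp ⟨c, h⟩)
  have h2 : G 0 = c := tendsto_nhds_unique
    ((hG.continuousAt.tendsto.mono_left nhdsWithin_le_nhds).congr' hGe.symm) h
  rw [← h2]
  refine res_simple hG ?_
  filter_upwards [hGe, self_mem_nhdsWithin] with w h3 h4
  have h5 : w ≠ 0 := h4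
  rw [← h3, sub_zero]
  field_simp

variable {A : Type} [AddCommGroup A]

/-- A finite union of cylinders of period one. -/
structure Cyl (ι : ℂ →+ A) (hgt : A →+ ℝ) : Prop where
  ker : ∀ z, ι z = 0 ↔ ∃ k : ℤ, z = k
  fin : Finite (A ⧸ ι.range)
  hgt_ι : ∀ z, hgt (ι z) = z.im

/-- `f` is meromorphic on all cylinders. -/
def MerC (ι : ℂ →+ A) (f : A → ℂ) : Prop := ∀ x, MeromorphicAt (fun z => f (x + ι z)) 0

/-- The residue at a point of `A`. -/
noncomputable def resC (ι : ℂ →+ A) (f : A → ℂ) (x : A) : ℂ := res (fun z => f (x + ι z)) 0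

variable {ι : ℂ →+ A} {hgt : A →+ ℝ}

theorem MerC.mer {f : A → ℂ} (h : MerC ι f) (x : A) : Meromorphic fun z => f (x + ι z) := by
  intro w
  have a : MeromorphicAt (fun z => f (x + ι w + ι z)) (w + -w) := by
    rw [add_neg_cancel]; exact h _
  have := a.comp_analyticAt (g := fun z => z + -w) (x := w) (by fun_prop)
  simpa [Function.comp_def, add_assoc] using this

theorem MerC.shift {f : A → ℂ} (h : MerC ι f) (u : A) : MerC ι fun x => f (x + u) := fun x => by
  simpa only [add_right_comm x u] using h (x + u)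

theorem resC_shift (f : A → ℂ) (u x : A) : resC ι (fun x => f (x + u)) x = resC ι f (x + u) := by
  simp only [resC, add_right_comm x u]

theorem resC_eq (f : A → ℂ) (x : A) (w : ℂ) :
    resC ι f (x + ι w) = res (fun z => f (x + ι z)) w := by
  have := res_shift (fun z => f (x + ι z)) 0 w
  rw [zero_add] at this
  rw [← this, resC]
  simp only [map_add, add_assoc, add_comm (ι w)]

theorem Cyl.per (C : Cyl ι hgt) (f : A → ℂ) (x : A) (w : ℂ) : f (x + ι (w + 1)) = f (x + ι w) := by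
  rw [map_add, (C.ker 1).mpr ⟨1, by simp⟩, add_zero]

theorem Cyl.exists_fd (C : Cyl ι hgt) (x : A) : ∃ (q : A ⧸ ι.range) (w : ℂ), 0 ≤ w.re ∧ w.re < 1 ∧
    x = q.out + ι w := by
  obtain ⟨⟨_, w, rfl⟩, hl⟩ := QuotientAddGroup.mk_out_eq_add ι.range x
  refine ⟨QuotientAddGroup.mk x, -w - ⌊(-w).re⌋, ?_, ?_, ?_⟩
  · rw [sub_re, intCast_re, sub_nonneg]; exact Int.floor_le _
  · rw [sub_re, intCast_re, sub_lt_iff_lt_add']; exact Int.lt_floor_add_one _
  · rw [hl, map_sub, (C.ker _).mpr ⟨_, rfl⟩, map_neg]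
    abel

theorem Cyl.fd_inj (C : Cyl ι hgt) {q q' : A ⧸ ι.range} {w w' : ℂ} (h0 : 0 ≤ w.re) (h1 : w.re < 1)
    (h0' : 0 ≤ w'.re) (h1' : w'.re < 1) (h : q.out + ι w = q'.out + ι w') : q = q' ∧ w = w' := by
  have a : ∀ (q : A ⧸ ι.range) (w : ℂ), (QuotientAddGroup.mk (q.out + ι w) : A ⧸ ι.range) = q := by
    intro q w
    rw [QuotientAddGroup.mk_add_of_mem _ (AddMonoidHom.mem_range.mpr ⟨w, rfl⟩), QuotientAddGroup.out_eq']
  have b : q = q' := by rw [← a q w, h, a]
  subst b
  obtain ⟨k, hk⟩ := (C.ker (w - w')).mp (by rw [map_sub, add_left_cancel h, sub_self])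
  exact ⟨rfl, int_eq_zero_of_re (k := k) h0 h1 h0' h1' (by linear_combination hk)⟩

theorem Cyl.finite (C : Cyl ι hgt) {f : A → ℂ} (h : MerC ι f) (a b : ℝ) :
    {x : A | a ≤ hgt x ∧ hgt x ≤ b ∧ resC ι f x ≠ 0}.Finite := by
  have := C.fin
  have h1 : (⋃ q : A ⧸ ι.range, (fun w : ℂ => q.out + ι w) ''
      {w : ℂ | 0 ≤ w.re ∧ w.re < 1 ∧ a - hgt q.out ≤ w.im ∧ w.im ≤ b - hgt q.out ∧
        ¬ AnalyticAt ℂ (fun z => f (q.out + ι z)) w}).Finite :=
    Set.finite_iUnion fun q => (finite_box (h.mer _) _ _).image _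
  refine h1.subset fun x hx => ?_
  obtain ⟨q, w, h0, h1, rfl⟩ := C.exists_fd x
  obtain ⟨h2, h3, h4⟩ := hx
  rw [map_add, C.hgt_ι] at h2 h3
  rw [resC_eq] at h4
  exact Set.mem_iUnion.mpr ⟨q, w,
    ⟨h0, h1, by linarith, by linarith, fun ha => h4 (res_of_analyticAt ha)⟩, rfl⟩

/-- The indicator function of the points above the height `h`. -/
noncomputable def above (hgt : A →+ ℝ) (h : ℝ) (x : A) : ℤ := if h < hgt x then 1 else 0

/-- The integral at height `h` over the cylinder through `x`. -/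
noncomputable def liK (ι : ℂ →+ A) (hgt : A →+ ℝ) (f : A → ℂ) (h : ℝ) (x : A) : ℂ :=
  li (fun z => f (x + ι z)) (h - hgt x)

/-- The integral over the contour at height `h`. -/
noncomputable def liC (ι : ℂ →+ A) [Fintype (A ⧸ ι.range)] (hgt : A →+ ℝ) (f : A → ℂ) (h : ℝ) : ℂ :=
  ∑ q : A ⧸ ι.range, liK ι hgt f h q.out

/-- The contour at height `h` avoids the singularities. -/
def GenH (ι : ℂ →+ A) (hgt : A →+ ℝ) (f : A → ℂ) (h : ℝ) : Prop :=
  ∀ x, hgt x = h → AnalyticAt ℂ (fun z => f (x + ι z)) 0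

theorem analyticAt_shift {f : A → ℂ} {x : A} {w : ℂ} :
    AnalyticAt ℂ (fun z => f (x + ι w + ι z)) 0 ↔ AnalyticAt ℂ (fun z => f (x + ι z)) w := by
  constructor
  · intro h
    have a : AnalyticAt ℂ (fun z => f (x + ι w + ι z)) (w + -w) := by rwa [add_neg_cancel]
    have := AnalyticAt.comp (f := fun z => z + -w) (x := w) a (by fun_prop)
    simpa [Function.comp_def, add_assoc] using this
  · intro h
    have a : AnalyticAt ℂ (fun z => f (x + ι z)) (w + 0) := by rwa [add_zero]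
    have := AnalyticAt.comp (f := fun z => w + z) (x := 0) a (by fun_prop)
    simpa [Function.comp_def, add_assoc] using this

theorem GenH.line (C : Cyl ι hgt) {f : A → ℂ} {h : ℝ} (g : GenH ι hgt f h) (x : A) (t : ℝ) :
    AnalyticAt ℂ (fun z => f (x + ι z)) (t + ((h - hgt x : ℝ) : ℂ) * I) :=
  analyticAt_shift.mp (g _ (by rw [map_add, C.hgt_ι]; simp))

theorem liC_sub_lt [Fintype (A ⧸ ι.range)] (C : Cyl ι hgt) {f : A → ℂ} (h : MerC ι f) {h₀ h₁ : ℝ}
    (hlt : h₀ < h₁) (g₀ : GenH ι hgt f h₀) (g₁ : GenH ι hgt f h₁) :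
    liC ι hgt f h₀ - liC ι hgt f h₁ = 2 * π * I *
      ∑ᶠ x, ((above hgt h₀ x - above hgt h₁ x : ℤ) : ℂ) * resC ι f x := by
  have hfin : ∀ q : A ⧸ ι.range, {w : ℂ | 0 ≤ w.re ∧ w.re < 1 ∧ h₀ - hgt q.out < w.im ∧
      w.im < h₁ - hgt q.out ∧ ¬ AnalyticAt ℂ (fun z => f (q.out + ι z)) w}.Finite := fun q =>
    (finite_box (h.mer _) (h₀ - hgt q.out) (h₁ - hgt q.out)).subset fun w hw =>
      ⟨hw.1, hw.2.1, hw.2.2.1.le, hw.2.2.2.1.le, hw.2.2.2.2⟩
  rw [finsum_eq_sum_of_support_subset (s := (Finset.univ.sigma fun q => (hfin q).toFinset).image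
    fun a => a.1.out + ι a.2), Finset.sum_image, Finset.sum_sigma, liC, liC,
    ← Finset.sum_sub_distrib, Finset.mul_sum]
  · refine Finset.sum_congr rfl fun q _ => ?_
    rw [liK, liK, strip_res (h.mer _) (C.per f _) (by linarith) (g₀.line C _) (g₁.line C _)
      (hfin q).toFinset]
    · congr 1
      refine Finset.sum_congr rfl fun w hw => ?_
      rw [Set.Finite.mem_toFinset] at hw
      have a : h₀ < hgt (q.out + ι w) := by rw [map_add, C.hgt_ι]; linarith [hw.2.2.1]
      have b : ¬ h₁ < hgt (q.out + ι w) := by rw [map_add, C.hgt_ι]; linarith [hw.2.2.2.1]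
      rw [above, above, if_pos a, if_neg b, resC_eq]
      simp
    · intro p hp
      rw [Set.Finite.mem_toFinset] at hp
      exact ⟨hp.2.2.1, hp.2.2.2.1⟩
    · intro p hp q hq k hk
      rw [Set.Finite.mem_toFinset] at hp hq
      exact int_eq_zero_of_re hp.1 hp.2.1 hq.1 hq.2.1 hk
    · intro w a b hw
      by_contra hn
      refine hw (w - ⌊w.re⌋) ?_ ⌊w.re⌋ (by ring)
      rw [Set.Finite.mem_toFinset]
      refine ⟨?_, ?_, by simpa using a, by simpa using b, fun ha => hn ?_⟩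
      · rw [sub_re, intCast_re, sub_nonneg]; exact Int.floor_le _
      · rw [sub_re, intCast_re, sub_lt_iff_lt_add']; exact Int.lt_floor_add_one _
      · refine analyticAt_of_per (C.per f _) (-⌊w.re⌋) ?_
        simpa [sub_eq_add_neg] using ha
  · rintro ⟨q, w⟩ ha ⟨q', w'⟩ hb hab
    rw [Finset.mem_coe, Finset.mem_sigma, Set.Finite.mem_toFinset] at ha hb
    obtain ⟨rfl, rfl⟩ := C.fd_inj ha.2.1 ha.2.2.1 hb.2.1 hb.2.2.1 hab
    rfl
  · intro x hx
    obtain ⟨q, w, h0, h1, rfl⟩ := C.exists_fd x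
    obtain ⟨x1, x2⟩ := mul_ne_zero_iff.mp hx
    have hna : ¬ AnalyticAt ℂ (fun z => f (q.out + ι z)) w := fun ha =>
      x2 (by rw [resC_eq]; exact res_of_analyticAt ha)
    rw [Finset.coe_image]
    refine ⟨⟨q, w⟩, ?_, rfl⟩
    rw [Finset.mem_coe, Finset.mem_sigma, Set.Finite.mem_toFinset]
    have e1 : hgt (q.out + ι w) = hgt q.out + w.im := by rw [map_add, C.hgt_ι]
    refine ⟨Finset.mem_univ _, h0, h1, ?_, ?_, hna⟩
    · by_contra a
      have a' : ¬ h₀ < hgt (q.out + ι w) := by rw [e1]; intro a'; exact a (by linarith)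
      have b' : ¬ h₁ < hgt (q.out + ι w) := fun b' => a' (hlt.trans b')
      rw [above, above, if_neg a', if_neg b'] at x1
      simp at x1
    · by_contra b
      rcases (not_lt.mp b).eq_or_lt with b | b
      · exact hna (analyticAt_shift.mp (g₁ _ (by rw [e1]; linarith)))
      · have b' : h₁ < hgt (q.out + ι w) := by rw [e1]; linarith
        rw [above, above, if_pos b', if_pos (hlt.trans b')] at x1
        simp at x1

theorem liC_sub [Fintype (A ⧸ ι.range)] (C : Cyl ι hgt) {f : A → ℂ} (h : MerC ι f) {h₀ h₁ : ℝ}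
    (g₀ : GenH ι hgt f h₀) (g₁ : GenH ι hgt f h₁) :
    liC ι hgt f h₀ - liC ι hgt f h₁ = 2 * π * I *
      ∑ᶠ x, ((above hgt h₀ x - above hgt h₁ x : ℤ) : ℂ) * resC ι f x := by
  rcases lt_trichotomy h₀ h₁ with hlt | rfl | hlt
  · exact liC_sub_lt C h hlt g₀ g₁
  · simp
  · have := liC_sub_lt C h hlt g₁ g₀
    rw [← neg_sub, this, ← mul_neg, ← finsum_neg_distrib]
    congr 2
    funext x
    push_cast; ring

theorem liK_add (C : Cyl ι hgt) (f : A → ℂ) (h : ℝ) (x : A) (u : ℂ) :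
    liK ι hgt f h (x + ι u) = liK ι hgt f h x := by
  have := li_shift (g := fun z => f (x + ι z)) (C.per f x) u (h - hgt (x + ι u))
  rw [map_add hgt, C.hgt_ι, show h - (hgt x + u.im) + u.im = h - hgt x by ring] at this
  rw [liK, liK, ← this, map_add hgt, C.hgt_ι]
  simp only [map_add, add_assoc, add_comm (ι u)]

theorem liC_shift [Fintype (A ⧸ ι.range)] (C : Cyl ι hgt) (f : A → ℂ) (u : A) (t : ℝ) :
    liC ι hgt (fun x => f (x + u)) t = liC ι hgt f (t + hgt u) := by
  refine Fintype.sum_equiv (Equiv.addRight (QuotientAddGroup.mk u)) _ _ fun q => ?_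
  obtain ⟨⟨_, w, rfl⟩, hl⟩ := QuotientAddGroup.mk_out_eq_add ι.range (q.out + u)
  rw [QuotientAddGroup.mk_add, QuotientAddGroup.out_eq'] at hl
  rw [Equiv.coe_addRight, hl, liK_add C, liK, liK, map_add hgt]
  simp only [add_right_comm q.out u]
  congr 1
  ring

theorem exists_genH (C : Cyl ι hgt) {J : Type} [Fintype J] (f : J → A → ℂ)
    (hf : ∀ i, MerC ι (f i)) : ∃ h : ℝ, ∀ i, GenH ι hgt (f i) h := by
  have := C.fin
  have h1 : (⋃ i : J, ⋃ q : A ⧸ ι.range, (fun w : ℂ => hgt q.out + w.im) ''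
      {z | AnalyticAt ℂ (fun z => f i (q.out + ι z)) z}ᶜ).Countable :=
    Set.countable_iUnion fun i => Set.countable_iUnion fun q =>
      ((hf i).mer _).countable_compl_analyticAt.image _
  obtain ⟨h, hh⟩ := h1.dense_compl ℝ |>.nonempty
  refine ⟨h, fun i x hx => ?_⟩
  obtain ⟨q, w, -, -, rfl⟩ := C.exists_fd x
  rw [map_add, C.hgt_ι] at hx
  by_contra hn
  exact hh (Set.mem_iUnion.mpr ⟨i, Set.mem_iUnion.mpr
    ⟨q, w, fun ha => hn (analyticAt_shift.mpr ha), hx⟩⟩)

theorem finite_jump (C : Cyl ι hgt) {f : A → ℂ} (h : MerC ι f) {δ : A → ℤ} {B : ℝ}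
    (hδ : ∀ x, B < |hgt x| → δ x = 0) :
    (Function.support fun x => (δ x : ℂ) * resC ι f x).Finite := by
  refine (C.finite h (-B) B).subset fun x hx => ?_
  obtain ⟨a, b⟩ := mul_ne_zero_iff.mp hx
  have : |hgt x| ≤ B := not_lt.mp fun hB => a (by rw [hδ _ hB, Int.cast_zero])
  exact ⟨(abs_le.mp this).1, (abs_le.mp this).2, b⟩

theorem jump_zero {B : ℝ} {ω : A → ℤ} (hi : ∀ x, B < hgt x → ω x = 1)
    (lo : ∀ x, hgt x < -B → ω x = 0) (u x : A) (hx : |B| + |hgt u| < |hgt x|) :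
    ω (x - u) - ω x = 0 := by
  have a := le_abs_self B
  have b := le_abs_self (hgt u)
  have d := neg_abs_le (hgt u)
  have e := abs_nonneg (hgt u)
  rcases lt_abs.mp hx with hx | hx
  · rw [hi _ (by rw [map_sub]; linarith), hi _ (by linarith), sub_self]
  · rw [lo _ (by rw [map_sub]; linarith), lo _ (by linarith), sub_self]

/-- The residue lemma for cylinders of period one. -/
theorem resLemma (C : Cyl ι hgt) {J : Type} [Fintype J] (f : J → A → ℂ) (hf : ∀ i, MerC ι (f i))
    (τ : J → A) (e : J → ℂ)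
    (rel : ∀ x, ∀ᶠ z in 𝓝[≠] (0 : ℂ), ∑ i, e i * (f i (x + τ i + ι z) - f i (x + ι z)) = 0)
    (ω : A → ℤ) (B : ℝ) (hi : ∀ x, B < hgt x → ω x = 1) (lo : ∀ x, hgt x < -B → ω x = 0) :
    (∀ i, (Function.support fun x => ((ω (x - τ i) - ω x : ℤ) : ℂ) * resC ι (f i) x).Finite) ∧
    ∑ i, e i * ∑ᶠ x, ((ω (x - τ i) - ω x : ℤ) : ℂ) * resC ι (f i) x = 0 := by
  refine ⟨fun i => finite_jump C (hf i) (δ := fun x => ω (x - τ i) - ω x)
    (jump_zero hi lo (τ i)), ?_⟩
  have := C.fin
  have := Fintype.ofFinite (A ⧸ ι.range)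
  obtain ⟨h, hh⟩ := exists_genH C
    (fun p : J × Bool => if p.2 then f p.1 else fun x => f p.1 (x + τ p.1))
    (fun p => by
      split_ifs
      · exact hf _
      · exact (hf _).shift _)
  have g0 : ∀ i, GenH ι hgt (f i) h := fun i => by simpa using hh (i, true)
  have g1 : ∀ i, GenH ι hgt (fun x => f i (x + τ i)) h := fun i => by simpa using hh (i, false)
  have g2 : ∀ i, GenH ι hgt (f i) (h + hgt (τ i)) := by
    intro i x hx
    have a := g1 i (x - τ i) (by rw [map_sub, hx]; ring)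
    simpa only [add_right_comm (x - τ i), sub_add_cancel] using a
  have loc : ∀ x, ∑ i, e i * (resC ι (f i) (x + τ i) - resC ι (f i) x) = 0 := by
    intro x
    have a := HasRes.sum Finset.univ (z := 0) fun i _ =>
      ((hasRes_res (hf i (x + τ i))).sub (hasRes_res (hf i x))).const_mul (e i)
    exact eq_zero_of_hasRes_zero (a.congr (rel x))
  have glob : ∑ i, e i * ∑ᶠ x,
      ((above hgt h (x - τ i) - above hgt h x : ℤ) : ℂ) * resC ι (f i) x = 0 := by
    have a : ∀ i x, above hgt h (x - τ i) = above hgt (h + hgt (τ i)) x := fun i x => by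
      simp only [above, map_sub, lt_sub_iff_add_lt]
    refine mul_left_cancel₀ two_pi_I_ne ?_
    rw [mul_zero, Finset.mul_sum]
    simp only [a]
    have b : ∀ i, 2 * π * I * (e i * ∑ᶠ x,
        ((above hgt (h + hgt (τ i)) x - above hgt h x : ℤ) : ℂ) * resC ι (f i) x) =
        ∑ q : A ⧸ ι.range, li (fun w => e i * (f i (q.out + ι w + τ i) - f i (q.out + ι w)))
          (h - hgt q.out) := fun i => by
      rw [mul_left_comm, ← liC_sub C (hf i) (g2 i) (g0 i), ← liC_shift C, liC, liC,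
        ← Finset.sum_sub_distrib, Finset.mul_sum]
      refine Finset.sum_congr rfl fun q _ => ?_
      rw [li_const_mul, li_sub ((g1 i).line C _) ((g0 i).line C _), liK, liK]
    simp only [b]
    rw [Finset.sum_comm]
    refine Finset.sum_eq_zero fun q _ => ?_
    have an : ∀ i (t : ℝ), AnalyticAt ℂ
        (fun w => e i * (f i (q.out + ι w + τ i) - f i (q.out + ι w)))
        (t + ((h - hgt q.out : ℝ) : ℂ) * I) := fun i t =>
      analyticAt_const.fun_mul (((g1 i).line C _ t).fun_sub ((g0 i).line C _ t))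
    rw [← li_sum _ fun i _ => an i, li]
    have z : ∀ x, hgt x = h → ∑ i, e i * (f i (x + τ i) - f i x) = 0 := fun x hx => by
      have c1 := (Finset.analyticAt_fun_sum Finset.univ fun i _ =>
        (analyticAt_const (v := e i)).fun_mul ((g1 i x hx).fun_sub (g0 i x hx))).continuousAt
      have c2 := reg_eq_of_eventually (g := fun _ => 0) continuousAt_const (rel x)
      simp only [add_right_comm x (τ _)] at c2
      rw [reg_eq_self c1] at c2
      simpa using c2
    have z' : ∀ t : ℝ, hgt (q.out + ι (t + ((h - hgt q.out : ℝ) : ℂ) * I)) = h := fun t => by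
      rw [map_add, C.hgt_ι]; simp
    simp only [z _ (z' _), intervalIntegral.integral_zero]
  have hδ : ∀ x, |B| + |h| < |hgt x| → ω x - above hgt h x = 0 := by
    intro x hx
    have a := le_abs_self B
    have b := le_abs_self h
    have d := neg_abs_le h
    have e := abs_nonneg h
    have e' := abs_nonneg B
    rcases lt_abs.mp hx with hx | hx
    · rw [hi _ (by linarith), above, if_pos (by linarith), sub_self]
    · rw [lo _ (by linarith), above, if_neg (by linarith), sub_self]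
  have f0 := fun i => finite_jump C (hf i) hδ
  have f1 := fun i => finite_jump C ((hf i).shift (τ i)) hδ
  simp only [resC_shift] at f1
  have split : ∀ i, ∑ᶠ x, ((ω (x - τ i) - ω x : ℤ) : ℂ) * resC ι (f i) x =
      ∑ᶠ x, ((above hgt h (x - τ i) - above hgt h x : ℤ) : ℂ) * resC ι (f i) x +
      ∑ᶠ x, ((ω x - above hgt h x : ℤ) : ℂ) * (resC ι (f i) (x + τ i) - resC ι (f i) x) := by
    intro i
    have a : ∑ᶠ x, ((ω x - above hgt h x : ℤ) : ℂ) * resC ι (f i) (x + τ i) =
        ∑ᶠ x, ((ω (x - τ i) - above hgt h (x - τ i) : ℤ) : ℂ) * resC ι (f i) x :=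
      finsum_eq_of_bijective (fun x => x + τ i) (Equiv.addRight _).bijective fun x => by
        simp only [add_sub_cancel_right]
    have f2 := finite_jump C (hf i) (δ := fun x => ω (x - τ i) - above hgt h (x - τ i))
      (B := |B| + |h| + |hgt (τ i)|) fun x hx => hδ _ (by
        rw [map_sub]
        have := abs_sub_abs_le_abs_sub (hgt x) (hgt (τ i))
        linarith)
    have f3 := finite_jump C (hf i) (δ := fun x => above hgt h (x - τ i) - above hgt h x)
      (jump_zero (ω := above hgt h) (B := |h|) (fun x hx => if_pos (by linarith [le_abs_self h]))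
        (fun x hx => if_neg (by linarith [neg_abs_le h])) (τ i))
    simp only [mul_sub]
    rw [finsum_sub_distrib (f1 i) (f0 i), a, ← finsum_sub_distrib f2 (f0 i), ← finsum_add_distrib f3]
    · congr 1
      funext x
      push_cast; ring
    · exact (f2.union (f0 i)).subset (Function.support_sub _ _)
  simp only [split, mul_add, Finset.sum_add_distrib, glob, zero_add]
  have f4 : ∀ i, (Function.support fun x => ((ω x - above hgt h x : ℤ) : ℂ) *
      (resC ι (f i) (x + τ i) - resC ι (f i) x)).Finite := fun i => by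
    simp only [mul_sub]
    exact ((f1 i).union (f0 i)).subset (Function.support_sub _ _)
  simp only [fun i => mul_finsum' _ (e i) (f4 i)]
  rw [← finsum_sum_comm]
  · refine finsum_eq_zero_of_forall_eq_zero fun x => ?_
    simp only [mul_left_comm (e _)]
    rw [← Finset.mul_sum, loc, mul_zero]
  · intro i _
    exact (f4 i).subset fun x hx => right_ne_zero_of_mul hx

theorem tendsto_mul_punct {γ : ℂ} (hγ : γ ≠ 0) :
    Tendsto (fun z => γ * z) (𝓝[≠] (0 : ℂ)) (𝓝[≠] 0) := by
  refine tendsto_nhdsWithin_iff.mpr ⟨?_, ?_⟩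
  · have := ((continuous_const_mul γ).tendsto 0).mono_left (nhdsWithin_le_nhds (s := {0}ᶜ))
    simpa using this
  · filter_upwards [self_mem_nhdsWithin] with w hw
    exact mul_ne_zero hγ hw

namespace O

theorem rlSt : RLSt := by
  intro A _ γ ι hgt hγ ker fin hι J _ f c n τ ω h₀ h₁ mer rel lo hi lim
  set κ : ℂ →+ A := ι.comp (AddMonoidHom.mulLeft γ) with hκ
  have κe : ∀ z, κ z = ι (γ * z) := fun z => rfl
  have C : Cyl κ hgt := by
    refine ⟨fun z => ?_, ?_, fun z => ?_⟩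
    · rw [κe, ker]
      exact exists_congr fun k => by rw [mul_comm γ, mul_left_inj' hγ]
    · have : κ.range = ι.range := by
        ext x
        constructor
        · rintro ⟨z, rfl⟩
          exact ⟨_, rfl⟩
        · rintro ⟨z, rfl⟩
          exact ⟨z / γ, by rw [κe, mul_div_cancel₀ _ hγ]⟩
      rwa [this]
    · rw [κe, hι, mul_div_cancel_left₀ _ hγ]
  have hm : ∀ i, MerC κ (f i) := fun i x => by
    have a : MeromorphicAt (fun z => f i (x + ι z)) (γ * 0) := by rw [mul_zero]; exact mer i x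
    exact a.comp_analyticAt (g := fun z => γ * z) (x := 0) (by fun_prop)
  obtain ⟨a, b⟩ := resLemma C f hm τ n (fun x => (tendsto_mul_punct hγ).eventually (rel x)) ω
    (|h₀| + |h₁|) (fun x hx => hi x (by linarith [abs_nonneg h₀, le_abs_self h₁]))
    (fun x hx => lo x (by linarith [abs_nonneg h₁, neg_abs_le h₀]))
  have e : ∀ i x, ((ω (x - τ i) - ω x : ℤ) : ℂ) * c i x =
      γ * (((ω (x - τ i) - ω x : ℤ) : ℂ) * resC κ (f i) x) := by
    intro i x
    by_cases hx : ω (x - τ i) = ω x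
    · simp [hx]
    · have h1 := ((lim i x hx).comp (tendsto_mul_punct hγ)).const_mul γ⁻¹
      have h2 : resC κ (f i) x = γ⁻¹ * c i x := res_of_tendsto (hm i x) (h1.congr fun z => by
        simp only [Function.comp_def, κe]
        field_simp)
      rw [h2]
      field_simp
  refine ⟨fun i => (a i).subset fun x hx => ?_, ?_⟩
  · have h1 : ((ω (x - τ i) - ω x : ℤ) : ℂ) * c i x ≠ 0 :=
      mul_ne_zero (by exact_mod_cast sub_ne_zero.mpr hx.1) hx.2
    rw [e] at h1
    exact right_ne_zero_of_mul h1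
  · simp only [e, ← fun i => mul_finsum' _ γ (a i), mul_left_comm (n _)]
    rw [← Finset.mul_sum, b, mul_zero]

end O

end Pool.Agent.CU
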