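import Pool.Agent.Lib.MP_ca56d1_nt.CU.O.Th
import Pool.Agent.Lib.MP_ca56d1_nt.CU.Theta

/-! The theta function identity. -/

namespace Pool.Agent.CU.O

open Complex Pool.Agent.StarkCU
open scoped Real Classical

namespace TIAux

/-- The factor of the numerator in the first variable. -/
noncomputable def Gk (t : ℂ → ℂ) (α Z a0 x y z w : ℂ) : ℂ :=
  t (α - x - Z - x) * t (x - a0) / (t (α - 2 * a0 - Z) * t (y - x) * t (z - x)) *
    (t (w + α - Z - a0) * t (w + y) * t (w + z) * t (α - 2 * a0 - Z - x - w))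

/-- The factor of the numerator in the second variable. -/
noncomputable def Ek (t : ℂ → ℂ) (α Z y z v : ℂ) : ℂ :=
  t (v + y - α) * t (v + z - α) * t (v - Z - y) * t (v - Z - z)

/-- The numerator of the third kernel. -/
noncomputable def NN (t : ℂ → ℂ) (α Z a0 a1 a2 a3 w v : ℂ) : ℂ :=
  Gk t α Z a0 a1 a2 a3 w * Ek t α Z a2 a3 v + Gk t α Z a0 a2 a1 a3 w * Ek t α Z a1 a3 v +
    Gk t α Z a0 a3 a1 a2 w * Ek t α Z a1 a2 v

/-- The common denominator. -/
noncomputable def Den (t : ℂ → ℂ) (Z a0 a1 a2 a3 w v : ℂ) : ℂ :=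
  t (w - v) * t (Z - v - w) * (t (v - Z - a0) * t (v - Z - a1) * t (v - Z - a2) * t (v - Z - a3)) *
    (t (v + a0) * t (v + a1) * t (v + a2) * t (v + a3))

/-- The first term. -/
noncomputable def T1 (t : ℂ → ℂ) (α Z a0 a1 a2 a3 w v : ℂ) : ℂ :=
  t (w + a1) * t (w + a2) * t (w + a3) /
      (t (w + α - Z - a1) * t (w + α - Z - a2) * t (w + α - Z - a3) * t (α - 2 * a0 - Z)) *
    (t (v + α - Z - a1) * t (v + α - Z - a2) * t (v + α - Z - a3) *
      t (v - w + (α - 2 * a0 - Z)) * t (Z - v - w) * t (v - Z - a0) * t (v - Z - a1) *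
      t (v - Z - a2) * t (v - Z - a3) * t (v + a0))

/-- The second term. -/
noncomputable def T2 (t : ℂ → ℂ) (α Z a0 a1 a2 a3 w v : ℂ) : ℂ :=
  t (w - Z - a0) / (t (α - a0 - w) * t (α - 2 * a0 - Z)) *
    (t (α - a0 - v) * t (v - w + (α - 2 * a0 - Z)) * t (Z - v - w) * t (v - Z - a1) *
      t (v - Z - a2) * t (v - Z - a3) * t (v + a0) * t (v + a1) * t (v + a2) * t (v + a3))

/-- The third term. -/
noncomputable def T3 (t : ℂ → ℂ) (α Z a0 a1 a2 a3 w v : ℂ) : ℂ :=
  (t (w + α - Z - a0) * t (w + α - Z - a1) * t (w + α - Z - a2) * t (w + α - Z - a3))⁻¹ *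
    (NN t α Z a0 a1 a2 a3 w v * t (w - v) * t (Z - v - w) * t (v + a0) * t (v + a1) * t (v + a2) *
      t (v + a3))

/-- The numerator of one half of the identity. -/
noncomputable def Ph (t : ℂ → ℂ) (α Z a0 a1 a2 a3 w v : ℂ) : ℂ :=
  T1 t α Z a0 a1 a2 a3 w v - T2 t α Z a0 a1 a2 a3 w v - T3 t α Z a0 a1 a2 a3 w v

variable {g b : ℂ} {A B t : ℂ → ℂ} {α Z a0 a1 a2 a3 w : ℂ}

theorem cast {d d' : ℕ} {s s' : ℂ} {N : ℂ → ℂ} (h : Th A B t d s N) (e : d = d') (e' : s = s') :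
    Th A B t d' s' N := e ▸ e' ▸ h

theorem lin (h : OddTheta g b A B t) (c : ℂ) {f : ℂ → ℂ} (e : ∀ z, f z = z - c) :
    Th A B t 1 c fun z => t (f z) := by simpa only [e] using h.base c

theorem lin' (h : OddTheta g b A B t) (c : ℂ) {f : ℂ → ℂ} (e : ∀ z, f z = c - z) :
    Th A B t 1 c fun z => t (f z) := by simpa only [e] using h.base_neg c

theorem quot {d : ℕ} {s : ℂ} {N D : ℂ → ℂ} (hN : Th A B t d s N) (hD : Th A B t d s D) {m : ℂ}
    (hm : t m = 0) (z : ℂ) : N (z + m) / D (z + m) = N z / D z := by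
  rw [hN.per m hm, hD.per m hm, mul_div_mul_left _ _ (Complex.exp_ne_zero _)]

theorem thG (h : OddTheta g b A B t) {x y z : ℂ} (hs : a0 + x + y + z = 2 * α - 2 * Z) :
    Th A B t 4 (2 * Z - 2 * α) (Gk t α Z a0 x y z) := by
  unfold Gk
  refine cast (Th.const_mul ((((lin h (Z + a0 - α) ?_).mul (lin h (-y) ?_)).mul
    (lin h (-z) ?_)).mul (lin' h (α - 2 * a0 - Z - x) ?_)) _) rfl (by linear_combination -hs)
  all_goals intro z; ring

theorem thE (h : OddTheta g b A B t) {y z : ℂ} :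
    Th A B t 4 (2 * Z + 2 * α) (Ek t α Z y z) := by
  unfold Ek
  refine cast ((((lin h (α - y) ?_).mul (lin h (α - z) ?_)).mul
    (lin h (Z + y) ?_)).mul (lin h (Z + z) ?_)) rfl (by ring)
  all_goals intro z; ring

theorem thN1 (h : OddTheta g b A B t) (hs : a0 + a1 + a2 + a3 = 2 * α - 2 * Z) (v : ℂ) :
    Th A B t 4 (2 * Z - 2 * α) fun w => NN t α Z a0 a1 a2 a3 w v := by
  have := (((thG h hs).const_mul (Ek t α Z a2 a3 v)).add
    ((thG h (x := a2) (y := a1) (z := a3) (a0 := a0) (α := α) (Z := Z)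
      (by linear_combination hs)).const_mul (Ek t α Z a1 a3 v))).add
    ((thG h (x := a3) (y := a1) (z := a2) (a0 := a0) (α := α) (Z := Z)
      (by linear_combination hs)).const_mul (Ek t α Z a1 a2 v))
  simpa only [NN, mul_comm] using this

theorem thN2 (h : OddTheta g b A B t) :
    Th A B t 4 (2 * Z + 2 * α) (NN t α Z a0 a1 a2 a3 w) :=
  (((thE h).const_mul _).add ((thE h).const_mul _)).add ((thE h).const_mul _)

theorem thD1 (h : OddTheta g b A B t) (hs : a0 + a1 + a2 + a3 = 2 * α - 2 * Z) :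
    Th A B t 4 (2 * Z - 2 * α) fun w =>
      t (w + α - Z - a0) * t (w + α - Z - a1) * t (w + α - Z - a2) * t (w + α - Z - a3) := by
  refine cast ((((lin h (Z + a0 - α) ?_).mul (lin h (Z + a1 - α) ?_)).mul
    (lin h (Z + a2 - α) ?_)).mul (lin h (Z + a3 - α) ?_)) rfl (by linear_combination hs)
  all_goals intro z; ring

theorem thD2 (h : OddTheta g b A B t) (hs : a0 + a1 + a2 + a3 = 2 * α - 2 * Z) :
    Th A B t 4 (2 * Z + 2 * α) fun v =>
      t (v - Z - a0) * t (v - Z - a1) * t (v - Z - a2) * t (v - Z - a3) := by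
  refine cast ((((lin h (Z + a0) ?_).mul (lin h (Z + a1) ?_)).mul
    (lin h (Z + a2) ?_)).mul (lin h (Z + a3) ?_)) rfl (by linear_combination hs)
  all_goals intro z; ring

theorem thT1 (h : OddTheta g b A B t) (hs : a0 + a1 + a2 + a3 = 2 * α - 2 * Z) :
    Th A B t 10 (5 * Z) (T1 t α Z a0 a1 a2 a3 w) := by
  unfold T1
  refine cast (Th.const_mul ((((((((((lin h (Z + a1 - α) ?_).mul (lin h (Z + a2 - α) ?_)).mul
    (lin h (Z + a3 - α) ?_)).mul (lin h (w - (α - 2 * a0 - Z)) ?_)).mul (lin' h (Z - w) ?_)).mul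
    (lin h (Z + a0) ?_)).mul (lin h (Z + a1) ?_)).mul (lin h (Z + a2) ?_)).mul
    (lin h (Z + a3) ?_)).mul (lin h (-a0) ?_)) _) rfl (by linear_combination 2 * hs)
  all_goals intro z; ring

theorem thT2 (h : OddTheta g b A B t) :
    Th A B t 10 (5 * Z) (T2 t α Z a0 a1 a2 a3 w) := by
  unfold T2
  refine cast (Th.const_mul ((((((((((lin' h (α - a0) ?_).mul
    (lin h (w - (α - 2 * a0 - Z)) ?_)).mul (lin' h (Z - w) ?_)).mul (lin h (Z + a1) ?_)).mul
    (lin h (Z + a2) ?_)).mul (lin h (Z + a3) ?_)).mul (lin h (-a0) ?_)).mul (lin h (-a1) ?_)).mul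
    (lin h (-a2) ?_)).mul (lin h (-a3) ?_)) _) rfl (by ring)
  all_goals intro z; ring

theorem thT3 (h : OddTheta g b A B t) (hs : a0 + a1 + a2 + a3 = 2 * α - 2 * Z) :
    Th A B t 10 (5 * Z) (T3 t α Z a0 a1 a2 a3 w) := by
  unfold T3
  refine cast (Th.const_mul (((((((thN2 h).mul (lin' h w ?_)).mul (lin' h (Z - w) ?_)).mul
    (lin h (-a0) ?_)).mul (lin h (-a1) ?_)).mul (lin h (-a2) ?_)).mul (lin h (-a3) ?_)) _) rfl
    (by linear_combination -hs)
  all_goals intro z; ring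

theorem thPh (h : OddTheta g b A B t) (hs : a0 + a1 + a2 + a3 = 2 * α - 2 * Z) :
    Th A B t 10 (5 * Z) (Ph t α Z a0 a1 a2 a3 w) :=
  ((thT1 h hs).sub (thT2 h)).sub (thT3 h hs)

theorem swap12 (v : ℂ) : Ph t α Z a0 a1 a2 a3 w v = Ph t α Z a0 a2 a1 a3 w v := by
  unfold Ph T1 T2 T3 NN Gk Ek
  ring

theorem swap13 (v : ℂ) : Ph t α Z a0 a1 a2 a3 w v = Ph t α Z a0 a3 a2 a1 w v := by
  unfold Ph T1 T2 T3 NN Gk Ek
  ring

theorem zero1 (h : OddTheta g b A B t) {v u : ℂ} (h1 : v = Z + a1) (h2 : u = -a1)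
    (n2 : t (a2 - a1) ≠ 0) (n3 : t (a3 - a1) ≠ 0) (n0 : t (w + α - Z - a0) ≠ 0) :
    Ph t α Z a0 a1 a2 a3 w v - Ph t α Z a0 a1 a2 a3 w u = 0 := by
  have z1 : t (v - Z - a1) = 0 := by rw [← h.th_zero]; congr 1; linear_combination h1
  have z2 : t (u + a1) = 0 := by rw [← h.th_zero]; congr 1; linear_combination h2
  have e1 : t (u + α - Z - a1) = t (α - a1 - Z - a1) := by congr 1; linear_combination h2
  have e2 : t (u + α - Z - a2) = -t (v + a2 - α) := h.neg_of (by linear_combination h1 + h2)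
  have e3 : t (u + α - Z - a3) = -t (v + a3 - α) := h.neg_of (by linear_combination h1 + h2)
  have e4 : t (u - w + (α - 2 * a0 - Z)) = t (α - 2 * a0 - Z - a1 - w) := by
    congr 1; linear_combination h2
  have e5 : t (Z - u - w) = -t (w - v) := h.neg_of (by linear_combination -h1 - h2)
  have e6 : ∀ x, t (u - Z - x) = -t (v + x) := fun x => h.neg_of (by linear_combination h1 + h2)
  have e7 : t (u + a0) = -t (a1 - a0) := h.neg_of (by linear_combination h2)
  have e8 : t (v - Z - a2) = -t (a2 - a1) := h.neg_of (by linear_combination h1)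
  have e9 : t (v - Z - a3) = -t (a3 - a1) := h.neg_of (by linear_combination h1)
  have e10 : t (Z - v - w) = -t (w + a1) := h.neg_of (by linear_combination -h1)
  unfold Ph T1 T2 T3 NN Ek
  simp only [z1, z2, e1, e2, e3, e4, e5, e6, e7, e8, e9, e10, mul_zero, zero_mul, add_zero, sub_zero,
    zero_sub]
  unfold Gk
  simp only [div_eq_mul_inv, mul_inv]
  field_simp
  ring

theorem zerow (h : OddTheta g b A B t) {u : ℂ} (h2 : u = Z - w)
    (n1 : t (w + α - Z - a1) ≠ 0) (n2 : t (w + α - Z - a2) ≠ 0) (n3 : t (w + α - Z - a3) ≠ 0)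
    (n4 : t (α - a0 - w) ≠ 0) :
    Ph t α Z a0 a1 a2 a3 w w - Ph t α Z a0 a1 a2 a3 w u = 0 := by
  have z1 : t (w - w) = 0 := by rw [sub_self, h.th_zero]
  have z2 : t (Z - u - w) = 0 := by rw [← h.th_zero]; congr 1; linear_combination -h2
  unfold Ph T1 T2 T3
  simp only [z1, z2, mul_zero, zero_mul, sub_zero]
  simp only [div_eq_mul_inv, mul_inv]
  field_simp
  ring

theorem den_refl (h : OddTheta g b A B t) (v : ℂ) :
    Den t Z a0 a1 a2 a3 w (Z - v) = Den t Z a0 a1 a2 a3 w v := by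
  have e1 : t (w - (Z - v)) = -t (Z - v - w) := h.neg_of (by ring)
  have e2 : t (Z - (Z - v) - w) = -t (w - v) := h.neg_of (by ring)
  have e3 : ∀ x, t (Z - v - Z - x) = -t (v + x) := fun x => h.neg_of (by ring)
  have e4 : ∀ x, t (Z - v + x) = -t (v - Z - x) := fun x => h.neg_of (by ring)
  unfold Den
  simp only [e1, e2, e3, e4]
  ring

theorem ek_refl (h : OddTheta g b A B t) (y z v : ℂ) :
    Ek t α Z y z (v + α) = Ek t α Z y z (Z - v) := by
  have e1 : ∀ x, t (v + α + x - α) = -t (Z - v - Z - x) := fun x => h.neg_of (by ring)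
  have e2 : ∀ x, t (v + α - Z - x) = -t (Z - v + x - α) := fun x => h.neg_of (by ring)
  unfold Ek
  simp only [e1, e2]
  ring

theorem half (h : OddTheta g b A B t) (a : Fin 4 → ℂ) {v : ℂ}
    (w1 : ∀ j, t (w + a j) ≠ 0) (w2 : ∀ j, t (w + α - Z - a j) ≠ 0) (w3 : t (α - a 0 - w) ≠ 0)
    (v1 : ∀ j, t (v + a j) ≠ 0) (v2 : ∀ j, t (v + α - Z - a j) ≠ 0)
    (v3 : ∀ j, t (v - Z - a j) ≠ 0) (wv : t (w - v) ≠ 0) :
    (De t α Z a w v - k3 t α Z a (fun p => NN t α Z (a 0) (a 1) (a 2) (a 3) p.1 p.2) w v) *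
      Den t Z (a 0) (a 1) (a 2) (a 3) w v = Ph t α Z (a 0) (a 1) (a 2) (a 3) w v := by
  have e1 : t (α - a 0 - (v + α)) = -t (v + a 0) := h.neg_of (by ring)
  have e2 : t (v + α - (w + α) + (α - 2 * a 0 - Z)) = t (v - w + (α - 2 * a 0 - Z)) := by
    congr 1; ring
  have e3 : t (w + α - (v + α)) = t (w - v) := by congr 1; ring
  have e4 : t (α - a 0 - (w + α)) = -t (w + a 0) := h.neg_of (by ring)
  have := w1 0; have := w2 0; have := w2 1; have := w2 2; have := w2 3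
  have := v1 0; have := v1 1; have := v1 2; have := v1 3
  have := v2 0; have := v2 1; have := v2 2; have := v2 3
  have := v3 0; have := v3 1; have := v3 2; have := v3 3
  have l1 : rr t α Z a w / rr t α Z a v * kk t α Z (a 0) (w + α) (v + α) *
      Den t Z (a 0) (a 1) (a 2) (a 3) w v = T1 t α Z (a 0) (a 1) (a 2) (a 3) w v := by
    unfold rr kk Den T1
    simp only [Fin.prod_univ_four, e1, e2, e3, e4]
    field_simp
  have l2 : kk t α Z (a 0) w v * Den t Z (a 0) (a 1) (a 2) (a 3) w v =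
      T2 t α Z (a 0) (a 1) (a 2) (a 3) w v := by
    unfold kk Den T2
    field_simp
  have l3 : k3 t α Z a (fun p => NN t α Z (a 0) (a 1) (a 2) (a 3) p.1 p.2) w v *
      Den t Z (a 0) (a 1) (a 2) (a 3) w v = T3 t α Z (a 0) (a 1) (a 2) (a 3) w v := by
    unfold k3 Den T3
    simp only [Fin.prod_univ_four]
    field_simp
  unfold De Ph
  rw [sub_mul, sub_mul, l1, l2, l3]

theorem bridge {γ β : ℂ} (h : IsTh γ β t) : ∃ A B, OddTheta β γ A B t := by
  choose! l c hq using h.qp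
  refine ⟨fun m => 2 * π * I * l m, fun m => 2 * π * I * c m, h.im, h.diff, h.odd, fun z => ?_,
    h.deriv_ne, fun m hm z => ?_⟩
  · rw [h.zero_iff, mem_lat2]
    exact ⟨fun ⟨j, k, e⟩ => ⟨k, j, by rw [e, add_comm]⟩, fun ⟨j, k, e⟩ => ⟨k, j, by rw [e, add_comm]⟩⟩
  · rw [hq m (h.zero_iff.1 hm)]
    unfold ee
    congr 2
    ring

end TIAux

open TIAux

theorem tiSt : TISt := by
  intro γ β t ht α Z a hs hk hd hz
  obtain ⟨A, B, h⟩ := bridge ht
  rw [Fin.sum_univ_four] at hs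
  have ne : ∀ {x y : ℂ}, x ∉ lat2 γ β → y = x → t y ≠ 0 := fun hx e => ht.ne (e ▸ hx)
  have ne' : ∀ {x y : ℂ}, x ∉ lat2 γ β → y = -x → t y ≠ 0 := fun hx e =>
    ht.ne (e ▸ fun hm => hx (neg_mem_iff.1 hm))
  refine ⟨fun p => NN t α Z (a 0) (a 1) (a 2) (a 3) p.1 p.2,
    insert Z (Finset.univ.biUnion fun j => {-a j, Z + a j - α, Z + a j, α - a j, 2 * -a j,
      2 * (Z + a j - α), 2 * (Z + a j), 2 * (α - a j)}), ?_, fun m hm w v => ?_,
    fun w v hE wv wv' => ?_⟩
  · have := ht.diff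
    unfold NN Gk Ek
    fun_prop
  · have hm' := ht.zero_iff.2 hm
    unfold k3
    simp only [Fin.prod_univ_four]
    constructor
    · rw [← div_div, quot (thN1 h hs v) (thD1 h hs) hm', div_div]
    · rw [mul_comm, mul_comm _ (_ * t (v - Z - a 3)), ← div_div,
        quot (thN2 h) (thD2 h hs) hm', div_div]
  have hE' : ∀ j, ∀ e ∈ ({-a j, Z + a j - α, Z + a j, α - a j, 2 * -a j, 2 * (Z + a j - α),
      2 * (Z + a j), 2 * (α - a j)} : Finset ℂ), 2 * w - e ∉ lat2 γ β ∧ v - e ∉ lat2 γ β :=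
    fun j e he => hE e (Finset.mem_insert_of_mem
      (Finset.mem_biUnion.2 ⟨j, Finset.mem_univ _, he⟩))
  have two : ∀ c : ℂ, 2 * w - 2 * c ∉ lat2 γ β → w - c ∉ lat2 γ β := fun c hc hm =>
    hc (by rw [show 2 * w - 2 * c = (w - c) + (w - c) by ring]; exact add_mem hm hm)
  have p1 := fun j => two _ (hE' j (2 * -a j) (by simp)).1
  have p2 := fun j => two _ (hE' j (2 * (Z + a j - α)) (by simp)).1
  have p3 := fun j => two _ (hE' j (2 * (Z + a j)) (by simp)).1
  have p4 := fun j => two _ (hE' j (2 * (α - a j)) (by simp)).1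
  have p5 := (hE Z (Finset.mem_insert_self _ _)).1
  have q1 := fun j => (hE' j (-a j) (by simp)).2
  have q2 := fun j => (hE' j (Z + a j - α) (by simp)).2
  have q3 := fun j => (hE' j (Z + a j) (by simp)).2
  have q4 := fun j => (hE' j (α - a j) (by simp)).2
  have w1 : ∀ j, t (w + a j) ≠ 0 := fun j => ne (p1 j) (by ring)
  have w2 : ∀ j, t (w + α - Z - a j) ≠ 0 := fun j => ne (p2 j) (by ring)
  have w3 : t (α - a 0 - w) ≠ 0 := ne' (p4 0) (by ring)
  have v1 : ∀ j, t (v + a j) ≠ 0 := fun j => ne (q1 j) (by ring)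
  have v2 : ∀ j, t (v + α - Z - a j) ≠ 0 := fun j => ne (q2 j) (by ring)
  have v3 : ∀ j, t (v - Z - a j) ≠ 0 := fun j => ne (q3 j) (by ring)
  have d1 : ∀ j k, j ≠ 0 → k ≠ 0 → j ≠ k → t (a j - a k) ≠ 0 := fun j k h1 h2 h3 =>
    ht.ne (hd j k h1 h2 h3)
  have d2 : ∀ j k, j ≠ 0 → k ≠ 0 → j ≠ k → t (Z + a j - (Z + a k)) ≠ 0 := fun j k h1 h2 h3 =>
    ne (hd j k h1 h2 h3) (by ring)
  have d3 : ∀ j k, j ≠ 0 → k ≠ 0 → t (Z - (Z + a j) - (Z + a k)) ≠ 0 := fun j k h1 h2 =>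
    ne' (hz j k h1 h2) (by ring)
  have d4 : ∀ j, t (w - (Z + a j)) ≠ 0 := fun j => ht.ne (p3 j)
  have d5 : ∀ j, t (Z - (Z + a j) - w) ≠ 0 := fun j => ne' (p1 j) (by ring)
  have hP := thPh (w := w) h hs
  have key := h.odd_vanish Z [Z + a 1, Z + a 2, Z + a 3, w]
    (N := fun v => Ph t α Z (a 0) (a 1) (a 2) (a 3) w v - Ph t α Z (a 0) (a 1) (a 2) (a 3) w (Z - v))
    (cast (hP.sub ((h.refl hP Z).congr (by push_cast; ring))) rfl (by norm_num [List.length]))
    (fun v => by rw [sub_sub_cancel, neg_sub]) ?_ ?_ v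
  · have H1 := half h a w1 w2 w3 v1 v2 v3 (ht.ne wv)
    have H2 := half (v := Z - v) h a w1 w2 w3 (fun j => ne' (q3 j) (by ring))
      (fun j => ne' (q4 j) (by ring)) (fun j => ne' (q1 j) (by ring)) (ne wv' (by ring))
    have hD : Den t Z (a 0) (a 1) (a 2) (a 3) w v ≠ 0 := by
      unfold Den
      have := ht.ne wv
      have : t (Z - v - w) ≠ 0 := ne' wv' (by ring)
      simp [*]
    rw [den_refl h, ← sub_eq_zero.1 key, ← H1] at H2
    have H3 := mul_right_cancel₀ hD H2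
    have H4 : k3 t α Z a (fun p => NN t α Z (a 0) (a 1) (a 2) (a 3) p.1 p.2) w (v + α) /
        rr t α Z a v = k3 t α Z a (fun p => NN t α Z (a 0) (a 1) (a 2) (a 3) p.1 p.2) w (Z - v) := by
      have e : ∀ x, t (Z - v - Z - x) = -t (v + x) := fun x => h.neg_of (by ring)
      have := v1 0; have := v1 1; have := v1 2; have := v1 3
      have := v2 0; have := v2 1; have := v2 2; have := v2 3
      have := w2 0; have := w2 1; have := w2 2; have := w2 3
      unfold k3 rr NN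
      simp only [Fin.prod_univ_four, ek_refl h, e]
      field_simp
    rw [H4]
    linear_combination -H3
  · simp only [List.mem_cons, List.not_mem_nil, or_false, forall_eq_or_imp, forall_eq]
    refine ⟨⟨zero1 h rfl (by ring) (d1 2 1 (by decide) (by decide) (by decide))
      (d1 3 1 (by decide) (by decide) (by decide)) (w2 0), d3 1 1 (by decide) (by decide)⟩,
      ⟨?_, d3 2 2 (by decide) (by decide)⟩, ⟨?_, d3 3 3 (by decide) (by decide)⟩,
      zerow h rfl (w2 1) (w2 2) (w2 3) w3, ne' p5 (by ring)⟩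
    · rw [swap12, swap12 (Z - _)]
      exact zero1 h rfl (by ring) (d1 1 2 (by decide) (by decide) (by decide))
        (d1 3 2 (by decide) (by decide) (by decide)) (w2 0)
    · rw [swap13, swap13 (Z - _)]
      exact zero1 h rfl (by ring) (d1 2 3 (by decide) (by decide) (by decide))
        (d1 1 3 (by decide) (by decide) (by decide)) (w2 0)
  · simp only [List.pairwise_cons, List.mem_cons, List.not_mem_nil, or_false, forall_eq_or_imp,
      forall_eq, List.Pairwise.nil, IsEmpty.forall_iff, implies_true, and_true]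
    exact ⟨⟨⟨d2 2 1 (by decide) (by decide) (by decide), d3 1 2 (by decide) (by decide)⟩,
      ⟨d2 3 1 (by decide) (by decide) (by decide), d3 1 3 (by decide) (by decide)⟩, d4 1, d5 1⟩,
      ⟨⟨d2 3 2 (by decide) (by decide) (by decide), d3 2 3 (by decide) (by decide)⟩, d4 2, d5 2⟩,
      d4 3, d5 3⟩

end Pool.Agent.CU.O
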