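import Pool.Agent.Lib.MP_ca56d1_nt.CU.O.Th

/-! The values on the diagonal, the inverse of a balanced product, sums over orbits. -/

namespace Pool.Agent.CU.O

open Complex Filter Topology
open scoped Real Classical

namespace TMAux

variable {A : Type} [AddCommGroup A] {G : Geo A} {ϑ : ℂ → ℂ} {y : Fin 4 → ℂ} {p : Fin 4 → Fin 4}
  {t : Fin 4 → A} {C : ℂ} {H : A → ℂ}

theorem diag_eq (h : HDat G ϑ y p t C H) {x : A} (hx : G.W₁ x = G.W₂ x) (j : Fin 4) {i i' : ℤ}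
    (e : x + t j = i • G.P + i' • G.R) : i = i' := by
  have h1 := congrArg G.W₁ e
  have h2 := congrArg G.W₂ e
  rw [map_add, map_add, map_zsmul, map_zsmul, h.t₁, G.W₁_P, G.W₁_R, smul_zero, add_zero] at h1
  rw [map_add, map_add, map_zsmul, map_zsmul, h.t₂, G.W₂_P, G.W₂_R, smul_zero, zero_add, ← hx] at h2
  have h3 : cl G.γ G.β (y j - y (p j)) = cl G.γ G.β (((i - i' : ℤ) : ℂ) * G.α) := by
    rw [cl_zsmul, cl_sub, sub_zsmul, ← sub_eq_add_neg, ← h1, ← h2]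
    abel
  rw [cl_eq] at h3
  by_cases hp : p j = j
  · rw [hp, sub_self, zero_sub, neg_mem_iff] at h3
    exact sub_eq_zero.1 (G.free _ h3)
  · exact absurd h3 (h.sw j hp _)

theorem o_zero (h : HDat G ϑ y p t C H) {x : A} (hx : G.W₁ x = G.W₂ x) (j : Fin 4) :
    G.o (x + t j) = 0 := by
  rw [Geo.o, if_neg, if_neg]
  · rintro ⟨i, i', h1, h2, e⟩
    have := diag_eq h hx j e
    omega
  · rintro ⟨i, i', h1, h2, e⟩
    have := diag_eq h hx j e
    omega

theorem ne_zero (h : HDat G ϑ y p t C H) {x : A} (ho : ∀ j, G.o (x + t j) = 0) : H x ≠ 0 := by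
  have h1 := (h.an x ho).meromorphicNFAt.meromorphicOrderAt_eq_zero_iff.1 (by
    rw [h.ord, ho, ho, ho, ho]
    rfl)
  rwa [map_zero, add_zero] at h1

theorem step (h : HDat G ϑ y p t C H) {x : A} {w v : ℂ} (h1 : G.W₁ x = cl G.γ G.β w)
    (h2 : G.W₂ x = cl G.γ G.β v) (h3 : ∀ j, w + y j ∉ lat2 G.γ G.β)
    (h4 : ∀ j, v + y j ∉ lat2 G.γ G.β) :
    H (x + (G.P + G.R)) = r0 ϑ y w * (H x / (C * r0 ϑ y v)) := by
  rw [add_comm G.P, ← add_assoc, h.mP _ w (by rw [map_add, G.W₁_R, add_zero, h1]) h3,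
    h.mR x v h2 h4]

theorem r0_ne {γ β : ℂ} (h : IsTh γ β ϑ) {w : ℂ} (hw : ∀ j, w + y j ∉ lat2 γ β) :
    r0 ϑ y w ≠ 0 :=
  div_ne_zero (mul_ne_zero (h.ne (hw 0)) (h.ne (hw 1))) (mul_ne_zero (h.ne (hw 2)) (h.ne (hw 3)))

theorem ev_not {γ β : ℂ} (h : IsTh γ β ϑ) (y : Fin 4 → ℂ) (w : ℂ) {c : ℂ} (hc : c ≠ 0) :
    ∀ᶠ z in 𝓝[≠] (0 : ℂ), ∀ j, w + c * z + y j ∉ lat2 γ β :=
  eventually_all.2 fun j => (h.ev_not_mem (w + y j) hc).mono fun z hz => by
    rwa [add_right_comm]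

theorem r0_form {γ β : ℂ} (h : IsTh γ β ϑ) (y : Fin 4 → ℂ) (w : ℂ) :
    ∃ (n : ℤ) (g : ℂ → ℂ), AnalyticAt ℂ g 0 ∧ g 0 ≠ 0 ∧
      ∀ᶠ z in 𝓝[≠] (0 : ℂ), r0 ϑ y (w + z) = z ^ n * g z := by
  have ha : ∀ j, MeromorphicAt (fun z => ϑ (w + z + y j)) 0 := fun j =>
    ((h.diff.comp (by fun_prop : Differentiable ℂ fun z : ℂ => w + z + y j)).analyticAt
      0).meromorphicAt
  have hm : MeromorphicAt (fun z => r0 ϑ y (w + z)) 0 :=
    ((ha 0).fun_mul (ha 1)).fun_div ((ha 2).fun_mul (ha 3))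
  obtain ⟨g, h1, h2, h3⟩ := (meromorphicOrderAt_ne_top_iff hm).1
    ((meromorphicOrderAt_ne_top_iff_eventually_ne_zero hm).2
      ((ev_not h y w one_ne_zero).mono fun z hz => r0_ne h (by simpa only [one_mul] using hz)))
  exact ⟨_, g, h1, h2, h3.mono fun z hz => by simpa only [sub_zero, smul_eq_mul] using hz⟩

theorem lim (h : HDat G ϑ y p t C H) {x : A} (hx : G.W₁ x = G.W₂ x) :
    ∃ e : ℤ, H (x + (G.P + G.R)) = G.η ^ e * H x / C := by
  obtain ⟨w, hw⟩ := QuotientAddGroup.mk_surjective (G.W₁ x)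
  obtain ⟨n, g, hg, hg0, hr⟩ := r0_form h.th y w
  have hx' : G.W₁ (x + (G.P + G.R)) = G.W₂ (x + (G.P + G.R)) := by
    rw [map_add, map_add, map_add, map_add, hx, G.W₁_P, G.W₁_R, G.W₂_P, G.W₂_R, add_zero, zero_add]
  have hη0 : Tendsto (fun z => G.η * z) (𝓝 (0 : ℂ)) (𝓝 0) :=
    (continuous_const.mul continuous_id).tendsto' 0 0 (mul_zero _)
  have hη : Tendsto (fun z => G.η * z) (𝓝[≠] (0 : ℂ)) (𝓝[≠] 0) :=
    tendsto_nhdsWithin_iff.2 ⟨hη0.mono_left nhdsWithin_le_nhds,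
      eventually_mem_nhdsWithin.mono fun z hz => mul_ne_zero G.η_ne hz⟩
  have l1 := (h.an x (o_zero h hx)).continuousAt.tendsto
  have l2 := (h.an _ (o_zero h hx')).continuousAt.tendsto
  rw [map_zero, add_zero] at l1 l2
  have l3 := hg.continuousAt.tendsto
  have l4 := ((((l3.div (l3.comp hη0) hg0).const_mul (G.η ^ (-n))).mul l1).div_const C).mono_left
    (nhdsWithin_le_nhds (s := {0}ᶜ))
  rw [div_self hg0, mul_one] at l4
  refine ⟨-n, tendsto_nhds_unique_of_eventuallyEq (l2.mono_left nhdsWithin_le_nhds) l4 ?_⟩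
  filter_upwards [hr, hη.eventually hr, ev_not h.th y w one_ne_zero, ev_not h.th y w G.η_ne,
    self_mem_nhdsWithin] with z e1 e2 e3 e4 hz
  have hz' : z ^ n ≠ 0 := zpow_ne_zero n hz
  have hη' : G.η ^ n ≠ 0 := zpow_ne_zero n G.η_ne
  have hC := h.C_ne
  rw [add_right_comm, step h (w := w + z) (v := w + G.η * z)
    (by rw [map_add, G.W₁_ι, ← hw]; rfl) (by rw [map_add, G.W₂_ι, ← hx, ← hw]; rfl)
    (by simpa only [one_mul] using e3) e4, e1, e2, mul_zpow, zpow_neg]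
  simp only [Pi.div_apply, Function.comp_apply]
  field_simp

theorem two (k : Fin 4) : k + 2 + 2 = k := by revert k; decide

theorem lt_two (k : Fin 4) : (k + 2).val < 2 ↔ ¬ k.val < 2 := by revert k; decide

theorem val_zpow (O : ValuationSubring ℂ) {η : ℂ} (h : O.valuation η = 1) (j : ℤ) :
    O.valuation (η ^ j - 1) ≤ O.valuation (η - 1) := by
  have h0 : η ≠ 0 := fun e => by simp [e] at h
  induction j using Int.induction_on with
  | zero => simp
  | succ j ih =>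
    rw [show η ^ ((j : ℤ) + 1) - 1 = η * (η ^ (j : ℤ) - 1) + (η - 1) by
      rw [zpow_add_one₀ h0]; ring]
    exact O.valuation.map_add_le (by rwa [map_mul, h, one_mul]) le_rfl
  | pred j ih =>
    rw [show η ^ (-(j : ℤ) - 1) - 1 = η⁻¹ * ((η ^ (-(j : ℤ)) - 1) - (η - 1)) by
      rw [zpow_sub_one₀ h0]; field_simp; ring, map_mul, map_inv₀, h, inv_one, one_mul]
    exact O.valuation.map_sub_le ih le_rfl

end TMAux

open TMAux

theorem tmSt : TMSt := by
  intro A _ G ϑ y p t C H h x hx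
  refine ⟨o_zero h hx, ne_zero h (o_zero h hx), ?_⟩
  by_cases hw : ∃ w, G.W₁ x = cl G.γ G.β w ∧ ∀ j, w + y j ∉ lat2 G.γ G.β
  · obtain ⟨w, h1, h2⟩ := hw
    refine ⟨0, ?_, fun _ _ _ => rfl⟩
    have := r0_ne h.th h2
    have := h.C_ne
    rw [step h h1 (hx ▸ h1) h2 h2, zpow_zero]
    field_simp
  · obtain ⟨e, he⟩ := lim h hx
    exact ⟨e, he, fun w h1 h2 => absurd ⟨w, h1, h2⟩ hw⟩

theorem swSt : SwSt := by
  intro A _ G ϑ y p t C H h
  have hall : ∀ {P : Fin 4 → Prop}, (∀ j, P (j + 2)) → ∀ j, P j := fun h j => two j ▸ h (j + 2)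
  have hr : ∀ w, r0 ϑ (fun j => y (j + 2)) w = (r0 ϑ y w)⁻¹ := fun w => (inv_div _ _).symm
  refine ⟨h.th, h.bal.symm, fun j => ?_, fun j => ?_, fun j hj i => ?_, fun j k hj hk i hm => ?_,
    h.sep₂, h.sep₁, fun j => h.t₁ _, fun j => ?_, inv_ne_zero h.C_ne, fun x => (h.mer x).fun_inv,
    fun x => ?_, fun x hx => ?_, fun x w h1 h2 => ?_, fun x v h1 h2 => ?_⟩
  · rw [two, h.inv, two]
  · rw [lt_two, h.blk, lt_two, not_not]
  · rw [two]
    exact h.sw _ (fun e => hj (by rw [e, two])) i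
  · refine h.mix (k + 2) (j + 2) ((lt_two k).2 (not_lt.2 hk))
      (not_lt.1 fun e => (lt_two j).1 e hj) (-i) ?_
    have := neg_mem hm
    rwa [show -(y (j + 2) - y (k + 2) - i * G.α) = y (k + 2) - y (j + 2) - ((-i : ℤ) : ℂ) * G.α by
      push_cast; ring] at this
  · rw [two]
    exact h.t₂ _
  · rw [fun_meromorphicOrderAt_inv, h.ord, ← WithTop.LinearOrderedAddCommGroup.coe_neg]
    refine congrArg _ ?_
    change _ = G.o (x + t 2) + G.o (x + t 3) - G.o (x + t 0) - G.o (x + t 1)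
    ring
  · have ho := hall (P := fun j => G.o (x + t j) = 0) hx
    exact (h.an x ho).fun_inv (by rw [map_zero, add_zero]; exact ne_zero h ho)
  · rw [h.mP x w h1 (hall (P := fun j => w + y j ∉ lat2 G.γ G.β) h2), mul_inv, hr]
  · rw [h.mR x v h1 (hall (P := fun j => v + y j ∉ lat2 G.γ G.β) h2), hr, ← mul_inv, inv_div_inv,
      inv_div]

theorem vlSt : VLSt := by
  intro A _ hgt T hT ω h₀ h₁ H0 H1 κ s d D φ ψ η b O hη hD hinj horb hψ
  obtain ⟨N, hN⟩ := exists_nat_gt ((∑ g ∈ s, |hgt (d g)| + |h₀| + |h₁|) / -hgt T)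
  rw [div_lt_iff₀ (neg_pos.2 hT)] at hN
  have hb : ∀ g ∈ s, |hgt (d g)| ≤ ∑ g ∈ s, |hgt (d g)| := fun g hg =>
    Finset.single_le_sum (f := fun g => |hgt (d g)|) (fun _ _ => abs_nonneg _) hg
  have up : ∀ g ∈ s, ∀ k : ℤ, N ≤ k → ω (d g + k • T) = 0 := fun g hg k hk => H0 _ (by
    have h1 : (N : ℝ) ≤ k := by exact_mod_cast hk
    rw [map_add, map_zsmul, zsmul_eq_mul]
    nlinarith [hb g hg, le_abs_self (hgt (d g)), neg_abs_le h₀, abs_nonneg h₁])
  have dn : ∀ g ∈ s, ∀ k : ℤ, k ≤ -N → ω (d g + k • T) = 1 := fun g hg k hk => H1 _ (by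
    have h1 : (k : ℝ) ≤ -N := by exact_mod_cast hk
    rw [map_add, map_zsmul, zsmul_eq_mul]
    nlinarith [hb g hg, neg_abs_le (hgt (d g)), le_abs_self h₁, abs_nonneg h₀])
  have sh : ∀ g (k : ℤ), d g + (k + 1) • T - T = d g + k • T := fun g k => by
    rw [add_one_zsmul, ← add_assoc, add_sub_cancel_right]
  rw [finsum_eq_sum_of_support_subset _
    (s := (s ×ˢ Finset.range (2 * N)).image fun q => d q.1 + (-N + q.2 + 1 : ℤ) • T) ?_,
    Finset.sum_image ?_, Finset.sum_product, ← Finset.sum_sub_distrib]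
  · refine O.valuation.map_sum_le fun g hg => ?_
    have h1 := Finset.sum_range_sub' (fun i : ℕ => ω (d g + (-N + i : ℤ) • T)) (2 * N)
    rw [up g hg (-N + (2 * N : ℕ)) (by push_cast; omega), dn g hg (-N + (0 : ℕ)) (by simp),
      sub_zero] at h1
    have h2 : ψ g = ∑ i ∈ Finset.range (2 * N),
        ((ω (d g + (-N + i : ℤ) • T) - ω (d g + (-N + (i + 1 : ℕ) : ℤ) • T) : ℤ) : ℂ) * ψ g := by
      rw [← Finset.sum_mul, ← Int.cast_sum, h1, Int.cast_one, one_mul]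
    rw [h2, ← Finset.sum_sub_distrib]
    refine O.valuation.map_sum_le fun i _ => ?_
    obtain ⟨h3, j, h4⟩ := horb g hg (-N + i + 1)
    rw [if_pos h3, h4, sh, Nat.cast_succ, ← add_assoc, ← mul_sub, ← sub_one_mul, map_mul, map_mul]
    exact (mul_le_of_le_one_left' ((O.valuation_le_one_iff _).2 (intCast_mem O _))).trans
      (mul_le_mul' (val_zpow O hη j) (hψ g hg))
  · rintro ⟨g, i⟩ h1 ⟨g', i'⟩ h2 e
    have e' : d g + (-N + i + 1 : ℤ) • T = d g' + (-N + i' + 1 : ℤ) • T := e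
    obtain rfl : g = g' := hinj g (Finset.mem_product.1 h1).1 g' (Finset.mem_product.1 h2).1
      ((-N + i' + 1) - (-N + i + 1)) (by rw [sub_zsmul, ← add_assoc, ← e', add_neg_cancel_right])
    have h3 := congrArg hgt (add_left_cancel e')
    rw [map_zsmul, map_zsmul, zsmul_eq_mul, zsmul_eq_mul, mul_left_inj' hT.ne, Int.cast_inj] at h3
    exact Prod.ext rfl (by change i = i'; omega)
  · intro x hx
    rw [Function.mem_support] at hx
    have hx1 : D x := by_contra fun h => hx (if_neg h)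
    obtain ⟨g, hg, k, rfl⟩ := hD x hx1
    obtain ⟨k, rfl⟩ : ∃ k', k = k' + 1 := ⟨k - 1, by ring⟩
    rw [if_pos hx1, sh] at hx
    have hx2 : ω (d g + k • T) ≠ ω (d g + (k + 1) • T) := fun e => hx (by rw [e]; simp)
    have h1 : k < N := not_le.1 fun h => hx2 (by rw [up g hg k h, up g hg _ (by omega)])
    have h2 : -N < k + 1 := not_le.1 fun h => hx2 (by rw [dn g hg _ h, dn g hg k (by omega)])
    refine Finset.mem_coe.2 (Finset.mem_image.2 ⟨(g, (k + N).toNat),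
      Finset.mem_product.2 ⟨hg, Finset.mem_range.2 (by change (k + N).toNat < _; omega)⟩, ?_⟩)
    rw [show (-N + ((k + N).toNat : ℕ) + 1 : ℤ) = k + 1 by omega]

end Pool.Agent.CU.O
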