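import Pool.Agent.Lib.MP_ca56d1_nt.CU.O.Fin
import Pool.Agent.Lib.MP_ca56d1_nt.CU.O.TI
import Pool.Agent.Lib.MP_ca56d1_nt.CU.O.RL
import Pool.Agent.Lib.MP_ca56d1_nt.CU.O.AO
import Pool.Agent.Lib.MP_ca56d1_nt.CU.O.TM
import Pool.Agent.Lib.MP_ca56d1_nt.CU.O.Par
import Pool.Agent.Lib.MP_ca56d1_nt.CU.O.Ord
import Pool.Agent.Lib.MP_ca56d1_nt.CU.O.Aff
import Pool.Agent.Lib.MP_ca56d1_nt.CU.O.Mul
import Pool.Agent.Lib.MP_ca56d1_nt.CU.O.HP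
import Pool.Agent.Lib.MP_ca56d1_nt.CU.O.Inst

/-! The finite identity from the properties of line products. -/

namespace Pool.Agent.CU

variable {K : Type} [Field K] [CharZero K] {ρ : K →+* ℝ} {σ : K →+* ℂ}

theorem partO_of (hK : CC ρ σ) (hB : BasSt ρ σ) (hL : LpSt σ) (hA : AdmSt σ) (hM : ModSt σ)
    (hH : HatSt ρ σ) (hU : PartU ρ σ) : PartO2 ρ σ :=
  O.partO2 hB hU (O.parSt hK hB) (O.instSt hB (O.ordSt hL hA) (O.mulSt hL hA hM))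
    (O.hpSt hL hA hH (O.affSt hL hA)) (O.aoSt O.tiSt O.rlSt) O.tmSt O.swSt O.vlSt

end Pool.Agent.CU
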