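import Pool.Agent.Lib.MP_ca56d1_nt.CU.O.Th

/-! Orders of the kernels and the divisor of the elliptic gamma function. -/

namespace Pool.Agent.CU.O.AOAux

open Complex Filter Topology
open scoped Real Classical

/-- `f` is meromorphic at zero of order at least `n`. -/
structure OGe (f : ℂ → ℂ) (n : ℤ) : Prop where
  mer : MeromorphicAt f 0
  le : (n : WithTop ℤ) ≤ meromorphicOrderAt f 0

/-- `f` is meromorphic at zero of order `n`. -/
structure OEq (f : ℂ → ℂ) (n : ℤ) : Prop where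
  mer : MeromorphicAt f 0
  eq : meromorphicOrderAt f 0 = n

variable {f g : ℂ → ℂ} {n m : ℤ}

theorem OEq.ge (h : OEq f n) : OGe f n := ⟨h.mer, h.eq.ge⟩

theorem OGe.mono (h : OGe f n) (e : m ≤ n) : OGe f m :=
  ⟨h.mer, (WithTop.coe_le_coe.2 e).trans h.le⟩

theorem OGe.mul (h : OGe f n) (h' : OGe g m) : OGe (fun z => f z * g z) (n + m) :=
  ⟨h.mer.mul h'.mer, by
    rw [fun_meromorphicOrderAt_mul h.mer h'.mer, WithTop.coe_add]
    exact add_le_add h.le h'.le⟩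

theorem OEq.mul (h : OEq f n) (h' : OEq g m) : OEq (fun z => f z * g z) (n + m) :=
  ⟨h.mer.mul h'.mer, by rw [fun_meromorphicOrderAt_mul h.mer h'.mer, h.eq, h'.eq, WithTop.coe_add]⟩

theorem OEq.inv (h : OEq f n) : OEq (fun z => (f z)⁻¹) (-n) :=
  ⟨h.mer.inv, by rw [fun_meromorphicOrderAt_inv, h.eq]; rfl⟩

theorem OGe.div (h : OGe f n) (h' : OEq g m) : OGe (fun z => f z / g z) (n - m) := by
  simpa only [div_eq_mul_inv, sub_eq_add_neg] using h.mul h'.inv.ge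

theorem OGe.of_an (h : AnalyticAt ℂ f 0) : OGe f 0 := ⟨h.meromorphicAt, h.meromorphicOrderAt_nonneg⟩

theorem OEq.const {c : ℂ} (hc : c ≠ 0) : OEq (fun _ => c) 0 :=
  ⟨MeromorphicAt.const c 0, by rw [meromorphicOrderAt_const, if_neg hc]; rfl⟩

theorem OEq.prod {F : Fin 4 → ℂ → ℂ} {k : Fin 4 → ℤ} (h : ∀ j, OEq (F j) (k j)) :
    OEq (fun z => ∏ j, F j z) (∑ j, k j) := by
  simp only [Fin.prod_univ_four, Fin.sum_univ_four]
  exact (((h 0).mul (h 1)).mul (h 2)).mul (h 3)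

theorem OEq.neg (h : OEq f n) : OEq (fun z => f (-z)) n := by
  have h1 : AnalyticAt ℂ (fun z : ℂ => -z) 0 := by fun_prop
  have h2 : deriv (fun z : ℂ => -z) 0 ≠ 0 := by simp
  refine ⟨(meromorphicAt_comp_iff_of_deriv_ne_zero (f := f) h1 h2).2 (by simpa using h.mer), ?_⟩
  have := meromorphicOrderAt_comp_of_deriv_ne_zero (f := f) h1 h2
  rw [neg_zero, h.eq] at this
  exact this

theorem OGe.tend (h : OGe f n) (e : 0 ≤ n) : Tendsto (fun z => z * f z) (𝓝[≠] (0 : ℂ)) (𝓝 0) :=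
  tendsto_mul_zero_of_order h.mer (h.mono e).le

/-- The indicator function of the lattice. -/
noncomputable def chi (γ β u : ℂ) : ℤ := if u ∈ lat2 γ β then 1 else 0

variable {γ β : ℂ} {ϑ : ℂ → ℂ}

theorem chi_nonneg (u : ℂ) : 0 ≤ chi γ β u := by unfold chi; split_ifs <;> simp

theorem chi_of_not {u : ℂ} (h : u ∉ lat2 γ β) : chi γ β u = 0 := if_neg h

theorem not_of_chi {u : ℂ} (h : chi γ β u ≤ 0) : u ∉ lat2 γ β := fun e => by
  rw [chi, if_pos e] at h; omega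

theorem th_ord (h : IsTh γ β ϑ) {φ : ℂ → ℂ} (u : ℂ) {c : ℂ} (hc : c ≠ 0)
    (e : ∀ z, φ z = u + c * z) : OEq (fun z => ϑ (φ z)) (chi γ β u) := by
  simp only [e]
  exact ⟨(h.an_aff u c 0).meromorphicAt, h.mord u hc⟩

theorem kk_ord (h : IsTh γ β ϑ) {α Z a₀ : ℂ} (h0 : α - 2 * a₀ - Z ∉ lat2 γ β) (w v : ℂ) {c : ℂ}
    (hc : c ≠ 0) (hc1 : c ≠ 1) : OGe (fun z => kk ϑ α Z a₀ (w + z) (v + c * z))
      (chi γ β (α - a₀ - v) + chi γ β (w - Z - a₀) -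
        (chi γ β (w - v) + chi γ β (α - a₀ - w) + chi γ β (v - Z - a₀))) := by
  have h1 := th_ord h (φ := fun z => α - a₀ - (v + c * z)) (α - a₀ - v) (neg_ne_zero.2 hc)
    fun z => by ring
  have h2 := th_ord h (φ := fun z => v + c * z - (w + z) + (α - 2 * a₀ - Z))
    (v - w + (α - 2 * a₀ - Z)) (sub_ne_zero.2 hc1) fun z => by ring
  have h3 := th_ord h (φ := fun z => w + z - Z - a₀) (w - Z - a₀) one_ne_zero fun z => by ring
  have h4 := th_ord h (φ := fun z => w + z - (v + c * z)) (w - v) (sub_ne_zero.2 hc1.symm)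
    fun z => by ring
  have h5 := th_ord h (φ := fun z => α - a₀ - (w + z)) (α - a₀ - w) (neg_ne_zero.2 one_ne_zero)
    fun z => by ring
  have h6 := th_ord h (φ := fun z => v + c * z - Z - a₀) (v - Z - a₀) hc fun z => by ring
  refine (((h1.mul h2).mul h3).ge.div (((h4.mul h5).mul h6).mul (OEq.const (h.ne h0)))).mono ?_
  have := chi_nonneg (γ := γ) (β := β) (v - w + (α - 2 * a₀ - Z))
  omega

theorem kk_lim (h : IsTh γ β ϑ) {α Z a₀ w : ℂ} (h0 : α - 2 * a₀ - Z ∉ lat2 γ β)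
    (h1 : α - a₀ - w ∉ lat2 γ β) (h2 : w - Z - a₀ ∉ lat2 γ β) {c : ℂ} (hc1 : c ≠ 1) :
    Tendsto (fun z => z * kk ϑ α Z a₀ (w + z) (w + c * z)) (𝓝[≠] (0 : ℂ))
      (𝓝 ((1 - c) * deriv ϑ 0)⁻¹) := by
  have hc := h.diff.continuous
  have h3 : ContinuousAt (fun z => ϑ (α - a₀ - (w + c * z)) *
      ϑ (w + c * z - (w + z) + (α - 2 * a₀ - Z)) * ϑ (w + z - Z - a₀) /
      (ϑ (α - a₀ - (w + z)) * ϑ (w + c * z - Z - a₀) * ϑ (α - 2 * a₀ - Z))) 0 := by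
    refine ContinuousAt.div (by fun_prop) (by fun_prop) ?_
    simpa using ⟨⟨h.ne h1, h.ne h2⟩, h.ne h0⟩
  have h4 := (h3.tendsto.mono_left (nhdsWithin_le_nhds (s := {0}ᶜ))).div (h.tend (1 - c))
    (mul_ne_zero (sub_ne_zero.2 hc1.symm) h.deriv_ne)
  convert h4 using 2
  · rename_i z
    simp only [kk, Pi.div_apply]
    rw [show w + z - (w + c * z) = (1 - c) * z by ring, div_div_eq_mul_div]
    ring
  · simp only [mul_zero, add_zero, sub_self, zero_add]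
    rw [mul_right_comm, div_self (mul_ne_zero (mul_ne_zero (h.ne h1) (h.ne h2)) (h.ne h0)), one_div]

theorem k3_ord (h : IsTh γ β ϑ) (α Z : ℂ) (a : Fin 4 → ℂ) {N : ℂ × ℂ → ℂ}
    (hN : Differentiable ℂ N) (w v : ℂ) {c : ℂ} (hc : c ≠ 0) :
    OGe (fun z => k3 ϑ α Z a N (w + z) (v + c * z))
      (0 - (∑ j, chi γ β (w + α - Z - a j) + ∑ j, chi γ β (v - Z - a j))) := by
  have h1 : Differentiable ℂ fun z => N (w + z, v + c * z) := hN.comp (by fun_prop)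
  exact (OGe.of_an (h1.analyticAt 0)).div
    ((OEq.prod fun j => th_ord h (φ := fun z => w + z + α - Z - a j) _ one_ne_zero
      fun z => by ring).mul
    (OEq.prod fun j => th_ord h (φ := fun z => v + c * z - Z - a j) _ hc fun z => by ring))

/-- `φ` is periodic in both variables. -/
def Per (γ β : ℂ) (φ : ℂ → ℂ → ℂ) : Prop :=
  ∀ m ∈ lat2 γ β, ∀ w v, φ (w + m) v = φ w v ∧ φ w (v + m) = φ w v

theorem Per.eq {φ : ℂ → ℂ → ℂ} (h : Per γ β φ) {w w' v v' : ℂ} (hw : cl γ β w = cl γ β w')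
    (hv : cl γ β v = cl γ β v') : φ w v = φ w' v' := by
  rw [← (h _ (cl_eq.1 hw) w' v').1, ← (h _ (cl_eq.1 hv) _ v').2, add_sub_cancel, add_sub_cancel]

theorem kk_per (h : IsTh γ β ϑ) (α Z a₀ : ℂ) : Per γ β (kk ϑ α Z a₀) := by
  intro m hm w v
  obtain ⟨l, c, hq⟩ := h.qp m hm
  have p : ∀ {x u : ℂ}, x = u + m → ϑ x = ee (l * u + c) * ϑ u := fun e => by rw [e, hq]
  have q : ∀ {x u : ℂ}, x = u - m → ϑ x = ee (-l * u + c) * ϑ u := fun {x u} e => by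
    rw [show x = -(-u + m) by rw [e]; ring, h.odd, hq, h.odd, mul_neg, neg_neg, mul_neg, neg_mul]
  have key : ∀ {e₁ e₂ e₃ e₄ n d n' d' : ℂ}, e₁ + e₂ = e₃ + e₄ → n' = ee e₁ * ee e₂ * n →
      d' = ee e₃ * ee e₄ * d → n' / d' = n / d := fun e e1 e2 => by
    rw [e1, e2, ← ee_add, ← ee_add, e, mul_div_mul_left _ _ (ee_ne _)]
  unfold kk
  constructor
  · rw [q (x := v - (w + m) + (α - 2 * a₀ - Z)) (u := v - w + (α - 2 * a₀ - Z)) (by ring),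
      p (x := w + m - Z - a₀) (u := w - Z - a₀) (by ring), p (x := w + m - v) (u := w - v) (by ring),
      q (x := α - a₀ - (w + m)) (u := α - a₀ - w) (by ring)]
    exact key (e₁ := -l * (v - w + (α - 2 * a₀ - Z)) + c) (e₂ := l * (w - Z - a₀) + c)
      (e₃ := l * (w - v) + c) (e₄ := -l * (α - a₀ - w) + c) (by ring) (by ring) (by ring)
  · rw [q (x := α - a₀ - (v + m)) (u := α - a₀ - v) (by ring),
      p (x := v + m - w + (α - 2 * a₀ - Z)) (u := v - w + (α - 2 * a₀ - Z)) (by ring),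
      q (x := w - (v + m)) (u := w - v) (by ring),
      p (x := v + m - Z - a₀) (u := v - Z - a₀) (by ring)]
    exact key (e₁ := -l * (α - a₀ - v) + c) (e₂ := l * (v - w + (α - 2 * a₀ - Z)) + c)
      (e₃ := -l * (w - v) + c) (e₄ := l * (v - Z - a₀) + c) (by ring) (by ring) (by ring)

theorem Per.refl {φ : ℂ → ℂ → ℂ} (h : Per γ β φ) (Z : ℂ) : Per γ β fun w v => φ w (Z - v) :=
  fun m hm w v => ⟨(h m hm w _).1, by
    change φ w (Z - (v + m)) = φ w (Z - v)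
    rw [← (h m hm w (Z - (v + m))).2, show Z - (v + m) + m = Z - v by ring]⟩

theorem rr_refl (h : IsTh γ β ϑ) (α Z : ℂ) (a : Fin 4 → ℂ) (v : ℂ) :
    rr ϑ α Z a (Z - v) = (rr ϑ α Z a (v - α))⁻¹ := by
  have e1 : ∀ j, ϑ (Z - v + a j) = -ϑ (v - α + α - Z - a j) := fun j => by
    rw [← h.odd]; congr 1; ring
  have e2 : ∀ j, ϑ (Z - v + α - Z - a j) = -ϑ (v - α + a j) := fun j => by
    rw [← h.odd]; congr 1; ring
  simp only [rr, e1, e2, Fin.prod_univ_four, inv_div]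
  ring

theorem rr_ne (h : IsTh γ β ϑ) {α Z : ℂ} {a : Fin 4 → ℂ} {v : ℂ}
    (hv : ∀ j, v + a j ∉ lat2 γ β ∧ v + α - Z - a j ∉ lat2 γ β) : rr ϑ α Z a v ≠ 0 :=
  div_ne_zero (Finset.prod_ne_zero_iff.2 fun j _ => h.ne (hv j).1)
    (Finset.prod_ne_zero_iff.2 fun j _ => h.ne (hv j).2)

/-! ### Lattice points -/

variable {A : Type} [AddCommGroup A] (G : Geo A)

theorem W₁_lat (i j : ℤ) : G.W₁ (i • G.P + j • G.R) = cl G.γ G.β (i * G.α) := by
  rw [map_add, map_zsmul, map_zsmul, G.W₁_P, G.W₁_R, smul_zero, add_zero, cl_zsmul]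

theorem W₂_lat (i j : ℤ) : G.W₂ (i • G.P + j • G.R) = cl G.γ G.β (j * G.α) := by
  rw [map_add, map_zsmul, map_zsmul, G.W₂_P, G.W₂_R, smul_zero, zero_add, cl_zsmul]

theorem cl_inj {i j : ℤ} (h : cl G.γ G.β (i * G.α) = cl G.γ G.β (j * G.α)) : i = j :=
  sub_eq_zero.1 (G.free _ (by push_cast; rw [sub_mul]; exact cl_eq.1 h))

theorem lat_inj {i j i' j' : ℤ} (h : i • G.P + j • G.R = i' • G.P + j' • G.R) :
    i = i' ∧ j = j' :=
  ⟨cl_inj G (by rw [← W₁_lat G i j, h, W₁_lat]), cl_inj G (by rw [← W₂_lat G i j, h, W₂_lat])⟩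

/-- The divisor in coordinates. -/
def oo (i j : ℤ) : ℤ := if 1 ≤ i ∧ j ≤ 0 then 1 else if i ≤ 0 ∧ 1 ≤ j then -1 else 0

theorem o_lat (i j : ℤ) : G.o (i • G.P + j • G.R) = oo i j := by
  have key : ∀ q : ℤ → Prop, ∀ r : ℤ → Prop, (∃ i' j' : ℤ, q i' ∧ r j' ∧
      i • G.P + j • G.R = i' • G.P + j' • G.R) ↔ q i ∧ r j := fun q r =>
    ⟨fun ⟨_, _, h1, h2, e⟩ => by obtain ⟨rfl, rfl⟩ := lat_inj G e; exact ⟨h1, h2⟩,
      fun h => ⟨i, j, h.1, h.2, rfl⟩⟩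
  simp only [Geo.o, oo, key (1 ≤ ·) (· ≤ 0), key (· ≤ 0) (1 ≤ ·)]

theorem o_non {u : A} (h : ¬ ∃ i j : ℤ, u = i • G.P + j • G.R) : G.o u = 0 := by
  rw [Geo.o, if_neg fun ⟨i, j, _, _, e⟩ => h ⟨i, j, e⟩, if_neg fun ⟨i, j, _, _, e⟩ => h ⟨i, j, e⟩]

theorem o_refl (u : A) : G.o (G.P + G.R - u) = -G.o u := by
  by_cases h : ∃ i j : ℤ, u = i • G.P + j • G.R
  · obtain ⟨i, j, rfl⟩ := h
    rw [show G.P + G.R - (i • G.P + j • G.R) = (1 - i) • G.P + (1 - j) • G.R by module,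
      o_lat, o_lat, oo, oo]
    split_ifs <;> omega
  · rw [o_non G h, neg_zero]
    refine o_non G fun ⟨i, j, e⟩ => h ⟨1 - i, 1 - j, ?_⟩
    rw [show u = G.P + G.R - (i • G.P + j • G.R) by rw [← e]; abel]
    module

/-- The enlarged quadrant of poles. -/
def Q (u : A) : Prop := ∃ i j : ℤ, i ≤ 1 ∧ 0 ≤ j ∧ u = i • G.P + j • G.R

theorem Q_hgt {u : A} (h : Q G u) : G.hgt u ≤ G.hgt G.P := by
  obtain ⟨i, j, hi, hj, rfl⟩ := h
  rw [map_add, map_zsmul, map_zsmul, zsmul_eq_mul, zsmul_eq_mul]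
  have h1 : (i : ℝ) ≤ 1 := by exact_mod_cast hi
  have h2 : (0 : ℝ) ≤ j := by exact_mod_cast hj
  nlinarith [G.hP, G.hR]

theorem bound {u s : A} {w v : ℂ} (hw : G.W₁ u = cl G.γ G.β w) (hv : G.W₂ u = cl G.γ G.β v)
    (c d e₁ e₂ : ℤ) (hs : s = u + (c • G.P + d • G.R)) (h : ¬ (Q G u ∧ Q G s))
    (hc : ∀ i j : ℤ, ¬ ((i ≤ 1 ∧ 0 ≤ j) ∧ i + c ≤ 1 ∧ 0 ≤ j + d) →
      e₁ * (if i = 1 then 1 else 0) + e₂ * (if j = 0 then 1 else 0) ≤ oo i j) :
    e₁ * chi G.γ G.β (w - G.α) + e₂ * chi G.γ G.β v ≤ G.o u := by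
  by_cases hu : ∃ i j : ℤ, u = i • G.P + j • G.R
  · obtain ⟨i, j, rfl⟩ := hu
    rw [W₁_lat] at hw
    rw [W₂_lat] at hv
    have e1 : w - G.α ∈ lat2 G.γ G.β ↔ i = 1 := by
      rw [← cl_eq, ← hw]
      exact ⟨fun e => cl_inj G (by simpa using e), fun e => by simp [e]⟩
    have e2 : v ∈ lat2 G.γ G.β ↔ j = 0 := by
      rw [← cl_eq_zero, ← hv]
      exact ⟨fun e => cl_inj G (by simpa using e), fun e => by simp [e]⟩
    simp only [chi, e1, e2, o_lat]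
    refine hc i j fun ⟨h1, h2⟩ => h ⟨⟨i, j, h1.1, h1.2, rfl⟩, i + c, j + d, h2.1, h2.2, ?_⟩
    rw [hs]
    module
  · rw [o_non G hu, chi_of_not fun e => hu ?_, chi_of_not fun e => hu ?_]
    · simp
    · obtain ⟨i, h⟩ := G.lat₂ u 0 (by rw [hv, cl_eq]; simpa using e)
      exact ⟨i, 0, h⟩
    · exact ⟨1, G.lat₁ u 1 (by rw [hw, cl_eq]; simpa using e)⟩

end Pool.Agent.CU.O.AOAux
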