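import Pool.Agent.Lib.MP_ca56d1_nt.CU.O.AO1

/-! The residues of the three integrands. -/

namespace Pool.Agent.CU.O.AOAux

open Complex Filter Topology
open scoped Real Classical

variable {A : Type} [AddCommGroup A]

/-- `u` is in general position. -/
def Gen (γ β α ζ : ℂ) (a : Fin 4 → ℂ) (u : ℂ) : Prop :=
  ∀ j, u + a j ∉ lat2 γ β ∧ u + α - ζ - a j ∉ lat2 γ β

/-- The symmetric integrand. -/
structure IDat (G : Geo A) (ϑ : ℂ → ℂ) (ζ : ℂ) (Z : A) (a : Fin 4 → ℂ) (p : Fin 4 → Fin 4)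
    (τ : Fin 4 → A) (I : A → ℂ) : Prop where
  th : IsTh G.γ G.β ϑ
  Z₁ : G.W₁ Z = cl G.γ G.β ζ
  Z₂ : G.W₂ Z = cl G.γ G.β ζ
  τ₁ : ∀ k, G.W₁ (τ k) = cl G.γ G.β (a k)
  τ₂ : ∀ k, G.W₂ (τ k) = cl G.γ G.β (a (p k))
  inv : ∀ k, p (p k) = k
  sum : ∑ j, a j = 2 * G.α - 2 * ζ
  big : ∀ k l (i j : ℤ), Z + τ k + τ l = i • G.P + j • G.R → (3 ≤ i ∧ 3 ≤ j) ∨ (i ≤ -1 ∧ j ≤ -1)
  sep : ∀ j k, j ≠ 0 → k ≠ 0 → j ≠ k → a j - a k ∉ lat2 G.γ G.β
  sw : ∀ k, p k ≠ k → ∀ i : ℤ, a k - a (p k) - i * G.α ∉ lat2 G.γ G.β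
  ord : ∀ x, OEq (fun z => I (x + G.ι z)) (∑ k, G.o (x + τ k) + ∑ k, G.o (Z + τ k - x))
  an : ∀ x, (∀ k, G.o (x + τ k) = 0 ∧ G.o (Z + τ k - x) = 0) →
    ContinuousAt (fun z => I (x + G.ι z)) 0
  mP : ∀ x w, G.W₁ x = cl G.γ G.β w → Gen G.γ G.β G.α ζ a w →
    I (x + G.P) = rr ϑ G.α ζ a w * I x
  mR : ∀ x v, G.W₂ x = cl G.γ G.β v → Gen G.γ G.β G.α ζ a v →
    I (x + G.R) = I x / rr ϑ G.α ζ a v

/-- A periodic function of two variables as a function on `A`. -/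
noncomputable def lf (G : Geo A) (φ : ℂ → ℂ → ℂ) (x : A) : ℂ := φ (G.W₁ x).out (G.W₂ x).out

variable {G : Geo A} {ϑ : ℂ → ℂ} {ζ : ℂ} {Z : A} {a : Fin 4 → ℂ} {p : Fin 4 → Fin 4}
  {τ : Fin 4 → A} {I : A → ℂ} {φ : ℂ → ℂ → ℂ} {x : A} {w v : ℂ}

theorem rep (c : ℂ ⧸ lat2 G.γ G.β) : ∃ w, c = cl G.γ G.β w := ⟨c.out, (Quotient.out_eq c).symm⟩

theorem lf_eq (h : Per G.γ G.β φ) (hw : G.W₁ x = cl G.γ G.β w) (hv : G.W₂ x = cl G.γ G.β v) :
    lf G φ x = φ w v :=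
  h.eq ((Quotient.out_eq _).trans hw) ((Quotient.out_eq _).trans hv)

theorem W₁_loc (hw : G.W₁ x = cl G.γ G.β w) (z : ℂ) :
    G.W₁ (x + G.ι z) = cl G.γ G.β (w + z) := by rw [map_add, hw, G.W₁_ι, cl_add]

theorem W₂_loc (hv : G.W₂ x = cl G.γ G.β v) (z : ℂ) :
    G.W₂ (x + G.ι z) = cl G.γ G.β (v + G.η * z) := by rw [map_add, hv, G.W₂_ι, cl_add]

theorem lf_loc (h : Per G.γ G.β φ) (hw : G.W₁ x = cl G.γ G.β w) (hv : G.W₂ x = cl G.γ G.β v)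
    (z : ℂ) : lf G φ (x + G.ι z) = φ (w + z) (v + G.η * z) :=
  lf_eq h (W₁_loc hw z) (W₂_loc hv z)

theorem chi_neg {γ β u u' : ℂ} (e : u + u' = 0) : chi γ β u = chi γ β u' := by
  rw [eq_neg_of_add_eq_zero_left e, chi, chi, neg_mem_iff]

theorem single {c : Fin 4 → ℂ} (k : Fin 4) : chi G.γ G.β (c k) ≤ ∑ j, chi G.γ G.β (c j) :=
  Finset.single_le_sum (f := fun j => chi G.γ G.β (c j)) (fun _ _ => chi_nonneg _)
    (Finset.mem_univ k)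

/-- The points `x` and `x - s` do not lie in the same cone of poles. -/
def NJ (G : Geo A) (Z : A) (τ : Fin 4 → A) (x s : A) : Prop :=
  ∀ k, ¬ (Q G (x + τ k) ∧ Q G (x - s + τ k)) ∧
    ¬ (Q G (Z + τ k - x) ∧ Q G (Z + τ k - (x - s)))

namespace IDat

variable (D : IDat G ϑ ζ Z a p τ I)
include D

theorem zz (k l : Fin 4) {i : ℤ} (h0 : 0 ≤ i) (h2 : i ≤ 2) :
    ζ + a k + a l - i * G.α ∉ lat2 G.γ G.β := fun e => by
  obtain ⟨j, h⟩ := G.lat₁ (Z + τ k + τ l) i (by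
    rw [map_add, map_add, D.Z₁, D.τ₁, D.τ₁, ← cl_add, ← cl_add, cl_eq]; exact e)
  have := D.big k l i j h
  omega

theorem k0 : G.α - 2 * a 0 - ζ ∉ lat2 G.γ G.β := fun e =>
  D.zz 0 0 zero_le_one one_le_two (by convert neg_mem e using 1; push_cast; ring)

theorem disj {k l : Fin 4} (h : Q G (x + τ k)) (h' : Q G (Z + τ l - x)) : False := by
  obtain ⟨i, j, h1, h2, e⟩ := h
  obtain ⟨i', j', h3, h4, e'⟩ := h'
  have := D.big k l (i + i') (j + j') (by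
    rw [show Z + τ k + τ l = x + τ k + (Z + τ l - x) by abel, e, e']; module)
  omega

theorem o_diag {u : A} {k : Fin 4} (h1 : G.W₁ u = cl G.γ G.β (w + a k))
    (h2 : G.W₂ u = cl G.γ G.β (w + a (p k))) : G.o u = 0 := by
  by_cases hu : ∃ i j : ℤ, u = i • G.P + j • G.R
  · obtain ⟨i, j, rfl⟩ := hu
    rw [W₁_lat] at h1
    rw [W₂_lat] at h2
    by_cases e : p k = k
    · rw [e, ← h1] at h2
      rw [o_lat, cl_inj G h2, oo]
      split_ifs <;> omega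
    · refine absurd ?_ (D.sw k e (i - j))
      convert sub_mem (cl_eq.1 h2) (cl_eq.1 h1) using 1
      push_cast; ring
  · exact o_non G hu

theorem l₁ (hw : G.W₁ x = cl G.γ G.β w) (k : Fin 4) :
    G.W₁ (x + τ k) = cl G.γ G.β (w + a k) := by rw [map_add, hw, D.τ₁, cl_add]

theorem l₂ (hv : G.W₂ x = cl G.γ G.β v) (k : Fin 4) :
    G.W₂ (x + τ k) = cl G.γ G.β (v + a (p k)) := by rw [map_add, hv, D.τ₂, cl_add]

theorem u₁ (hw : G.W₁ x = cl G.γ G.β w) (k : Fin 4) :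
    G.W₁ (Z + τ k - x) = cl G.γ G.β (ζ - w + a k) := by
  rw [map_sub, map_add, hw, D.τ₁, D.Z₁, ← cl_add, ← cl_sub, add_sub_right_comm]

theorem u₂ (hv : G.W₂ x = cl G.γ G.β v) (k : Fin 4) :
    G.W₂ (Z + τ k - x) = cl G.γ G.β (ζ - v + a (p k)) := by
  rw [map_sub, map_add, hv, D.τ₂, D.Z₂, ← cl_add, ← cl_sub, add_sub_right_comm]

theorem tend_I (h : ∀ k, G.o (x + τ k) = 0 ∧ G.o (Z + τ k - x) = 0) :
    Tendsto (fun z => I (x + G.ι z)) (𝓝[≠] (0 : ℂ)) (𝓝 (I x)) := by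
  simpa using (D.an x h).tendsto.mono_left (nhdsWithin_le_nhds (s := {0}ᶜ))

theorem lim₁ (h : NJ G Z τ x (G.P + G.R)) :
    Tendsto (fun z => z * (I (x + G.ι z) * lf G (kk ϑ G.α ζ (a 0)) (x + G.ι z))) (𝓝[≠] (0 : ℂ))
      (𝓝 (if G.W₁ x = G.W₂ x then I x * ((1 - G.η) * deriv ϑ 0)⁻¹ else 0)) := by
  obtain ⟨w, hw⟩ := rep (G.W₁ x)
  obtain ⟨v, hv⟩ := rep (G.W₂ x)
  have b1 : ∀ k, chi G.γ G.β (w + a k - G.α) ≤ G.o (x + τ k) := fun k => by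
    simpa using bound G (D.l₁ hw k) (D.l₂ hv k) (-1) (-1) 1 0 (by module) (h k).1
      fun i j hij => by unfold oo; split_ifs <;> omega
  have b2 : ∀ k, chi G.γ G.β (ζ - v + a (p k)) ≤ G.o (Z + τ k - x) := fun k => by
    simpa using bound G (D.u₁ hw k) (D.u₂ hv k) 1 1 0 1 (by module) (h k).2
      fun i j hij => by unfold oo; split_ifs <;> omega
  have c1 := (single (c := fun k => w + a k - G.α) 0).trans (Finset.sum_le_sum fun k _ => b1 k)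
  have c2 := (single (c := fun k => ζ - v + a (p k)) (p 0)).trans
    (Finset.sum_le_sum fun k _ => b2 k)
  simp only [D.inv] at c1 c2
  rw [chi_neg (u' := G.α - a 0 - w) (by ring)] at c1
  rw [chi_neg (u' := v - ζ - a 0) (by ring)] at c2
  split_ifs with e
  · have hv' := e ▸ hw
    have h0 : ∀ k, G.o (x + τ k) = 0 ∧ G.o (Z + τ k - x) = 0 := fun k =>
      ⟨D.o_diag (D.l₁ hw k) (D.l₂ hv' k), D.o_diag (D.u₁ hw k) (D.u₂ hv' k)⟩
    simp only [h0, Finset.sum_const_zero] at c1 c2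
    simp only [lf_loc (kk_per D.th _ _ _) hw hv']
    refine ((D.tend_I h0).mul (kk_lim D.th D.k0 (not_of_chi c1) (fun e' => not_of_chi c2 ?_)
      G.η_one)).congr fun z => mul_left_comm _ _ _
    convert add_mem e' (cl_eq.1 (hv.symm.trans hv')) using 1
    ring
  · simp only [lf_loc (kk_per D.th _ _ _) hw hv]
    refine ((D.ord x).ge.mul (kk_ord D.th D.k0 w v G.η_ne G.η_one)).tend ?_
    have h1 := chi_of_not (u := w - v) fun e' => e (by rw [hw, hv, cl_eq]; exact e')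
    have h2 := chi_nonneg (γ := G.γ) (β := G.β) (G.α - a 0 - v)
    have h3 := chi_nonneg (γ := G.γ) (β := G.β) (w - ζ - a 0)
    omega

theorem lim₂ (h : NJ G Z τ x (G.P - G.R)) :
    Tendsto (fun z => z * (I (x + G.ι z) *
      lf G (fun w v => kk ϑ G.α ζ (a 0) w (ζ - v)) (x + G.ι z))) (𝓝[≠] (0 : ℂ))
      (𝓝 (if G.W₁ x + G.W₂ x = G.W₁ Z ∧ ∀ k, G.o (x + τ k) = 0 ∧ G.o (Z + τ k - x) = 0 then
        I x * ((1 + G.η) * deriv ϑ 0)⁻¹ else 0)) := by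
  obtain ⟨w, hw⟩ := rep (G.W₁ x)
  obtain ⟨v, hv, hvw⟩ : ∃ v, G.W₂ x = cl G.γ G.β v ∧ (G.W₁ x + G.W₂ x = G.W₁ Z → ζ - v = w) := by
    by_cases e : G.W₁ x + G.W₂ x = G.W₁ Z
    · exact ⟨ζ - w, by rw [cl_sub, ← hw, ← D.Z₁, ← e, add_sub_cancel_left], fun _ => by ring⟩
    · obtain ⟨v, hv⟩ := rep (G.W₂ x)
      exact ⟨v, hv, fun e' => absurd e' e⟩
  have b1 : ∀ k, chi G.γ G.β (w + a k - G.α) + chi G.γ G.β (v + a (p k)) ≤ G.o (x + τ k) :=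
    fun k => by
      simpa using bound G (D.l₁ hw k) (D.l₂ hv k) (-1) 1 1 1 (by module) (h k).1
        fun i j hij => by unfold oo; split_ifs <;> omega
  have b2 : ∀ k, 0 ≤ G.o (Z + τ k - x) := fun k => by
    simpa using bound G (D.u₁ hw k) (D.u₂ hv k) 1 (-1) 0 0 (by module) (h k).2
      fun i j hij => by unfold oo; split_ifs <;> omega
  have b3 : ∀ k, 0 ≤ G.o (x + τ k) := fun k =>
    (add_nonneg (chi_nonneg _) (chi_nonneg _)).trans (b1 k)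
  have c1 := (add_le_add (single (c := fun k => w + a k - G.α) 0)
    (single (c := fun k => v + a (p k)) (p 0))).trans
    (Finset.sum_add_distrib.ge.trans (Finset.sum_le_sum fun k _ => b1 k))
  have c2 : 0 ≤ ∑ k, G.o (Z + τ k - x) := Finset.sum_nonneg fun k _ => b2 k
  simp only [D.inv] at c1
  rw [chi_neg (u' := G.α - a 0 - w) (by ring), chi_neg (u := v + a 0) (u' := ζ - v - ζ - a 0)
    (by ring)] at c1
  have n1 := chi_nonneg (γ := G.γ) (β := G.β) (G.α - a 0 - w)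
  have n2 := chi_nonneg (γ := G.γ) (β := G.β) (ζ - v - ζ - a 0)
  have n3 := chi_nonneg (γ := G.γ) (β := G.β) (G.α - a 0 - (ζ - v))
  have n4 := chi_nonneg (γ := G.γ) (β := G.β) (w - ζ - a 0)
  have hη : -G.η ≠ 1 := fun e => G.η_neg (by rw [← e, neg_neg])
  simp only [lf_loc ((kk_per D.th _ _ _).refl ζ) hw hv,
    show ∀ z, ζ - (v + G.η * z) = ζ - v + -G.η * z from fun z => by ring]
  have ho := (D.ord x).ge.mul (kk_ord D.th D.k0 w (ζ - v) (neg_ne_zero.2 G.η_ne) hη)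
  split_ifs with e
  · simp only [e.2, Finset.sum_const_zero] at c1
    rw [hvw e.1] at c1 n2 ⊢
    rw [← sub_neg_eq_add 1]
    exact ((D.tend_I e.2).mul (kk_lim D.th D.k0 (not_of_chi (by omega)) (not_of_chi (by omega))
      hη)).congr fun z => mul_left_comm _ _ _
  · refine ho.tend ?_
    by_cases e1 : G.W₁ x + G.W₂ x = G.W₁ Z
    · have h1 : chi G.γ G.β (w - w) ≤ 1 := by unfold chi; split_ifs <;> simp
      have h2 : ∑ k, G.o (x + τ k) + ∑ k, G.o (Z + τ k - x) ≠ 0 := fun e2 => e ⟨e1, fun k => by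
        have h3 : 0 ≤ ∑ k, G.o (x + τ k) := Finset.sum_nonneg fun k _ => b3 k
        have h4 : ∑ k, G.o (x + τ k) = 0 := by omega
        have h5 : ∑ k, G.o (Z + τ k - x) = 0 := by omega
        exact ⟨(Finset.sum_eq_zero_iff_of_nonneg fun k _ => b3 k).1 h4 k (by simp),
          (Finset.sum_eq_zero_iff_of_nonneg fun k _ => b2 k).1 h5 k (by simp)⟩⟩
      rw [hvw e1] at c1 n2 ⊢
      omega
    · have h1 := chi_of_not (u := w - (ζ - v)) fun e' => e1 (by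
        rw [hw, hv, D.Z₁, ← cl_add, cl_eq]; convert e' using 1; ring)
      omega

theorem lim₃ (h : NJ G Z τ x G.R) {N : ℂ × ℂ → ℂ} (hN : Differentiable ℂ N)
    (hp : Per G.γ G.β (k3 ϑ G.α ζ a N)) :
    Tendsto (fun z => z * (I (x + G.ι z) * lf G (k3 ϑ G.α ζ a N) (x + G.ι z))) (𝓝[≠] (0 : ℂ))
      (𝓝 0) := by
  obtain ⟨w, hw⟩ := rep (G.W₁ x)
  obtain ⟨v, hv⟩ := rep (G.W₂ x)
  have b1 : ∀ k, 0 ≤ G.o (x + τ k) := fun k => by
    simpa using bound G (D.l₁ hw k) (D.l₂ hv k) 0 (-1) 0 0 (by module) (h k).1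
      fun i j hij => by unfold oo; split_ifs <;> omega
  have b2 : ∀ k, chi G.γ G.β (w + G.α - ζ - a k) + chi G.γ G.β (v - ζ - a (p k)) ≤
      G.o (Z + τ k - x) := fun k => by
    rw [chi_neg (u' := ζ - w + a k - G.α) (by ring),
      chi_neg (u := v - ζ - a (p k)) (u' := ζ - v + a (p k)) (by ring)]
    simpa using bound G (D.u₁ hw k) (D.u₂ hv k) 0 1 1 1 (by module) (h k).2
      fun i j hij => by unfold oo; split_ifs <;> omega
  have c1 : 0 ≤ ∑ k, G.o (x + τ k) := Finset.sum_nonneg fun k _ => b1 k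
  have c2 := Finset.sum_add_distrib.ge.trans (Finset.sum_le_sum (s := Finset.univ) fun k _ => b2 k)
  have c3 : ∑ k, chi G.γ G.β (v - ζ - a (p k)) = ∑ k, chi G.γ G.β (v - ζ - a k) :=
    Equiv.sum_comp (Function.Involutive.toPerm p D.inv) fun k => chi G.γ G.β (v - ζ - a k)
  simp only [lf_loc hp hw hv]
  refine ((D.ord x).ge.mul (k3_ord D.th G.α ζ a hN w v G.η_ne)).tend ?_
  omega

theorem ev_gen (u : ℂ) {c : ℂ} (hc : c ≠ 0) :
    ∀ᶠ z in 𝓝[≠] (0 : ℂ), Gen G.γ G.β G.α ζ a (u + c * z) := by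
  refine eventually_all.2 fun j => ?_
  filter_upwards [D.th.ev_not_mem (u + a j) hc, D.th.ev_not_mem (u + G.α - ζ - a j) hc] with z h1 h2
  exact ⟨by convert h1 using 2; ring, by convert h2 using 2; ring⟩

theorem coc {N : ℂ × ℂ → ℂ} (hp : Per G.γ G.β (k3 ϑ G.α ζ a N)) (hw : G.W₁ x = cl G.γ G.β w)
    (hv : G.W₂ x = cl G.γ G.β v) (g1 : Gen G.γ G.β G.α ζ a w) (g2 : Gen G.γ G.β G.α ζ a v)
    (g3 : Gen G.γ G.β G.α ζ a (v - G.α))
    (h : De ϑ G.α ζ a w v - De ϑ G.α ζ a w (ζ - v) =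
      k3 ϑ G.α ζ a N w v - k3 ϑ G.α ζ a N w (v + G.α) / rr ϑ G.α ζ a v) :
    (I (x + (G.P + G.R)) * lf G (kk ϑ G.α ζ (a 0)) (x + (G.P + G.R)) -
        I x * lf G (kk ϑ G.α ζ (a 0)) x) -
      (I (x + (G.P - G.R)) * lf G (fun w v => kk ϑ G.α ζ (a 0) w (ζ - v)) (x + (G.P - G.R)) -
        I x * lf G (fun w v => kk ϑ G.α ζ (a 0) w (ζ - v)) x) +
      (I (x + G.R) * lf G (k3 ϑ G.α ζ a N) (x + G.R) - I x * lf G (k3 ϑ G.α ζ a N) x) = 0 := by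
  have hk := kk_per D.th G.α ζ (a 0)
  have w1 : G.W₁ (x + G.R) = cl G.γ G.β w := by rw [map_add, hw, G.W₁_R, add_zero]
  have v1 : G.W₂ (x + G.R) = cl G.γ G.β (v + G.α) := by rw [map_add, hv, G.W₂_R, cl_add]
  have w2 : G.W₁ (x - G.R) = cl G.γ G.β w := by rw [map_sub, hw, G.W₁_R, sub_zero]
  have v2 : G.W₂ (x - G.R) = cl G.γ G.β (v - G.α) := by rw [map_sub, hv, G.W₂_R, cl_sub]
  have wP : ∀ {u : A}, G.W₁ u = cl G.γ G.β w → G.W₁ (u + G.P) = cl G.γ G.β (w + G.α) :=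
    fun e => by rw [map_add, e, G.W₁_P, cl_add]
  have vP : ∀ {u : A} {v : ℂ}, G.W₂ u = cl G.γ G.β v → G.W₂ (u + G.P) = cl G.γ G.β v :=
    fun e => by rw [map_add, e, G.W₂_P, add_zero]
  have e1 := D.mR _ _ v2 g3
  rw [sub_add_cancel, eq_div_iff (rr_ne D.th g3)] at e1
  rw [show x + (G.P + G.R) = x + G.R + G.P by abel, show x + (G.P - G.R) = x - G.R + G.P by abel,
    lf_eq hk (wP w1) (vP v1), lf_eq hk hw hv, lf_eq (hk.refl ζ) (wP w2) (vP v2),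
    lf_eq (hk.refl ζ) hw hv, lf_eq hp w1 v1, lf_eq hp hw hv, D.mP _ _ w1 g1, D.mP _ _ w2 g1,
    D.mR _ _ hv g2, ← e1, show ζ - (v - G.α) = ζ - v + G.α by ring]
  rw [De, De, rr_refl D.th, div_inv_eq_mul] at h
  linear_combination I x * h

end IDat

end Pool.Agent.CU.O.AOAux
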