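import Pool.Agent.Lib.MP_ca56d1_nt.CU.O.AOLim

/-! The integrand attached to a balanced product. -/

namespace Pool.Agent.CU.O

open Complex Filter Topology
open scoped Real Classical

variable {A : Type} [AddCommGroup A]

/-- The integrand with its functional equations. -/
structure IDat2 (G : Geo A) (ϑ : ℂ → ℂ) (ζ : ℂ) (Z : A) (a : Fin 4 → ℂ) (p : Fin 4 → Fin 4)
    (τ : Fin 4 → A) (J : A → ℂ) : Prop extends IDat G ϑ ζ Z a p τ J where
  sum : ∑ j, a j = 2 * G.α - 2 * ζ
  sep : ∀ j k, j ≠ 0 → k ≠ 0 → j ≠ k → a j - a k ∉ lat2 G.γ G.β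
  sep' : ∀ j k, j ≠ 0 → k ≠ 0 → ζ + a j + a k ∉ lat2 G.γ G.β
  mP : ∀ x w, G.W₁ x = cl G.γ G.β w →
    (∀ j, w + a j ∉ lat2 G.γ G.β ∧ w + G.α - ζ - a j ∉ lat2 G.γ G.β) →
    J (x + G.P) = rr ϑ G.α ζ a w * J x
  mR : ∀ x v, G.W₂ x = cl G.γ G.β v →
    (∀ j, v + a j ∉ lat2 G.γ G.β ∧ v + G.α - ζ - a j ∉ lat2 G.γ G.β) →
    J (x + G.R) = J x / rr ϑ G.α ζ a v
  disj : ∀ x, G.Lw τ x → ¬ G.Up Z τ x

/-- The first coordinates of the parameters of the integrand. -/
noncomputable def aa (α ζ : ℂ) (y : Fin 4 → ℂ) (k : Fin 4) : ℂ :=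
  if k.val < 2 then y k else α - y k - ζ

/-- The parameters of the integrand. -/
noncomputable def tt (G : Geo A) (Z : A) (t : Fin 4 → A) (k : Fin 4) : A :=
  if k.val < 2 then t k else G.P + G.R - Z - t k

variable {G : Geo A} {ϑ : ℂ → ℂ} {y : Fin 4 → ℂ} {p : Fin 4 → Fin 4} {t : Fin 4 → A} {C : ℂ}
  {H : A → ℂ} {Z : A} {ζ : ℂ}

theorem o_tt_lt {k : Fin 4} (hk : k.val < 2) (x : A) :
    G.o (x + tt G Z t k) = G.o (x + t k) ∧ G.o (Z + tt G Z t k - x) = G.o (Z - x + t k) := by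
  rw [tt, if_pos hk]
  exact ⟨rfl, by congr 1; abel⟩

theorem o_tt_ge {k : Fin 4} (hk : ¬ k.val < 2) (x : A) :
    G.o (x + tt G Z t k) = -G.o (Z - x + t k) ∧ G.o (Z + tt G Z t k - x) = -G.o (x + t k) := by
  rw [tt, if_neg hk, ← G.o_refl, ← G.o_refl]
  exact ⟨by congr 1; abel, by congr 1; abel⟩

theorem o_tt_iff (x : A) : (∀ k, G.o (x + tt G Z t k) = 0 ∧ G.o (Z + tt G Z t k - x) = 0) ↔
    ∀ k, G.o (x + t k) = 0 ∧ G.o (Z - x + t k) = 0 := by
  refine forall_congr' fun k => ?_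
  by_cases hk : k.val < 2
  · rw [(o_tt_lt hk x).1, (o_tt_lt hk x).2]
  · rw [(o_tt_ge hk x).1, (o_tt_ge hk x).2, neg_eq_zero, neg_eq_zero, and_comm]

theorem rr_aa {γ β : ℂ} (T : IsTh γ β ϑ) (α ζ w : ℂ) :
    rr ϑ α ζ (aa α ζ y) w = r0 ϑ y w / r0 ϑ y (ζ - w - α) := by
  have e0 : aa α ζ y 0 = y 0 := if_pos (by decide)
  have e1 : aa α ζ y 1 = y 1 := if_pos (by decide)
  have e2 : aa α ζ y 2 = α - y 2 - ζ := if_neg (by decide)
  have e3 : aa α ζ y 3 = α - y 3 - ζ := if_neg (by decide)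
  have f : ∀ u, ϑ (ζ - w - α + u) = -ϑ (w + α - ζ - u) := fun u => by
    rw [← T.odd]; congr 1; ring
  have g : ∀ u, w + (α - u - ζ) = w + α - ζ - u := fun u => by ring
  have g' : ∀ u, w + α - ζ - (α - u - ζ) = w + u := fun u => by ring
  simp only [rr, r0, Fin.prod_univ_four, e0, e1, e2, e3, f, g, g', div_eq_mul_inv, mul_inv,
    inv_inv, inv_neg]
  ring

theorem r0_ne {γ β : ℂ} (T : IsTh γ β ϑ) {w : ℂ} (h : ∀ j, w + y j ∉ lat2 γ β) : r0 ϑ y w ≠ 0 :=
  div_ne_zero (mul_ne_zero (T.ne (h 0)) (T.ne (h 1))) (mul_ne_zero (T.ne (h 2)) (T.ne (h 3)))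

theorem gen_aa {γ β α w : ℂ}
    (h : ∀ j, w + aa α ζ y j ∉ lat2 γ β ∧ w + α - ζ - aa α ζ y j ∉ lat2 γ β) :
    (∀ j, w + y j ∉ lat2 γ β) ∧ ∀ j, ζ - w - α + y j ∉ lat2 γ β := by
  refine ⟨fun j hj => ?_, fun j hj => ?_⟩ <;> obtain ⟨h1, h2⟩ := h j <;>
    by_cases hk : j.val < 2 <;> simp only [aa, hk, if_true, if_false] at h1 h2
  · exact h1 hj
  · exact h2 (by convert hj using 1; ring)
  · exact h2 (by convert neg_mem hj using 1; ring)
  · exact h1 (by convert neg_mem hj using 1; ring)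

theorem HDat.iDat2 (D : HDat G ϑ y p t C H) (h₁ : G.W₁ Z = cl G.γ G.β ζ)
    (h₂ : G.W₂ Z = cl G.γ G.β ζ)
    (big : ∀ (j k : Fin 4) (i i' : ℤ), Z + t j + t k = i • G.P + i' • G.R → 3 ≤ i ∧ 3 ≤ i') :
    IDat2 G ϑ ζ Z (aa G.α ζ y) p (tt G Z t) fun x => H x * H (Z - x) := by
  have hb : ∀ (j k : Fin 4) (i : ℤ), i ≤ 2 → ζ + y j + y k - i * G.α ∉ lat2 G.γ G.β := by
    intro j k i hi h
    obtain ⟨i', e⟩ := G.lat₁ (Z + t j + t k) i (by
      rw [map_add, map_add, h₁, D.t₁, D.t₁, ← cl_add, ← cl_add, cl_eq]; exact h)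
    have := (big j k i i' e).1
    omega
  have neg : ∀ x z, Z - (x + G.ι z) = Z - x + G.ι (-z) := fun x z => by rw [map_neg]; abel
  have T := D.th
  refine { th := T, inv := D.inv, sw := ?_, k0 := ?_, Z₁ := h₁, Z₂ := h₂, τ₁ := ?_, τ₂ := ?_,
           oe := ?_, an := ?_, sum := ?_, sep := ?_, sep' := ?_, mP := ?_, mR := ?_, disj := ?_ }
  · intro j hj i h
    by_cases hk : j.val < 2
    · rw [aa, aa, if_pos hk, if_pos ((D.blk j).mpr hk)] at h
      exact D.sw j hj i h
    · rw [aa, aa, if_neg hk, if_neg fun h => hk ((D.blk j).mp h)] at h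
      exact D.sw j hj (-i) (by convert neg_mem h using 1; push_cast; ring)
  · intro h
    rw [aa, if_pos (by decide)] at h
    exact hb 0 0 1 (by omega) (by convert neg_mem h using 1; push_cast; ring)
  · intro k
    unfold tt aa
    split_ifs
    · exact D.t₁ k
    · rw [map_sub, map_sub, map_add, G.W₁_P, G.W₁_R, h₁, D.t₁, cl_sub, cl_sub]; abel
  · intro k
    by_cases hk : k.val < 2
    · rw [tt, aa, if_pos hk, if_pos ((D.blk k).mpr hk)]
      exact D.t₂ k
    · rw [tt, aa, if_neg hk, if_neg fun h => hk ((D.blk k).mp h), map_sub, map_sub, map_add,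
        G.W₂_P, G.W₂_R, h₂, D.t₂, cl_sub, cl_sub]; abel
  · intro x
    have a : OE (fun z => H (x + G.ι z)) _ := ⟨D.mer x, D.ord x⟩
    have b : OE (fun z => H (Z - x + G.ι z)) _ := ⟨D.mer _, D.ord _⟩
    have c := a.mul b.neg_arg
    simp only [neg]
    convert c using 1
    simp only [Fin.sum_univ_four]
    rw [(o_tt_lt (k := 0) (by decide) x).1, (o_tt_lt (k := 0) (by decide) x).2,
      (o_tt_lt (k := 1) (by decide) x).1, (o_tt_lt (k := 1) (by decide) x).2,
      (o_tt_ge (k := 2) (by decide) x).1, (o_tt_ge (k := 2) (by decide) x).2,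
      (o_tt_ge (k := 3) (by decide) x).1, (o_tt_ge (k := 3) (by decide) x).2]
    ring
  · intro x hx
    rw [o_tt_iff] at hx
    simp only [neg]
    refine (D.an x fun j => (hx j).1).fun_mul ?_
    have a : AnalyticAt ℂ (fun z => H (Z - x + G.ι z)) (-0) := by
      rw [neg_zero]; exact D.an _ fun j => (hx j).2
    exact AnalyticAt.comp (f := fun z : ℂ => -z) a (by fun_prop)
  · have e0 : aa G.α ζ y 0 = y 0 := if_pos (by decide)
    have e1 : aa G.α ζ y 1 = y 1 := if_pos (by decide)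
    have e2 : aa G.α ζ y 2 = G.α - y 2 - ζ := if_neg (by decide)
    have e3 : aa G.α ζ y 3 = G.α - y 3 - ζ := if_neg (by decide)
    rw [Fin.sum_univ_four, e0, e1, e2, e3]
    linear_combination D.bal
  · intro j k hj hk hjk h
    by_cases a : j.val < 2 <;> by_cases b : k.val < 2 <;>
      simp only [aa, a, b, if_true, if_false] at h
    · exact hjk (by omega)
    · exact hb j k 1 (by omega) (by convert h using 1; push_cast; ring)
    · exact hb j k 1 (by omega) (by convert neg_mem h using 1; push_cast; ring)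
    · have : (j = 2 ∧ k = 3) ∨ (j = 3 ∧ k = 2) := by omega
      rcases this with ⟨rfl, rfl⟩ | ⟨rfl, rfl⟩
      · exact D.sep₂ (by convert neg_mem h using 1; ring)
      · exact D.sep₂ (by convert h using 1; ring)
  · intro j k hj hk h
    by_cases a : j.val < 2 <;> by_cases b : k.val < 2 <;>
      simp only [aa, a, b, if_true, if_false] at h
    · exact hb j k 0 (by omega) (by convert h using 1; push_cast; ring)
    · exact D.mix j k a (by omega) (-1) (by convert h using 1; push_cast; ring)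
    · exact D.mix k j b (by omega) (-1) (by convert h using 1; push_cast; ring)
    · exact hb j k 2 (by omega) (by convert neg_mem h using 1; push_cast; ring)
  · intro x w hw hg
    obtain ⟨g1, g2⟩ := gen_aa hg
    have a := D.mP x w hw g1
    have b := D.mP (Z - (x + G.P)) (ζ - w - G.α) (by
      rw [map_sub, map_add, h₁, hw, G.W₁_P, cl_sub, cl_sub]; abel) g2
    rw [show Z - (x + G.P) + G.P = Z - x by abel] at b
    have c := r0_ne T g2
    rw [a, b, rr_aa T]
    field_simp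
  · intro x v hv hg
    obtain ⟨g1, g2⟩ := gen_aa hg
    have a := D.mR x v hv g1
    have b := D.mR (Z - (x + G.R)) (ζ - v - G.α) (by
      rw [map_sub, map_add, h₂, hv, G.W₂_R, cl_sub, cl_sub]; abel) g2
    rw [show Z - (x + G.R) + G.R = Z - x by abel] at b
    have c := r0_ne T g2
    have d := r0_ne T g1
    have e := D.C_ne
    rw [a, b, rr_aa T]
    field_simp
  · rintro x ⟨k, i, j, a1, a2, e⟩ ⟨l, i', j', b1, b2, e'⟩
    have mixed : ∀ k l : Fin 4, k.val < 2 → ¬ l.val < 2 → ∀ m n : ℤ,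
        G.P + G.R + t k - t l ≠ m • G.P + n • G.R := by
      intro k l hk hl m n h
      have h1 := G.W₁_lat m n
      rw [← h, map_sub, map_add, map_add, G.W₁_P, G.W₁_R, add_zero, D.t₁, D.t₁, ← cl_add, ← cl_sub,
        cl_eq] at h1
      exact D.mix k l hk (by omega) (m - 1) (by convert h1 using 1; push_cast; ring)
    by_cases a : k.val < 2 <;> by_cases b : l.val < 2 <;>
      simp only [tt, a, b, if_true, if_false] at e e'
    · have := (big k l (i + i') (j + j') (by linear_combination (norm := module) e + e')).1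
      omega
    · exact mixed k l a b (i + i') (j + j') (by linear_combination (norm := module) e + e')
    · exact mixed l k b a (i + i') (j + j') (by linear_combination (norm := module) e + e')
    · have := (big k l (2 - i - i') (2 - j - j')
        (by linear_combination (norm := module) -e - e')).2
      omega

end Pool.Agent.CU.O
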