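import Pool.Agent.Lib.MP_ca56d1_nt.CU.O.Th

/-! The residues of the three integrands at the jumps of the weight. -/

namespace Pool.Agent.CU.O

open Complex Filter Topology
open scoped Real Classical

/-- `f` is meromorphic at zero of order `n`. -/
def OE (f : ℂ → ℂ) (n : ℤ) : Prop := MeromorphicAt f 0 ∧ meromorphicOrderAt f 0 = n

/-- `f` is meromorphic at zero of order at least `n`. -/
def OG (f : ℂ → ℂ) (n : ℤ) : Prop := MeromorphicAt f 0 ∧ (n : WithTop ℤ) ≤ meromorphicOrderAt f 0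

theorem OE.og {f : ℂ → ℂ} {n : ℤ} (h : OE f n) : OG f n := ⟨h.1, h.2.ge⟩

theorem OE.mul {f g : ℂ → ℂ} {m n : ℤ} (h : OE f m) (h' : OE g n) :
    OE (fun z => f z * g z) (m + n) :=
  ⟨h.1.fun_mul h'.1, by rw [fun_meromorphicOrderAt_mul h.1 h'.1, h.2, h'.2]; rfl⟩

theorem OG.mul {f g : ℂ → ℂ} {m n : ℤ} (h : OG f m) (h' : OG g n) :
    OG (fun z => f z * g z) (m + n) :=
  ⟨h.1.fun_mul h'.1, by
    rw [fun_meromorphicOrderAt_mul h.1 h'.1, WithTop.coe_add]; exact add_le_add h.2 h'.2⟩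

theorem OE.inv {f : ℂ → ℂ} {n : ℤ} (h : OE f n) : OE (fun z => (f z)⁻¹) (-n) :=
  ⟨h.1.fun_inv, by rw [fun_meromorphicOrderAt_inv, h.2]; rfl⟩

theorem OG.div {f g : ℂ → ℂ} {m n : ℤ} (h : OG f m) (h' : OE g n) :
    OG (fun z => f z / g z) (m - n) := by
  simpa only [div_eq_mul_inv, sub_eq_add_neg] using h.mul h'.inv.og

theorem OG.mono {f : ℂ → ℂ} {m n : ℤ} (h : OG f n) (hmn : m ≤ n) : OG f m :=
  ⟨h.1, (WithTop.coe_le_coe.mpr hmn).trans h.2⟩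

theorem og_of_an {f : ℂ → ℂ} (h : AnalyticAt ℂ f 0) : OG f 0 :=
  ⟨h.meromorphicAt, h.meromorphicOrderAt_nonneg⟩

theorem oe_const {c : ℂ} (hc : c ≠ 0) : OE (fun _ => c) 0 :=
  ⟨MeromorphicAt.const _ _, by rw [meromorphicOrderAt_const, if_neg hc]; rfl⟩

theorem oe_prod {ι : Type} (s : Finset ι) {f : ι → ℂ → ℂ} {n : ι → ℤ}
    (h : ∀ i ∈ s, OE (f i) (n i)) : OE (fun z => ∏ i ∈ s, f i z) (∑ i ∈ s, n i) := by
  induction s using Finset.induction_on with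
  | empty => simpa using oe_const one_ne_zero
  | insert a s ha ih =>
    simp only [Finset.prod_insert ha, Finset.sum_insert ha]
    exact (h a (Finset.mem_insert_self _ _)).mul (ih fun i hi => h i (Finset.mem_insert_of_mem hi))

theorem OG.tend {f : ℂ → ℂ} {n : ℤ} (h : OG f n) (hn : 0 ≤ n) :
    Tendsto (fun z => z * f z) (𝓝[≠] (0 : ℂ)) (𝓝 0) :=
  tendsto_mul_zero_of_order h.1 (h.mono hn).2

theorem OE.neg_arg {f : ℂ → ℂ} {n : ℤ} (h : OE f n) : OE (fun z => f (-z)) n := by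
  have h0 : MeromorphicAt f (-0) := by rw [neg_zero]; exact h.1
  refine ⟨h0.comp_analyticAt (g := fun z : ℂ => -z) (by fun_prop), ?_⟩
  have := meromorphicOrderAt_comp_of_deriv_ne_zero (f := f) (g := fun z : ℂ => -z) (x := 0)
    (by fun_prop) (by simp)
  rw [neg_zero, h.2] at this
  exact this

/-- The indicator function of the lattice. -/
noncomputable def ind (γ β w : ℂ) : ℤ := if w ∈ lat2 γ β then 1 else 0

theorem ind_nonneg (γ β w : ℂ) : 0 ≤ ind γ β w := by unfold ind; split_ifs <;> omega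

theorem ind_of_not {γ β w : ℂ} (h : w ∉ lat2 γ β) : ind γ β w = 0 := if_neg h

theorem ind_le {γ β w : ℂ} {n : ℤ} (h0 : 0 ≤ n) (h : w ∈ lat2 γ β → n = 1) : ind γ β w ≤ n := by
  unfold ind; split_ifs with h1
  · exact (h h1).ge
  · exact h0

variable {γ β : ℂ} {ϑ : ℂ → ℂ}

theorem IsTh.oe (h : IsTh γ β ϑ) {g : ℂ → ℂ} (w : ℂ) {c : ℂ} (hc : c ≠ 0)
    (hg : ∀ z, g z = w + c * z) : OE (fun z => ϑ (g z)) (ind γ β w) := by
  simp only [hg]
  exact ⟨(h.an_aff w c 0).meromorphicAt, h.mord w hc⟩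

theorem IsTh.og (h : IsTh γ β ϑ) {g : ℂ → ℂ} (hg : AnalyticAt ℂ g 0) : OG (fun z => ϑ (g z)) 0 :=
  og_of_an ((h.an _).comp hg)

theorem IsTh.kk_per₂ (h : IsTh γ β ϑ) (α Z a₀ w v : ℂ) {m : ℂ} (hm : m ∈ lat2 γ β) :
    kk ϑ α Z a₀ w (v + m) = kk ϑ α Z a₀ w v := by
  obtain ⟨l, c, hq⟩ := h.qp m hm
  have e1 : ϑ (α - a₀ - (v + m)) = ee (l * (v - α + a₀) + c) * ϑ (α - a₀ - v) := by
    rw [show α - a₀ - (v + m) = -(v - α + a₀ + m) by ring, h.odd, hq,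
      show α - a₀ - v = -(v - α + a₀) by ring, h.odd]; ring
  have e2 : ϑ (v + m - w + (α - 2 * a₀ - Z)) =
      ee (l * (v - w + (α - 2 * a₀ - Z)) + c) * ϑ (v - w + (α - 2 * a₀ - Z)) := by
    rw [← hq]; congr 1; ring
  have e3 : ϑ (w - (v + m)) = ee (l * (v - w) + c) * ϑ (w - v) := by
    rw [show w - (v + m) = -(v - w + m) by ring, h.odd, hq, show w - v = -(v - w) by ring, h.odd]
    ring
  have e4 : ϑ (v + m - Z - a₀) = ee (l * (v - Z - a₀) + c) * ϑ (v - Z - a₀) := by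
    rw [← hq]; congr 1; ring
  have e5 : ee (l * (v - α + a₀) + c) * ee (l * (v - w + (α - 2 * a₀ - Z)) + c) =
      ee (l * (v - w) + c) * ee (l * (v - Z - a₀) + c) := by
    rw [← ee_add, ← ee_add]; congr 1; ring
  unfold kk
  rw [e1, e2, e3, e4, ← mul_div_mul_left (ϑ (α - a₀ - v) * _ * _) _
    (mul_ne_zero (ee_ne (l * (v - w) + c)) (ee_ne (l * (v - Z - a₀) + c)))]
  congr 1
  · rw [← e5]; ring
  · ring

theorem IsTh.kk_per₁ (h : IsTh γ β ϑ) (α Z a₀ w v : ℂ) {m : ℂ} (hm : m ∈ lat2 γ β) :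
    kk ϑ α Z a₀ (w + m) v = kk ϑ α Z a₀ w v := by
  obtain ⟨l, c, hq⟩ := h.qp m hm
  have e1 : ϑ (v - (w + m) + (α - 2 * a₀ - Z)) =
      ee (l * (w - v - (α - 2 * a₀ - Z)) + c) * ϑ (v - w + (α - 2 * a₀ - Z)) := by
    rw [show v - (w + m) + (α - 2 * a₀ - Z) = -(w - v - (α - 2 * a₀ - Z) + m) by ring, h.odd, hq,
      show v - w + (α - 2 * a₀ - Z) = -(w - v - (α - 2 * a₀ - Z)) by ring, h.odd]; ring
  have e2 : ϑ (w + m - Z - a₀) = ee (l * (w - Z - a₀) + c) * ϑ (w - Z - a₀) := by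
    rw [← hq]; congr 1; ring
  have e3 : ϑ (w + m - v) = ee (l * (w - v) + c) * ϑ (w - v) := by
    rw [← hq]; congr 1; ring
  have e4 : ϑ (α - a₀ - (w + m)) = ee (l * (w - α + a₀) + c) * ϑ (α - a₀ - w) := by
    rw [show α - a₀ - (w + m) = -(w - α + a₀ + m) by ring, h.odd, hq,
      show α - a₀ - w = -(w - α + a₀) by ring, h.odd]; ring
  have e5 : ee (l * (w - v - (α - 2 * a₀ - Z)) + c) * ee (l * (w - Z - a₀) + c) =
      ee (l * (w - v) + c) * ee (l * (w - α + a₀) + c) := by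
    rw [← ee_add, ← ee_add]; congr 1; ring
  unfold kk
  rw [e1, e2, e3, e4, ← mul_div_mul_left
    (ϑ (α - a₀ - v) * ϑ (v - w + (α - 2 * a₀ - Z)) * ϑ (w - Z - a₀)) _
    (mul_ne_zero (ee_ne (l * (w - v) + c)) (ee_ne (l * (w - α + a₀) + c)))]
  congr 1
  · rw [← e5]; ring
  · ring

/-- The residue of the kernel on the diagonal. -/
theorem IsTh.kk_tend (h : IsTh γ β ϑ) {α Z a₀ w c : ℂ} (hc : c ≠ 1)
    (h0 : α - 2 * a₀ - Z ∉ lat2 γ β) (h1 : α - a₀ - w ∉ lat2 γ β) (h2 : w - Z - a₀ ∉ lat2 γ β) :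
    Tendsto (fun z => z * kk ϑ α Z a₀ (w + z) (w + c * z)) (𝓝[≠] (0 : ℂ))
      (𝓝 ((1 - c) * deriv ϑ 0)⁻¹) := by
  have hd := mul_ne_zero (sub_ne_zero.mpr hc.symm) h.deriv_ne
  have t1 := (h.tend (1 - c)).inv₀ hd
  have hcont := h.diff.continuous
  have n0 := h.ne h0
  have n1 := h.ne h1
  have n2 := h.ne h2
  have t2 : ContinuousAt (fun z => ϑ (α - a₀ - (w + c * z)) *
      ϑ (w + c * z - (w + z) + (α - 2 * a₀ - Z)) * ϑ (w + z - Z - a₀) /
      (ϑ (α - a₀ - (w + z)) * ϑ (w + c * z - Z - a₀) * ϑ (α - 2 * a₀ - Z))) 0 := by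
    refine ContinuousAt.div (by fun_prop) (by fun_prop) ?_
    simp only [mul_zero, add_zero]
    exact mul_ne_zero (mul_ne_zero n1 n2) n0
  have t3 := t2.tendsto.mono_left (nhdsWithin_le_nhds (s := {0}ᶜ))
  simp only [mul_zero, add_zero, sub_self, zero_add] at t3
  have e : ϑ (α - a₀ - w) * ϑ (α - 2 * a₀ - Z) * ϑ (w - Z - a₀) /
      (ϑ (α - a₀ - w) * ϑ (w - Z - a₀) * ϑ (α - 2 * a₀ - Z)) = 1 := by
    rw [mul_right_comm, div_self (mul_ne_zero (mul_ne_zero n1 n2) n0)]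
  rw [e] at t3
  have t4 := t1.mul t3
  rw [mul_one] at t4
  refine t4.congr fun z => ?_
  unfold kk
  rw [show w + z - (w + c * z) = (1 - c) * z by ring]
  simp only [div_eq_mul_inv, mul_inv, inv_inv]
  ring

variable {A : Type} [AddCommGroup A]

theorem Geo.W₁_lat (G : Geo A) (i j : ℤ) : G.W₁ (i • G.P + j • G.R) = cl G.γ G.β (i * G.α) := by
  rw [map_add, map_zsmul, map_zsmul, G.W₁_P, G.W₁_R, smul_zero, add_zero, cl_zsmul]

theorem Geo.W₂_lat (G : Geo A) (i j : ℤ) : G.W₂ (i • G.P + j • G.R) = cl G.γ G.β (j * G.α) := by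
  rw [map_add, map_zsmul, map_zsmul, G.W₂_P, G.W₂_R, smul_zero, zero_add, cl_zsmul]

theorem Geo.eq_of_cl (G : Geo A) {i j : ℤ} (h : cl G.γ G.β (i * G.α) = cl G.γ G.β (j * G.α)) :
    i = j := by
  have := G.free (i - j) (by rw [cl_eq] at h; push_cast; rwa [sub_mul])
  omega

theorem Geo.lat_inj (G : Geo A) {i j i' j' : ℤ} (h : i • G.P + j • G.R = i' • G.P + j' • G.R) :
    i = i' ∧ j = j' :=
  ⟨G.eq_of_cl (by rw [← G.W₁_lat i j, h, G.W₁_lat]),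
    G.eq_of_cl (by rw [← G.W₂_lat i j, h, G.W₂_lat])⟩

theorem Geo.o_lat (G : Geo A) (i j : ℤ) : G.o (i • G.P + j • G.R) =
    if 1 ≤ i ∧ j ≤ 0 then 1 else if i ≤ 0 ∧ 1 ≤ j then -1 else 0 := by
  unfold Geo.o
  congr 1
  · refine propext ⟨?_, fun h => ⟨i, j, h.1, h.2, rfl⟩⟩
    rintro ⟨i', j', a, b, c⟩
    obtain ⟨rfl, rfl⟩ := G.lat_inj c
    exact ⟨a, b⟩
  · congr 1
    refine propext ⟨?_, fun h => ⟨i, j, h.1, h.2, rfl⟩⟩
    rintro ⟨i', j', a, b, c⟩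
    obtain ⟨rfl, rfl⟩ := G.lat_inj c
    exact ⟨a, b⟩

theorem Geo.o_not (G : Geo A) {x : A} (h : ¬ ∃ i j : ℤ, x = i • G.P + j • G.R) : G.o x = 0 := by
  unfold Geo.o
  rw [if_neg, if_neg] <;> exact fun ⟨i, j, _, _, c⟩ => h ⟨i, j, c⟩

theorem Geo.o_refl (G : Geo A) (x : A) : G.o (G.P + G.R - x) = -G.o x := by
  by_cases h : ∃ i j : ℤ, x = i • G.P + j • G.R
  · obtain ⟨i, j, rfl⟩ := h
    rw [show G.P + G.R - (i • G.P + j • G.R) = (1 - i) • G.P + (1 - j) • G.R by module, G.o_lat,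
      G.o_lat]
    split_ifs <;> omega
  · rw [G.o_not h, G.o_not, neg_zero]
    rintro ⟨i, j, c⟩
    exact h ⟨1 - i, 1 - j, by linear_combination (norm := module) -c⟩

theorem Geo.o_nonneg (G : Geo A) {x : A}
    (h : ∀ i j : ℤ, i ≤ 0 → 1 ≤ j → x ≠ i • G.P + j • G.R) : 0 ≤ G.o x := by
  unfold Geo.o
  split_ifs with a b
  · omega
  · obtain ⟨i, j, c, d, e⟩ := b
    exact absurd e (h i j c d)
  · omega

theorem Geo.o_one (G : Geo A) {i j : ℤ} (hi : 1 ≤ i) (hj : j ≤ 0) : G.o (i • G.P + j • G.R) = 1 := by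
  rw [G.o_lat, if_pos ⟨hi, hj⟩]

/-- The region of the lattice that contains the poles with a margin. -/
def Geo.Mg (G : Geo A) (x : A) : Prop := ∃ i j : ℤ, i ≤ 1 ∧ 0 ≤ j ∧ x = i • G.P + j • G.R

/-- The lower set. -/
def Geo.Lw (G : Geo A) (τ : Fin 4 → A) (x : A) : Prop := ∃ k, G.Mg (x + τ k)

/-- The upper set. -/
def Geo.Up (G : Geo A) (Z : A) (τ : Fin 4 → A) (x : A) : Prop := ∃ k, G.Mg (Z + τ k - x)

/-- The points `x` and `x - s` are neither both in the lower nor both in the upper set. -/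
def Geo.Jp (G : Geo A) (Z : A) (τ : Fin 4 → A) (s x : A) : Prop :=
  ¬ (G.Lw τ x ∧ G.Lw τ (x - s)) ∧ ¬ (G.Up Z τ x ∧ G.Up Z τ (x - s))

/-- The integrand as a product of eight elliptic gamma functions. -/
structure IDat (G : Geo A) (ϑ : ℂ → ℂ) (ζ : ℂ) (Z : A) (a : Fin 4 → ℂ) (p : Fin 4 → Fin 4)
    (τ : Fin 4 → A) (J : A → ℂ) : Prop where
  th : IsTh G.γ G.β ϑ
  inv : ∀ j, p (p j) = j
  sw : ∀ j, p j ≠ j → ∀ i : ℤ, a j - a (p j) - i * G.α ∉ lat2 G.γ G.β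
  k0 : G.α - 2 * a 0 - ζ ∉ lat2 G.γ G.β
  Z₁ : G.W₁ Z = cl G.γ G.β ζ
  Z₂ : G.W₂ Z = cl G.γ G.β ζ
  τ₁ : ∀ k, G.W₁ (τ k) = cl G.γ G.β (a k)
  τ₂ : ∀ k, G.W₂ (τ k) = cl G.γ G.β (a (p k))
  oe : ∀ x, OE (fun z => J (x + G.ι z)) (∑ k, G.o (x + τ k) + ∑ k, G.o (Z + τ k - x))
  an : ∀ x, (∀ k, G.o (x + τ k) = 0 ∧ G.o (Z + τ k - x) = 0) →
    AnalyticAt ℂ (fun z => J (x + G.ι z)) 0

variable {G : Geo A} {ζ : ℂ} {Z : A} {a : Fin 4 → ℂ} {p : Fin 4 → Fin 4} {τ : Fin 4 → A}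
  {J : A → ℂ}

theorem Geo.Jp.lw {s x : A} {s₁ s₂ : ℤ} (h : G.Jp Z τ s x) (hs : s = s₁ • G.P + s₂ • G.R) (k : Fin 4)
    {i j : ℤ} (e : x + τ k = i • G.P + j • G.R) : ¬ (i ≤ 1 ∧ 0 ≤ j ∧ i - s₁ ≤ 1 ∧ 0 ≤ j - s₂) := by
  rintro ⟨a1, a2, a3, a4⟩
  refine h.1 ⟨⟨k, i, j, a1, a2, e⟩, k, i - s₁, j - s₂, a3, a4, ?_⟩
  rw [hs]
  linear_combination (norm := module) e

theorem Geo.Jp.up {s x : A} {s₁ s₂ : ℤ} (h : G.Jp Z τ s x) (hs : s = s₁ • G.P + s₂ • G.R) (k : Fin 4)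
    {i j : ℤ} (e : Z + τ k - x = i • G.P + j • G.R) :
    ¬ (i ≤ 1 ∧ 0 ≤ j ∧ i + s₁ ≤ 1 ∧ 0 ≤ j + s₂) := by
  rintro ⟨a1, a2, a3, a4⟩
  refine h.2 ⟨⟨k, i, j, a1, a2, e⟩, k, i + s₁, j + s₂, a3, a4, ?_⟩
  rw [hs]
  linear_combination (norm := module) e

theorem IDat.lw₁ (D : IDat G ϑ ζ Z a p τ J) {x : A} {w : ℂ} (hw : G.W₁ x = cl G.γ G.β w)
    (k : Fin 4) (h : G.α - a k - w ∈ lat2 G.γ G.β) : ∃ j : ℤ, x + τ k = (1 : ℤ) • G.P + j • G.R := by
  refine G.lat₁ _ 1 ?_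
  rw [map_add, hw, D.τ₁, ← cl_add, eq_comm, cl_eq]
  convert h using 1
  push_cast; ring

theorem IDat.lw₂ (D : IDat G ϑ ζ Z a p τ J) {x : A} {v : ℂ} (hv : G.W₂ x = cl G.γ G.β v)
    (k : Fin 4) (h : -v - a k ∈ lat2 G.γ G.β) : ∃ i : ℤ, x + τ (p k) = i • G.P + (0 : ℤ) • G.R := by
  refine G.lat₂ _ 0 ?_
  rw [map_add, hv, D.τ₂, D.inv, ← cl_add, eq_comm, cl_eq]
  convert h using 1
  push_cast; ring

theorem IDat.up₁ (D : IDat G ϑ ζ Z a p τ J) {x : A} {w : ℂ} (hw : G.W₁ x = cl G.γ G.β w)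
    (k : Fin 4) (h : w + G.α - ζ - a k ∈ lat2 G.γ G.β) :
    ∃ j : ℤ, Z + τ k - x = (1 : ℤ) • G.P + j • G.R := by
  refine G.lat₁ _ 1 ?_
  rw [map_sub, map_add, hw, D.τ₁, D.Z₁, ← cl_add, ← cl_sub, eq_comm, cl_eq]
  convert h using 1
  push_cast; ring

theorem IDat.up₂ (D : IDat G ϑ ζ Z a p τ J) {x : A} {v : ℂ} (hv : G.W₂ x = cl G.γ G.β v)
    (k : Fin 4) (h : v - ζ - a (p k) ∈ lat2 G.γ G.β) :
    ∃ i : ℤ, Z + τ k - x = i • G.P + (0 : ℤ) • G.R := by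
  refine G.lat₂ _ 0 ?_
  rw [map_sub, map_add, hv, D.τ₂, D.Z₂, ← cl_add, ← cl_sub, eq_comm, cl_eq]
  convert h using 1
  push_cast; ring

theorem IDat.diag (D : IDat G ϑ ζ Z a p τ J) {x : A} (hx : G.W₁ x = G.W₂ x) (k : Fin 4) :
    G.o (x + τ k) = 0 := by
  by_cases h : ∃ i j : ℤ, x + τ k = i • G.P + j • G.R
  swap
  · exact G.o_not h
  obtain ⟨i, j, e⟩ := h
  have e1 := G.W₁_lat i j
  have e2 := G.W₂_lat i j
  rw [← e, map_add, D.τ₁] at e1
  rw [← e, map_add, D.τ₂, ← hx] at e2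
  have e3 : cl G.γ G.β (a k - a (p k)) = cl G.γ G.β (((i - j : ℤ) : ℂ) * G.α) := by
    push_cast
    rw [sub_mul, cl_sub, cl_sub, ← e1, ← e2]; abel
  have e4 : i = j := by
    by_cases hp : p k = k
    · rw [hp, sub_self, eq_comm] at e3
      have := G.free _ (cl_eq_zero.mp e3)
      omega
    · exact absurd (cl_eq.mp e3) (D.sw k hp _)
  rw [e, G.o_lat]
  split_ifs <;> omega

theorem IDat.tend (D : IDat G ϑ ζ Z a p τ J) {x : A}
    (h : ∀ k, G.o (x + τ k) = 0 ∧ G.o (Z + τ k - x) = 0) :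
    Tendsto (fun z => J (x + G.ι z)) (𝓝[≠] (0 : ℂ)) (𝓝 (J x)) := by
  have := (D.an x h).continuousAt.tendsto.mono_left (nhdsWithin_le_nhds (s := {0}ᶜ))
  simpa using this

theorem IDat.lim₁ (D : IDat G ϑ ζ Z a p τ J) {x : A} {w v : ℂ} (hw : G.W₁ x = cl G.γ G.β w)
    (hv : G.W₂ x = cl G.γ G.β v) (hj : G.Jp Z τ (G.P + G.R) x) :
    Tendsto (fun z => z * (J (x + G.ι z) * kk ϑ G.α ζ (a 0) (w + z) (v + G.η * z))) (𝓝[≠] (0 : ℂ))
      (𝓝 (if G.W₁ x = G.W₂ x then J x / ((1 - G.η) * deriv ϑ 0) else 0)) := by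
  have hs : G.P + G.R = (1 : ℤ) • G.P + (1 : ℤ) • G.R := by simp
  have u0 : ∀ k, 0 ≤ G.o (x + τ k) := fun k => G.o_nonneg fun i j hi hj' e =>
    hj.lw hs k e (by omega)
  have u1 : ∀ k, 0 ≤ G.o (Z + τ k - x) := fun k => G.o_nonneg fun i j hi hj' e =>
    hj.up hs k e (by omega)
  have b1 : G.α - a 0 - w ∈ lat2 G.γ G.β → G.o (x + τ 0) = 1 := fun h => by
    obtain ⟨j, e⟩ := D.lw₁ hw 0 h
    have := hj.lw hs 0 e
    rw [e]; exact G.o_one le_rfl (by omega)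
  have b2 : v - ζ - a 0 ∈ lat2 G.γ G.β → G.o (Z + τ (p 0) - x) = 1 := fun h => by
    obtain ⟨i, e⟩ := D.up₂ hv (p 0) (by rwa [D.inv])
    have := hj.up hs _ e
    rw [e]; exact G.o_one (by omega) le_rfl
  have T := D.th
  split_ifs with hx
  · have hz : G.W₁ (Z - x) = G.W₂ (Z - x) := by rw [map_sub, map_sub, D.Z₁, D.Z₂, hx]
    have o0 : ∀ k, G.o (x + τ k) = 0 ∧ G.o (Z + τ k - x) = 0 := fun k =>
      ⟨D.diag hx k, by rw [← D.diag hz k]; congr 1; abel⟩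
    have hm : v - w ∈ lat2 G.γ G.β := cl_eq.mp (by rw [← hw, ← hv, hx])
    have n1 : G.α - a 0 - w ∉ lat2 G.γ G.β := fun h => by
      have := b1 h; rw [(o0 0).1] at this; omega
    have n2 : w - ζ - a 0 ∉ lat2 G.γ G.β := fun h => by
      have := b2 (by convert add_mem h hm using 1; ring)
      rw [(o0 _).2] at this; omega
    have t := (D.tend o0).mul (T.kk_tend G.η_one D.k0 n1 n2)
    rw [div_eq_mul_inv]
    refine t.congr fun z => ?_
    rw [show v + G.η * z = w + G.η * z + (v - w) by ring, T.kk_per₂ _ _ _ _ _ hm]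
    ring
  · have hm : w - v ∉ lat2 G.γ G.β := fun h => hx (by rw [hw, hv, cl_eq]; exact h)
    have num : OG (fun z => ϑ (G.α - a 0 - (v + G.η * z)) *
        ϑ (v + G.η * z - (w + z) + (G.α - 2 * a 0 - ζ)) * ϑ (w + z - ζ - a 0)) (0 + 0 + 0) :=
      ((T.og (by fun_prop)).mul (T.og (by fun_prop))).mul (T.og (by fun_prop))
    have den := (((T.oe (g := fun z => w + z - (v + G.η * z)) (w - v)
      (sub_ne_zero.mpr G.η_one.symm) (fun z => by ring)).mul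
      (T.oe (g := fun z => G.α - a 0 - (w + z)) (G.α - a 0 - w) (neg_ne_zero.mpr one_ne_zero)
        (fun z => by ring))).mul
      (T.oe (g := fun z => v + G.η * z - ζ - a 0) (v - ζ - a 0) G.η_ne (fun z => by ring))).mul
      (oe_const (T.ne D.k0))
    refine ((D.oe x).og.mul (num.div den)).tend ?_
    have c1 := ind_le (u0 0) b1
    have c2 := ind_le (u1 _) b2
    have c3 := Finset.single_le_sum (fun k _ => u0 k) (Finset.mem_univ 0)
    have c4 := Finset.single_le_sum (fun k _ => u1 k) (Finset.mem_univ (p 0))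
    rw [ind_of_not hm]
    omega

theorem IDat.lim₂ (D : IDat G ϑ ζ Z a p τ J) {x : A} {w v : ℂ} (hw : G.W₁ x = cl G.γ G.β w)
    (hv : G.W₂ x = cl G.γ G.β v) (hj : G.Jp Z τ (G.P - G.R) x) :
    Tendsto (fun z => z * (J (x + G.ι z) * kk ϑ G.α ζ (a 0) (w + z) (ζ - (v + G.η * z))))
      (𝓝[≠] (0 : ℂ))
      (𝓝 (if G.W₁ x + G.W₂ x = G.W₁ Z ∧ ∀ k, G.o (x + τ k) = 0 ∧ G.o (Z + τ k - x) = 0 then
        J x / ((1 + G.η) * deriv ϑ 0) else 0)) := by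
  have hs : G.P - G.R = (1 : ℤ) • G.P + (-1 : ℤ) • G.R := by simp [sub_eq_add_neg]
  have u0 : ∀ k, 0 ≤ G.o (x + τ k) := fun k => G.o_nonneg fun i j hi hj' e =>
    hj.lw hs k e (by omega)
  have u1 : ∀ k, 0 ≤ G.o (Z + τ k - x) := fun k => G.o_nonneg fun i j hi hj' e =>
    hj.up hs k e (by omega)
  have b1 : G.α - a 0 - w ∈ lat2 G.γ G.β → G.o (x + τ 0) = 1 := fun h => by
    obtain ⟨j, e⟩ := D.lw₁ hw 0 h
    have := hj.lw hs 0 e
    rw [e]; exact G.o_one le_rfl (by omega)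
  have b2 : -v - a 0 ∈ lat2 G.γ G.β → G.o (x + τ (p 0)) = 1 := fun h => by
    obtain ⟨i, e⟩ := D.lw₂ hv 0 h
    have := hj.lw hs _ e
    rw [e]; exact G.o_one (by omega) le_rfl
  have T := D.th
  have hη : 1 + G.η ≠ 0 := fun h => G.η_neg (by linear_combination h)
  have s0 := Finset.sum_nonneg fun k (_ : k ∈ Finset.univ) => u0 k
  have s1 := Finset.sum_nonneg fun k (_ : k ∈ Finset.univ) => u1 k
  have den := (((T.oe (g := fun z => w + z - (ζ - (v + G.η * z))) (w + v - ζ) hη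
    (fun z => by ring)).mul
    (T.oe (g := fun z => G.α - a 0 - (w + z)) (G.α - a 0 - w) (neg_ne_zero.mpr one_ne_zero)
      (fun z => by ring))).mul
    (T.oe (g := fun z => ζ - (v + G.η * z) - ζ - a 0) (-v - a 0) (neg_ne_zero.mpr G.η_ne)
      (fun z => by ring))).mul (oe_const (T.ne D.k0))
  have num := (((T.oe (g := fun z => G.α - a 0 - (ζ - (v + G.η * z))) (G.α - a 0 - ζ + v) G.η_ne
    (fun z => by ring)).og).mul
    (T.og (g := fun z => ζ - (v + G.η * z) - (w + z) + (G.α - 2 * a 0 - ζ)) (by fun_prop))).mul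
    (T.oe (g := fun z => w + z - ζ - a 0) (w - ζ - a 0) one_ne_zero (fun z => by ring)).og
  have tot := (D.oe x).og.mul (num.div den)
  by_cases hx : G.W₁ x + G.W₂ x = G.W₁ Z
  · have hm : w + v - ζ ∈ lat2 G.γ G.β := cl_eq.mp (by rw [cl_add, ← hw, ← hv, hx, D.Z₁])
    have i1 : G.α - a 0 - ζ + v ∈ lat2 G.γ G.β ↔ G.α - a 0 - w ∈ lat2 G.γ G.β := by
      rw [show G.α - a 0 - ζ + v = G.α - a 0 - w + (w + v - ζ) by ring]
      exact (lat2 G.γ G.β).add_mem_cancel_right hm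
    have i2 : w - ζ - a 0 ∈ lat2 G.γ G.β ↔ -v - a 0 ∈ lat2 G.γ G.β := by
      rw [show w - ζ - a 0 = -v - a 0 + (w + v - ζ) by ring]
      exact (lat2 G.γ G.β).add_mem_cancel_right hm
    by_cases o0 : ∀ k, G.o (x + τ k) = 0 ∧ G.o (Z + τ k - x) = 0
    · rw [if_pos ⟨hx, o0⟩]
      have n1 : G.α - a 0 - w ∉ lat2 G.γ G.β := fun h => by
        have := b1 h; rw [(o0 0).1] at this; omega
      have n2 : w - ζ - a 0 ∉ lat2 G.γ G.β := fun h => by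
        have := b2 (i2.mp h); rw [(o0 _).1] at this; omega
      have t := (D.tend o0).mul (T.kk_tend (c := -G.η)
        (fun h => G.η_neg (by linear_combination -h)) D.k0 n1 n2)
      rw [div_eq_mul_inv, ← sub_neg_eq_add]
      refine t.congr fun z => ?_
      rw [show ζ - (v + G.η * z) = w + -G.η * z + -(w + v - ζ) by ring,
        T.kk_per₂ _ _ _ _ _ (neg_mem hm)]
      ring
    · rw [if_neg fun h => o0 h.2]
      refine tot.tend ?_
      have c1 : ind G.γ G.β (G.α - a 0 - ζ + v) = ind G.γ G.β (G.α - a 0 - w) := by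
        simp only [ind, i1]
      have c2 : ind G.γ G.β (w - ζ - a 0) = ind G.γ G.β (-v - a 0) := by simp only [ind, i2]
      have c3 : ind G.γ G.β (w + v - ζ) = 1 := if_pos hm
      obtain ⟨k, hk⟩ := not_forall.mp o0
      have c4 := Finset.single_le_sum (fun k _ => u0 k) (Finset.mem_univ k)
      have c5 := Finset.single_le_sum (fun k _ => u1 k) (Finset.mem_univ k)
      have c6 := u0 k
      have c7 := u1 k
      omega
  · rw [if_neg fun h => hx h.1]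
    have hm : w + v - ζ ∉ lat2 G.γ G.β := fun h =>
      hx (by rw [hw, hv, D.Z₁, ← cl_add, cl_eq]; exact h)
    refine tot.tend ?_
    have c0 : ind G.γ G.β (G.α - a 0 - w) + ind G.γ G.β (-v - a 0) ≤ ∑ k, G.o (x + τ k) := by
      have c1 := ind_le (u0 0) b1
      have c2 := ind_le (u0 _) b2
      by_cases hp : p 0 = 0
      · have c3 := Finset.single_le_sum (fun k _ => u0 k) (Finset.mem_univ 0)
        by_cases h1 : G.α - a 0 - w ∈ lat2 G.γ G.β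
        · have h2 : -v - a 0 ∉ lat2 G.γ G.β := fun h2 => by
            obtain ⟨j, e⟩ := D.lw₁ hw 0 h1
            obtain ⟨i, e'⟩ := D.lw₂ hv 0 h2
            rw [hp] at e'
            have := G.lat_inj (e.symm.trans e')
            exact hj.lw hs 0 e (by omega)
          rw [ind_of_not h2]; omega
        · rw [ind_of_not h1]; rw [hp] at c2; omega
      · have c3 := Finset.add_le_sum (fun k _ => u0 k) (Finset.mem_univ 0) (Finset.mem_univ (p 0))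
          (Ne.symm hp)
        omega
    have c1 := ind_nonneg G.γ G.β (G.α - a 0 - ζ + v)
    have c2 := ind_nonneg G.γ G.β (w - ζ - a 0)
    rw [ind_of_not hm]
    omega

theorem IDat.lim₃ (D : IDat G ϑ ζ Z a p τ J) {x : A} {w v : ℂ} (hw : G.W₁ x = cl G.γ G.β w)
    (hv : G.W₂ x = cl G.γ G.β v) (hj : G.Jp Z τ G.R x) {N : ℂ × ℂ → ℂ} (hN : Differentiable ℂ N) :
    Tendsto (fun z => z * (J (x + G.ι z) * k3 ϑ G.α ζ a N (w + z) (v + G.η * z))) (𝓝[≠] (0 : ℂ))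
      (𝓝 0) := by
  have hs : G.R = (0 : ℤ) • G.P + (1 : ℤ) • G.R := by simp
  have u0 : ∀ k, 0 ≤ G.o (x + τ k) := fun k => G.o_nonneg fun i j hi hj' e =>
    hj.lw hs k e (by omega)
  have u1 : ∀ k, 0 ≤ G.o (Z + τ k - x) := fun k => G.o_nonneg fun i j hi hj' e =>
    hj.up hs k e (by omega)
  have T := D.th
  have num : OG (fun z => N (w + z, v + G.η * z)) 0 := og_of_an
    ((hN.comp (by fun_prop : Differentiable ℂ fun z : ℂ => (w + z, v + G.η * z))).analyticAt 0)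
  have den := (oe_prod Finset.univ fun j _ => T.oe (g := fun z => w + z + G.α - ζ - a j)
    (w + G.α - ζ - a j) one_ne_zero (fun z => by ring)).mul
    (oe_prod Finset.univ fun j _ => T.oe (g := fun z => v + G.η * z - ζ - a j) (v - ζ - a j)
      G.η_ne (fun z => by ring))
  refine ((D.oe x).og.mul (num.div den)).tend ?_
  have c1 : ∑ j, ind G.γ G.β (v - ζ - a j) = ∑ j, ind G.γ G.β (v - ζ - a (p j)) :=
    (Equiv.sum_comp (Function.Involutive.toPerm p D.inv) fun j => ind G.γ G.β (v - ζ - a j)).symm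
  have c2 : ∀ k, ind G.γ G.β (w + G.α - ζ - a k) + ind G.γ G.β (v - ζ - a (p k)) ≤
      G.o (Z + τ k - x) := by
    intro k
    by_cases h1 : w + G.α - ζ - a k ∈ lat2 G.γ G.β
    · obtain ⟨j, e⟩ := D.up₁ hw k h1
      have h3 := hj.up hs k e
      have h2 : v - ζ - a (p k) ∉ lat2 G.γ G.β := fun h2 => by
        obtain ⟨i, e'⟩ := D.up₂ hv k h2
        have := G.lat_inj (e.symm.trans e')
        omega
      rw [ind_of_not h2, e, G.o_one le_rfl (by omega), ind, if_pos h1]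
      omega
    · rw [ind_of_not h1, zero_add]
      refine ind_le (u1 k) fun h2 => ?_
      obtain ⟨i, e⟩ := D.up₂ hv k h2
      have h3 := hj.up hs k e
      rw [e]; exact G.o_one (by omega) le_rfl
  have c3 := Finset.sum_le_sum fun k (_ : k ∈ Finset.univ) => c2 k
  have c4 := Finset.sum_nonneg fun k (_ : k ∈ Finset.univ) => u0 k
  rw [Finset.sum_add_distrib] at c3
  omega

end Pool.Agent.CU.O
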