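import Pool.Agent.Lib.MP_ca56d1_nt.CU.O.Fin1

/-! Assembly of the finite identity. -/

namespace Pool.Agent.CU.O

open Complex Filter Topology Pool.Agent.RM
open scoped Real Classical

variable {K : Type} [Field K] [CharZero K] {ρ : K →+* ℝ} {σ : K →+* ℂ}
variable {A : Type} [AddCommGroup A]

omit [CharZero K] in
theorem EK.ne {z : ℂ} (h : EK σ z) : z ≠ 0 := by
  obtain ⟨k, rfl⟩ := h
  exact ee_ne _

omit [CharZero K] in
theorem EK.mul {z w : ℂ} (h : EK σ z) (h' : EK σ w) : EK σ (z * w) := by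
  obtain ⟨k, rfl⟩ := h
  obtain ⟨k', rfl⟩ := h'
  exact ⟨k + k', by rw [map_add, ee_add]⟩

omit [CharZero K] in
theorem EK.div {z w : ℂ} (h : EK σ z) (h' : EK σ w) : EK σ (z / w) := by
  obtain ⟨k, rfl⟩ := h
  obtain ⟨k', rfl⟩ := h'
  exact ⟨k - k', by rw [map_sub, ee_sub]⟩

theorem log_norm_ee (w : ℂ) : Real.log (‖ee w‖ ^ 2) = -4 * π * w.im := by
  unfold ee
  rw [Complex.norm_exp, ← Real.exp_nat_mul, Real.log_exp]
  simp
  ring

theorem log_sq_mul {z w : ℂ} (hz : z ≠ 0) (hw : w ≠ 0) :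
    Real.log (‖z * w‖ ^ 2) = Real.log (‖z‖ ^ 2) + Real.log (‖w‖ ^ 2) := by
  rw [norm_mul, mul_pow, Real.log_mul (by simpa using hz) (by simpa using hw)]

theorem norm_eq_of_log {z w : ℂ} (hz : z ≠ 0) (hw : w ≠ 0)
    (h : Real.log (‖z‖ ^ 2) = Real.log (‖w‖ ^ 2)) : ‖z / w‖ = 1 := by
  have h1 := Real.log_injOn_pos (Set.mem_Ioi.2 (by positivity : 0 < ‖z‖ ^ 2))
    (Set.mem_Ioi.2 (by positivity : 0 < ‖w‖ ^ 2)) h
  have h2 : ‖z‖ = ‖w‖ := (pow_left_inj₀ (norm_nonneg _) (norm_nonneg _) two_ne_zero).1 h1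
  rw [norm_div, h2, div_self (by simpa using hw)]

theorem Geo.reg (G : Geo A) {x : A} (h : G.o x = 0) {i j : ℤ} (hx : x = i • G.P + j • G.R) :
    0 < i ↔ 0 < j := by
  unfold Geo.o at h
  by_cases h1 : ∃ i j : ℤ, 1 ≤ i ∧ j ≤ 0 ∧ x = i • G.P + j • G.R
  · rw [if_pos h1] at h; exact absurd h one_ne_zero
  by_cases h2 : ∃ i j : ℤ, i ≤ 0 ∧ 1 ≤ j ∧ x = i • G.P + j • G.R
  · rw [if_neg h1, if_pos h2] at h; exact absurd h (by decide)
  constructor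
  · intro hi
    by_contra hj
    exact h1 ⟨i, j, by omega, by omega, hx⟩
  · intro hj
    by_contra hi
    exact h2 ⟨i, j, by omega, by omega, hx⟩

section

variable {ε : K} {L : Submodule ℤ K} {a : K →ₗ[ℚ] ℚ} {α β γ : K} {s : ℕ}
variable {G : Geo A} {pt : K → K → A} {y : Fin 4 → K} {p : Fin 4 → Fin 4} {n₀ : ℤ}

theorem big_of (hp : Par ε L a y p n₀) (hP : Pts σ ε L a G pt) :
    ∃ B : ℚ, ∀ Z, Z - ε⁻¹ * Z ∈ L → B < a Z → ∀ (j k : Fin 4) (i i' : ℤ),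
      pt Z Z + pt (y j) (y (p j)) + pt (y k) (y (p k)) = i • G.P + i' • G.R → 3 ≤ i ∧ 3 ≤ i' := by
  obtain ⟨b, hb⟩ := (Set.finite_range fun j => -a (y j)).bddAbove
  have hb' : ∀ j, -a (y j) ≤ b := fun j => hb ⟨j, rfl⟩
  refine ⟨3 + 2 * b, fun Z hZ hB j k i i' h => ?_⟩
  have h1 : Z + y (p j) - ε⁻¹ * (Z + y j) ∈ L := by
    have := L.add_mem hZ (hp.mem j)
    convert this using 1; ring
  have h2 : Z + y (p j) + y (p k) - ε⁻¹ * (Z + y j + y k) ∈ L := by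
    have := L.add_mem h1 (hp.mem k)
    convert this using 1; ring
  rw [← hP.add _ _ _ _ hZ (hp.mem j), ← hP.add _ _ _ _ h1 (hp.mem k), hP.lat _ _ _ _ h2] at h
  obtain ⟨-, h3, h4⟩ := h
  rw [map_add, map_add] at h3 h4
  have h5 : (3 : ℚ) ≤ i := by linarith [hb' j, hb' k]
  have h6 : (3 : ℚ) ≤ i' := by linarith [hb' (p j), hb' (p k)]
  exact ⟨by exact_mod_cast h5, by exact_mod_cast h6⟩

/-- Translation of the diagonal values by the lattice. -/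
theorem diag_shift (hTM : TMSt) (h : Dat ρ σ ε L a α β γ s) (hP : Pts σ ε L a G pt)
    {ϑ : ℂ → ℂ} {C : ℂ} {H : A → ℂ} {t : Fin 4 → A}
    (hH : HDat G ϑ (fun j => σ (y j)) p t C H) {k : K} (hk : C = ee (σ k)) {z l : K}
    (hz : z - ε⁻¹ * z ∈ L) (hl : l ∈ L) :
    ∃ e : ℤ, H (pt (z + l) (z + l)) * ee (σ (k * a (z + l))) =
        σ ε ^ e * (H (pt z z) * ee (σ (k * a z))) ∧ ((∀ j, z + y j ∉ L) → e = 0) := by
  have hε : σ ε ≠ 0 := (map_ne_zero σ).2 h.ε_ne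
  have hη : G.η = (σ ε)⁻¹ := by rw [hP.η_eq, map_inv₀]
  have step : ∀ u, u - ε⁻¹ * u ∈ L → ∃ e : ℤ, H (pt (u + α) (u + α)) * ee (σ (k * a (u + α))) =
      σ ε ^ e * (H (pt u u) * ee (σ (k * a u))) ∧ ((∀ j, u + y j ∉ L) → e = 0) := by
    intro u hu
    obtain ⟨-, -, e, he, he'⟩ := hTM A G ϑ _ p t C H hH (pt u u)
      (by rw [hP.W₁ u u hu, hP.W₂ u u hu])
    refine ⟨-e, ?_, fun hj => ?_⟩
    · rw [hP.diag_add h hu h.α_mem (k := 1) (by simpa using h.aα), one_smul, he, map_add, h.aα,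
        hη, hk]
      push_cast
      rw [mul_add, mul_one, map_add, ee_add, inv_zpow', zpow_neg]
      have := ee_ne (σ k)
      field_simp
    · rw [he' (σ u) (hP.W₁ u u hu) fun j hm => ?_, neg_zero]
      rw [← map_add, hP.mem] at hm
      exact hj j hm.1
  have hmem : ∀ n : ℤ, z + n * α - ε⁻¹ * (z + n * α) ∈ L := fun n => by
    have := L.add_mem hz (h.fix_of_mem (int_mul_mem h.α_mem n))
    convert this using 1; ring
  have hreg : (∀ j, z + y j ∉ L) → ∀ (n : ℤ) j, z + n * α + y j ∉ L := fun hj n j hm => by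
    have := L.sub_mem hm (int_mul_mem h.α_mem n)
    exact hj j (by convert this using 1; ring)
  have all : ∀ n : ℤ, ∃ e : ℤ, H (pt (z + n * α) (z + n * α)) * ee (σ (k * a (z + n * α))) =
      σ ε ^ e * (H (pt z z) * ee (σ (k * a z))) ∧ ((∀ j, z + y j ∉ L) → e = 0) := by
    intro n
    induction n using Int.induction_on with
    | zero => exact ⟨0, by simp, fun _ => rfl⟩
    | succ n ih =>
      obtain ⟨e, he, he'⟩ := ih
      obtain ⟨e₁, h1, h2⟩ := step _ (hmem n)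
      refine ⟨e₁ + e, ?_, fun hj => by rw [he' hj, h2 (hreg hj n), add_zero]⟩
      have : z + (((n : ℤ) + 1 : ℤ) : K) * α = z + ((n : ℤ) : K) * α + α := by push_cast; ring
      rw [this, h1, he, zpow_add₀ hε, mul_assoc]
    | pred n ih =>
      obtain ⟨e, he, he'⟩ := ih
      obtain ⟨e₁, h1, h2⟩ := step _ (hmem (-(n : ℤ) - 1))
      refine ⟨e - e₁, ?_, fun hj => by rw [he' hj, h2 (hreg hj _), sub_zero]⟩
      have : z + ((-(n : ℤ) - 1 : ℤ) : K) * α + α = z + ((-(n : ℤ) : ℤ) : K) * α := by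
        push_cast; ring
      rw [this, he] at h1
      rw [zpow_sub₀ hε, div_mul_eq_mul_div, eq_div_iff (zpow_ne_zero _ hε), h1]
      ring
  obtain ⟨n, hn⟩ := h.int hl
  obtain ⟨e, he, he'⟩ := all n
  refine ⟨e, ?_, he'⟩
  have hn' : a (n * α) = n := by rw [map_int_mul, h.aα, mul_one]
  rw [← he, hP.diag_add h hz hl hn, hP.diag_add h hz (int_mul_mem h.α_mem n) hn', map_add,
    map_add, hn, hn']

end

theorem partO2 (hB : BasSt ρ σ) (hU : PartU ρ σ) (hPar : ParSt ρ σ) (hI : InstSt ρ σ)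
    (hHP : HPSt ρ σ) (hAO : AOSt) (hTM : TMSt) (hSw : SwSt) (hVL : VLSt) : PartO2 ρ σ := by
  intro ε L hε hL y₁ y₂ y₃ y₄ s12 s34 hbal h13 h14 h23 h24 ⟨x₀, hx₀, r1, r2, r3, r4⟩
  obtain ⟨a, α, β, γ, s, y, p, n₀, h, hp, e0, e1, e2, e3⟩ :=
    hPar ε L hε hL y₁ y₂ y₃ y₄ s12 s34 hbal h13 h14 h23 h24
  obtain ⟨A, _, G, pt, ϑ, C, H, hP, ⟨k, hk⟩, hH, hval⟩ := hI ε L a α β γ s h y p n₀ hp
  obtain ⟨l, c, hhp⟩ := hHP ε L a α β γ s h y p n₀ hp
  have hε0 : σ ε ≠ 0 := (map_ne_zero σ).2 h.ε_ne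
  set m : K → ℂ := mono ρ σ ε L y₁ y₂ y₃ y₄ with hm
  have hper : ∀ x x', x - x' ∈ L → m x = m x' := by
    intro x x' hx
    have : ∀ u, uu ρ σ (ε ^ 2) L (x + u) = uu ρ σ (ε ^ 2) L (x' + u) := fun u =>
      hU.per _ _ _ _ (by convert hx using 1; ring)
    simp only [hm, mono, this]
  have hmono : ∀ x, mono ρ σ ε L (-y 0) (-y 1) (-y 2) (-y 3) x = m x := by
    intro x
    have : ∀ u u', u + u' ∈ L → uu ρ σ (ε ^ 2) L (x + -u) = uu ρ σ (ε ^ 2) L (x + u') :=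
      fun u u' hu => hU.per _ _ _ _ (by convert L.neg_mem hu using 1; ring)
    simp only [hm, mono, this _ _ e0, this _ _ e1, this _ _ e2, this _ _ e3]
  have hreg : ∀ x, x + y₁ ∉ L → x + y₂ ∉ L → x + y₃ ∉ L → x + y₄ ∉ L → ∀ z, z + x ∈ L →
      ∀ j, z + y j ∉ L := by
    intro x r1 r2 r3 r4 z hz j hj
    have key : ∀ u u', u + u' ∈ L → z + u ∈ L → x + u' ∈ L := fun u u' h1 h2 => by
      have := L.sub_mem (L.add_mem hz h1) h2
      convert this using 1; ring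
    fin_cases j
    exacts [r1 (key _ _ e0 hj), r2 (key _ _ e1 hj), r3 (key _ _ e2 hj), r4 (key _ _ e3 hj)]
  set ν : K → ℂ := fun z => ee (σ (k * a z)) with hν
  have hν0 : ∀ z, ν z ≠ 0 := fun z => ee_ne _
  have hνa : ∀ z z', ν (z + z') = ν z * ν z' := fun z z' => by
    simp only [hν]
    rw [← ee_add, ← map_add, map_add a]; push_cast; rw [mul_add]
  have hνl : ∀ z, Real.log (‖ν z‖ ^ 2) = a z * (-4 * π * (σ k).im) := fun z => by
    simp only [hν]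
    rw [log_norm_ee, map_mul, map_ratCast]
    simp
    ring
  have hνE : ∀ z, EK σ (ν z) := fun z => ⟨_, rfl⟩
  have hdg : ∀ z, z - ε⁻¹ * z ∈ L → (∀ j, G.o (pt z z + pt (y j) (y (p j))) = 0) ∧
      H (pt z z) ≠ 0 := fun z hz => by
    obtain ⟨h1, h2, -⟩ := hTM A G ϑ _ p _ C H hH (pt z z) (by rw [hP.W₁ z z hz, hP.W₂ z z hz])
    exact ⟨h1, h2⟩
  have pair0 : ∀ z z', z' - ε⁻¹ * z ∈ L → z - ε⁻¹ * z' ∈ L →
      (∀ j, G.o (pt z z' + pt (y j) (y (p j))) = 0) →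
      ∃ (i : ℤ) (ζ u : ℂ), Mu ζ ∧ EK σ u ∧
        Real.log (‖u‖ ^ 2) = (l + -4 * π * (σ k).im) * (a z + a z') + c ∧
        H (pt z z') * H (pt z' z) * ν (z + z') = u * ζ * σ ε ^ i * m (-z) ∧
        ((∀ j, z + y j ∉ L) → i = 0) := by
    intro z z' h1 h2 h3
    obtain ⟨n, hn⟩ := h.int h1
    obtain ⟨n', hn'⟩ := h.int h2
    obtain ⟨i, ζ, u, hζ, hu, hlog, he, hi⟩ := hhp z z' n n' h1 h2 hn hn' (by
      intro j hj
      have h4 : z' + y (p j) - ε⁻¹ * (z + y j) ∈ L := by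
        have := L.add_mem h1 (hp.mem j)
        convert this using 1; ring
      have h5 : z' + y (p j) ∈ L := by
        have := L.add_mem h4 (h.inv_mem.2 hj)
        convert this using 1; ring
      obtain ⟨i, hi⟩ := h.int hj
      obtain ⟨i', hi'⟩ := h.int h5
      have h6 := h3 j
      rw [← hP.add _ _ _ _ h1 (hp.mem j)] at h6
      have h7 := G.reg h6 ((hP.lat _ _ i i' h4).2 ⟨hj, hi, hi'⟩)
      rw [hi, hi']
      exact_mod_cast h7)
    refine ⟨i, ζ, u * ν (z + z'), hζ, EK.mul hu (hνE _), ?_, ?_, hi⟩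
    · rw [log_sq_mul (EK.ne hu) (hν0 _), hlog, hνl, map_add]; push_cast; ring
    · rw [hval z z' n h1 hn, hval z' z n' h2 hn', he, hmono]; ring
  have hneg : ∀ x, (ε - 1) * x ∈ L → -x - ε⁻¹ * -x ∈ L := fun x hx => by
    have := L.neg_mem (h.fix_iff.2 hx)
    convert this using 1; ring
  -- the base point
  have hz₀ := hneg x₀ hx₀
  have hr₀ := hreg x₀ r1 r2 r3 r4
  obtain ⟨i₀, ζ₀, u₀, hζ₀, hu₀, hl₀, he₀, hi₀⟩ := pair0 _ _ hz₀ hz₀ (hdg _ hz₀).1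
  have hslope : l + -4 * π * (σ k).im = 0 := by
    have hz₁ : -x₀ + α - ε⁻¹ * (-x₀ + α) ∈ L := by
      have := L.add_mem hz₀ (h.fix_of_mem h.α_mem)
      convert this using 1; ring
    obtain ⟨i₁, ζ₁, u₁, hζ₁, hu₁, hl₁, he₁, hi₁⟩ := pair0 _ _ hz₁ hz₁ (hdg _ hz₁).1
    obtain ⟨e, he, he'⟩ := diag_shift hTM h hP hH hk hz₀ h.α_mem
    rw [he' (hr₀ _ (by simp)), zpow_zero, one_mul] at he
    rw [hi₀ (hr₀ _ (by simp)), hνa] at he₀
    rw [hi₁ (hr₀ _ (by simpa using h.α_mem)), hνa,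
      hper (-(-x₀ + α)) (- -x₀) (by simpa using h.α_mem)] at he₁
    have h1 : H (pt (-x₀) (-x₀)) * H (pt (-x₀) (-x₀)) * (ν (-x₀) * ν (-x₀)) ≠ 0 :=
      mul_ne_zero (mul_ne_zero (hdg _ hz₀).2 (hdg _ hz₀).2) (mul_ne_zero (hν0 _) (hν0 _))
    have h2 : m (- -x₀) ≠ 0 := fun h0 => h1 (by rw [he₀, h0, mul_zero])
    have h3 : u₁ * ζ₁ = u₀ * ζ₀ := by
      refine mul_right_cancel₀ h2 ?_
      simp only [zpow_zero, mul_one] at he₀ he₁
      rw [← he₀, ← he₁]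
      change H (pt (-x₀ + α) (-x₀ + α)) * ν (-x₀ + α) = H (pt (-x₀) (-x₀)) * ν (-x₀) at he
      linear_combination (H (pt (-x₀ + α) (-x₀ + α)) * ν (-x₀ + α) +
        H (pt (-x₀) (-x₀)) * ν (-x₀)) * he
    have h4 := congrArg norm h3
    rw [norm_mul, norm_mul, Mu.norm hζ₁, Mu.norm hζ₀, mul_one, mul_one] at h4
    rw [h4, hl₀, map_add a (-x₀) α, h.aα] at hl₁
    push_cast at hl₁
    linarith
  obtain ⟨C₀, hC₀⟩ := IsAlgClosed.exists_pow_nat_eq u₀ two_pos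
  have hC0 : C₀ ≠ 0 := fun h0 => EK.ne hu₀ (by rw [← hC₀, h0]; simp)
  have pair : ∀ z z', z' - ε⁻¹ * z ∈ L → z - ε⁻¹ * z' ∈ L →
      (∀ j, G.o (pt z z' + pt (y j) (y (p j))) = 0) →
      ∃ (i : ℤ) (ζ : ℂ), Mu ζ ∧
        H (pt z z') * H (pt z' z) * ν (z + z') * C₀⁻¹ ^ 2 = ζ * σ ε ^ i * m (-z) ∧
        ((∀ j, z + y j ∉ L) → i = 0) := by
    intro z z' h1 h2 h3
    obtain ⟨i, ζ, u, hζ, hu, hl, he, hi⟩ := pair0 z z' h1 h2 h3
    rw [hslope, zero_mul, zero_add] at hl hl₀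
    refine ⟨i, u / u₀ * ζ, Mu.mul (hB.mu _ (EK.div hu hu₀)
      (norm_eq_of_log (EK.ne hu) (EK.ne hu₀) (hl.trans hl₀.symm))) hζ, ?_, hi⟩
    rw [he, ← hC₀]; field_simp
  -- the function
  let rep : K → K := fun x => (QuotientAddGroup.mk x : K ⧸ L.toAddSubgroup).out
  have hrep : ∀ x, rep x - x ∈ L := fun x =>
    (QuotientAddGroup.eq_iff_sub_mem (N := L.toAddSubgroup)).1
      (QuotientAddGroup.out_eq' (QuotientAddGroup.mk x))
  have hrep' : ∀ x x', x - x' ∈ L → rep x = rep x' := fun x x' hx => by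
    have : (QuotientAddGroup.mk x : K ⧸ L.toAddSubgroup) = QuotientAddGroup.mk x' :=
      QuotientAddGroup.eq_iff_sub_mem.2 hx
    simp only [rep, this]
  let f : K → ℂ := fun x => H (pt (-rep x) (-rep x)) * ν (-rep x) * C₀⁻¹
  have hd : ∀ z x, z - ε⁻¹ * z ∈ L → z + x ∈ L →
      ∃ e : ℤ, H (pt z z) * ν z * C₀⁻¹ = σ ε ^ e * f x := by
    intro z x hz hx
    have h1 : z + rep x ∈ L := by
      have := L.add_mem hx (hrep x)
      convert this using 1; ring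
    have h2 : -rep x - ε⁻¹ * -rep x ∈ L := by
      have := L.sub_mem hz (h.fix_of_mem h1)
      convert this using 1; ring
    obtain ⟨e, he, -⟩ := diag_shift hTM h hP hH hk h2 h1
    rw [show -rep x + (z + rep x) = z by ring] at he
    refine ⟨e, ?_⟩
    change H (pt z z) * ν z = σ ε ^ e * (H (pt (-rep x) (-rep x)) * ν (-rep x)) at he
    simp only [f]
    rw [he]; ring
  obtain ⟨B, hbig⟩ := big_of hp hP
  refine ⟨f, fun x x' hx => by simp only [f, hrep' x x' hx], fun x hx => ?_, ?_, ?_⟩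
  · have h1 : (ε - 1) * rep x ∈ L := by
      have := L.add_mem hx (h.fix_iff.1 (h.fix_of_mem (hrep x)))
      convert this using 1; ring
    have h2 := hneg _ h1
    obtain ⟨i, ζ, hζ, he, hi⟩ := pair _ _ h2 h2 (hdg _ h2).1
    rw [neg_neg, hper _ _ (hrep x), hνa] at he
    have h3 : f x ^ 2 = ζ * σ ε ^ i * m x := by rw [← he]; simp only [f]; ring
    have h4 : f x ≠ 0 := mul_ne_zero (mul_ne_zero (hdg _ h2).2 (hν0 _)) (inv_ne_zero hC0)
    have h5 : m x ≠ 0 := fun h0 => pow_ne_zero 2 h4 (by rw [h3, h0, mul_zero])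
    refine ⟨i, ?_, fun r1 r2 r3 r4 => hi (hreg x r1 r2 r3 r4 _ ?_)⟩
    · rw [h3, mul_assoc, mul_div_assoc, div_self (mul_ne_zero (zpow_ne_zero _ hε0) h5), mul_one]
      exact hζ
    · have := L.neg_mem (hrep x)
      convert this using 1; ring
  · exact cbd hAO hTM hVL h hP hH B hbig f m ν C₀⁻¹ (inv_ne_zero hC0) hν0 hνa hd
      fun z z' h1 h2 h3 => by
        obtain ⟨i, ζ, hζ, he, -⟩ := pair z z' h1 h2 h3
        exact ⟨i, ζ, hζ, he⟩
  · refine cbd hAO hTM hVL h hP (hSw A G ϑ _ p _ C H hH) B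
      (fun Z h1 h2 j k i i' h3 => hbig Z h1 h2 _ _ i i' h3) _ _ (fun z => (ν z)⁻¹) C₀ hC0
      (fun z => inv_ne_zero (hν0 z)) (fun z z' => by rw [hνa, mul_inv]) ?_ ?_
    · intro z x hz hx
      obtain ⟨e, he⟩ := hd z x hz hx
      refine ⟨-e, ?_⟩
      rw [zpow_neg, ← mul_inv, ← mul_inv, ← he, mul_inv _ C₀⁻¹, inv_inv]
    · intro z z' h1 h2 h3
      obtain ⟨i, ζ, hζ, he, -⟩ := pair z z' h1 h2 fun j => by
        have := h3 (j + 2)
        rwa [show j + 2 + 2 = j by rw [add_assoc]; exact add_zero j] at this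
      refine ⟨-i, ζ⁻¹, Mu.inv hζ, ?_⟩
      have h4 : mono ρ σ ε L y₃ y₄ y₁ y₂ (-z) = (m (-z))⁻¹ := by
        simp only [hm, mono, inv_div]
      rw [h4, zpow_neg, ← mul_inv, ← mul_inv, ← mul_inv, ← mul_inv, ← he, mul_inv _ (C₀⁻¹ ^ 2),
        inv_pow, inv_inv]

end Pool.Agent.CU.O
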