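import Pool.Agent.Lib.MP_ca56d1_nt.CU.O.Th

/-! From the abstract identity to the bound for the convolution square. -/

namespace Pool.Agent.CU.O

open Complex Filter Topology Pool.Agent.RM
open scoped Real Classical

variable {K : Type} [Field K] [CharZero K] {ρ : K →+* ℝ} {σ : K →+* ℂ}
variable {A : Type} [AddCommGroup A]

theorem Mu.val {z : ℂ} (h : Mu z) (O : ValuationSubring ℂ) : O.valuation z = 1 := by
  obtain ⟨n, hn, h⟩ := h
  have : O.valuation z ^ n = 1 := by rw [← map_pow, h, map_one]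
  exact (pow_eq_one_iff_left hn).1 this

theorem Mu.ne {z : ℂ} (h : Mu z) : z ≠ 0 := by
  obtain ⟨n, hn, h⟩ := h
  rintro rfl
  simp [hn] at h

theorem Mu.mul {z w : ℂ} (h : Mu z) (h' : Mu w) : Mu (z * w) := by
  obtain ⟨n, hn, h⟩ := h
  obtain ⟨m, hm, h'⟩ := h'
  refine ⟨n * m, mul_ne_zero hn hm, ?_⟩
  rw [mul_pow, pow_mul, h, mul_comm n, pow_mul, h']; simp

theorem Mu.inv {z : ℂ} (h : Mu z) : Mu z⁻¹ := by
  obtain ⟨n, hn, h⟩ := h
  exact ⟨n, hn, by rw [inv_pow, h, inv_one]⟩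

theorem Mu.norm {z : ℂ} (h : Mu z) : ‖z‖ = 1 := by
  obtain ⟨n, hn, h⟩ := h
  have : ‖z‖ ^ n = 1 := by rw [← norm_pow, h, norm_one]
  exact (pow_eq_one_iff_of_nonneg (norm_nonneg z) hn).1 this

theorem val_int (O : ValuationSubring ℂ) (m : ℤ) : O.valuation (m : ℂ) ≤ 1 :=
  (O.valuation_le_one_iff _).2 (intCast_mem O m)

section

variable {ε : K} {L : Submodule ℤ K} {a : K →ₗ[ℚ] ℚ} {α β γ : K} {s : ℕ}

theorem Dat.ε_ne (h : Dat ρ σ ε L a α β γ s) : ε ≠ 0 := by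
  rintro rfl
  have := h.eps.one_lt
  simp at this
  linarith

theorem Dat.α_mem (h : Dat ρ σ ε L a α β γ s) : α ∈ L := (h.bas α).2 ⟨1, 0, 0, by simp⟩

theorem Dat.inv_mem (h : Dat ρ σ ε L a α β γ s) {x : K} : ε⁻¹ * x ∈ L ↔ x ∈ L := by
  rw [← h.lat.stab, ← mul_assoc, mul_inv_cancel₀ h.ε_ne, one_mul]

theorem Dat.fix_iff (h : Dat ρ σ ε L a α β γ s) {x : K} : x - ε⁻¹ * x ∈ L ↔ (ε - 1) * x ∈ L := by
  rw [← h.lat.stab]
  have : ε * (x - ε⁻¹ * x) = (ε - 1) * x := by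
    have := h.ε_ne
    field_simp
  rw [this]

theorem map_int_mul (a : K →ₗ[ℚ] ℚ) (i : ℤ) (x : K) : a (i * x) = i * a x := by
  rw [← zsmul_eq_mul, map_zsmul, zsmul_eq_mul]

omit [CharZero K] in
theorem int_mul_mem {x : K} (hx : x ∈ L) (i : ℤ) : (i : K) * x ∈ L := by
  rw [← zsmul_eq_mul]; exact L.smul_mem i hx

theorem Dat.int (h : Dat ρ σ ε L a α β γ s) {x : K} (hx : x ∈ L) : ∃ n : ℤ, a x = n := by
  obtain ⟨i, j, k, rfl⟩ := (h.bas x).1 hx
  refine ⟨i, ?_⟩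
  rw [map_add, map_add, map_int_mul, map_int_mul, map_int_mul, h.aα, h.aβ, h.ori.ka]; ring

theorem Dat.fix_of_mem (h : Dat ρ σ ε L a α β γ s) {x : K} (hx : x ∈ L) : x - ε⁻¹ * x ∈ L :=
  L.sub_mem hx (h.inv_mem.2 hx)

variable {G : Geo A} {pt : K → K → A}

theorem Pts.sub (hP : Pts σ ε L a G pt) {z z' u u' : K} (h1 : z' - ε⁻¹ * z ∈ L)
    (h2 : u' - ε⁻¹ * u ∈ L) : pt (z - u) (z' - u') = pt z z' - pt u u' := by
  have h3 : z' - u' - ε⁻¹ * (z - u) ∈ L := by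
    have := L.sub_mem h1 h2
    convert this using 1; ring
  have := hP.add (z - u) (z' - u') u u' h3 h2
  rw [sub_add_cancel, sub_add_cancel] at this
  rw [this, add_sub_cancel_right]

theorem Pts.diag_add (hP : Pts σ ε L a G pt) (h : Dat ρ σ ε L a α β γ s) {z l : K}
    (hz : z - ε⁻¹ * z ∈ L) (hl : l ∈ L) {k : ℤ} (hk : a l = k) :
    pt (z + l) (z + l) = pt z z + k • (G.P + G.R) := by
  rw [hP.add z z l l hz (h.fix_of_mem hl), smul_add,
    (hP.lat l l k k (h.fix_of_mem hl)).2 ⟨hl, hk, hk⟩]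

theorem cbd (hAO : AOSt) (hTM : TMSt) (hVL : VLSt) (h : Dat ρ σ ε L a α β γ s)
    (hP : Pts σ ε L a G pt) {ϑ : ℂ → ℂ} {y : Fin 4 → ℂ} {p : Fin 4 → Fin 4} {t : Fin 4 → A}
    {C : ℂ} {H : A → ℂ} (hH : HDat G ϑ y p t C H) (B : ℚ)
    (big : ∀ Z, Z - ε⁻¹ * Z ∈ L → B < a Z → ∀ (j k : Fin 4) (i i' : ℤ),
      pt Z Z + t j + t k = i • G.P + i' • G.R → 3 ≤ i ∧ 3 ≤ i')
    (f m ν : K → ℂ) (c₀ : ℂ) (hc₀ : c₀ ≠ 0) (hν : ∀ z, ν z ≠ 0)
    (hν' : ∀ z z', ν (z + z') = ν z * ν z')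
    (hd : ∀ z x, z - ε⁻¹ * z ∈ L → z + x ∈ L → ∃ e : ℤ, H (pt z z) * ν z * c₀ = σ ε ^ e * f x)
    (pair : ∀ z z', z' - ε⁻¹ * z ∈ L → z - ε⁻¹ * z' ∈ L → (∀ j, G.o (pt z z' + t j) = 0) →
      ∃ (i : ℤ) (ζ : ℂ), Mu ζ ∧
        H (pt z z') * H (pt z' z) * ν (z + z') * c₀ ^ 2 = ζ * σ ε ^ i * m (-z)) :
    CBd σ ε L m f := by
  intro O τ S hS hv1 hv2 hm Z hZ
  have hε : σ ε ≠ 0 := (map_ne_zero σ).2 h.ε_ne
  have hη : G.η = (σ ε)⁻¹ := by rw [hP.η_eq, map_inv₀]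
  -- size of the paired values
  have hpair : ∀ z z', z' - ε⁻¹ * z ∈ L → z - ε⁻¹ * z' ∈ L → (∀ j, G.o (pt z z' + t j) = 0) →
      O.valuation (H (pt z z') * H (pt z' z) * ν (z + z') * c₀ ^ 2) ≤ O.valuation τ ^ 2 := by
    intro z z' h1 h2 h3
    obtain ⟨i, ζ, hζ, e⟩ := pair z z' h1 h2 h3
    rw [e, map_mul, map_mul, Mu.val hζ, map_zpow₀, hv1, one_zpow, one_mul, one_mul]
    refine hm _ ?_
    have h4 := L.add_mem ((h.lat.stab _).2 ((h.lat.stab _).2 h2)) ((h.lat.stab _).2 h1)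
    have h5 := L.neg_mem h4
    convert h5 using 1
    have := h.ε_ne
    field_simp
    ring
  have hdiag : ∀ z, z - ε⁻¹ * z ∈ L → G.W₁ (pt z z) = G.W₂ (pt z z) := fun z hz => by
    rw [hP.W₁ z z hz, hP.W₂ z z hz]
  have hf : ∀ x, (ε - 1) * x ∈ L → O.valuation (f x) ≤ O.valuation τ := by
    intro x hx
    have hz : -x - ε⁻¹ * -x ∈ L := by
      have := L.neg_mem (h.fix_iff.2 hx)
      convert this using 1; ring
    obtain ⟨e, he⟩ := hd (-x) x hz (by simp)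
    have h1 := hpair (-x) (-x) hz hz (hTM A G ϑ y p t C H hH _ (hdiag _ hz)).1
    have h2 : H (pt (-x) (-x)) * H (pt (-x) (-x)) * ν (-x + -x) * c₀ ^ 2 =
        (σ ε ^ e * f x) ^ 2 := by rw [← he, hν']; ring
    rw [h2, map_pow, map_mul, map_zpow₀, hv1, one_zpow, one_mul] at h1
    exact le_of_not_gt fun h3 => absurd h1 (not_le.2 (pow_lt_pow_left₀ h3 zero_le two_ne_zero))
  -- a large representative of `-Z`
  obtain ⟨N, hN⟩ := exists_int_gt (B + a Z)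
  set Z' : K := -Z + N * α with hZ'
  have hNα : (N : K) * α ∈ L := int_mul_mem h.α_mem N
  have hZ1 : Z' - ε⁻¹ * Z' ∈ L := by
    have := L.add_mem (L.neg_mem (h.fix_iff.2 hZ)) (h.fix_of_mem hNα)
    convert this using 1; rw [hZ']; ring
  have hZ2 : B < a Z' := by
    rw [hZ', map_add, map_neg, map_int_mul, h.aα]; linarith
  obtain ⟨ω, h₀, h₁, S', mm, ho0, ho1, hS', hid⟩ :=
    hAO A G ϑ y p t C H hH (pt Z' Z') (hdiag _ hZ1) (big Z' hZ1 hZ2)
  set κ : ℂ := ν Z' * c₀ ^ 2 with hκ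
  have hκ0 : κ ≠ 0 := mul_ne_zero (hν _) (pow_ne_zero _ hc₀)
  have hneg : ∀ g ∈ S, -g - ε⁻¹ * -g ∈ L := fun g hg => by
    have := L.neg_mem (h.fix_iff.2 (hS.1 g hg))
    convert this using 1; ring
  have hvl := hVL A G.hgt (G.P + G.R) G.hT ω h₀ h₁ ho0 ho1 S (fun g => pt (-g) (-g))
    (fun x => G.W₁ x = G.W₂ x) (fun x => H x * H (pt Z' Z' - x))
    (fun g => f g * f (Z - g) / κ) (σ ε) (τ ^ 2 / κ) O hv1 ?_ ?_ ?_ ?_
  rotate_left
  · intro x hx
    obtain ⟨z, hz, rfl⟩ := hP.diag x hx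
    have hz' : (ε - 1) * -z ∈ L := by
      have := L.neg_mem (h.fix_iff.1 hz)
      convert this using 1; ring
    obtain ⟨g, ⟨hg, hg'⟩, -⟩ := hS.2 (-z) hz'
    have hl : z + g ∈ L := by
      have := L.neg_mem hg'
      convert this using 1; ring
    obtain ⟨k, hk⟩ := h.int hl
    refine ⟨g, hg, k, ?_⟩
    rw [← hP.diag_add h (hneg g hg) hl hk]
    congr 1 <;> ring
  · intro g hg g' hg' k hk
    have hl : (k : K) * α ∈ L := int_mul_mem h.α_mem k
    have hk' : a (k * α) = k := by rw [map_int_mul, h.aα, mul_one]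
    rw [← hP.diag_add h (hneg g' hg') hl hk'] at hk
    have h1 := congrArg G.W₁ hk
    have h2 : -g' + k * α - ε⁻¹ * (-g' + k * α) ∈ L := by
      have := L.add_mem (hneg g' hg') (h.fix_of_mem hl)
      convert this using 1; ring
    rw [hP.W₁ _ _ (hneg g hg), hP.W₁ _ _ h2, cl_eq, ← map_sub, hP.mem] at h1
    obtain ⟨u, -, hu⟩ := hS.2 g (hS.1 g hg)
    have h3 : g - g' ∈ L := by
      have := L.neg_mem (L.add_mem h1.1 hl)
      convert this using 1; ring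
    rw [hu g ⟨hg, by simp⟩, hu g' ⟨hg', h3⟩]
  · intro g hg k
    have hl : (k : K) * α ∈ L := int_mul_mem h.α_mem k
    have hk' : a (k * α) = k := by rw [map_int_mul, h.aα, mul_one]
    have h2 : -g + k * α - ε⁻¹ * (-g + k * α) ∈ L := by
      have := L.add_mem (hneg g hg) (h.fix_of_mem hl)
      convert this using 1; ring
    rw [← hP.diag_add h (hneg g hg) hl hk']
    refine ⟨hdiag _ h2, ?_⟩
    rw [← hP.sub hZ1 h2]
    have h3 : Z' - (-g + k * α) - ε⁻¹ * (Z' - (-g + k * α)) ∈ L := by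
      have := L.sub_mem hZ1 h2
      convert this using 1; ring
    obtain ⟨e, he⟩ := hd _ g h2 (by convert hl using 1; ring)
    obtain ⟨e', he'⟩ := hd _ (Z - g) h3 (by
      have := L.sub_mem hNα hl
      convert this using 1; rw [hZ']; ring)
    refine ⟨e + e', ?_⟩
    have h4 : ν Z' = ν (-g + k * α) * ν (Z' - (-g + k * α)) := by rw [← hν']; congr 1; ring
    rw [← mul_div_assoc, eq_div_iff hκ0, hκ, h4, zpow_add₀ hε]
    linear_combination (H (pt (Z' - (-g + k * α)) (Z' - (-g + k * α))) *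
      ν (Z' - (-g + k * α)) * c₀) * he + (σ ε ^ e * f g) * he'
  · intro g hg
    have h1 := hf g (hS.1 g hg)
    have h2 := hf (Z - g) (by
      have := L.sub_mem hZ (hS.1 g hg)
      convert this using 1; ring)
    simp only [map_div₀, map_mul, map_pow]
    refine div_le_div_of_nonneg_right ?_ zero_le
    rw [pow_two]
    exact mul_le_mul' h1 h2
  have hv3 : O.valuation (1 + G.η) = 1 := by
    have : 1 + G.η = (σ ε + 1) / σ ε := by rw [hη]; field_simp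
    rw [this, map_div₀, hv1, hv2, div_one]
  have hv4 : O.valuation (1 - G.η) = O.valuation (σ ε - 1) := by
    have : 1 - G.η = (σ ε - 1) / σ ε := by rw [hη]; field_simp
    rw [this, map_div₀, hv1, div_one]
  have hR : O.valuation (∑ x ∈ S', (mm x : ℂ) * (H x * H (pt Z' Z' - x))) ≤
      O.valuation (τ ^ 2 / κ) := by
    refine O.valuation.map_sum_le fun x hx => ?_
    obtain ⟨h1, h2⟩ := hS' x hx
    rw [hP.W₁ _ _ hZ1] at h1
    obtain ⟨z, hz, rfl⟩ := hP.anti x Z' h1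
    have hz' : z - ε⁻¹ * (Z' - z) ∈ L := by
      have := L.sub_mem hZ1 hz
      convert this using 1; ring
    have h3 := hpair z (Z' - z) hz hz' fun j => (h2 j).1
    rw [← hP.sub hZ1 hz, sub_sub_cancel]
    have h4 : H (pt z (Z' - z)) * H (pt (Z' - z) z) =
        H (pt z (Z' - z)) * H (pt (Z' - z) z) * ν (z + (Z' - z)) * c₀ ^ 2 / κ := by
      rw [eq_div_iff hκ0, hκ, add_sub_cancel]; ring
    rw [h4, map_mul, map_div₀, map_div₀, map_pow]
    exact mul_le_of_le_one_of_le (val_int O _) (div_le_div_of_nonneg_right h3 zero_le)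
  have h5 := congrArg O.valuation hid
  rw [map_mul, map_mul, hv3, one_mul, hv4] at h5
  have h7 : ∀ X X' Y : ℂ, X = X' → ∀ b, O.valuation X ≤ b → O.valuation (X' - Y) ≤ b →
      O.valuation Y ≤ b := by
    rintro X _ Y rfl b h1 h2
    have := O.valuation.map_sub_le h1 h2
    rwa [sub_sub_cancel] at this
  have h6 := h7 _ _ _ (finsum_congr fun x => by congr) _
    (h5.le.trans (mul_le_mul_right hR _)) hvl
  rw [← Finset.sum_div, map_div₀, map_div₀, map_pow, ← mul_div_assoc] at h6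
  exact (div_le_div_iff_of_pos_right (zero_lt_iff.2 ((map_ne_zero _).2 hκ0))).1 h6

end

end Pool.Agent.CU.O
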