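import Pool.Agent.Lib.MP_ca56d1_nt.CU.O.St

/-! The values of the balanced product at a point and at its mirror image. -/

namespace Pool.Agent.CU.O

open Complex Filter Topology Pool.Agent.RM
open scoped Real Classical

variable {K : Type} [Field K] [CharZero K] {ρ : K →+* ℝ} {σ : K →+* ℂ}

namespace HPAux

omit [CharZero K]

theorem ek_ne {z : ℂ} (h : EK σ z) : z ≠ 0 := by
  obtain ⟨k, rfl⟩ := h
  exact Complex.exp_ne_zero _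

theorem ek_mul {z w : ℂ} (h : EK σ z) (h' : EK σ w) : EK σ (z * w) := by
  obtain ⟨k, rfl⟩ := h
  obtain ⟨l, rfl⟩ := h'
  exact ⟨k + l, by rw [CU.ee, CU.ee, CU.ee, map_add, mul_add, Complex.exp_add]⟩

theorem ek_inv {z : ℂ} (h : EK σ z) : EK σ z⁻¹ := by
  obtain ⟨k, rfl⟩ := h
  exact ⟨-k, by rw [CU.ee, CU.ee, map_neg, mul_neg, Complex.exp_neg]⟩

theorem mu_mul {z w : ℂ} (h : Mu z) (h' : Mu w) : Mu (z * w) := by
  obtain ⟨n, h1, h2⟩ := h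
  obtain ⟨m, h3, h4⟩ := h'
  exact ⟨n * m, mul_ne_zero h1 h3, by
    rw [mul_pow, pow_mul, h2, one_pow, mul_comm n, pow_mul, h4, one_pow, one_mul]⟩

theorem mu_inv {z : ℂ} (h : Mu z) : Mu z⁻¹ :=
  h.imp fun _ h => ⟨h.1, by rw [inv_pow, h.2, inv_one]⟩

theorem log_mul {z w : ℂ} (h : z ≠ 0) (h' : w ≠ 0) :
    Real.log (‖z * w‖ ^ 2) = Real.log (‖z‖ ^ 2) + Real.log (‖w‖ ^ 2) := by
  rw [norm_mul, mul_pow, Real.log_mul (by simpa using h) (by simpa using h')]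

theorem log_inv (z : ℂ) : Real.log (‖z⁻¹‖ ^ 2) = -Real.log (‖z‖ ^ 2) := by
  rw [norm_inv, inv_pow, Real.log_inv]

theorem perm {p : Fin 4 → Fin 4} (h1 : ∀ j, p (p j) = j) (h2 : ∀ j, (p j).val < 2 ↔ j.val < 2) :
    (p 0 = 0 ∧ p 1 = 1 ∨ p 0 = 1 ∧ p 1 = 0) ∧ (p 2 = 2 ∧ p 3 = 3 ∨ p 2 = 3 ∧ p 3 = 2) := by
  have h := Function.LeftInverse.injective h1
  have a1 : p 0 ≠ p 1 := h.ne (by decide)
  have a2 : p 2 ≠ p 3 := h.ne (by decide)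
  have b0 := (h2 0).2 (by decide)
  have b1 := (h2 1).2 (by decide)
  have b2 := mt (h2 2).1 (by decide)
  have b3 := mt (h2 3).1 (by decide)
  omega

end HPAux

open HPAux

variable {ε : K} {L : Submodule ℤ K} {a : K →ₗ[ℚ] ℚ} {α β γ : K} {s : ℕ}

/-- Translation of the elliptic gamma function to the origin. -/
theorem HPAux.shift (hL : LpSt σ) (hA : AdmSt σ) (h : Dat ρ σ ε L a α β γ s) (u v : K) (m : ℤ)
    (B : ℚ) (hv : v + u ∈ L) (hB : B = -m - a (ε⁻¹ * u)) :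
    FF σ ε L a γ (σ u) m = ph σ γ (coset L v) (hs a (-a u)) (hs (tw a ε⁻¹) B) 0 ∧
    (FF σ ε L a γ (σ u) m ≠ 0 → Real.log (‖FF σ ε L a γ (σ u) m‖ ^ 2) =
      pl σ γ (coset L v) (hs a (-a u)) (hs (tw a ε⁻¹) B) 0 + 2 * π * GG σ ε L a γ (σ u) m) := by
  have hs0 : ∀ (b : K →ₗ[ℚ] ℚ) (A : ℚ), HS b (hs b A) := fun b A =>
    ⟨fun x y e hx => by rwa [hs, Set.mem_ofPred_eq, ← e], A, A, fun _ hx => hx, fun _ hx => hx⟩
  obtain ⟨w1, w2⟩ := hA.wedge L 0 γ a _ _ _ ⟨h.lat.fg, h.lat.full⟩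
    ((h.bas γ).2 ⟨0, 0, 1, by simp⟩) h.ori (hs0 a 0) (hs0 _ (-m))
  have e1 : ∀ x, x - -u ∈ coset L 0 ↔ x ∈ coset L v := fun x => by
    change x - -u - 0 ∈ L ↔ x - v ∈ L
    rw [← L.add_mem_iff_left (x := x - v) hv, show x - v + (v + u) = x - -u - 0 by ring]
  have e2 : ∀ x, x - -u ∈ hs a 0 ↔ x ∈ hs a (-a u) := fun x => by
    change 0 < a (x - -u) ↔ -a u < a x
    rw [sub_neg_eq_add, map_add]
    constructor <;> intro <;> linarith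
  have e3 : ∀ x, x - -u ∈ hs (tw a ε⁻¹) (-m) ↔ x ∈ hs (tw a ε⁻¹) B := fun x => by
    change -(m : ℚ) < a (ε⁻¹ * (x - -u)) ↔ B < a (ε⁻¹ * x)
    rw [sub_neg_eq_add, mul_add, map_add, hB]
    constructor <;> intro <;> linarith
  obtain ⟨-, a1, a2⟩ := hL.add γ _ (-u) w1
  obtain ⟨-, b1, b2⟩ := hL.add (-γ) _ (-u) w2
  have f1 := a1 (σ u)
  have f2 := a2 (σ u)
  have f3 := b1 (σ u)
  have f4 := b2 (σ u)
  have e4 : ∀ X Y X' Y' : Set K, (∀ x, x - -u ∈ X ↔ x ∈ X') → (∀ x, x - -u ∈ Y ↔ x ∈ Y') →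
      {x | x - -u ∈ coset L 0 ∩ (X \ Y)} = coset L v ∩ (X' \ Y') := fun X Y X' Y' hX hY =>
    Set.ext fun x => and_congr (e1 x) (and_congr (hX x) (not_congr (hY x)))
  rw [e4 _ _ _ _ e2 e3, map_neg σ, add_neg_cancel] at f1 f2
  rw [e4 _ _ _ _ e3 e2, map_neg σ, add_neg_cancel] at f3 f4
  refine ⟨by rw [FF, ph, ph, pN, pN, pD, pD, f1, f3], fun h0 => ?_⟩
  rw [FF, ph, pN, pD] at h0 ⊢
  obtain ⟨g1, g2⟩ := div_ne_zero_iff.1 h0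
  rw [div_eq_mul_inv, HPAux.log_mul g1 (inv_ne_zero g2), HPAux.log_inv, GG, pl, el, el, f1, f2, f3,
    f4]
  ring

/-- One factor and its mirror image. -/
theorem HPAux.one (hL : LpSt σ) (hA : AdmSt σ) (hH : HatSt ρ σ) (h : Dat ρ σ ε L a α β γ s)
    {u u' : K} {m m' : ℤ} (h1 : u' - ε⁻¹ * u ∈ L) (h2 : u - ε⁻¹ * u' ∈ L)
    (h3 : a (u' - ε⁻¹ * u) = m) (h4 : a (u - ε⁻¹ * u') = m')
    (h5 : u ∈ L → (0 < a u ↔ 0 < a u')) :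
    ∃ (i : ℤ) (ζ v : ℂ), Mu ζ ∧ EK σ v ∧ (u ∉ L → i = 0) ∧
      Real.log (‖v‖ ^ 2) = 2 * π * (GG σ ε L a γ (σ u) m + GG σ ε L a γ (σ u') m') ∧
      FF σ ε L a γ (σ u) m * FF σ ε L a γ (σ u') m' =
        v * ζ * σ ε ^ i * uu ρ σ (ε ^ 2) L (-u) := by
  have h0 : ε ≠ 0 := fun e => by
    have := h.eps.one_lt
    rw [e, map_zero] at this
    linarith
  have k1 := (h.lat.stab _).2 h1
  have k2 := (h.lat.stab _).2 h2
  rw [mul_sub, mul_inv_cancel_left₀ h0] at k1 k2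
  obtain ⟨a1, a2⟩ := shift hL hA h u (-u) m (-a u') (by simp) (by rw [← h3, map_sub]; ring)
  obtain ⟨b1, b2⟩ := shift hL hA h u' (ε * -u) m' (-a u)
    (by convert neg_mem k2 using 1; ring) (by rw [← h4, map_sub]; ring)
  obtain ⟨i, ζ, c1, c2, c3, c4, c5⟩ := hH.two ε L (-u) a γ (-a u) (-a u') h.eps h.lat
    (by convert neg_mem (add_mem k1 ((h.lat.stab _).2 k2)) using 1; ring) h.fn
    ((h.bas γ).2 ⟨0, 0, 1, by simp⟩) h.ori fun hu => by simpa using h5 (neg_mem_iff.1 hu)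
  rw [← a1, ← b1] at c3 c4
  have c6 := (div_ne_zero_iff.1 (ek_ne c4)).1
  refine ⟨i, ζ, _, c1, ek_inv c4, fun hu => c2 (mt neg_mem_iff.1 hu), ?_, ?_⟩
  · rw [HPAux.log_inv, div_eq_mul_inv, HPAux.log_mul c6 (inv_ne_zero c3), HPAux.log_inv, c5,
      HPAux.log_mul (left_ne_zero_of_mul c3) (right_ne_zero_of_mul c3),
      a2 (left_ne_zero_of_mul c3), b2 (right_ne_zero_of_mul c3)]
    ring
  · rw [mul_assoc, mul_assoc, ← mul_assoc ζ, inv_div, div_mul_cancel₀ _ c6]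

theorem hpSt (hL : LpSt σ) (hA : AdmSt σ) (hH : HatSt ρ σ) (hF : AffSt ρ σ) : HPSt ρ σ := by
  intro ε L a α β γ s h y p n₀ hP
  obtain ⟨c₁, c₂, -, -, hc⟩ := h.ori.im
  obtain ⟨e₀, e₁, d₂, d₃, hG⟩ := hF ε L a α β γ s h c₁ c₂ hc
  obtain ⟨V, hV⟩ : ∃ V : Fin 4 → ℝ, ∀ j, (σ (y j) / σ γ).im = V j := ⟨_, fun _ => rfl⟩
  have hb : V 3 = V 0 + V 1 - V 2 := by
    have := congrArg (fun x => (σ x / σ γ).im) hP.bal
    simp only [map_add, add_div, Complex.add_im, hV] at this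
    linarith
  refine ⟨π * e₀ * (c₁ + c₂) * (V 0 ^ 2 + V 1 ^ 2 - V 2 ^ 2 - V 3 ^ 2),
    2 * π * ((e₁ + e₀ * c₂ * n₀) * (V 0 ^ 2 + V 1 ^ 2 - V 2 ^ 2 - V 3 ^ 2) +
      e₀ * (V 0 ^ 3 + V 1 ^ 3 - V 2 ^ 3 - V 3 ^ 3) / 3), fun z z' n n' h1 h2 h3 h4 h5 => ?_⟩
  have e : ∀ x x' t t' : K, x' + t' - ε⁻¹ * (x + t) = x' - ε⁻¹ * x + (t' - ε⁻¹ * t) :=
    fun _ _ _ _ => by ring
  choose i ζ v k1 k2 k3 k4 k5 using fun j => one hL hA hH h (u := z + y j) (u' := z' + y (p j))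
    (m := n + n₀) (m' := n' + n₀) (e .. ▸ add_mem h1 (hP.mem j))
    (e .. ▸ add_mem h2 (by simpa only [hP.inv] using hP.mem (p j)))
    (by rw [e, map_add, h3, hP.val, Int.cast_add])
    (by rw [e, map_add, h4, Int.cast_add, ← hP.val (p j), hP.inv]) (h5 j)
  have h0 : σ ε ≠ 0 := fun e => by simpa [e] using h.eps.norm
  obtain ⟨p1, p2⟩ := perm hP.inv hP.blk
  refine ⟨i 0 + i 1 - (i 2 + i 3), ζ 0 * ζ 1 * (ζ 2 * ζ 3)⁻¹, v 0 * v 1 * (v 2 * v 3)⁻¹,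
    mu_mul (mu_mul (k1 0) (k1 1)) (mu_inv (mu_mul (k1 2) (k1 3))),
    ek_mul (ek_mul (k2 0) (k2 1)) (ek_inv (ek_mul (k2 2) (k2 3))), ?_, ?_, fun hz => by
      rw [k3 0 (hz 0), k3 1 (hz 1), k3 2 (hz 2), k3 3 (hz 3)]; rfl⟩
  · have n0 := fun j => ek_ne (k2 j)
    have z1 : (n : ℝ) = a z' - tw a ε⁻¹ z := by
      rw [map_sub] at h3
      exact_mod_cast h3.symm
    have z2 : (n' : ℝ) = a z - tw a ε⁻¹ z' := by
      rw [map_sub] at h4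
      exact_mod_cast h4.symm
    rw [HPAux.log_mul (mul_ne_zero (n0 0) (n0 1)) (inv_ne_zero (mul_ne_zero (n0 2) (n0 3))),
      HPAux.log_inv, HPAux.log_mul (n0 0) (n0 1), HPAux.log_mul (n0 2) (n0 3), k4, k4, k4, k4]
    simp only [hG, map_add σ, add_div, Complex.add_im, hV, hc z, hc z', Int.cast_add, z1, z2]
    rcases p1 with ⟨q0, q1⟩ | ⟨q0, q1⟩ <;> rcases p2 with ⟨q2, q3⟩ | ⟨q2, q3⟩ <;>
      rw [q0, q1, q2, q3, hb] <;> ring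
  · have z1 : ∀ f g : Fin 4 → ℂ, f 0 * f 1 / (f 2 * f 3) * (g 0 * g 1 / (g 2 * g 3)) =
        f 0 * g (p 0) * (f 1 * g (p 1)) / (f 2 * g (p 2) * (f 3 * g (p 3))) := fun f g => by
      rcases p1 with ⟨q0, q1⟩ | ⟨q0, q1⟩ <;> rcases p2 with ⟨q2, q3⟩ | ⟨q2, q3⟩ <;>
        rw [q0, q1, q2, q3] <;> ring
    simp only [map_add σ, neg_add] at k5
    rw [HH, HH, z1 (fun j => FF σ ε L a γ (σ z + σ (y j)) (n + n₀))
      fun j => FF σ ε L a γ (σ z' + σ (y j)) (n' + n₀), k5, k5, k5, k5, mono, zpow_sub₀ h0,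
      zpow_add₀ h0, zpow_add₀ h0]
    ring

end Pool.Agent.CU.O
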