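import Mathlib

/-! Residues of meromorphic functions through local primitives. -/

namespace Pool.Agent.CU

open Complex Filter Topology Metric
open scoped Real

/-- `c` is the residue of `f` at `z`. -/
def HasRes (f : ℂ → ℂ) (z c : ℂ) : Prop :=
  ∃ G : ℂ → ℂ, ∀ᶠ w in 𝓝[≠] z, HasDerivAt G (f w - c / (w - z)) w

/-- The residue of `f` at `z`. -/
noncomputable def res (f : ℂ → ℂ) (z : ℂ) : ℂ := Classical.epsilon (HasRes f z)

/-- `f` has a removable singularity at `z`. -/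
def Rem (f : ℂ → ℂ) (z : ℂ) : Prop := ∃ g : ℂ → ℂ, AnalyticAt ℂ g z ∧ f =ᶠ[𝓝[≠] z] g

theorem HasRes.congr {f g : ℂ → ℂ} {z c : ℂ} (h : HasRes f z c) (hfg : f =ᶠ[𝓝[≠] z] g) :
    HasRes g z c := by
  obtain ⟨G, hG⟩ := h
  refine ⟨G, ?_⟩
  filter_upwards [hG, hfg] with w h1 h2
  rwa [← h2]

theorem HasRes.add {f g : ℂ → ℂ} {z c d : ℂ} (h : HasRes f z c) (h' : HasRes g z d) :
    HasRes (fun w => f w + g w) z (c + d) := by
  obtain ⟨G, hG⟩ := h
  obtain ⟨G', hG'⟩ := h'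
  refine ⟨fun w => G w + G' w, ?_⟩
  filter_upwards [hG, hG'] with w h1 h2
  exact (h1.fun_add h2).congr_deriv (by ring)

theorem HasRes.const_mul {f : ℂ → ℂ} {z c : ℂ} (a : ℂ) (h : HasRes f z c) :
    HasRes (fun w => a * f w) z (a * c) := by
  obtain ⟨G, hG⟩ := h
  refine ⟨fun w => a * G w, ?_⟩
  filter_upwards [hG] with w h1
  exact (h1.const_mul a).congr_deriv (by ring)

theorem HasRes.sub {f g : ℂ → ℂ} {z c d : ℂ} (h : HasRes f z c) (h' : HasRes g z d) :
    HasRes (fun w => f w - g w) z (c - d) := by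
  have := h.add (h'.const_mul (-1))
  simpa [sub_eq_add_neg] using this

theorem hasRes_zero_fun (z : ℂ) : HasRes (fun _ => 0) z 0 :=
  ⟨fun _ => 0, Eventually.of_forall fun w => by simpa using hasDerivAt_const w (0 : ℂ)⟩

theorem HasRes.sum {ι : Type} (s : Finset ι) {f : ι → ℂ → ℂ} {z : ℂ} {c : ι → ℂ}
    (h : ∀ i ∈ s, HasRes (f i) z (c i)) : HasRes (fun w => ∑ i ∈ s, f i w) z (∑ i ∈ s, c i) := by
  classical
  induction s using Finset.induction_on with
  | empty => simpa using hasRes_zero_fun z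
  | insert a s ha ih =>
    simp only [Finset.sum_insert ha]
    exact (h a (Finset.mem_insert_self _ _)).add
      (ih fun i hi => h i (Finset.mem_insert_of_mem hi))

theorem eq_zero_of_hasRes_zero {z c : ℂ} (h : HasRes (fun _ => 0) z c) : c = 0 := by
  obtain ⟨G, hG⟩ := h
  rw [eventually_nhdsWithin_iff, Metric.eventually_nhds_iff] at hG
  obtain ⟨r, hr, hG⟩ := hG
  have h0 : (∮ w in C(z, r / 2), (0 - c / (w - z))) = 0 := by
    refine circleIntegral.integral_eq_zero_of_hasDerivWithinAt (f := G) (by positivity) ?_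
    intro w hw
    rw [mem_sphere] at hw
    refine (hG (by rw [hw]; linarith) ?_).hasDerivWithinAt
    intro h
    rw [Set.mem_singleton_iff] at h
    rw [h, dist_self] at hw
    linarith
  have h1 : (fun w : ℂ => 0 - c / (w - z)) = fun w => (-c) * (w - z)⁻¹ := by
    funext w; ring
  rw [h1, circleIntegral.integral_const_mul,
    circleIntegral.integral_sub_center_inv z (by positivity)] at h0
  have h2 : (2 * π * I : ℂ) ≠ 0 := by simp [Real.pi_ne_zero]
  simpa [h2] using h0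

theorem HasRes.unique {f : ℂ → ℂ} {z c d : ℂ} (h : HasRes f z c) (h' : HasRes f z d) : c = d := by
  have := h.sub h'
  simp only [sub_self] at this
  exact sub_eq_zero.mp (eq_zero_of_hasRes_zero this)

theorem HasRes.res_eq {f : ℂ → ℂ} {z c : ℂ} (h : HasRes f z c) : res f z = c :=
  (Classical.epsilon_spec (p := HasRes f z) ⟨c, h⟩).unique h

theorem hasRes_of_analyticAt {f : ℂ → ℂ} {z : ℂ} (h : AnalyticAt ℂ f z) : HasRes f z 0 := by
  obtain ⟨r, hr, hf⟩ := Metric.eventually_nhds_iff_ball.mp h.eventually_analyticAt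
  have hd : DifferentiableOn ℂ f (ball z r) := fun w hw =>
    (hf w hw).differentiableAt.differentiableWithinAt
  obtain ⟨G, hG⟩ := hd.isExactOn_ball
  refine ⟨G, ?_⟩
  filter_upwards [mem_nhdsWithin_of_mem_nhds (ball_mem_nhds z hr)] with w hw
  simpa using hG w hw

theorem Rem.hasRes {f : ℂ → ℂ} {z : ℂ} (h : Rem f z) : HasRes f z 0 := by
  obtain ⟨g, hg, hfg⟩ := h
  exact (hasRes_of_analyticAt hg).congr hfg.symm

theorem analyticAt_dslope' {g : ℂ → ℂ} {z : ℂ} (hg : AnalyticAt ℂ g z) :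
    AnalyticAt ℂ (dslope g z) z := by
  obtain ⟨p, hp⟩ := hg
  exact ⟨_, hp.has_fpower_series_dslope_fslope⟩

theorem eq_add_dslope (g : ℂ → ℂ) (z w : ℂ) : g w = g z + (w - z) * dslope g z w := by
  have := sub_smul_dslope g z w
  rw [smul_eq_mul] at this
  rw [this]; ring

theorem hasRes_simple {f g : ℂ → ℂ} {z : ℂ} (hg : AnalyticAt ℂ g z)
    (h : ∀ᶠ w in 𝓝[≠] z, f w = g w / (w - z)) : HasRes f z (g z) := by
  obtain ⟨G, hG⟩ := hasRes_of_analyticAt (analyticAt_dslope' hg)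
  refine ⟨G, ?_⟩
  filter_upwards [hG, h, self_mem_nhdsWithin] with w h1 h2 h3
  have h4 : w - z ≠ 0 := sub_ne_zero.mpr h3
  refine h1.congr_deriv ?_
  rw [h2, eq_add_dslope g z w]
  field_simp
  ring

theorem hasRes_inv_pow (z : ℂ) (n : ℕ) :
    HasRes (fun w => ((w - z) ^ (n + 2))⁻¹) z 0 := by
  refine ⟨fun w => (-((n : ℂ) + 1)⁻¹) * ((w - z) ^ (n + 1))⁻¹, ?_⟩
  filter_upwards [self_mem_nhdsWithin] with w h3
  have h4 : w - z ≠ 0 := sub_ne_zero.mpr h3
  have h5 : ((n : ℂ) + 1) ≠ 0 := by exact_mod_cast Nat.succ_ne_zero n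
  have h1 : HasDerivAt (fun w : ℂ => (w - z) ^ (n + 1)) (((n + 1 : ℕ) : ℂ) * (w - z) ^ n * 1) w := by
    simpa using ((hasDerivAt_id w).sub_const z).fun_pow (n + 1)
  refine ((h1.fun_inv (pow_ne_zero _ h4)).const_mul (-((n : ℂ) + 1)⁻¹)).congr_deriv ?_
  push_cast
  field_simp
  ring

theorem exists_hasRes_div_pow (z : ℂ) (n : ℕ) : ∀ g : ℂ → ℂ, AnalyticAt ℂ g z →
    ∃ c, HasRes (fun w => g w / (w - z) ^ n) z c := by
  induction n with
  | zero => exact fun g hg => ⟨0, by simpa using hasRes_of_analyticAt hg⟩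
  | succ n ih =>
    intro g hg
    obtain ⟨c, hc⟩ := ih _ (analyticAt_dslope' hg)
    have h1 : ∃ d, HasRes (fun w => ((w - z) ^ (n + 1))⁻¹) z d := by
      cases n with
      | zero =>
        exact ⟨1, hasRes_simple (g := fun _ => 1) analyticAt_const
          (Eventually.of_forall fun w => by simp)⟩
      | succ n => exact ⟨0, hasRes_inv_pow z n⟩
    obtain ⟨d, hd⟩ := h1
    refine ⟨_, ((hd.const_mul (g z)).add hc).congr ?_⟩
    filter_upwards [self_mem_nhdsWithin] with w h3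
    have h4 : w - z ≠ 0 := sub_ne_zero.mpr h3
    rw [eq_add_dslope g z w]
    field_simp
    ring

theorem exists_div_pow {f : ℂ → ℂ} {z : ℂ} (hf : MeromorphicAt f z) :
    ∃ (n : ℕ) (g : ℂ → ℂ), AnalyticAt ℂ g z ∧ ∀ᶠ w in 𝓝[≠] z, f w = g w / (w - z) ^ n := by
  obtain ⟨n, hn⟩ := hf
  refine ⟨n, _, hn, ?_⟩
  filter_upwards [self_mem_nhdsWithin] with w h3
  have h4 : w - z ≠ 0 := sub_ne_zero.mpr h3
  rw [smul_eq_mul]
  field_simp

theorem hasRes_res {f : ℂ → ℂ} {z : ℂ} (hf : MeromorphicAt f z) : HasRes f z (res f z) := by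
  obtain ⟨n, g, hg, h⟩ := exists_div_pow hf
  obtain ⟨c, hc⟩ := exists_hasRes_div_pow z n g hg
  have h1 : HasRes f z c := hc.congr (EventuallyEq.symm h)
  rwa [h1.res_eq]

theorem res_congr {f g : ℂ → ℂ} {z : ℂ} (h : f =ᶠ[𝓝[≠] z] g) : res f z = res g z := by
  unfold res
  congr 1
  funext c
  exact propext ⟨fun h1 => h1.congr h, fun h1 => h1.congr h.symm⟩

theorem tendsto_add_punct (z u : ℂ) : Tendsto (fun w => w + u) (𝓝[≠] z) (𝓝[≠] (z + u)) := by
  refine tendsto_nhdsWithin_iff.mpr ⟨?_, ?_⟩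
  · exact ((continuous_add_const u).tendsto z).mono_left nhdsWithin_le_nhds
  · filter_upwards [self_mem_nhdsWithin] with w hw
    simpa using hw

theorem HasRes.shift {f : ℂ → ℂ} {z u c : ℂ} (h : HasRes f (z + u) c) :
    HasRes (fun w => f (w + u)) z c := by
  obtain ⟨G, hG⟩ := h
  refine ⟨fun w => G (w + u), ?_⟩
  filter_upwards [(tendsto_add_punct z u).eventually hG] with w h1
  refine (h1.comp_add_const w u).congr_deriv ?_
  congr 2
  ring

theorem res_shift (f : ℂ → ℂ) (z u : ℂ) : res (fun w => f (w + u)) z = res f (z + u) := by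
  unfold res
  congr 1
  funext c
  refine propext ⟨fun h1 => ?_, fun h1 => h1.shift⟩
  have h2 : HasRes (fun w => f (w + u)) (z + u + -u) c := by simpa using h1
  simpa using h2.shift

theorem Rem.res_eq {f : ℂ → ℂ} {z : ℂ} (h : Rem f z) : res f z = 0 := h.hasRes.res_eq

theorem res_of_analyticAt {f : ℂ → ℂ} {z : ℂ} (h : AnalyticAt ℂ f z) : res f z = 0 :=
  (hasRes_of_analyticAt h).res_eq

theorem res_simple {f g : ℂ → ℂ} {z : ℂ} (hg : AnalyticAt ℂ g z)
    (h : ∀ᶠ w in 𝓝[≠] z, f w = g w / (w - z)) : res f z = g z := (hasRes_simple hg h).res_eq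

/-- The residue of `g / d` at a simple zero of `d`. -/
theorem res_div {f g d : ℂ → ℂ} {z : ℂ} (hg : AnalyticAt ℂ g z) (hd : AnalyticAt ℂ d z)
    (h0 : d z = 0) (h1 : deriv d z ≠ 0) (h : ∀ᶠ w in 𝓝[≠] z, f w = g w / d w) :
    res f z = g z / deriv d z := by
  have h2 : dslope d z z = deriv d z := dslope_same d z
  have h3 : AnalyticAt ℂ (fun w => g w / dslope d z w) z :=
    hg.fun_div (analyticAt_dslope' hd) (by rwa [h2])
  rw [← h2]
  refine res_simple h3 ?_
  filter_upwards [h] with w hw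
  rw [hw, eq_add_dslope d z w, h0, zero_add, div_div, mul_comm]

theorem rem_of_order {f : ℂ → ℂ} {z : ℂ} (hf : MeromorphicAt f z)
    (h : 0 ≤ meromorphicOrderAt f z) : Rem f z := by
  obtain ⟨g, hg, hfg⟩ := (hf.meromorphicOrderAt_nonneg_iff).mp h
  exact ⟨g, hg, hfg⟩

end Pool.Agent.CU
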