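import Pool.Agent.Lib.MP_ca56d1_nt.CU.O.Res

/-! The residue theorem for periodic meromorphic functions on a horizontal strip. -/

namespace Pool.Agent.CU

open Complex Filter Topology Metric
open scoped Real

/-- The integral over one period at height `h`. -/
noncomputable def li (f : ℂ → ℂ) (h : ℝ) : ℂ := ∫ t in (0 : ℝ)..1, f (t + h * I)

/-- The regularisation of `f`. -/
noncomputable def reg (f : ℂ → ℂ) (w : ℂ) : ℂ := limUnder (𝓝[≠] w) f

theorem reg_eq_of_eventually {f g : ℂ → ℂ} {z : ℂ} (hg : ContinuousAt g z)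
    (h : f =ᶠ[𝓝[≠] z] g) : reg f z = g z :=
  ((hg.tendsto.mono_left nhdsWithin_le_nhds).congr' h.symm).limUnder_eq

theorem reg_eq_self {f : ℂ → ℂ} {z : ℂ} (hf : ContinuousAt f z) : reg f z = f z :=
  reg_eq_of_eventually hf EventuallyEq.rfl

theorem reg_congr {f g : ℂ → ℂ} {z : ℂ} (h : f =ᶠ[𝓝[≠] z] g) : reg f z = reg g z := by
  unfold reg limUnder
  rw [Filter.map_congr h]

theorem map_add_punct (z u : ℂ) : map (fun w => w + u) (𝓝[≠] z) = 𝓝[≠] (z + u) := by
  refine le_antisymm (tendsto_add_punct z u) ?_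
  have h := tendsto_add_punct (z + u) (-u)
  rw [add_neg_cancel_right] at h
  have h2 := Filter.map_mono (m := fun w => w + u) h
  rw [Filter.map_map] at h2
  simpa only [Function.comp_def, neg_add_cancel_right, Filter.map_id'] using h2

theorem reg_shift (f : ℂ → ℂ) (z u : ℂ) : reg (fun w => f (w + u)) z = reg f (z + u) := by
  unfold reg limUnder
  rw [← map_add_punct, Filter.map_map]
  rfl

theorem Rem.analyticAt_reg {f : ℂ → ℂ} {z : ℂ} (h : Rem f z) : AnalyticAt ℂ (reg f) z := by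
  obtain ⟨g, hg, hfg⟩ := h
  refine hg.congr ?_
  have h1 : ∀ᶠ w in 𝓝 z, ∀ᶠ v in 𝓝 w, v ≠ z → f v = g v :=
    (eventually_nhdsWithin_iff.mp hfg).eventually_nhds
  filter_upwards [h1, hg.eventually_analyticAt] with w hw hw'
  refine (reg_eq_of_eventually hw'.continuousAt ?_).symm
  by_cases hz : w = z
  · rw [hz]; exact hfg
  · filter_upwards [mem_nhdsWithin_of_mem_nhds hw,
      mem_nhdsWithin_of_mem_nhds (eventually_ne_nhds hz)] with v h1 h2 using h1 h2

theorem reg_eventuallyEq {f : ℂ → ℂ} {z : ℂ} (hf : MeromorphicAt f z) : reg f =ᶠ[𝓝[≠] z] f := by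
  filter_upwards [hf.eventually_analyticAt] with w hw using reg_eq_self hw.continuousAt

theorem continuous_line {f : ℂ → ℂ} {h : ℝ} (hf : ∀ t : ℝ, AnalyticAt ℂ f (t + h * I)) :
    Continuous fun t : ℝ => f (t + h * I) := by
  refine continuous_iff_continuousAt.mpr fun t => ?_
  exact ContinuousAt.comp (f := fun t : ℝ => (t : ℂ) + h * I) (hf t).continuousAt (by fun_prop)

theorem li_of_hasDerivAt {G g : ℂ → ℂ} {h : ℝ} (hp : ∀ w, G (w + 1) = G w)
    (hd : ∀ t : ℝ, HasDerivAt G (g (t + h * I)) (t + h * I))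
    (hg : ∀ t : ℝ, AnalyticAt ℂ g (t + h * I)) : li g h = 0 := by
  have h1 : ∀ t ∈ Set.uIcc (0 : ℝ) 1,
      HasDerivAt (fun t : ℝ => G (t + h * I)) (g (t + h * I)) t := fun t _ =>
    ((hd t).comp_add_const (t : ℂ) (h * I)).comp_ofReal
  rw [li, intervalIntegral.integral_eq_sub_of_hasDerivAt h1
    ((continuous_line hg).intervalIntegrable _ _)]
  have := hp (h * I)
  simp only [ofReal_one, ofReal_zero, zero_add]
  rw [add_comm, this, sub_self]

/-- A periodic function with its only poles at `p + ℤ` that satisfies the residue theorem. -/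
structure PPart (p : ℂ) (Q : ℂ → ℂ) (c : ℂ) : Prop where
  an : ∀ w, (∀ k : ℤ, w ≠ p + k) → AnalyticAt ℂ Q w
  per : ∀ w, Q (w + 1) = Q w
  res : HasRes Q p c
  li : ∀ h₀ h₁ : ℝ, h₀ < p.im → p.im < h₁ → li Q h₀ - li Q h₁ = 2 * π * I * c

theorem ne_of_im {p : ℂ} {h : ℝ} (hp : h ≠ p.im) (t : ℝ) (k : ℤ) : (t : ℂ) + h * I ≠ p + k := by
  intro h1
  have := congrArg Complex.im h1
  simp at this
  exact hp this

theorem li_add {f g : ℂ → ℂ} {h : ℝ} (hf : ∀ t : ℝ, AnalyticAt ℂ f (t + h * I))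
    (hg : ∀ t : ℝ, AnalyticAt ℂ g (t + h * I)) : li (fun w => f w + g w) h = li f h + li g h :=
  intervalIntegral.integral_add ((continuous_line hf).intervalIntegrable _ _)
    ((continuous_line hg).intervalIntegrable _ _)

theorem li_sub {f g : ℂ → ℂ} {h : ℝ} (hf : ∀ t : ℝ, AnalyticAt ℂ f (t + h * I))
    (hg : ∀ t : ℝ, AnalyticAt ℂ g (t + h * I)) : li (fun w => f w - g w) h = li f h - li g h :=
  intervalIntegral.integral_sub ((continuous_line hf).intervalIntegrable _ _)
    ((continuous_line hg).intervalIntegrable _ _)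

theorem li_const_mul (a : ℂ) (f : ℂ → ℂ) (h : ℝ) : li (fun w => a * f w) h = a * li f h :=
  intervalIntegral.integral_const_mul _ _

theorem li_sum {ι : Type} (s : Finset ι) {f : ι → ℂ → ℂ} {h : ℝ}
    (hf : ∀ i ∈ s, ∀ t : ℝ, AnalyticAt ℂ (f i) (t + h * I)) :
    li (fun w => ∑ i ∈ s, f i w) h = ∑ i ∈ s, li (f i) h :=
  intervalIntegral.integral_finsetSum fun i hi =>
    (continuous_line (hf i hi)).intervalIntegrable _ _

theorem PPart.add {p : ℂ} {Q Q' : ℂ → ℂ} {c c' : ℂ} (h : PPart p Q c) (h' : PPart p Q' c') :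
    PPart p (fun w => Q w + Q' w) (c + c') where
  an w hw := (h.an w hw).fun_add (h'.an w hw)
  per w := by rw [h.per, h'.per]
  res := h.res.add h'.res
  li h₀ h₁ a b := by
    rw [li_add (fun t => h.an _ (ne_of_im a.ne t)) (fun t => h'.an _ (ne_of_im a.ne t)),
      li_add (fun t => h.an _ (ne_of_im b.ne' t)) (fun t => h'.an _ (ne_of_im b.ne' t))]
    linear_combination h.li h₀ h₁ a b + h'.li h₀ h₁ a b

theorem PPart.const_mul {p : ℂ} {Q : ℂ → ℂ} {c : ℂ} (a : ℂ) (h : PPart p Q c) :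
    PPart p (fun w => a * Q w) (a * c) where
  an w hw := analyticAt_const.fun_mul (h.an w hw)
  per w := by rw [h.per]
  res := h.res.const_mul a
  li h₀ h₁ x y := by
    rw [li_const_mul, li_const_mul]
    linear_combination a * h.li h₀ h₁ x y

theorem pPart_zero (p : ℂ) : PPart p (fun _ => 0) 0 where
  an _ _ := analyticAt_const
  per _ := rfl
  res := hasRes_zero_fun p
  li _ _ _ _ := by simp [CU.li]

/-- The local coordinate `e(w - p) - 1`. -/
noncomputable def eq1 (p w : ℂ) : ℂ := cexp (2 * π * I * (w - p)) - 1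

theorem eq1_an (p w : ℂ) : AnalyticAt ℂ (eq1 p) w := by
  unfold eq1; fun_prop

theorem eq1_hasDerivAt (p w : ℂ) : HasDerivAt (eq1 p) (2 * π * I * (eq1 p w + 1)) w := by
  have h := ((((hasDerivAt_id w).sub_const p).const_mul (2 * π * I)).cexp).sub_const 1
  refine h.congr_deriv ?_
  simp only [eq1, id]
  ring

theorem eq1_per (p w : ℂ) : eq1 p (w + 1) = eq1 p w := by
  unfold eq1
  rw [show 2 * π * I * (w + 1 - p) = 2 * π * I * (w - p) + 2 * π * I by ring, Complex.exp_add,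
    Complex.exp_two_pi_mul_I, mul_one]

theorem two_pi_I_ne : (2 * π * I : ℂ) ≠ 0 := by simp [Real.pi_ne_zero]

theorem eq1_ne {p w : ℂ} (hw : ∀ k : ℤ, w ≠ p + k) : eq1 p w ≠ 0 := by
  intro h
  obtain ⟨k, hk⟩ := Complex.exp_eq_one_iff.mp (sub_eq_zero.mp h)
  refine hw k ?_
  have : 2 * π * I * (w - p) = 2 * π * I * k := by rw [hk]; ring
  have := mul_left_cancel₀ two_pi_I_ne this
  linear_combination this

theorem eventually_ne_int (p : ℂ) : ∀ᶠ w in 𝓝[≠] p, ∀ k : ℤ, w ≠ p + k := by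
  filter_upwards [self_mem_nhdsWithin, mem_nhdsWithin_of_mem_nhds (ball_mem_nhds p one_pos)]
    with w h1 h2 k hk
  rw [mem_ball, dist_eq_norm, hk, add_sub_cancel_left, norm_intCast] at h2
  have h3 : |k| < 1 := by exact_mod_cast h2
  have h4 : k = 0 := by rw [abs_lt] at h3; omega
  exact h1 (by simp [hk, h4])

theorem norm_eq1 (p w : ℂ) : ‖cexp (2 * π * I * (w - p))‖ = Real.exp (-(2 * π) * (w.im - p.im)) := by
  rw [Complex.norm_exp]
  congr 1
  simp

theorem pPart_one (p : ℂ) : PPart p (fun w => (eq1 p w)⁻¹) (2 * π * I)⁻¹ where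
  an w hw := (eq1_an p w).fun_inv (eq1_ne hw)
  per w := by rw [eq1_per]
  res := by
    have h0 : eq1 p p = 0 := by simp [eq1]
    have h1 : deriv (eq1 p) p = 2 * π * I := by rw [(eq1_hasDerivAt p p).deriv, h0]; ring
    have h2 := res_div (f := fun w => (eq1 p w)⁻¹) (g := fun _ => 1) analyticAt_const (eq1_an p p) h0
      (by rw [h1]; exact two_pi_I_ne) (Eventually.of_forall fun w => by simp)
    have h3 := hasRes_res (eq1_an p p).meromorphicAt.fun_inv
    rwa [h2, h1, one_div] at h3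
  li h₀ h₁ a b := by
    have hA : li (fun w => (eq1 p w)⁻¹) h₀ = 0 := by
      refine li_of_hasDerivAt
        (G := fun w => (2 * π * I)⁻¹ * Complex.log (1 - (eq1 p w + 1)⁻¹)) (fun w => by rw [eq1_per])
        (fun t => ?_) (fun t => (eq1_an p _).fun_inv (eq1_ne (ne_of_im a.ne t)))
      have hn := eq1_ne (ne_of_im a.ne t)
      have he : eq1 p (t + h₀ * I) + 1 ≠ 0 := by simp [eq1]
      have hs : 1 - (eq1 p (t + h₀ * I) + 1)⁻¹ ∈ slitPlane := by
        rw [sub_eq_add_neg]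
        refine mem_slitPlane_of_norm_lt_one ?_
        rw [norm_neg, norm_inv, eq1, sub_add_cancel, norm_eq1, ← Real.exp_neg, Real.exp_lt_one_iff]
        have : ((t : ℂ) + h₀ * I).im = h₀ := by simp
        rw [this]
        nlinarith [Real.pi_pos]
      have hd := ((((eq1_hasDerivAt p (t + h₀ * I)).add_const 1).fun_inv he).const_sub 1).clog hs
      refine (hd.const_mul _).congr_deriv ?_
      have := two_pi_I_ne
      generalize eq1 p (t + h₀ * I) = E at hn he
      have h5 : 1 - (E + 1)⁻¹ = E / (E + 1) := by field_simp; ring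
      rw [h5]
      field_simp
    have hB : li (fun w => (eq1 p w)⁻¹ + 1) h₁ = 0 := by
      refine li_of_hasDerivAt
        (G := fun w => (2 * π * I)⁻¹ * Complex.log (-eq1 p w)) (fun w => by rw [eq1_per])
        (fun t => ?_)
        (fun t => ((eq1_an p _).fun_inv (eq1_ne (ne_of_im b.ne' t))).fun_add analyticAt_const)
      have hn := eq1_ne (ne_of_im b.ne' t)
      have hs : -eq1 p (t + h₁ * I) ∈ slitPlane := by
        rw [eq1, neg_sub, sub_eq_add_neg]
        refine mem_slitPlane_of_norm_lt_one ?_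
        rw [norm_neg, norm_eq1, Real.exp_lt_one_iff]
        have : ((t : ℂ) + h₁ * I).im = h₁ := by simp
        rw [this]
        nlinarith [Real.pi_pos]
      have hd := ((eq1_hasDerivAt p (t + h₁ * I)).fun_neg).clog hs
      refine (hd.const_mul _).congr_deriv ?_
      have := two_pi_I_ne
      generalize eq1 p (t + h₁ * I) = E at hn
      field_simp
      ring
    rw [li_add (fun t => (eq1_an p _).fun_inv (eq1_ne (ne_of_im b.ne' t)))
      (fun t => analyticAt_const)] at hB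
    have hC : li (fun _ => (1 : ℂ)) h₁ = 1 := by simp [CU.li]
    rw [hA, mul_inv_cancel₀ two_pi_I_ne]
    linear_combination hC - hB

theorem pPart_deriv {p : ℂ} {G g : ℂ → ℂ} (hp : ∀ w, G (w + 1) = G w) (hp' : ∀ w, g (w + 1) = g w)
    (hd : ∀ w, (∀ k : ℤ, w ≠ p + k) → HasDerivAt G (g w) w)
    (hg : ∀ w, (∀ k : ℤ, w ≠ p + k) → AnalyticAt ℂ g w) : PPart p g 0 where
  an := hg
  per := hp'
  res := ⟨G, (eventually_ne_int p).mono fun w hw => by simpa using hd w hw⟩
  li h₀ h₁ a b := by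
    rw [li_of_hasDerivAt hp (fun t => hd _ (ne_of_im a.ne t)) (fun t => hg _ (ne_of_im a.ne t)),
      li_of_hasDerivAt hp (fun t => hd _ (ne_of_im b.ne' t)) (fun t => hg _ (ne_of_im b.ne' t))]
    simp

theorem pPart_pow (p : ℂ) (n : ℕ) : ∃ c, PPart p (fun w => (eq1 p w)⁻¹ ^ (n + 1)) c := by
  induction n with
  | zero => exact ⟨_, by simpa using pPart_one p⟩
  | succ n ih =>
    obtain ⟨c, hc⟩ := ih
    have h1 : PPart p (fun w => (eq1 p w)⁻¹ ^ (n + 1) + (eq1 p w)⁻¹ ^ (n + 2)) 0 := by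
      refine pPart_deriv (G := fun w => (-(2 * π * I * (n + 1))⁻¹) * (eq1 p w)⁻¹ ^ (n + 1))
        (fun w => by rw [eq1_per]) (fun w => by rw [eq1_per]) (fun w hw => ?_) (fun w hw => ?_)
      · have hn := eq1_ne hw
        have hd := ((eq1_hasDerivAt p w).fun_inv hn).fun_pow (n + 1)
        refine (hd.const_mul _).congr_deriv ?_
        have := two_pi_I_ne
        have h5 : ((n : ℂ) + 1) ≠ 0 := by exact_mod_cast Nat.succ_ne_zero n
        simp only [Nat.add_sub_cancel, pow_succ]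
        push_cast
        field_simp
      · have := (eq1_an p w).fun_inv (eq1_ne hw)
        exact (this.fun_pow _).fun_add (this.fun_pow _)
    have h2 := h1.add (hc.const_mul (-1))
    refine ⟨0 + -1 * c, ?_⟩
    convert h2 using 2
    ring

theorem exists_pPart_aux (p : ℂ) (n : ℕ) : ∀ g : ℂ → ℂ, AnalyticAt ℂ g p →
    ∃ Q c, PPart p Q c ∧ Rem (fun w => g w * (eq1 p w)⁻¹ ^ n - Q w) p := by
  induction n with
  | zero =>
    exact fun g hg => ⟨_, _, pPart_zero p, g, hg, Eventually.of_forall fun w => by simp⟩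
  | succ n ih =>
    intro g hg
    have h0 : eq1 p p = 0 := by simp [eq1]
    have h1 : dslope (eq1 p) p p ≠ 0 := by
      rw [dslope_same, (eq1_hasDerivAt p p).deriv, h0]
      simp
    obtain ⟨Q, c, hQ, g', hg', h⟩ := ih (fun w => dslope g p w / dslope (eq1 p) p w)
      ((analyticAt_dslope' hg).fun_div (analyticAt_dslope' (eq1_an p p)) h1)
    obtain ⟨d, hd⟩ := pPart_pow p n
    refine ⟨_, _, hQ.add (hd.const_mul (g p)), g', hg', ?_⟩
    filter_upwards [h, eventually_ne_int p] with w hw hw'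
    rw [← hw]
    have h2 := eq1_ne hw'
    have h3 := eq_add_dslope (eq1 p) p w
    rw [h0, zero_add] at h3
    have h4 : dslope (eq1 p) p w ≠ 0 := fun h => h2 (by rw [h3, h, mul_zero])
    have h5 : g w - g p = dslope g p w / dslope (eq1 p) p w * eq1 p w := by
      rw [eq_add_dslope g p w]
      conv_rhs => rw [h3]
      field_simp
      ring
    have h6 : (eq1 p w)⁻¹ ^ n = eq1 p w * (eq1 p w)⁻¹ ^ (n + 1) := by
      rw [pow_succ]; field_simp
    rw [h6]
    linear_combination (eq1 p w)⁻¹ ^ (n + 1) * h5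

theorem exists_pPart {f : ℂ → ℂ} {p : ℂ} (hf : MeromorphicAt f p) :
    ∃ Q, PPart p Q (res f p) ∧ Rem (fun w => f w - Q w) p := by
  obtain ⟨n, g, hg, h⟩ := exists_div_pow hf
  obtain ⟨Q, c, hQ, g', hg', h'⟩ := exists_pPart_aux p n (fun w => g w * dslope (eq1 p) p w ^ n)
    (hg.fun_mul ((analyticAt_dslope' (eq1_an p p)).fun_pow n))
  have hr : Rem (fun w => f w - Q w) p := by
    refine ⟨g', hg', ?_⟩
    filter_upwards [h, h', eventually_ne_int p, self_mem_nhdsWithin] with w h1 h2 h3 h4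
    rw [← h2, h1]
    have h5 := eq1_ne h3
    have h6 := eq_add_dslope (eq1 p) p w
    rw [show eq1 p p = 0 by simp [eq1], zero_add] at h6
    have h7 : dslope (eq1 p) p w ≠ 0 := fun h => h5 (by rw [h6, h, mul_zero])
    have h8 : w - p ≠ 0 := sub_ne_zero.mpr h4
    congr 1
    conv_rhs => rw [h6]
    rw [inv_pow, mul_pow]
    field_simp
  refine ⟨Q, ?_, hr⟩
  have h1 := (hr.hasRes.add hQ.res).congr (g := f) (Eventually.of_forall fun w => by simp)
  rwa [h1.res_eq, zero_add]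

theorem per_int {f : ℂ → ℂ} (hp : ∀ w, f (w + 1) = f w) (k : ℤ) (w : ℂ) : f (w + k) = f w := by
  have : Function.Periodic f 1 := hp
  simpa using this.int_mul k w

theorem Rem.shift {f : ℂ → ℂ} {z u : ℂ} (h : Rem f (z + u)) : Rem (fun w => f (w + u)) z := by
  obtain ⟨g, hg, hfg⟩ := h
  refine ⟨fun w => g (w + u), ?_, (tendsto_add_punct z u).eventually hfg⟩
  exact AnalyticAt.comp (f := fun w => w + u) hg (by fun_prop)

theorem li_eq_of_rem {f : ℂ → ℂ} (hp : ∀ w, f (w + 1) = f w) {h₀ h₁ : ℝ} (h : h₀ < h₁)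
    (a₀ : ∀ t : ℝ, AnalyticAt ℂ f (t + h₀ * I)) (a₁ : ∀ t : ℝ, AnalyticAt ℂ f (t + h₁ * I))
    (hr : ∀ w : ℂ, h₀ < w.im → w.im < h₁ → Rem f w) : li f h₀ = li f h₁ := by
  have hA : ∀ w : ℂ, h₀ ≤ w.im → w.im ≤ h₁ → AnalyticAt ℂ (reg f) w := by
    intro w a b
    refine Rem.analyticAt_reg ?_
    rcases a.eq_or_lt with a | a
    · refine ⟨f, ?_, EventuallyEq.rfl⟩
      have := a₀ w.re
      rwa [a, re_add_im] at this
    rcases b.eq_or_lt with b | b
    · refine ⟨f, ?_, EventuallyEq.rfl⟩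
      have := a₁ w.re
      rwa [← b, re_add_im] at this
    exact hr w a b
  have hP : ∀ w, reg f (w + 1) = reg f w := fun w => by
    rw [← reg_shift]
    simp only [hp]
  have hC := integral_boundary_rect_eq_zero_of_differentiableOn (reg f) (h₀ * I) (1 + h₁ * I) (by
    intro w hw
    have h1 := hw.2
    simp only [mul_im, ofReal_re, I_im, mul_one, ofReal_im, I_re, mul_zero, add_zero, add_im,
      one_im, zero_add, Set.uIcc_of_le h.le, Set.mem_preimage, Set.mem_Icc] at h1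
    exact (hA w h1.1 h1.2).differentiableAt.differentiableWithinAt)
  simp only [mul_im, ofReal_re, I_im, mul_one, ofReal_im, I_re, mul_zero, add_zero, add_im,
    one_im, zero_add, mul_re, add_re, one_re, ofReal_one, ofReal_zero, sub_self] at hC
  have h2 : (fun y : ℝ => reg f (1 + y * I)) = fun y : ℝ => reg f (y * I) := by
    funext y; rw [add_comm, hP]
  rw [h2, add_sub_cancel_right, sub_eq_zero] at hC
  simp only [reg_eq_self (a₀ _).continuousAt, reg_eq_self (a₁ _).continuousAt] at hC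
  exact hC

/-- The residue theorem on a strip. -/
theorem strip_res {f : ℂ → ℂ} (hf : Meromorphic f) (hp : ∀ w, f (w + 1) = f w) {h₀ h₁ : ℝ}
    (h : h₀ < h₁) (a₀ : ∀ t : ℝ, AnalyticAt ℂ f (t + h₀ * I))
    (a₁ : ∀ t : ℝ, AnalyticAt ℂ f (t + h₁ * I)) (P : Finset ℂ)
    (hP : ∀ p ∈ P, h₀ < p.im ∧ p.im < h₁) (hI : ∀ p ∈ P, ∀ q ∈ P, ∀ k : ℤ, p = q + k → p = q)
    (hA : ∀ w : ℂ, h₀ < w.im → w.im < h₁ → (∀ p ∈ P, ∀ k : ℤ, w ≠ p + k) → AnalyticAt ℂ f w) :
    li f h₀ - li f h₁ = 2 * π * I * ∑ p ∈ P, res f p := by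
  classical
  choose Q hQ hR using fun p => exists_pPart (hf p)
  have b₀ : ∀ p ∈ P, ∀ t : ℝ, AnalyticAt ℂ (Q p) (t + h₀ * I) := fun p hp t =>
    (hQ p).an _ (ne_of_im (hP p hp).1.ne t)
  have b₁ : ∀ p ∈ P, ∀ t : ℝ, AnalyticAt ℂ (Q p) (t + h₁ * I) := fun p hp t =>
    (hQ p).an _ (ne_of_im (hP p hp).2.ne' t)
  have hper : ∀ w, f (w + 1) - ∑ p ∈ P, Q p (w + 1) = f w - ∑ p ∈ P, Q p w := fun w => by
    simp only [hp, (hQ _).per]
  have hrem : ∀ p ∈ P, Rem (fun w => f w - ∑ q ∈ P, Q q w) p := by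
    intro p hpP
    obtain ⟨g, hg, hfg⟩ := hR p
    refine ⟨fun w => g w - ∑ q ∈ P.erase p, Q q w, hg.fun_sub (Finset.analyticAt_fun_sum _ ?_), ?_⟩
    · intro q hq
      rw [Finset.mem_erase] at hq
      exact (hQ q).an p fun k hk => hq.1 (hI p hpP q hq.2 k hk).symm
    · filter_upwards [hfg] with w hw
      rw [← hw, ← Finset.add_sum_erase P _ hpP]
      ring
  have key := li_eq_of_rem (f := fun w => f w - ∑ p ∈ P, Q p w) hper h
    (fun t => (a₀ t).fun_sub (Finset.analyticAt_fun_sum _ fun p hp => b₀ p hp t))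
    (fun t => (a₁ t).fun_sub (Finset.analyticAt_fun_sum _ fun p hp => b₁ p hp t)) (by
      intro w a b
      by_cases hw : ∀ p ∈ P, ∀ k : ℤ, w ≠ p + k
      · exact ⟨_, (hA w a b hw).fun_sub
          (Finset.analyticAt_fun_sum _ fun p hp => (hQ p).an w (hw p hp)), EventuallyEq.rfl⟩
      · push Not at hw
        obtain ⟨p, hpP, k, hk⟩ := hw
        have h1 : Rem (fun w => f w - ∑ q ∈ P, Q q w) (w + ((-k : ℤ) : ℂ)) := by
          have : w + ((-k : ℤ) : ℂ) = p := by rw [hk]; push_cast; ring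
          rw [this]; exact hrem p hpP
        have h2 := h1.shift
        simpa only [per_int (f := fun w => f w - ∑ q ∈ P, Q q w) hper] using h2)
  rw [li_sub a₀ (fun t => Finset.analyticAt_fun_sum _ fun p hp => b₀ p hp t),
    li_sub a₁ (fun t => Finset.analyticAt_fun_sum _ fun p hp => b₁ p hp t), li_sum P b₀,
    li_sum P b₁] at key
  rw [Finset.mul_sum, ← Finset.sum_congr rfl fun p hp => (hQ p).li h₀ h₁ (hP p hp).1 (hP p hp).2,
    Finset.sum_sub_distrib]
  linear_combination key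

end Pool.Agent.CU
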