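import Pool.Agent.Lib.MP_ca56d1_nt.CU.O.St

/-! Elementary facts on odd theta functions. -/

namespace Pool.Agent.CU.O

open Complex Filter Topology
open scoped Real Classical

theorem ee_ne (z : ℂ) : ee z ≠ 0 := Complex.exp_ne_zero _

theorem ee_add (z w : ℂ) : ee (z + w) = ee z * ee w := by
  unfold ee; rw [← Complex.exp_add]; congr 1; ring

theorem ee_zero : ee 0 = 1 := by simp [ee]

theorem ee_neg (z : ℂ) : ee (-z) = (ee z)⁻¹ := by
  unfold ee; rw [← Complex.exp_neg]; congr 1; ring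

theorem ee_sub (z w : ℂ) : ee (z - w) = ee z / ee w := by
  rw [sub_eq_add_neg, ee_add, ee_neg, div_eq_mul_inv]

theorem ee_eq_one {z : ℂ} : ee z = 1 ↔ ∃ k : ℤ, z = k := by
  unfold ee
  rw [Complex.exp_eq_one_iff]
  have h2 : (2 * π * I : ℂ) ≠ 0 := by simp [Real.pi_ne_zero]
  constructor
  · rintro ⟨k, hk⟩
    exact ⟨k, mul_left_cancel₀ h2 (by rw [hk]; ring)⟩
  · rintro ⟨k, rfl⟩
    exact ⟨k, by ring⟩

theorem differentiable_ee : Differentiable ℂ ee := by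
  unfold ee; fun_prop

theorem mem_lat2 {γ β z : ℂ} : z ∈ lat2 γ β ↔ ∃ j k : ℤ, z = j * γ + k * β := by
  unfold lat2
  rw [AddSubgroup.mem_closure_pair]
  constructor
  · rintro ⟨j, k, h⟩
    exact ⟨j, k, by simpa using h.symm⟩
  · rintro ⟨j, k, h⟩
    exact ⟨j, k, by simpa using h.symm⟩

theorem left_mem_lat2 (γ β : ℂ) : γ ∈ lat2 γ β := mem_lat2.2 ⟨1, 0, by simp⟩

theorem right_mem_lat2 (γ β : ℂ) : β ∈ lat2 γ β := mem_lat2.2 ⟨0, 1, by simp⟩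

theorem cl_eq {γ β w v : ℂ} : cl γ β w = cl γ β v ↔ w - v ∈ lat2 γ β :=
  QuotientAddGroup.eq_iff_sub_mem

theorem cl_add (γ β w v : ℂ) : cl γ β (w + v) = cl γ β w + cl γ β v := rfl

theorem cl_sub (γ β w v : ℂ) : cl γ β (w - v) = cl γ β w - cl γ β v := rfl

theorem cl_neg (γ β w : ℂ) : cl γ β (-w) = -cl γ β w := rfl

theorem cl_zsmul (γ β w : ℂ) (i : ℤ) : cl γ β (i * w) = i • cl γ β w := by
  rw [← zsmul_eq_mul]; rfl

theorem cl_eq_zero {γ β w : ℂ} : cl γ β w = 0 ↔ w ∈ lat2 γ β := QuotientAddGroup.eq_zero_iff w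

variable {γ β : ℂ} {ϑ : ℂ → ℂ}

theorem IsTh.γ_ne (h : IsTh γ β ϑ) : γ ≠ 0 := by
  rintro rfl
  exact h.im (by simp)

theorem IsTh.an (h : IsTh γ β ϑ) (w : ℂ) : AnalyticAt ℂ ϑ w := h.diff.analyticAt w

theorem IsTh.zero_iff (h : IsTh γ β ϑ) {w : ℂ} : ϑ w = 0 ↔ w ∈ lat2 γ β := by
  have h1 := h.ord w
  have h2 := (h.an w).analyticOrderAt_eq_zero
  by_cases hw : w ∈ lat2 γ β
  · rw [if_pos hw] at h1
    refine ⟨fun _ => hw, fun _ => ?_⟩
    by_contra h3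
    rw [h2.2 h3] at h1
    exact zero_ne_one h1
  · rw [if_neg hw] at h1
    exact ⟨fun h3 => absurd h3 (h2.1 h1), fun h3 => absurd h3 hw⟩

theorem IsTh.ne (h : IsTh γ β ϑ) {w : ℂ} (hw : w ∉ lat2 γ β) : ϑ w ≠ 0 :=
  fun h0 => hw (h.zero_iff.1 h0)

theorem IsTh.zero (h : IsTh γ β ϑ) : ϑ 0 = 0 := h.zero_iff.2 (zero_mem _)

theorem IsTh.an_aff (h : IsTh γ β ϑ) (w c z₀ : ℂ) : AnalyticAt ℂ (fun z => ϑ (w + c * z)) z₀ :=
  (h.diff.comp (by fun_prop : Differentiable ℂ fun z : ℂ => w + c * z)).analyticAt z₀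

theorem IsTh.aord (h : IsTh γ β ϑ) (w : ℂ) {c : ℂ} (hc : c ≠ 0) :
    analyticOrderAt (fun z => ϑ (w + c * z)) 0 = if w ∈ lat2 γ β then 1 else 0 := by
  have hg : AnalyticAt ℂ (fun z : ℂ => w + c * z) 0 := by fun_prop
  have hd : deriv (fun z : ℂ => w + c * z) 0 ≠ 0 := by
    have : HasDerivAt (fun z : ℂ => w + c * z) c 0 := by
      simpa using ((hasDerivAt_id (0 : ℂ)).const_mul c).const_add w
    rwa [this.deriv]
  have := analyticOrderAt_comp_of_deriv_ne_zero (f := ϑ) hg hd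
  rw [← h.ord w]
  simpa [Function.comp_def] using this

theorem IsTh.mord (h : IsTh γ β ϑ) (w : ℂ) {c : ℂ} (hc : c ≠ 0) :
    meromorphicOrderAt (fun z => ϑ (w + c * z)) 0 =
      (((if w ∈ lat2 γ β then 1 else 0 : ℤ)) : WithTop ℤ) := by
  rw [(h.an_aff w c 0).meromorphicOrderAt_eq, h.aord w hc]
  split_ifs <;> simp

theorem IsTh.ev_not_mem (h : IsTh γ β ϑ) (w : ℂ) {c : ℂ} (hc : c ≠ 0) :
    ∀ᶠ z in 𝓝[≠] (0 : ℂ), w + c * z ∉ lat2 γ β := by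
  rcases (h.an_aff w c 0).eventually_eq_zero_or_eventually_ne_zero with h1 | h1
  · have h2 := analyticOrderAt_eq_top.2 h1
    rw [h.aord w hc] at h2
    split_ifs at h2 <;> simp at h2
  · filter_upwards [h1] with z hz hm
    exact hz (h.zero_iff.2 hm)

theorem IsTh.deriv_ne (h : IsTh γ β ϑ) : deriv ϑ 0 ≠ 0 := by
  have h1 := h.ord 0
  rw [if_pos (zero_mem _)] at h1
  obtain ⟨g, hg, hg0, hfg⟩ := ((h.an 0).analyticOrderAt_eq_natCast (n := 1)).1 (by simpa using h1)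
  have h2 : HasDerivAt (fun z : ℂ => (z - 0) ^ 1 • g z) (g 0) 0 := by
    have := (hasDerivAt_id (0 : ℂ)).fun_mul hg.differentiableAt.hasDerivAt
    simpa using this
  rw [Filter.EventuallyEq.deriv_eq hfg, h2.deriv]
  exact hg0

theorem IsTh.tend (h : IsTh γ β ϑ) (c : ℂ) :
    Tendsto (fun z => ϑ (c * z) / z) (𝓝[≠] (0 : ℂ)) (𝓝 (c * deriv ϑ 0)) := by
  have h1 : HasDerivAt (fun z => ϑ (c * z)) (deriv ϑ 0 * c) 0 := by
    have h2 : HasDerivAt (fun z : ℂ => c * z) c 0 := by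
      simpa using (hasDerivAt_id (0 : ℂ)).const_mul c
    have h3 : HasDerivAt ϑ (deriv ϑ 0) (c * 0) := by
      simpa using (h.diff 0).hasDerivAt
    exact h3.comp 0 h2
  have h4 := hasDerivAt_iff_tendsto_slope_zero.1 h1
  rw [mul_comm c]
  refine h4.congr fun z => ?_
  simp [h.zero, div_eq_inv_mul]

theorem IsTh.lin_zero (h : IsTh γ β ϑ) {l : ℂ} (h1 : ee (l * γ) = 1) (h2 : ee (l * β) = 1) :
    l = 0 := by
  obtain ⟨j, hj⟩ := ee_eq_one.1 h1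
  obtain ⟨k, hk⟩ := ee_eq_one.1 h2
  by_contra hl
  have hγ := h.γ_ne
  have hj0 : (j : ℂ) ≠ 0 := hj ▸ mul_ne_zero hl hγ
  have : β / γ = ((k / j : ℝ) : ℂ) := by
    push_cast
    rw [← hj, ← hk]
    field_simp
  exact h.im (by rw [this, Complex.ofReal_im])

/-- A function of nonnegative order has no residue. -/
theorem tendsto_mul_zero_of_order {f : ℂ → ℂ} (hf : MeromorphicAt f 0)
    (h : 0 ≤ meromorphicOrderAt f 0) : Tendsto (fun z => z * f z) (𝓝[≠] (0 : ℂ)) (𝓝 0) := by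
  obtain ⟨c, hc⟩ := (tendsto_nhds_iff_meromorphicOrderAt_nonneg hf).2 h
  have h1 : Tendsto (fun z : ℂ => z) (𝓝[≠] (0 : ℂ)) (𝓝 0) :=
    tendsto_id.mono_left nhdsWithin_le_nhds
  simpa using h1.mul hc

theorem IsTh.r0_per (h : IsTh γ β ϑ) {y : Fin 4 → ℂ} (hy : y 0 + y 1 = y 2 + y 3) {m : ℂ}
    (hm : m ∈ lat2 γ β) (w : ℂ) : r0 ϑ y (w + m) = r0 ϑ y w := by
  obtain ⟨l, c, hq⟩ := h.qp m hm
  have e : ∀ j, ϑ (w + m + y j) = ee (l * (w + y j) + c) * ϑ (w + y j) := fun j => by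
    rw [← hq]; congr 1; ring
  have e2 : ee (l * (w + y 0) + c) * ee (l * (w + y 1) + c) =
      ee (l * (w + y 2) + c) * ee (l * (w + y 3) + c) := by
    rw [← ee_add, ← ee_add]; congr 1; linear_combination l * hy
  unfold r0
  rw [e 0, e 1, e 2, e 3, mul_mul_mul_comm, mul_mul_mul_comm (ee (l * (w + y 2) + c)), e2,
    mul_div_mul_left _ _ (mul_ne_zero (ee_ne _) (ee_ne _))]

end Pool.Agent.CU.O
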